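import Pool.Agent.TH540.Avg
import Pool.Agent.H916Y.Leg

/-!
# The functions attached to a set of primes congruent to one modulo four
-/

set_option linter.unusedSectionVars false

namespace Pool.Agent.TH540

open Finset Pool.Agent.H916R2 Pool.Agent.H916T Pool.Agent.H916U Pool.Agent.H916Z Pool.Agent.H916Q

/-- exponent of two in the order of `p` modulo `q` -/
noncomputable def vv (p q : ℕ) : ℕ := (orderOf ((p : ℕ) : ZMod q)).factorization 2

/-- the hypotheses -/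
structure Hyp (p m : ℕ) : Prop where
  sqp : ∀ q : ℕ, q.Prime → q ≠ 2 → q ∣ m → IsSquare ((p : ℕ) : ZMod q)
  sq : ∀ q r : ℕ, q.Prime → r.Prime → q ≠ 2 → r ≠ 2 → q ∣ m → r ∣ m → q ≠ r →
    IsSquare ((r : ℕ) : ZMod q)
  odd : ∀ q r : ℕ, q.Prime → r.Prime → q ≠ 2 → r ≠ 2 → q ∣ m → r ∣ m → q ≠ r →
    vv p q < vv p r → Odd (orderOf ((r : ℕ) : ZMod q))
  two : 2 ∣ m → ∀ q : ℕ, q.Prime → q ≠ 2 → q ∣ m → Odd (orderOf ((2 : ℕ) : ZMod q))

lemma isSquare_of_odd {M : Type*} [Monoid M] {u : M} (h : Odd (orderOf u)) : IsSquare u := by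
  obtain ⟨k, hk⟩ := h
  refine ⟨u ^ (k + 1), ?_⟩
  rw [← pow_add]
  have h1 : k + 1 + (k + 1) = orderOf u + 1 := by omega
  rw [h1, pow_succ, pow_orderOf_eq_one, one_mul]

section

variable {m : ℕ}

lemma pf_prime (i : PF m) : (i : ℕ).Prime := Fact.out

lemma pf_dvd (i : PF m) : (i : ℕ) ∣ m := Nat.dvd_of_mem_primeFactors i.2

lemma pf_not_dvd {i j : PF m} (hij : i ≠ j) : ¬ (i : ℕ) ∣ (j : ℕ) := fun h =>
  hij (Subtype.ext ((Nat.prime_dvd_prime_iff_eq (pf_prime i) (pf_prime j)).mp h))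

lemma order_vec {x : ℕ} {i : PF m} (h : ¬ (i : ℕ) ∣ x) :
    orderOf (vec m x i) = orderOf ((x : ℕ) : ZMod (i : ℕ)) := by
  rw [← orderOf_units, vec_val h]

lemma order_tt {i j : PF m} (hij : i ≠ j) :
    orderOf (tt m j i) = orderOf ((j : ℕ) : ZMod (i : ℕ)) := by
  unfold tt
  rw [Pi.inv_apply, orderOf_inv, order_vec (pf_not_dvd hij)]

lemma leg_one_of_sq {i : PF m} {x : ℕ} (h : ¬ (i : ℕ) ∣ x)
    (hs : IsSquare ((x : ℕ) : ZMod (i : ℕ))) : leg (vec m x i) = 1 := by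
  apply leg_sq
  rw [vec_val h]
  exact hs

lemma leg_tt_one {i j : PF m} (hij : i ≠ j) (hs : IsSquare ((j : ℕ) : ZMod (i : ℕ))) :
    leg (tt m j i) = 1 := by
  unfold tt
  rw [Pi.inv_apply, leg_inv, leg_one_of_sq (pf_not_dvd hij) hs]

/-- the indicator of the non-squares -/
noncomputable def nsq {ℓ : ℕ} [Fact ℓ.Prime] (u : (ZMod ℓ)ˣ) : ℤ := if leg u = 1 then 0 else 1

lemma nsq_mul {ℓ : ℕ} [Fact ℓ.Prime] {t : (ZMod ℓ)ˣ} (ht : leg t = 1) (u : (ZMod ℓ)ˣ) :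
    nsq (t * u) = nsq u := by
  unfold nsq
  rw [leg_mul, ht, one_mul]

lemma nsq_sub {ℓ : ℕ} [Fact ℓ.Prime] {g : (ZMod ℓ)ˣ} (hg : leg g = -1) (u : (ZMod ℓ)ˣ) :
    ¬ 2 ∣ nsq u - nsq (g * u) := by
  unfold nsq
  rw [leg_mul, hg]
  rcases leg_or u with h | h <;> rw [h] <;> norm_num

lemma leg_pow_one {ℓ : ℕ} [Fact ℓ.Prime] {u : (ZMod ℓ)ˣ} (h : leg u = 1) (n : ℕ) :
    leg (u ^ n) = 1 := by
  induction n with
  | zero => exact leg_sq (by simp)
  | succ n ih => rw [pow_succ, leg_mul, ih, h, one_mul]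

/-- the coordinates to which the functions are extended -/
noncomputable def JJ (p m : ℕ) (B : Finset (PF m)) : Finset (PF m) := by
  classical exact univ.filter (fun j => j ∉ B ∧ (j : ℕ) ≠ 2 ∧ ∃ i ∈ B, vv p j ≤ vv p i)

lemma mem_JJ {p : ℕ} {B : Finset (PF m)} {j : PF m} :
    j ∈ JJ p m B ↔ j ∉ B ∧ (j : ℕ) ≠ 2 ∧ ∃ i ∈ B, vv p j ≤ vv p i := by
  classical
  unfold JJ
  rw [mem_filter]
  exact ⟨fun h => h.2, fun h => ⟨mem_univ _, h⟩⟩

/-- the kernel condition -/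
lemma kernel {p : ℕ} {B : Finset (PF m)} (hpi : ∀ i : PF m, ¬ (i : ℕ) ∣ p)
    (hdead : ∀ k : ℕ, ∃ i ∈ B, ((p : ℕ) : ZMod (i : ℕ)) ^ k ≠ -1) {O e : ℕ} (hO : Odd O)
    (hf : vec m p ^ (2 ^ e * O) = 1) (a b : ℤ)
    (hab : ∀ i ∈ B, sg m i ^ a * (vec m p ^ O) i ^ b = 1) :
    Even a ∧ ∀ j ∈ JJ p m B, sg m j ^ a * (vec m p ^ O) j ^ b = 1 := by
  have hfi : ∀ i : PF m, vec m p i ^ (2 ^ e * O) = 1 := by
    intro i
    have := congrFun hf i
    rwa [Pi.pow_apply, Pi.one_apply] at this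
  have hpos : 0 < 2 ^ e * O := Nat.mul_pos (pow_pos two_pos e) hO.pos
  have ha : Even a := by
    by_contra hodd
    rw [Int.not_even_iff_odd] at hodd
    -- a natural exponent
    set z : ℤ := (O : ℤ) * b with hz
    set k : ℕ := (z % ((2 ^ e * O : ℕ) : ℤ)).toNat with hk
    have hkz : (k : ℤ) = z % ((2 ^ e * O : ℕ) : ℤ) :=
      Int.toNat_of_nonneg (Int.emod_nonneg _ (by exact_mod_cast hpos.ne'))
    obtain ⟨i, hi, hne⟩ := hdead k
    apply hne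
    have h1 := hab i hi
    have h2 : sg m i ^ a = -1 := by
      simp only [sg]
      exact hodd.neg_one_zpow
    have h3 : (vec m p ^ O) i ^ b = vec m p i ^ k := by
      rw [Pi.pow_apply, ← zpow_natCast (vec m p i) O, ← zpow_mul, ← hz,
        ← zpow_natCast (vec m p i) k, hkz]
      conv_lhs => rw [← Int.emod_add_mul_ediv z ((2 ^ e * O : ℕ) : ℤ)]
      rw [zpow_add, zpow_mul, zpow_natCast, hfi, one_zpow, mul_one]
    rw [h2, h3, neg_one_mul] at h1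
    have h4 : vec m p i ^ k = -1 := by rw [← h1, neg_neg] 
    have h5 := congrArg (fun u : (ZMod (i : ℕ))ˣ => (u : ZMod (i : ℕ))) h4
    simp only [Units.val_pow_eq_pow_val, Units.val_neg, Units.val_one] at h5
    rw [vec_val (hpi i)] at h5
    exact h5
  refine ⟨ha, ?_⟩
  have hsg : ∀ i : PF m, sg m i ^ a = 1 := by
    intro i
    simp only [sg]
    exact ha.neg_one_zpow
  intro j hj
  obtain ⟨_, _, i, hi, hle⟩ := mem_JJ.mp hj
  rw [hsg, one_mul]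
  have h1 := hab i hi
  rw [hsg, one_mul, Pi.pow_apply, ← zpow_natCast (vec m p i) O, ← zpow_mul] at h1
  have h2 : ((orderOf (vec m p i) : ℕ) : ℤ) ∣ (O : ℤ) * b := orderOf_dvd_iff_zpow_eq_one.mpr h1
  rw [Pi.pow_apply, ← zpow_natCast (vec m p j) O, ← zpow_mul, ← orderOf_dvd_iff_zpow_eq_one]
  -- the two-parts
  have e1 : orderOf (vec m p i) = orderOf ((p : ℕ) : ZMod (i : ℕ)) := order_vec (hpi i)
  have e2 : orderOf (vec m p j) = orderOf ((p : ℕ) : ZMod (j : ℕ)) := order_vec (hpi j)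
  have h3 : ((2 ^ vv p i : ℕ) : ℤ) ∣ b := by
    have h4 : ((2 ^ vv p i : ℕ) : ℤ) ∣ (O : ℤ) * b := by
      refine dvd_trans ?_ h2
      rw [e1]
      exact_mod_cast Nat.ordProj_dvd _ _
    have h5 : IsCoprime ((2 ^ vv p i : ℕ) : ℤ) (O : ℤ) := by
      rw [Nat.isCoprime_iff_coprime]
      exact Nat.Coprime.pow_left _ (Nat.coprime_two_left.mpr hO)
    exact h5.dvd_of_dvd_mul_left h4
  have h6 : ((2 ^ vv p j : ℕ) : ℤ) ∣ b := by
    refine dvd_trans ?_ h3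
    exact_mod_cast pow_dvd_pow 2 hle
  have h7 : ordCompl[2] (orderOf (vec m p j)) ∣ O := by
    have h8 : orderOf (vec m p j) ∣ 2 ^ e * O := orderOf_dvd_of_pow_eq_one (hfi j)
    have h9 : ordCompl[2] (orderOf (vec m p j)) ∣ 2 ^ e * O :=
      (Nat.ordCompl_dvd _ _).trans h8
    refine Nat.Coprime.dvd_of_dvd_mul_left ?_ h9
    apply Nat.Coprime.pow_right
    exact (Nat.coprime_ordCompl Nat.prime_two (orderOf_pos _).ne').symm
  have h10 : orderOf (vec m p j) = 2 ^ vv p j * ordCompl[2] (orderOf (vec m p j)) := by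
    have h11 := Nat.ordProj_mul_ordCompl_eq_self (orderOf (vec m p j)) 2
    rw [← h11, e2]
    congr 1
    rw [← e2, h11]
  rw [h10]
  push_cast
  rw [mul_comm (O : ℤ) b]
  have h12 : ((ordCompl[2] (orderOf (vec m p j)) : ℕ) : ℤ) ∣ (O : ℤ) := by exact_mod_cast h7
  have h13 := mul_dvd_mul h6 h12
  push_cast at h13 ⊢
  exact h13

end

end Pool.Agent.TH540
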