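import Pool.Agent.TH540.Fam

/-!
# Averaging over the elements of odd order
-/

set_option linter.unusedSectionVars false

namespace Pool.Agent.TH540

open Finset Pool.Agent.H916Q

section

variable {ι : Type} [DecidableEq ι] [Fintype ι] {G : ι → Type} [∀ i, CommGroup (G i)]
  [∀ i, Fintype (G i)] [∀ i, DecidableEq (G i)]

/-- the elements of odd order -/
def AO (G : ι → Type) [∀ i, CommGroup (G i)] : Subgroup (∀ i, G i) where
  carrier := {a | Odd (orderOf a)}
  one_mem' := by simp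
  mul_mem' := by
    intro a b ha hb
    have h1 : orderOf (a * b) ∣ orderOf a * orderOf b :=
      (Commute.all a b).orderOf_mul_dvd_mul_orderOf
    exact Odd.of_dvd_nat (Odd.mul ha hb) h1
  inv_mem' := by
    intro a ha
    show Odd (orderOf a⁻¹)
    rw [orderOf_inv]
    exact ha

lemma mem_AO {a : ∀ i, G i} : a ∈ AO G ↔ Odd (orderOf a) := Iff.rfl

/-- the finite set of the elements of odd order -/
noncomputable def AF (G : ι → Type) [∀ i, CommGroup (G i)] [∀ i, Fintype (G i)]
    [∀ i, DecidableEq (G i)] : Finset (∀ i, G i) := univ.filter (fun a => Odd (orderOf a))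

lemma mem_AF {a : ∀ i, G i} : a ∈ AF G ↔ Odd (orderOf a) := by
  unfold AF
  rw [mem_filter]
  exact ⟨fun h => h.2, fun h => ⟨mem_univ _, h⟩⟩

lemma odd_card_AF : Odd (AF G).card := by
  classical
  have h1 : (AF G).card = Nat.card (AO G) :=
    (Nat.subtype_card (AF G) (fun x => mem_AF.trans mem_AO.symm)).symm
  rw [h1, ← Nat.not_even_iff_odd, even_iff_two_dvd]
  intro h
  have : Fact (Nat.Prime 2) := ⟨Nat.prime_two⟩
  obtain ⟨x, hx⟩ := exists_prime_orderOf_dvd_card' 2 h
  have h2 : Odd (orderOf (x : ∀ i, G i)) := x.2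
  rw [Subgroup.orderOf_coe, hx] at h2
  exact absurd h2 (by decide)

/-- sum over the translates by elements of odd order -/
noncomputable def avg (f : (∀ i, G i) → ℤ) (x : ∀ i, G i) : ℤ := ∑ a ∈ AF G, f (a * x)

lemma avg_inv (f : (∀ i, G i) → ℤ) {a : ∀ i, G i} (ha : Odd (orderOf a)) (x : ∀ i, G i) :
    avg f (a * x) = avg f x := by
  unfold avg
  refine Finset.sum_nbij' (fun b => b * a) (fun b => b * a⁻¹) ?_ ?_ ?_ ?_ ?_
  · intro b hb
    rw [mem_AF] at hb ⊢
    exact (AO G).mul_mem (mem_AO.mpr hb) (mem_AO.mpr ha)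
  · intro b hb
    rw [mem_AF] at hb ⊢
    exact (AO G).mul_mem (mem_AO.mpr hb) ((AO G).inv_mem (mem_AO.mpr ha))
  · intro b _
    rw [mul_assoc, mul_inv_cancel, mul_one]
  · intro b _
    rw [mul_assoc, inv_mul_cancel, mul_one]
  · intro b _
    rw [mul_assoc]

lemma NN_avg (j : ι) (f : (∀ i, G i) → ℤ) : NN j (avg f) = avg (NN j f) := by
  funext x
  unfold NN avg
  rw [sum_comm]
  refine sum_congr rfl fun a _ => sum_congr rfl fun y _ => ?_
  rw [mul_left_comm]

lemma DD_avg (t : ∀ i, G i) (f : (∀ i, G i) → ℤ) : DD t (avg f) = avg (DD t f) := by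
  funext x
  unfold DD avg
  rw [← sum_sub_distrib]
  refine sum_congr rfl fun a _ => ?_
  rw [mul_left_comm]

lemma Ind_avg {k : ι} {f : (∀ i, G i) → ℤ} (h : Ind k f) : Ind k (avg f) := by
  intro y x
  unfold avg
  refine sum_congr rfl fun a _ => ?_
  rw [mul_left_comm, h]

lemma avg_zero : avg (G := G) (fun _ => 0) = fun _ => 0 := by
  funext x; unfold avg; simp

lemma avg_trans (f : (∀ i, G i) → ℤ) (z x : ∀ i, G i) :
    avg f (z * x) = avg (fun y => f (z * y)) x := by
  unfold avg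
  refine sum_congr rfl fun a _ => ?_
  rw [mul_left_comm]

lemma avg_even {f : (∀ i, G i) → ℤ} (h : ∀ x, 2 ∣ f x) (x : ∀ i, G i) : 2 ∣ avg f x :=
  Finset.dvd_sum fun _ _ => h _

lemma avg_odd {f : (∀ i, G i) → ℤ} (h : ∀ x, ¬ 2 ∣ f x) (x : ∀ i, G i) : ¬ 2 ∣ avg f x := by
  intro h0
  have h1 : (2 : ℤ) ∣ ∑ a ∈ AF G, (f (a * x) - 1) := by
    apply Finset.dvd_sum
    intro a _
    have := h (a * x)
    omega
  rw [sum_sub_distrib, sum_const, nsmul_eq_mul, mul_one] at h1
  obtain ⟨r, hr⟩ := odd_card_AF (G := G)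
  have h2 : (2 : ℤ) ∣ ∑ a ∈ AF G, f (a * x) := h0
  omega

variable {B J : Finset ι} {σ π : ∀ i, G i}

lemma zpow_inv' {f : (∀ i, G i) → ℤ} (h : ∀ x, f (π * x) = f x) (w : ℤ) (x : ∀ i, G i) :
    f (π ^ w * x) = f x := by
  have h1 : ∀ n : ℕ, ∀ x, f (π ^ n * x) = f x := by
    intro n
    induction n with
    | zero => intro x; simp
    | succ n ih => intro x; rw [pow_succ', mul_assoc, h, ih]
  rcases w with n | n
  · rw [Int.ofNat_eq_natCast, zpow_natCast]; exact h1 n x
  · rw [zpow_negSucc]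
    have h2 := h1 (n + 1) ((π ^ (n + 1))⁻¹ * x)
    rw [← mul_assoc, mul_inv_cancel, one_mul] at h2
    exact h2.symm

theorem exists_dist_eq (hB : B.Nonempty) (hJB : ∀ j ∈ J, j ∉ B) {t : ι → ∀ i, G i}
    {ν : ∀ i, G i → ℤ} {κ : Finset ι → (∀ i, G i) → ℤ} (hκ : Core B J B σ π t ν κ)
    {P : ∀ i, G i} (hP : ∃ a : ∀ i, G i, Odd (orderOf a) ∧ ∃ w : ℤ, P = a * π ^ w)
    (ht : ∀ j, j ∉ B → j ∉ J → ∀ i ∈ B ∪ J, Odd (orderOf (t j i))) :
    ∃ φ : Finset ι → (∀ i, G i) → ℤ, Dist σ t φ ∧ (∀ x, ¬ 2 ∣ φ B x) ∧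
      (∀ V, V ≠ B → ∀ x, 2 ∣ φ V x) ∧ (∀ V, ¬ V ⊆ B ∪ J → φ V = fun _ => 0) ∧
      ∀ V x, φ V (P * x) = φ V x := by
  classical
  have hsub : ∀ V : Finset ι, V ⊆ B ∪ J → V \ B ⊆ J := by
    intro V hV k hk
    rw [mem_sdiff] at hk
    exact (mem_union.mp (hV hk.1)).resolve_left hk.2
  have hindκ : ∀ V : Finset ι, B ⊆ V → V ⊆ B ∪ J → ∀ k, k ∉ V → Ind k (avg (κ (V \ B))) := by
    intro V hBV hV k hk
    exact Ind_avg ((hκ.fam _ (hsub V hV)).ind k (fun h => hk (mem_sdiff.mp h).1)
      (fun h => hk (hBV h)))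
  set φ : Finset ι → (∀ i, G i) → ℤ := fun V =>
    if B ⊆ V ∧ V ⊆ B ∪ J then avg (κ (V \ B)) else fun _ => 0 with hφ
  have hφ1 : ∀ V, B ⊆ V → V ⊆ B ∪ J → φ V = avg (κ (V \ B)) := by
    intro V h1 h2
    simp only [hφ]
    rw [if_pos ⟨h1, h2⟩]
  have hφ0 : ∀ V, ¬ (B ⊆ V ∧ V ⊆ B ∪ J) → φ V = fun _ => 0 := by
    intro V h
    simp only [hφ]
    rw [if_neg h]
  have NN_zero : ∀ j : ι, NN j (fun _ : (∀ i, G i) => (0 : ℤ)) = fun _ => 0 := by
    intro j; funext x; unfold NN; simp
  refine ⟨φ, ⟨?_, ?_, ?_, ?_⟩, ?_, ?_, ?_, ?_⟩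
  · -- independence
    intro V k hk
    by_cases h : B ⊆ V ∧ V ⊆ B ∪ J
    · rw [hφ1 V h.1 h.2]; exact hindκ V h.1 h.2 k hk
    · rw [hφ0 V h]; exact fun _ _ => rfl
  · -- odd
    intro V x
    by_cases h : B ⊆ V ∧ V ⊆ B ∪ J
    · rw [hφ1 V h.1 h.2, avg_trans]
      unfold avg
      rw [← sum_neg_distrib]
      exact sum_congr rfl fun a _ => (hκ.fam _ (hsub V h.2)).odd _
    · rw [hφ0 V h]; simp
  · -- relations
    intro V j hj
    by_cases hBV : B ⊆ V
    · by_cases hjB : j ∈ B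
      · have h1 : ¬ (B ⊆ V.erase j ∧ V.erase j ⊆ B ∪ J) := fun h => notMem_erase j V (h.1 hjB)
        rw [hφ0 _ h1, DD_zero]
        by_cases hV : V ⊆ B ∪ J
        · rw [hφ1 V hBV hV, NN_avg, hκ.zero _ (hsub V hV) j hjB, avg_zero]
        · rw [hφ0 V (fun h => hV h.2), NN_zero]
      · have hBe : B ⊆ V.erase j := fun y hy => mem_erase.mpr ⟨fun h => hjB (h ▸ hy), hBV hy⟩
        by_cases hV : V ⊆ B ∪ J
        · have hVe : V.erase j ⊆ B ∪ J := (erase_subset _ _).trans hV
          have hjJ : j ∈ J := (mem_union.mp (hV hj)).resolve_left hjB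
          rw [hφ1 V hBV hV, hφ1 _ hBe hVe, NN_avg, DD_avg,
            (hκ.fam _ (hsub V hV)).rel j (mem_sdiff.mpr ⟨hj, hjB⟩)]
          have h2 : (V \ B).erase j = V.erase j \ B := by
            ext k
            simp only [mem_erase, mem_sdiff]
            tauto
          rw [h2]
        · rw [hφ0 V (fun h => hV h.2), NN_zero]
          by_cases hVe : V.erase j ⊆ B ∪ J
          · have hjJ : j ∉ J := by
              intro h
              apply hV
              intro y hy
              by_cases hyj : y = j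
              · rw [hyj]; exact mem_union_right _ h
              · exact hVe (mem_erase.mpr ⟨hyj, hy⟩)
            rw [hφ1 _ hBe hVe]
            funext x
            unfold DD
            symm
            rw [sub_eq_zero]
            -- an element of odd order with the same coordinates
            set a : ∀ i, G i := fun i => if i ∈ B ∪ J then t j i else 1 with ha
            have hao : Odd (orderOf a) := by
              have h3 : a ^ (∏ i ∈ B ∪ J, orderOf (t j i)) = 1 := by
                funext i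
                rw [Pi.pow_apply, Pi.one_apply]
                simp only [ha]
                by_cases hi : i ∈ B ∪ J
                · rw [if_pos hi]
                  exact orderOf_dvd_iff_pow_eq_one.mp (dvd_prod_of_mem _ hi)
                · rw [if_neg hi, one_pow]
              refine Odd.of_dvd_nat ?_ (orderOf_dvd_of_pow_eq_one h3)
              exact Finset.prod_induction _ Odd (fun _ _ h h' => Odd.mul h h') odd_one
                (fun i hi => ht j hjB hjJ i hi)
            have h4 : avg (κ (V.erase j \ B)) (t j * x) = avg (κ (V.erase j \ B)) (a * x) := by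
              refine eq_of_ind (V.erase j)ᶜ (fun k hk => hindκ _ hBe hVe k (mem_compl.mp hk)) _ _ ?_
              intro i hi
              have hi' : i ∈ V.erase j := by simpa using hi
              rw [Pi.mul_apply, Pi.mul_apply]
              simp only [ha]
              rw [if_pos (hVe hi')]
            rw [h4, avg_inv _ hao]
          · rw [hφ0 _ (fun h => hVe h.2), DD_zero]
    · have h1 : ¬ (B ⊆ V ∧ V ⊆ B ∪ J) := fun h => hBV h.1
      have h2 : ¬ (B ⊆ V.erase j ∧ V.erase j ⊆ B ∪ J) :=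
        fun h => hBV (h.1.trans (erase_subset _ _))
      rw [hφ0 V h1, hφ0 _ h2, NN_zero, DD_zero]
  · -- the empty set
    intro x
    have h1 : ¬ (B ⊆ ∅ ∧ (∅ : Finset ι) ⊆ B ∪ J) := by
      rintro ⟨h, _⟩
      obtain ⟨y, hy⟩ := hB
      exact absurd (h hy) (by simp)
    rw [hφ0 _ h1]
  · -- odd values
    intro x
    rw [hφ1 B (Subset.refl _) subset_union_left]
    refine avg_odd ?_ x
    intro y h
    have h1 := hκ.par y
    have h2 : B \ B = ∅ := Finset.sdiff_self B
    rw [h2, prod_empty] at h1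
    rw [h2] at h
    omega
  · -- even values
    intro V hV x
    by_cases h : B ⊆ V ∧ V ⊆ B ∪ J
    · rw [hφ1 V h.1 h.2]
      refine avg_even ?_ x
      intro y
      refine (hκ.fam _ (hsub V h.2)).even ?_ y
      intro h0
      apply hV
      exact Subset.antisymm (sdiff_eq_empty_iff_subset.mp h0) h.1
    · rw [hφ0 V h]; exact dvd_zero 2
  · intro V hV
    exact hφ0 V (fun h => hV h.2)
  · -- invariance
    intro V x
    by_cases h : B ⊆ V ∧ V ⊆ B ∪ J
    · rw [hφ1 V h.1 h.2]
      obtain ⟨a, ha, w, hw⟩ := hP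
      rw [hw, mul_assoc, avg_inv _ ha, avg_trans]
      unfold avg
      refine sum_congr rfl fun b _ => ?_
      exact zpow_inv' (hκ.fam _ (hsub V h.2)).inv w _
    · rw [hφ0 V h]

end

end Pool.Agent.TH540
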