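import Pool.Agent.TH540.HK

/-!
# Products of abelian varieties with multiplication by cyclotomic fields
-/

set_option linter.unusedSectionVars false

namespace Pool.Agent.TH540

open Finset Pool.Agent.H916R2 Pool.Agent.H916T

variable {m : ℕ}

lemma isHodge_types [NeZero m] {F : Multiset ((ZMod m)ˣ → ℕ)}
    {c : ((ZMod m)ˣ → ℕ) → Multiset (ZMod m)}
    (hc : ∀ Φ ∈ F, Multiset.card (c Φ) = 3 ∧ (0 : ZMod m) ∉ c Φ ∧ (c Φ).sum = 0 ∧
      ∀ t, Ht m (c Φ) t = m * (Φ t + 1))
    (hF : ∀ t, 2 * (F.map fun Φ => Φ t).sum = Multiset.card F) :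
    IsHodge m (F.map c).join := by
  have hE3 : ∀ e ∈ F.map c, Multiset.card e = 3 := by
    intro e he
    obtain ⟨Φ, hΦ, rfl⟩ := Multiset.mem_map.mp he
    exact (hc Φ hΦ).1
  have hE0 : ∀ e ∈ F.map c, (0 : ZMod m) ∉ e := by
    intro e he
    obtain ⟨Φ, hΦ, rfl⟩ := Multiset.mem_map.mp he
    exact (hc Φ hΦ).2.1
  have hEs : ∀ e ∈ F.map c, e.sum = 0 := by
    intro e he
    obtain ⟨Φ, hΦ, rfl⟩ := Multiset.mem_map.mp he
    exact (hc Φ hΦ).2.2.1
  refine ⟨join_zero hE0, ?_, join_sum hEs, fun t => ?_⟩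
  · rw [join_card hE3, Multiset.card_map, Nat.even_iff]
    have := hF 1
    omega
  · change 2 * Ht m (F.map c).join t = _
    have key : ∀ F' : Multiset ((ZMod m)ˣ → ℕ), (∀ Φ ∈ F', Φ ∈ F) →
        Ht m (F'.map c).join t = m * (F'.map fun Φ => Φ t).sum + m * Multiset.card F' := by
      intro F'
      induction F' using Multiset.induction_on with
      | empty => intro _; simp [Ht]
      | cons Φ F' ih =>
        intro h
        rw [Multiset.map_cons, Multiset.join_cons, Ht_add,
          ih fun Ψ hΨ => h Ψ (Multiset.mem_cons_of_mem hΨ),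
          (hc Φ (h Φ (Multiset.mem_cons_self _ _))).2.2.2 t, Multiset.card_cons,
          Multiset.map_cons, Multiset.sum_cons]
        ring
    rw [key F fun _ h => h, join_card hE3, Multiset.card_map]
    have h1 := hF t
    generalize (F.map fun Φ => Φ t).sum = X at *
    rw [← h1]
    ring

end Pool.Agent.TH540
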