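import Pool.Agent.TH540.DivCert

/-!
# Certificates for weighted Fermat Calabi-Yau threefolds
-/

namespace Pool.Agent.TH540.CY

open SC

set_option maxRecDepth 100000

/-- exponents [5, 5, 5, 5, 5] -/
def c5_5_5_5_5U : List Cert := [
  ([1], [], [[1, 1, 1, 1, 1]], []),
  ([1, 2], [], [[1, 2, 2], [1, 2, 2], [1, 1, 1, 2]], [])]

/-- exponents [5, 5, 5, 5, 5] -/
def c5_5_5_5_5A : List Cert := []

theorem c5_5_5_5_5 : chkUnits 5 [1, 1, 1, 1, 1] c5_5_5_5_5U = true ∧ chkChars 5 [1, 1, 1, 1, 1] c5_5_5_5_5A = true := by decide +kernel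

/-- exponents [3, 6, 6, 6, 6] -/
def c3_6_6_6_6U : List Cert := [
  ([1], [], [[2, 1, 1, 1, 1]], [])]

/-- exponents [3, 6, 6, 6, 6] -/
def c3_6_6_6_6A : List Cert := []

theorem c3_6_6_6_6 : chkUnits 6 [2, 1, 1, 1, 1] c3_6_6_6_6U = true ∧ chkChars 6 [2, 1, 1, 1, 1] c3_6_6_6_6A = true := by decide +kernel

/-- exponents [2, 8, 8, 8, 8] -/
def c2_8_8_8_8U : List Cert := [
  ([1], [], [[4, 1, 1, 1, 1]], []),
  ([1, 3], [], [[4, 4], [1, 1, 3, 3], [1, 1, 3, 3]], []),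
  ([1, 5], [], [[4, 4], [1, 1, 1, 5], [1, 5, 5, 5]], [])]

/-- exponents [2, 8, 8, 8, 8] -/
def c2_8_8_8_8A : List Cert := [
  ([1, 1, 4, 5, 5], [2], [[1, 2, 5]], [[1, 4, 5, 6]])]

theorem c2_8_8_8_8 : chkUnits 8 [4, 1, 1, 1, 1] c2_8_8_8_8U = true ∧ chkChars 8 [4, 1, 1, 1, 1] c2_8_8_8_8A = true := by decide +kernel

/-- exponents [4, 4, 4, 8, 8] -/
def c4_4_4_8_8U : List Cert := [
  ([1], [], [[2, 2, 2, 1, 1]], []),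
  ([1, 3], [], [[2, 6], [2, 6], [2, 6], [1, 1, 3, 3]], []),
  ([1, 5], [], [[1, 2, 5], [1, 2, 5], [2, 2, 2, 2]], [])]

/-- exponents [4, 4, 4, 8, 8] -/
def c4_4_4_8_8A : List Cert := [
  ([2, 2, 2, 3, 7], [4], [[2, 2, 4]], [[2, 3, 4, 7]])]

theorem c4_4_4_8_8 : chkUnits 8 [2, 2, 2, 1, 1] c4_4_4_8_8U = true ∧ chkChars 8 [2, 2, 2, 1, 1] c4_4_4_8_8A = true := by decide +kernel

/-- exponents [3, 3, 9, 9, 9] -/
def c3_3_9_9_9U : List Cert := [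
  ([1], [], [[3, 3, 1, 1, 1]], []),
  ([1, 4], [], [[1, 4, 4], [1, 1, 3, 4], [3, 3, 3]], []),
  ([1, 5], [], [[3, 6], [3, 6], [1, 1, 1, 5, 5, 5]], []),
  ([1, 2, 4], [], [[3, 6], [3, 6], [1, 4, 4], [1, 1, 3, 4], [2, 2, 2, 3]], []),
  ([1, 4, 7], [], [[1, 1, 7], [1, 4, 4], [3, 3, 3], [3, 3, 3], [4, 7, 7]], [])]

/-- exponents [3, 3, 9, 9, 9] -/
def c3_3_9_9_9A : List Cert := [
  ([1, 3, 3, 4, 7], [3], [[3, 3, 3]], [[1, 4, 6, 7]]),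
  ([2, 2, 3, 3, 8], [4], [[2, 3, 4]], [[2, 3, 5, 8]])]

theorem c3_3_9_9_9 : chkUnits 9 [3, 3, 1, 1, 1] c3_3_9_9_9U = true ∧ chkChars 9 [3, 3, 1, 1, 1] c3_3_9_9_9A = true := by decide +kernel

/-- exponents [2, 5, 10, 10, 10] -/
def c2_5_10_10_10U : List Cert := [
  ([1], [], [[5, 2, 1, 1, 1]], []),
  ([1, 3], [], [[5, 5], [1, 3, 6], [1, 1, 2, 3, 3]], [])]

/-- exponents [2, 5, 10, 10, 10] -/
def c2_5_10_10_10A : List Cert := [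
  ([1, 2, 5, 6, 6], [2], [[2, 2, 6]], [[1, 5, 6, 8]]),
  ([2, 2, 2, 5, 9], [3], [[2, 3, 5]], [[2, 2, 7, 9]]),
  ([2, 5, 7, 7, 9], [2], [[5, 7, 8]], [[2, 2, 7, 9]])]

theorem c2_5_10_10_10 : chkUnits 10 [5, 2, 1, 1, 1] c2_5_10_10_10U = true ∧ chkChars 10 [5, 2, 1, 1, 1] c2_5_10_10_10A = true := by decide +kernel

/-- exponents [2, 4, 12, 12, 12] -/
def c2_4_12_12_12U : List Cert := [
  ([1], [], [[6, 3, 1, 1, 1]], []),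
  ([1, 5], [], [[6, 6], [1, 1, 5, 5], [1, 3, 3, 5]], []),
  ([1, 7], [], [[3, 9], [6, 6], [1, 1, 1, 7, 7, 7]], [])]

/-- exponents [2, 4, 12, 12, 12] -/
def c2_4_12_12_12A : List Cert := [
  ([1, 3, 4, 6, 10], [1], [[1, 1, 10]], [[3, 4, 6, 11]]),
  ([1, 3, 6, 7, 7], [2], [[2, 3, 7]], [[1, 6, 7, 10]]),
  ([2, 2, 3, 6, 11], [4], [[2, 2, 8]], [[3, 4, 6, 11]]),
  ([3, 4, 4, 6, 7], [1], [[1, 4, 7]], [[3, 4, 6, 11]])]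

theorem c2_4_12_12_12 : chkUnits 12 [6, 3, 1, 1, 1] c2_4_12_12_12U = true ∧ chkChars 12 [6, 3, 1, 1, 1] c2_4_12_12_12A = true := by decide +kernel

/-- exponents [2, 6, 6, 12, 12] -/
def c2_6_6_12_12U : List Cert := [
  ([1], [], [[6, 2, 2, 1, 1]], []),
  ([1, 5], [], [[2, 10], [2, 10], [6, 6], [1, 1, 5, 5]], []),
  ([1, 7], [], [[6, 6], [1, 2, 2, 7], [1, 2, 2, 7]], [])]

/-- exponents [2, 6, 6, 12, 12] -/
def c2_6_6_12_12A : List Cert := [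
  ([1, 2, 6, 7, 8], [2], [[2, 2, 8]], [[1, 6, 7, 10]]),
  ([1, 4, 4, 6, 9], [2], [[1, 2, 9]], [[4, 4, 6, 10]]),
  ([2, 2, 3, 6, 11], [4], [[2, 2, 8]], [[3, 4, 6, 11]]),
  ([2, 3, 5, 6, 8], [1], [[1, 3, 8]], [[2, 5, 6, 11]]),
  ([4, 4, 5, 5, 6], [1], [[1, 5, 6]], [[4, 4, 5, 11]])]

theorem c2_6_6_12_12 : chkUnits 12 [6, 2, 2, 1, 1] c2_6_6_12_12U = true ∧ chkChars 12 [6, 2, 2, 1, 1] c2_6_6_12_12A = true := by decide +kernel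

/-- exponents [3, 3, 6, 12, 12] -/
def c3_3_6_12_12U : List Cert := [
  ([1], [], [[4, 4, 2, 1, 1]], []),
  ([1, 5], [], [[2, 10], [4, 8], [4, 8], [1, 1, 5, 5]], []),
  ([1, 7], [], [[1, 4, 7], [1, 4, 7], [2, 2, 4, 4]], [])]

/-- exponents [3, 3, 6, 12, 12] -/
def c3_3_6_12_12A : List Cert := [
  ([1, 4, 4, 5, 10], [1], [[1, 1, 10]], [[4, 4, 5, 11]]),
  ([1, 4, 4, 6, 9], [2], [[1, 2, 9]], [[4, 4, 6, 10]]),
  ([2, 3, 4, 4, 11], [4], [[4, 4, 4]], [[2, 3, 8, 11]]),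
  ([3, 3, 4, 4, 10], [5], [[3, 4, 5]], [[3, 4, 7, 10]]),
  ([4, 4, 5, 5, 6], [1], [[1, 5, 6]], [[4, 4, 5, 11]])]

theorem c3_3_6_12_12 : chkUnits 12 [4, 4, 2, 1, 1] c3_3_6_12_12U = true ∧ chkChars 12 [4, 4, 2, 1, 1] c3_3_6_12_12A = true := by decide +kernel

/-- exponents [3, 4, 4, 12, 12] -/
def c3_4_4_12_12U : List Cert := [
  ([1], [], [[4, 3, 3, 1, 1]], []),
  ([1, 5], [], [[4, 8], [1, 1, 5, 5], [3, 3, 3, 3]], []),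
  ([1, 7], [], [[3, 9], [3, 9], [1, 1, 4, 4, 7, 7]], [])]

/-- exponents [3, 4, 4, 12, 12] -/
def c3_4_4_12_12A : List Cert := [
  ([1, 3, 4, 6, 10], [1], [[1, 1, 10]], [[3, 4, 6, 11]]),
  ([3, 3, 3, 4, 11], [5], [[3, 4, 5]], [[3, 3, 7, 11]]),
  ([3, 3, 4, 4, 10], [5], [[3, 4, 5]], [[3, 4, 7, 10]]),
  ([3, 3, 4, 7, 7], [1], [[1, 4, 7]], [[3, 3, 7, 11]]),
  ([3, 4, 4, 6, 7], [1], [[1, 4, 7]], [[3, 4, 6, 11]])]

theorem c3_4_4_12_12 : chkUnits 12 [4, 3, 3, 1, 1] c3_4_4_12_12U = true ∧ chkChars 12 [4, 3, 3, 1, 1] c3_4_4_12_12A = true := by decide +kernel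

/-- exponents [3, 4, 6, 6, 12] -/
def c3_4_6_6_12U : List Cert := [
  ([1], [], [[4, 3, 2, 2, 1]], []),
  ([1, 5], [], [[2, 10], [2, 10], [4, 8], [1, 3, 3, 5]], []),
  ([1, 7], [], [[3, 9], [1, 4, 7], [2, 2, 2, 2, 4]], [])]

/-- exponents [3, 4, 6, 6, 12] -/
def c3_4_6_6_12A : List Cert := [
  ([1, 3, 4, 6, 10], [1], [[1, 1, 10]], [[3, 4, 6, 11]]),
  ([2, 3, 4, 4, 11], [4], [[4, 4, 4]], [[2, 3, 8, 11]]),
  ([3, 3, 4, 4, 10], [5], [[3, 4, 5]], [[3, 4, 7, 10]]),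
  ([3, 4, 4, 6, 7], [1], [[1, 4, 7]], [[3, 4, 6, 11]])]

theorem c3_4_6_6_12 : chkUnits 12 [4, 3, 2, 2, 1] c3_4_6_6_12U = true ∧ chkChars 12 [4, 3, 2, 2, 1] c3_4_6_6_12A = true := by decide +kernel

/-- exponents [4, 4, 4, 6, 12] -/
def c4_4_4_6_12U : List Cert := [
  ([1], [], [[3, 3, 3, 2, 1]], []),
  ([1, 5], [], [[2, 10], [1, 3, 3, 5], [3, 3, 3, 3]], []),
  ([1, 7], [], [[3, 9], [3, 9], [3, 9], [1, 2, 2, 7]], [])]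

/-- exponents [4, 4, 4, 6, 12] -/
def c4_4_4_6_12A : List Cert := [
  ([3, 3, 3, 4, 11], [5], [[3, 4, 5]], [[3, 3, 7, 11]])]

theorem c4_4_4_6_12 : chkUnits 12 [3, 3, 3, 2, 1] c4_4_4_6_12U = true ∧ chkChars 12 [3, 3, 3, 2, 1] c4_4_4_6_12A = true := by decide +kernel

/-- exponents [4, 4, 6, 6, 6] -/
def c4_4_6_6_6U : List Cert := [
  ([1], [], [[3, 3, 2, 2, 2]], []),
  ([1, 5], [], [[2, 10], [2, 10], [2, 10], [3, 3, 3, 3]], []),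
  ([1, 7], [], [[3, 9], [3, 9], [2, 2, 2, 2, 2, 2]], [])]

/-- exponents [4, 4, 6, 6, 6] -/
def c4_4_6_6_6A : List Cert := [
  ([2, 3, 3, 8, 8], [1], [[1, 3, 8]], [[2, 3, 8, 11]])]

theorem c4_4_6_6_6 : chkUnits 12 [3, 3, 2, 2, 2] c4_4_6_6_6U = true ∧ chkChars 12 [3, 3, 2, 2, 2] c4_4_6_6_6A = true := by decide +kernel

/-- exponents [2, 7, 7, 7, 14] -/
def c2_7_7_7_14U : List Cert := [
  ([1], [], [[7, 2, 2, 2, 1]], []),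
  ([1, 5], [], [[7, 7], [1, 2, 5, 10, 10], [2, 2, 10]], []),
  ([1, 9], [], [[7, 7], [1, 4, 9], [2, 2, 2, 4, 4]], []),
  ([1, 3, 5], [], [[7, 7], [1, 3, 10], [2, 2, 10], [2, 5, 7], [6, 6, 6, 10]], []),
  ([1, 9, 11], [], [[7, 7], [1, 2, 11], [2, 4, 8], [2, 4, 8], [4, 7, 8, 9]], [])]

/-- exponents [2, 7, 7, 7, 14] -/
def c2_7_7_7_14A : List Cert := [
  ([2, 2, 4, 7, 13], [6], [[2, 4, 8]], [[2, 6, 7, 13]]),
  ([2, 2, 6, 7, 11], [1], [[1, 2, 11]], [[2, 6, 7, 13]]),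
  ([2, 2, 7, 8, 9], [4], [[2, 4, 8]], [[2, 7, 9, 10]]),
  ([2, 4, 6, 7, 9], [1], [[1, 4, 9]], [[2, 6, 7, 13]])]

theorem c2_7_7_7_14 : chkUnits 14 [7, 2, 2, 2, 1] c2_7_7_7_14U = true ∧ chkChars 14 [7, 2, 2, 2, 1] c2_7_7_7_14A = true := by decide +kernel

/-- exponents [3, 3, 5, 15, 15] -/
def c3_3_5_15_15U : List Cert := [
  ([1], [], [[5, 5, 3, 1, 1]], []),
  ([1, 4], [], [[3, 12], [1, 4, 5, 5], [1, 4, 5, 5]], []),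
  ([1, 7], [], [[1, 7, 7], [1, 3, 5, 6], [5, 5, 5]], []),
  ([1, 8], [], [[5, 10], [5, 10], [1, 1, 3, 8, 8, 9]], []),
  ([1, 11], [], [[5, 10], [5, 10], [1, 1, 3, 3, 11, 11]], []),
  ([1, 4, 7], [], [[3, 12], [1, 7, 7], [1, 4, 4, 6], [5, 5, 5], [5, 5, 5]], []),
  ([1, 4, 8], [], [[3, 12], [5, 10], [5, 10], [1, 5, 9], [1, 4, 4, 5, 8, 8]], []),
  ([1, 7, 11], [], [[5, 10], [5, 10], [1, 3, 11], [1, 3, 11], [5, 5, 6, 7, 7]], []),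
  ([1, 8, 11], [], [[5, 10], [5, 10], [1, 3, 11], [1, 3, 11], [8, 8, 9, 10, 10]], []),
  ([1, 2, 4, 7], [], [[3, 12], [5, 10], [5, 10], [1, 7, 7], [1, 2, 6, 6], [2, 4, 4, 5], [5, 5, 5]], []),
  ([1, 2, 4, 8], [], [[3, 12], [5, 10], [5, 10], [5, 10], [5, 10], [6, 9], [1, 1, 2, 2, 4, 4, 8, 8]], []),
  ([1, 2, 7, 11], [], [[5, 10], [5, 10], [5, 10], [5, 10], [1, 3, 11], [1, 3, 11], [2, 2, 6, 6, 7, 7]], []),
  ([1, 4, 7, 13], [], [[3, 12], [6, 9], [1, 1, 13], [4, 4, 7], [5, 5, 5], [5, 5, 5], [5, 5, 7, 13]], [])]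

/-- exponents [3, 3, 5, 15, 15] -/
def c3_3_5_15_15A : List Cert := [
  ([3, 3, 5, 5, 14], [7], [[3, 5, 7]], [[3, 5, 8, 14]]),
  ([3, 4, 5, 5, 13], [5], [[5, 5, 5]], [[3, 4, 10, 13]]),
  ([3, 5, 5, 6, 11], [7], [[3, 5, 7]], [[5, 6, 8, 11]])]

theorem c3_3_5_15_15 : chkUnits 15 [5, 5, 3, 1, 1] c3_3_5_15_15U = true ∧ chkChars 15 [5, 5, 3, 1, 1] c3_3_5_15_15A = true := by decide +kernel

/-- exponents [3, 5, 5, 5, 15] -/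
def c3_5_5_5_15U : List Cert := [
  ([1], [], [[5, 3, 3, 3, 1]], []),
  ([1, 4], [], [[3, 12], [3, 12], [3, 12], [1, 4, 5, 5]], []),
  ([1, 7], [], [[1, 3, 5, 6], [3, 5, 7], [3, 6, 6]], []),
  ([1, 8], [], [[5, 10], [1, 3, 3, 8], [3, 9, 9, 9]], []),
  ([1, 11], [], [[5, 10], [1, 3, 11], [3, 3, 3, 3, 3]], []),
  ([1, 4, 7], [], [[3, 12], [3, 12], [3, 12], [1, 4, 5, 5], [5, 6, 6, 6, 7]], []),
  ([1, 4, 8], [], [[3, 12], [3, 12], [3, 12], [5, 10], [1, 4, 5, 8, 9, 9, 9]], []),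
  ([1, 7, 11], [], [[5, 10], [1, 3, 11], [3, 5, 7], [3, 6, 6], [3, 3, 3, 6]], []),
  ([1, 8, 11], [], [[5, 10], [1, 3, 11], [3, 3, 9], [3, 3, 9], [3, 8, 9, 10]], []),
  ([1, 2, 4, 7], [], [[3, 12], [3, 12], [3, 12], [5, 10], [1, 2, 5, 7], [4, 5, 6], [6, 6, 6, 6, 6]], []),
  ([1, 2, 4, 8], [], [[3, 12], [3, 12], [3, 12], [5, 10], [5, 10], [6, 9], [6, 9], [6, 9], [1, 2, 4, 8]], []),
  ([1, 2, 7, 11], [], [[5, 10], [5, 10], [1, 3, 11], [2, 6, 7], [3, 6, 6], [3, 6, 6], [3, 3, 3, 6]], []),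
  ([1, 4, 7, 13], [], [[3, 12], [3, 12], [3, 12], [6, 9], [6, 9], [6, 9], [1, 4, 5, 5, 5, 5, 7, 13]], [])]

/-- exponents [3, 5, 5, 5, 15] -/
def c3_5_5_5_15A : List Cert := [
  ([3, 3, 5, 6, 13], [7], [[3, 5, 7]], [[3, 6, 8, 13]])]

theorem c3_5_5_5_15 : chkUnits 15 [5, 3, 3, 3, 1] c3_5_5_5_15U = true ∧ chkChars 15 [5, 3, 3, 3, 1] c3_5_5_5_15A = true := by decide +kernel

/-- exponents [2, 4, 8, 16, 16] -/
def c2_4_8_16_16U : List Cert := [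
  ([1], [], [[8, 4, 2, 1, 1]], []),
  ([1, 5], [], [[8, 8], [1, 5, 10], [1, 2, 4, 4, 5]], []),
  ([1, 7], [], [[2, 14], [4, 12], [8, 8], [1, 1, 7, 7]], []),
  ([1, 9], [], [[8, 8], [1, 2, 4, 9], [1, 2, 4, 9]], []),
  ([1, 11], [], [[4, 12], [8, 8], [1, 1, 2, 6, 11, 11]], []),
  ([1, 5, 7], [], [[2, 14], [4, 12], [8, 8], [1, 5, 10], [1, 4, 5, 7, 7, 8]], []),
  ([1, 5, 9], [], [[8, 8], [1, 5, 10], [1, 2, 4, 9], [2, 5, 9], [4, 4, 8]], []),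
  ([1, 7, 11], [], [[2, 14], [4, 12], [8, 8], [1, 7, 8], [1, 6, 7, 11, 11, 12]], []),
  ([1, 9, 11], [], [[4, 12], [8, 8], [1, 4, 11], [1, 6, 9], [2, 2, 8, 9, 11]], []),
  ([1, 3, 5, 7], [], [[2, 14], [4, 12], [4, 12], [6, 10], [8, 8], [8, 8], [1, 1, 3, 3, 5, 5, 7, 7]], []),
  ([1, 3, 5, 9], [], [[4, 12], [6, 10], [8, 8], [8, 8], [1, 1, 5, 9], [2, 5, 9], [2, 3, 3, 4, 4]], []),
  ([1, 3, 9, 11], [], [[4, 12], [4, 12], [8, 8], [8, 8], [1, 6, 9], [1, 6, 9], [2, 2, 3, 3, 11, 11]], []),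
  ([1, 5, 9, 13], [], [[8, 8], [8, 8], [1, 2, 13], [1, 5, 10], [2, 5, 9], [4, 4, 4, 4], [9, 10, 13]], [])]

/-- exponents [2, 4, 8, 16, 16] -/
def c2_4_8_16_16A : List Cert := [
  ([1, 4, 6, 8, 13], [2], [[1, 2, 13]], [[4, 6, 8, 14]]),
  ([2, 3, 4, 8, 15], [7], [[3, 4, 9]], [[2, 7, 8, 15]]),
  ([2, 4, 5, 8, 13], [4], [[4, 4, 8]], [[2, 5, 12, 13]]),
  ([3, 4, 6, 8, 11], [2], [[2, 3, 11]], [[4, 6, 8, 14]]),
  ([4, 6, 7, 7, 8], [1], [[1, 7, 8]], [[4, 6, 7, 15]])]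

theorem c2_4_8_16_16 : chkUnits 16 [8, 4, 2, 1, 1] c2_4_8_16_16U = true ∧ chkChars 16 [8, 4, 2, 1, 1] c2_4_8_16_16A = true := by decide +kernel

/-- exponents [2, 6, 6, 9, 18] -/
def c2_6_6_9_18U : List Cert := [
  ([1], [], [[9, 3, 3, 2, 1]], []),
  ([1, 7], [], [[9, 9], [1, 3, 14], [2, 3, 3, 3, 7]], []),
  ([1, 11], [], [[3, 15], [3, 15], [9, 9], [1, 2, 4, 11]], []),
  ([1, 5, 7], [], [[3, 15], [3, 15], [9, 9], [1, 3, 14], [2, 3, 5, 7, 9, 10]], []),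
  ([1, 7, 13], [], [[9, 9], [1, 3, 14], [2, 3, 13], [3, 7, 8], [3, 3, 3, 9]], [])]

/-- exponents [2, 6, 6, 9, 18] -/
def c2_6_6_9_18A : List Cert := [
  ([2, 3, 9, 10, 12], [5], [[3, 5, 10]], [[2, 9, 12, 13]]),
  ([2, 6, 6, 9, 13], [3], [[2, 3, 13]], [[6, 6, 9, 15]]),
  ([3, 3, 4, 9, 17], [6], [[3, 3, 12]], [[4, 6, 9, 17]]),
  ([4, 6, 6, 9, 11], [1], [[1, 6, 11]], [[4, 6, 9, 17]])]

theorem c2_6_6_9_18 : chkUnits 18 [9, 3, 3, 2, 1] c2_6_6_9_18U = true ∧ chkChars 18 [9, 3, 3, 2, 1] c2_6_6_9_18A = true := by decide +kernel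

/-- exponents [2, 6, 9, 9, 9] -/
def c2_6_9_9_9U : List Cert := [
  ([1], [], [[9, 3, 2, 2, 2]], []),
  ([1, 7], [], [[9, 9], [2, 2, 14], [2, 3, 3, 14, 14]], []),
  ([1, 11], [], [[3, 15], [9, 9], [2, 2, 2, 4, 4, 4]], []),
  ([1, 5, 7], [], [[3, 15], [9, 9], [2, 2, 14], [2, 10, 10, 14], [3, 9, 10, 14]], []),
  ([1, 7, 13], [], [[9, 9], [2, 2, 14], [2, 8, 8], [3, 3, 3, 9], [8, 14, 14]], [])]

/-- exponents [2, 6, 9, 9, 9] -/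
def c2_6_9_9_9A : List Cert := [
  ([2, 3, 8, 9, 14], [1], [[1, 3, 14]], [[2, 8, 9, 17]]),
  ([2, 3, 9, 10, 12], [5], [[3, 5, 10]], [[2, 9, 12, 13]]),
  ([3, 4, 4, 9, 16], [7], [[3, 4, 11]], [[4, 7, 9, 16]])]

theorem c2_6_9_9_9 : chkUnits 18 [9, 3, 2, 2, 2] c2_6_9_9_9U = true ∧ chkChars 18 [9, 3, 2, 2, 2] c2_6_9_9_9A = true := by decide +kernel

/-- exponents [3, 3, 6, 9, 18] -/
def c3_3_6_9_18U : List Cert := [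
  ([1], [], [[6, 6, 3, 2, 1]], []),
  ([1, 7], [], [[1, 3, 14], [2, 3, 6, 7], [6, 6, 6]], []),
  ([1, 11], [], [[3, 15], [6, 12], [6, 12], [1, 2, 4, 11]], []),
  ([1, 5, 7], [], [[3, 15], [6, 12], [6, 12], [1, 3, 14], [2, 5, 6, 6, 7, 10]], []),
  ([1, 7, 13], [], [[1, 3, 14], [2, 3, 13], [3, 7, 8], [6, 6, 6], [6, 6, 6]], [])]

/-- exponents [3, 3, 6, 9, 18] -/
def c3_3_6_9_18A : List Cert := [
  ([2, 6, 6, 7, 15], [5], [[5, 6, 7]], [[2, 6, 13, 15]]),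
  ([2, 6, 6, 9, 13], [3], [[2, 3, 13]], [[6, 6, 9, 15]]),
  ([3, 4, 6, 6, 17], [6], [[6, 6, 6]], [[3, 4, 12, 17]]),
  ([4, 5, 6, 6, 15], [9], [[4, 5, 9]], [[6, 6, 9, 15]]),
  ([4, 6, 6, 9, 11], [1], [[1, 6, 11]], [[4, 6, 9, 17]])]

theorem c3_3_6_9_18 : chkUnits 18 [6, 6, 3, 2, 1] c3_3_6_9_18U = true ∧ chkChars 18 [6, 6, 3, 2, 1] c3_3_6_9_18A = true := by decide +kernel

/-- exponents [2, 4, 10, 10, 20] -/
def c2_4_10_10_20U : List Cert := [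
  ([1], [], [[10, 5, 2, 2, 1]], []),
  ([1, 7], [], [[5, 15], [10, 10], [1, 2, 2, 7, 14, 14]], []),
  ([1, 9], [], [[2, 18], [2, 18], [10, 10], [1, 5, 5, 9]], []),
  ([1, 11], [], [[5, 15], [10, 10], [1, 2, 2, 2, 2, 11]], []),
  ([1, 13], [], [[10, 10], [1, 6, 13], [2, 2, 5, 5, 6]], []),
  ([1, 7, 9], [], [[2, 18], [2, 18], [5, 15], [10, 10], [1, 5, 7, 9, 10, 14, 14]], []),
  ([1, 7, 11], [], [[5, 15], [10, 10], [1, 2, 2, 15], [2, 7, 11], [2, 10, 14, 14]], []),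
  ([1, 9, 13], [], [[2, 18], [2, 18], [10, 10], [1, 6, 13], [5, 5, 5, 6, 9, 10]], []),
  ([1, 11, 13], [], [[5, 15], [10, 10], [1, 6, 13], [2, 2, 5, 11], [2, 2, 6, 10]], []),
  ([1, 3, 7, 9], [], [[2, 18], [2, 18], [5, 15], [5, 15], [6, 14], [6, 14], [10, 10], [10, 10], [1, 3, 7, 9]], []),
  ([1, 3, 7, 11], [], [[5, 15], [6, 14], [6, 14], [10, 10], [10, 10], [1, 2, 2, 15], [2, 2, 3, 7, 11, 15]], []),
  ([1, 3, 11, 13], [], [[5, 15], [5, 15], [10, 10], [10, 10], [1, 6, 13], [2, 6, 6, 6], [2, 2, 2, 3, 11]], []),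
  ([1, 9, 13, 17], [], [[2, 18], [2, 18], [6, 14], [6, 14], [10, 10], [10, 10], [1, 5, 5, 5, 5, 9, 13, 17]], [])]

/-- exponents [2, 4, 10, 10, 20] -/
def c2_4_10_10_20A : List Cert := [
  ([2, 4, 5, 10, 19], [7], [[2, 5, 13]], [[4, 7, 10, 19]]),
  ([2, 5, 6, 10, 17], [7], [[2, 5, 13]], [[6, 7, 10, 17]]),
  ([2, 5, 7, 10, 16], [8], [[5, 7, 8]], [[2, 10, 12, 16]]),
  ([2, 5, 10, 11, 12], [4], [[4, 5, 11]], [[2, 10, 12, 16]]),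
  ([4, 4, 5, 10, 17], [9], [[4, 5, 11]], [[4, 9, 10, 17]]),
  ([4, 5, 8, 10, 13], [2], [[2, 5, 13]], [[4, 8, 10, 18]])]

theorem c2_4_10_10_20 : chkUnits 20 [10, 5, 2, 2, 1] c2_4_10_10_20U = true ∧ chkChars 20 [10, 5, 2, 2, 1] c2_4_10_10_20A = true := by decide +kernel

/-- exponents [2, 5, 5, 20, 20] -/
def c2_5_5_20_20U : List Cert := [
  ([1], [], [[10, 4, 4, 1, 1]], []),
  ([1, 7], [], [[10, 10], [1, 4, 7, 8], [1, 4, 7, 8]], []),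
  ([1, 9], [], [[4, 16], [4, 16], [10, 10], [1, 1, 9, 9]], []),
  ([1, 11], [], [[10, 10], [1, 4, 4, 11], [1, 4, 4, 11]], []),
  ([1, 13], [], [[10, 10], [1, 1, 12, 13, 13], [4, 4, 12]], []),
  ([1, 7, 9], [], [[4, 16], [4, 16], [10, 10], [1, 9, 10], [1, 7, 7, 8, 8, 9]], []),
  ([1, 7, 11], [1], [[10, 10], [1, 8, 11], [1, 8, 11], [1, 4, 4, 4, 7]], [[4, 7, 10, 19]]),
  ([1, 9, 13], [], [[4, 16], [4, 16], [10, 10], [1, 9, 10], [1, 9, 12, 12, 13, 13]], []),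
  ([1, 11, 13], [2], [[10, 10], [1, 2, 4, 13], [4, 4, 12], [4, 11, 12, 13]], [[1, 10, 11, 18]]),
  ([1, 3, 7, 9], [], [[4, 16], [4, 16], [8, 12], [8, 12], [10, 10], [10, 10], [1, 1, 3, 3, 7, 7, 9, 9]], []),
  ([1, 3, 7, 11], [], [[8, 12], [8, 12], [10, 10], [10, 10], [1, 4, 4, 11], [1, 4, 4, 11], [3, 3, 7, 7]], []),
  ([1, 3, 11, 13], [4], [[10, 10], [10, 10], [1, 3, 3, 13], [4, 4, 12], [4, 4, 12], [4, 11, 12, 13]], [[1, 11, 12, 16]]),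
  ([1, 9, 13, 17], [], [[4, 16], [4, 16], [8, 12], [8, 12], [10, 10], [10, 10], [1, 1, 9, 9, 13, 13, 17, 17]], [])]

/-- exponents [2, 5, 5, 20, 20] -/
def c2_5_5_20_20A : List Cert := [
  ([1, 4, 8, 10, 17], [2], [[1, 2, 17]], [[4, 8, 10, 18]]),
  ([3, 4, 4, 10, 19], [6], [[4, 6, 10]], [[3, 4, 14, 19]]),
  ([3, 4, 8, 10, 15], [1], [[1, 4, 15]], [[3, 8, 10, 19]]),
  ([4, 4, 4, 10, 18], [6], [[4, 6, 10]], [[4, 4, 14, 18]]),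
  ([4, 4, 5, 10, 17], [9], [[4, 5, 11]], [[4, 9, 10, 17]]),
  ([4, 4, 8, 10, 14], [2], [[2, 4, 14]], [[4, 8, 10, 18]]),
  ([4, 8, 9, 9, 10], [1], [[1, 9, 10]], [[4, 8, 9, 19]])]

theorem c2_5_5_20_20 : chkUnits 20 [10, 4, 4, 1, 1] c2_5_5_20_20U = true ∧ chkChars 20 [10, 4, 4, 1, 1] c2_5_5_20_20A = true := by decide +kernel

/-- exponents [4, 4, 4, 5, 20] -/
def c4_4_4_5_20U : List Cert := [
  ([1], [], [[5, 5, 5, 4, 1]], []),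
  ([1, 7], [], [[5, 15], [5, 15], [5, 15], [1, 4, 7, 8]], []),
  ([1, 9], [], [[4, 16], [1, 5, 5, 9], [5, 5, 5, 5]], []),
  ([1, 11], [], [[5, 15], [5, 15], [5, 15], [1, 4, 4, 11]], []),
  ([1, 13], [6], [[4, 5, 5, 6], [5, 5, 5, 5]], [[1, 12, 13, 14]]),
  ([1, 7, 9], [], [[4, 16], [5, 15], [5, 15], [5, 15], [1, 5, 5, 5, 7, 8, 9]], []),
  ([1, 7, 11], [], [[5, 15], [5, 15], [5, 15], [1, 4, 15], [4, 7, 8, 11, 15, 15]], []),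
  ([1, 9, 13], [3], [[4, 16], [3, 5, 12], [5, 5, 5, 5], [5, 5, 5, 5]], [[1, 9, 13, 17]]),
  ([1, 11, 13], [], [[5, 15], [5, 15], [5, 15], [1, 4, 4, 11], [5, 5, 5, 12, 13]], []),
  ([1, 3, 7, 9], [], [[4, 16], [5, 15], [5, 15], [5, 15], [5, 15], [5, 15], [5, 15], [8, 12], [1, 3, 7, 9]], []),
  ([1, 3, 7, 11], [], [[5, 15], [5, 15], [5, 15], [8, 12], [1, 4, 15], [3, 7, 15, 15], [4, 11, 15, 15, 15]], []),
  ([1, 3, 11, 13], [], [[5, 15], [5, 15], [5, 15], [5, 15], [5, 15], [5, 15], [1, 3, 4, 4, 11, 12, 12, 13]], []),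
  ([1, 9, 13, 17], [], [[4, 16], [8, 12], [5, 5, 5, 5], [5, 5, 5, 5], [5, 5, 5, 5]], [[1, 9, 13, 17]])]

/-- exponents [4, 4, 4, 5, 20] -/
def c4_4_4_5_20A : List Cert := []

theorem c4_4_4_5_20 : chkUnits 20 [5, 5, 5, 4, 1] c4_4_4_5_20U = true ∧ chkChars 20 [5, 5, 5, 4, 1] c4_4_4_5_20A = true := by decide +kernel

/-- exponents [4, 4, 5, 5, 10] -/
def c4_4_5_5_10U : List Cert := [
  ([1], [], [[5, 5, 4, 4, 2]], []),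
  ([1, 7], [], [[5, 15], [5, 15], [2, 4, 4, 8, 8, 14]], []),
  ([1, 9], [], [[2, 18], [4, 16], [4, 16], [5, 5, 5, 5]], []),
  ([1, 11], [], [[5, 15], [5, 15], [2, 2, 4, 4, 4, 4]], []),
  ([1, 13], [], [[2, 6, 12], [4, 4, 12], [5, 5, 5, 5]], []),
  ([1, 7, 9], [], [[2, 18], [4, 16], [4, 16], [5, 15], [5, 15], [5, 5, 8, 8, 14]], []),
  ([1, 7, 11], [], [[5, 15], [5, 15], [2, 4, 14], [2, 8, 15, 15], [4, 4, 4, 8]], []),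
  ([1, 9, 13], [], [[2, 18], [4, 16], [4, 16], [5, 5, 5, 5], [5, 5, 6, 12, 12]], []),
  ([1, 11, 13], [], [[5, 15], [5, 15], [2, 6, 12], [2, 4, 4, 5, 5], [4, 4, 12]], []),
  ([1, 3, 7, 9], [], [[2, 18], [4, 16], [4, 16], [5, 15], [5, 15], [5, 15], [5, 15], [6, 14], [8, 12], [8, 12]], []),
  ([1, 3, 7, 11], [], [[5, 15], [5, 15], [6, 14], [8, 12], [8, 12], [2, 4, 4, 15, 15], [2, 4, 4, 15, 15]], []),
  ([1, 3, 11, 13], [], [[5, 15], [5, 15], [5, 15], [5, 15], [2, 6, 12], [2, 6, 12], [4, 4, 4, 4, 12, 12]], []),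
  ([1, 9, 13, 17], [], [[2, 18], [4, 16], [4, 16], [6, 14], [8, 12], [8, 12], [5, 5, 5, 5, 5, 5, 5, 5]], [])]

/-- exponents [4, 4, 5, 5, 10] -/
def c4_4_5_5_10A : List Cert := [
  ([4, 5, 5, 8, 18], [10], [[5, 5, 10]], [[4, 8, 10, 18]])]

theorem c4_4_5_5_10 : chkUnits 20 [5, 5, 4, 4, 2] c4_4_5_5_10U = true ∧ chkChars 20 [5, 5, 4, 4, 2] c4_4_5_5_10A = true := by decide +kernel

/-- exponents [2, 3, 12, 24, 24] -/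
def c2_3_12_24_24U : List Cert := [
  ([1], [], [[12, 8, 2, 1, 1]], []),
  ([1, 5], [], [[8, 16], [12, 12], [1, 1, 2, 5, 5, 10]], []),
  ([1, 7], [], [[12, 12], [1, 1, 8, 14], [2, 7, 7, 8]], []),
  ([1, 11], [], [[2, 22], [8, 16], [12, 12], [1, 1, 11, 11]], []),
  ([1, 13], [], [[12, 12], [1, 2, 8, 13], [1, 2, 8, 13]], []),
  ([1, 17], [], [[8, 16], [12, 12], [1, 1, 2, 10, 17, 17]], []),
  ([1, 19], [], [[12, 12], [1, 1, 8, 14], [2, 8, 19, 19]], []),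
  ([1, 7, 11], [], [[2, 22], [8, 16], [12, 12], [1, 11, 12], [1, 7, 7, 8, 11, 14]], []),
  ([1, 7, 13], [2], [[12, 12], [1, 2, 7, 14], [2, 2, 7, 13], [8, 8, 8]], [[1, 12, 13, 22]]),
  ([1, 11, 17], [], [[2, 22], [8, 16], [12, 12], [1, 11, 12], [1, 10, 11, 16, 17, 17]], []),
  ([1, 13, 17], [], [[8, 16], [12, 12], [1, 10, 13], [1, 2, 8, 13], [2, 12, 17, 17]], []),
  ([1, 5, 7, 11], [], [[2, 22], [8, 16], [8, 16], [10, 14], [12, 12], [12, 12], [1, 1, 5, 5, 7, 7, 11, 11]], []),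
  ([1, 5, 7, 13], [], [[8, 16], [10, 14], [12, 12], [12, 12], [1, 2, 8, 13], [1, 2, 8, 13], [5, 5, 7, 7]], []),
  ([1, 5, 13, 17], [], [[8, 16], [8, 16], [12, 12], [12, 12], [1, 10, 13], [1, 10, 13], [2, 2, 5, 5, 17, 17]], []),
  ([1, 7, 13, 19], [4], [[12, 12], [12, 12], [1, 4, 19], [1, 2, 2, 19], [7, 13, 14, 14], [8, 8, 8]], [[7, 8, 13, 20]]),
  ([1, 11, 17, 19], [], [[2, 22], [8, 16], [8, 16], [10, 14], [12, 12], [12, 12], [1, 1, 11, 11, 17, 17, 19, 19]], [])]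

/-- exponents [2, 3, 12, 24, 24] -/
def c2_3_12_24_24A : List Cert := [
  ([1, 6, 8, 12, 21], [2], [[1, 2, 21]], [[6, 8, 12, 22]]),
  ([1, 7, 8, 12, 20], [5], [[5, 7, 12]], [[1, 8, 19, 20]]),
  ([1, 8, 8, 12, 19], [4], [[1, 4, 19]], [[8, 8, 12, 20]]),
  ([1, 8, 10, 12, 17], [2], [[2, 10, 12]], [[1, 8, 17, 22]]),
  ([2, 3, 8, 12, 23], [5], [[2, 3, 19]], [[5, 8, 12, 23]]),
  ([2, 5, 8, 12, 21], [1], [[1, 2, 21]], [[5, 8, 12, 23]]),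
  ([2, 6, 8, 12, 20], [2], [[2, 2, 20]], [[6, 8, 12, 22]]),
  ([2, 7, 8, 12, 19], [4], [[4, 8, 12]], [[2, 7, 19, 20]]),
  ([2, 8, 8, 12, 18], [4], [[2, 4, 18]], [[8, 8, 12, 20]]),
  ([3, 5, 8, 12, 20], [1], [[1, 3, 20]], [[5, 8, 12, 23]]),
  ([3, 6, 8, 12, 19], [2], [[2, 3, 19]], [[6, 8, 12, 22]]),
  ([3, 8, 8, 12, 17], [4], [[3, 4, 17]], [[8, 8, 12, 20]]),
  ([3, 8, 10, 12, 15], [2], [[2, 10, 12]], [[3, 8, 15, 22]]),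
  ([5, 6, 8, 12, 17], [1], [[1, 6, 17]], [[5, 8, 12, 23]]),
  ([6, 8, 11, 11, 12], [1], [[1, 11, 12]], [[6, 8, 11, 23]]),
  ([7, 8, 10, 11, 12], [1], [[1, 11, 12]], [[7, 8, 10, 23]]),
  ([8, 8, 10, 10, 12], [2], [[2, 10, 12]], [[8, 8, 10, 22]]),
  ([8, 9, 9, 10, 12], [3], [[3, 9, 12]], [[8, 9, 10, 21]]),
  ([8, 10, 12, 20, 22], [4], [[8, 20, 20]], [[4, 10, 12, 22]])]

theorem c2_3_12_24_24 : chkUnits 24 [12, 8, 2, 1, 1] c2_3_12_24_24U = true ∧ chkChars 24 [12, 8, 2, 1, 1] c2_3_12_24_24A = true := by decide +kernel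

/-- exponents [2, 4, 6, 24, 24] -/
def c2_4_6_24_24U : List Cert := [
  ([1], [], [[12, 6, 4, 1, 1]], []),
  ([1, 5], [], [[4, 20], [12, 12], [1, 1, 5, 5, 6, 6]], []),
  ([1, 7], [], [[6, 18], [12, 12], [1, 1, 4, 4, 7, 7]], []),
  ([1, 11], [], [[4, 20], [6, 18], [12, 12], [1, 1, 11, 11]], []),
  ([1, 13], [], [[12, 12], [1, 4, 6, 13], [1, 4, 6, 13]], []),
  ([1, 17], [], [[4, 20], [12, 12], [1, 1, 6, 6, 17, 17]], []),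
  ([1, 19], [], [[6, 18], [12, 12], [1, 1, 4, 4, 19, 19]], []),
  ([1, 7, 11], [], [[4, 20], [6, 18], [12, 12], [1, 11, 12], [1, 4, 7, 7, 11, 18]], []),
  ([1, 7, 13], [], [[6, 18], [12, 12], [1, 4, 6, 13], [1, 4, 7, 12], [4, 7, 13]], []),
  ([1, 11, 17], [], [[4, 20], [6, 18], [12, 12], [1, 6, 17], [1, 11, 11, 12, 17, 20]], []),
  ([1, 13, 17], [], [[4, 20], [12, 12], [1, 6, 17], [1, 6, 17], [4, 6, 12, 13, 13]], []),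
  ([1, 5, 7, 11], [], [[4, 20], [4, 20], [6, 18], [6, 18], [12, 12], [12, 12], [1, 1, 5, 5, 7, 7, 11, 11]], []),
  ([1, 5, 7, 13], [], [[4, 20], [6, 18], [12, 12], [12, 12], [1, 4, 6, 13], [1, 4, 6, 13], [5, 5, 7, 7]], []),
  ([1, 5, 13, 17], [], [[4, 20], [4, 20], [12, 12], [12, 12], [1, 6, 17], [1, 6, 17], [5, 5, 6, 6, 13, 13]], []),
  ([1, 7, 13, 19], [], [[6, 18], [6, 18], [12, 12], [12, 12], [1, 4, 19], [1, 4, 19], [4, 4, 7, 7, 13, 13]], []),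
  ([1, 11, 17, 19], [], [[4, 20], [4, 20], [6, 18], [6, 18], [12, 12], [12, 12], [1, 1, 11, 11, 17, 17, 19, 19]], [])]

/-- exponents [2, 4, 6, 24, 24] -/
def c2_4_6_24_24A : List Cert := [
  ([1, 6, 8, 12, 21], [2], [[1, 2, 21]], [[6, 8, 12, 22]]),
  ([3, 4, 6, 12, 23], [7], [[3, 4, 17]], [[6, 7, 12, 23]]),
  ([3, 6, 8, 12, 19], [2], [[2, 3, 19]], [[6, 8, 12, 22]]),
  ([4, 4, 6, 12, 22], [8], [[4, 4, 16]], [[6, 8, 12, 22]]),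
  ([4, 5, 6, 12, 21], [9], [[4, 5, 15]], [[6, 9, 12, 21]]),
  ([4, 6, 7, 12, 19], [1], [[1, 4, 19]], [[6, 7, 12, 23]]),
  ([4, 6, 10, 12, 16], [2], [[2, 6, 16]], [[4, 10, 12, 22]]),
  ([5, 6, 8, 12, 17], [1], [[1, 6, 17]], [[5, 8, 12, 23]]),
  ([6, 8, 8, 12, 14], [2], [[2, 8, 14]], [[6, 8, 12, 22]]),
  ([6, 8, 11, 11, 12], [1], [[1, 11, 12]], [[6, 8, 11, 23]])]

theorem c2_4_6_24_24 : chkUnits 24 [12, 6, 4, 1, 1] c2_4_6_24_24U = true ∧ chkChars 24 [12, 6, 4, 1, 1] c2_4_6_24_24A = true := by decide +kernel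

/-- exponents [2, 4, 8, 12, 24] -/
def c2_4_8_12_24U : List Cert := [
  ([1], [], [[12, 6, 3, 2, 1]], []),
  ([1, 5], [], [[12, 12], [1, 2, 6, 15], [3, 5, 6, 10]], []),
  ([1, 7], [], [[3, 21], [6, 18], [12, 12], [1, 2, 7, 14]], []),
  ([1, 11], [], [[2, 22], [6, 18], [12, 12], [1, 3, 9, 11]], []),
  ([1, 13], [], [[12, 12], [1, 2, 6, 15], [2, 3, 6, 13]], []),
  ([1, 17], [], [[12, 12], [1, 6, 17], [2, 3, 3, 6, 10]], []),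
  ([1, 19], [], [[6, 18], [12, 12], [1, 2, 3, 9, 14, 19]], []),
  ([1, 7, 11], [], [[2, 22], [3, 21], [6, 18], [12, 12], [1, 7, 9, 11, 12, 14, 18]], []),
  ([1, 7, 13], [], [[3, 21], [6, 18], [12, 12], [1, 2, 6, 15], [2, 7, 12, 13, 14]], []),
  ([1, 11, 17], [], [[2, 22], [6, 18], [12, 12], [1, 6, 17], [3, 3, 9, 10, 11, 12]], []),
  ([1, 13, 17], [], [[12, 12], [1, 6, 17], [2, 10, 12], [2, 3, 6, 13], [3, 6, 15]], []),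
  ([1, 5, 7, 11], [], [[2, 22], [3, 21], [6, 18], [6, 18], [9, 15], [10, 14], [12, 12], [12, 12], [1, 5, 7, 11]], []),
  ([1, 5, 7, 13], [], [[3, 21], [6, 18], [10, 14], [12, 12], [12, 12], [1, 2, 6, 15], [2, 5, 6, 7, 13, 15]], []),
  ([1, 5, 13, 17], [], [[12, 12], [12, 12], [1, 6, 17], [2, 2, 10, 10], [3, 6, 15], [3, 6, 15], [5, 6, 13]], []),
  ([1, 7, 13, 19], [], [[3, 21], [6, 18], [6, 18], [9, 15], [12, 12], [12, 12], [1, 2, 2, 7, 13, 14, 14, 19]], []),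
  ([1, 11, 17, 19], [], [[2, 22], [6, 18], [6, 18], [10, 14], [12, 12], [12, 12], [1, 3, 3, 9, 9, 11, 17, 19]], [])]

/-- exponents [2, 4, 8, 12, 24] -/
def c2_4_8_12_24A : List Cert := [
  ([2, 6, 9, 12, 19], [3], [[2, 3, 19]], [[6, 9, 12, 21]]),
  ([3, 4, 6, 12, 23], [7], [[3, 4, 17]], [[6, 7, 12, 23]]),
  ([3, 6, 8, 12, 19], [2], [[2, 3, 19]], [[6, 8, 12, 22]]),
  ([3, 6, 12, 13, 14], [8], [[3, 8, 13]], [[6, 12, 14, 16]]),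
  ([4, 6, 9, 12, 17], [3], [[3, 4, 17]], [[6, 9, 12, 21]]),
  ([6, 7, 9, 12, 14], [1], [[1, 9, 14]], [[6, 7, 12, 23]]),
  ([6, 8, 9, 12, 13], [2], [[2, 9, 13]], [[6, 8, 12, 22]])]

theorem c2_4_8_12_24 : chkUnits 24 [12, 6, 3, 2, 1] c2_4_8_12_24U = true ∧ chkChars 24 [12, 6, 3, 2, 1] c2_4_8_12_24A = true := by decide +kernel

/-- exponents [2, 6, 6, 8, 24] -/
def c2_6_6_8_24U : List Cert := [
  ([1], [], [[12, 4, 4, 3, 1]], []),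
  ([1, 5], [], [[4, 20], [4, 20], [12, 12], [1, 3, 5, 15]], []),
  ([1, 7], [], [[3, 21], [12, 12], [1, 4, 4, 4, 4, 7]], []),
  ([1, 11], [], [[4, 20], [4, 20], [12, 12], [1, 3, 9, 11]], []),
  ([1, 13], [], [[12, 12], [1, 4, 4, 15], [3, 4, 4, 13]], []),
  ([1, 17], [], [[4, 20], [4, 20], [12, 12], [1, 3, 3, 17]], []),
  ([1, 19], [], [[12, 12], [1, 4, 19], [3, 4, 4, 4, 9]], []),
  ([1, 7, 11], [], [[3, 21], [4, 20], [4, 20], [12, 12], [1, 4, 4, 7, 9, 11, 12]], []),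
  ([1, 7, 13], [], [[3, 21], [12, 12], [1, 4, 4, 15], [4, 7, 13], [4, 4, 4, 12]], []),
  ([1, 11, 17], [], [[4, 20], [4, 20], [12, 12], [1, 3, 20], [3, 9, 11, 12, 17, 20]], []),
  ([1, 13, 17], [], [[4, 20], [4, 20], [12, 12], [1, 3, 3, 17], [4, 4, 12, 13, 15]], []),
  ([1, 5, 7, 11], [], [[3, 21], [4, 20], [4, 20], [4, 20], [4, 20], [9, 15], [12, 12], [12, 12], [1, 5, 7, 11]], []),
  ([1, 5, 7, 13], [], [[3, 21], [4, 20], [4, 20], [12, 12], [12, 12], [1, 4, 4, 15], [4, 4, 5, 7, 13, 15]], []),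
  ([1, 5, 13, 17], [], [[4, 20], [4, 20], [4, 20], [4, 20], [12, 12], [12, 12], [1, 3, 3, 5, 13, 15, 15, 17]], []),
  ([1, 7, 13, 19], [], [[3, 21], [9, 15], [12, 12], [12, 12], [1, 4, 19], [4, 7, 13], [4, 4, 4, 4, 4, 4]], []),
  ([1, 11, 17, 19], [], [[4, 20], [4, 20], [4, 20], [4, 20], [12, 12], [12, 12], [1, 3, 3, 9, 9, 11, 17, 19]], [])]

/-- exponents [2, 6, 6, 8, 24] -/
def c2_6_6_8_24A : List Cert := [
  ([3, 4, 12, 13, 16], [7], [[3, 4, 17]], [[7, 12, 13, 16]]),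
  ([3, 8, 8, 12, 17], [4], [[3, 4, 17]], [[8, 8, 12, 20]]),
  ([4, 4, 6, 12, 22], [8], [[4, 4, 16]], [[6, 8, 12, 22]]),
  ([4, 6, 10, 12, 16], [2], [[2, 6, 16]], [[4, 10, 12, 22]]),
  ([6, 8, 8, 12, 14], [2], [[2, 8, 14]], [[6, 8, 12, 22]])]

theorem c2_6_6_8_24 : chkUnits 24 [12, 4, 4, 3, 1] c2_6_6_8_24U = true ∧ chkChars 24 [12, 4, 4, 3, 1] c2_6_6_8_24A = true := by decide +kernel

/-- exponents [2, 6, 8, 8, 12] -/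
def c2_6_8_8_12U : List Cert := [
  ([1], [], [[12, 4, 3, 3, 2]], []),
  ([1, 5], [], [[4, 20], [12, 12], [2, 3, 3, 10, 15, 15]], []),
  ([1, 7], [], [[3, 21], [3, 21], [12, 12], [2, 4, 4, 14]], []),
  ([1, 11], [], [[2, 22], [4, 20], [12, 12], [3, 3, 9, 9]], []),
  ([1, 13], [], [[12, 12], [2, 3, 4, 15], [2, 3, 4, 15]], []),
  ([1, 17], [], [[4, 20], [12, 12], [2, 3, 3, 3, 3, 10]], []),
  ([1, 19], [], [[12, 12], [2, 4, 4, 14], [3, 3, 9, 9]], []),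
  ([1, 7, 11], [], [[2, 22], [3, 21], [3, 21], [4, 20], [12, 12], [4, 9, 9, 12, 14]], []),
  ([1, 7, 13], [], [[3, 21], [3, 21], [12, 12], [2, 4, 4, 14], [2, 4, 12, 15, 15]], []),
  ([1, 11, 17], [], [[2, 22], [4, 20], [12, 12], [3, 9, 12], [3, 3, 3, 9, 10, 20]], []),
  ([1, 13, 17], [], [[4, 20], [12, 12], [2, 10, 12], [2, 3, 4, 15], [3, 3, 3, 15]], []),
  ([1, 5, 7, 11], [], [[2, 22], [3, 21], [3, 21], [4, 20], [4, 20], [9, 15], [9, 15], [10, 14], [12, 12], [12, 12]], []),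
  ([1, 5, 7, 13], [], [[3, 21], [3, 21], [4, 20], [10, 14], [12, 12], [12, 12], [2, 2, 4, 4, 15, 15, 15, 15]], []),
  ([1, 5, 13, 17], [], [[4, 20], [4, 20], [12, 12], [12, 12], [2, 2, 10, 10], [3, 3, 3, 15], [3, 15, 15, 15]], []),
  ([1, 7, 13, 19], [], [[3, 21], [3, 21], [9, 15], [9, 15], [12, 12], [12, 12], [2, 2, 4, 4, 4, 4, 14, 14]], []),
  ([1, 11, 17, 19], [], [[2, 22], [4, 20], [4, 20], [10, 14], [12, 12], [12, 12], [3, 3, 3, 3, 9, 9, 9, 9]], [])]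

/-- exponents [2, 6, 8, 8, 12] -/
def c2_6_8_8_12A : List Cert := [
  ([3, 3, 8, 12, 22], [6], [[3, 3, 18]], [[6, 8, 12, 22]]),
  ([3, 4, 12, 14, 15], [6], [[4, 6, 14]], [[3, 12, 15, 18]]),
  ([3, 8, 10, 12, 15], [2], [[2, 10, 12]], [[3, 8, 15, 22]])]

theorem c2_6_8_8_12 : chkUnits 24 [12, 4, 3, 3, 2] c2_6_8_8_12U = true ∧ chkChars 24 [12, 4, 3, 3, 2] c2_6_8_8_12A = true := by decide +kernel

/-- exponents [3, 3, 6, 8, 24] -/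
def c3_3_6_8_24U : List Cert := [
  ([1], [], [[8, 8, 4, 3, 1]], []),
  ([1, 5], [], [[4, 20], [8, 16], [8, 16], [1, 3, 5, 15]], []),
  ([1, 7], [], [[3, 21], [1, 7, 8, 8], [4, 4, 8, 8]], []),
  ([1, 11], [], [[4, 20], [8, 16], [8, 16], [1, 3, 9, 11]], []),
  ([1, 13], [], [[1, 8, 15], [3, 8, 13], [4, 4, 8, 8]], []),
  ([1, 17], [], [[4, 20], [8, 16], [8, 16], [1, 3, 3, 17]], []),
  ([1, 19], [], [[1, 4, 19], [3, 4, 8, 9], [8, 8, 8]], []),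
  ([1, 7, 11], [], [[3, 21], [4, 20], [8, 16], [8, 16], [1, 4, 7, 8, 8, 9, 11]], []),
  ([1, 7, 13], [], [[3, 21], [1, 8, 15], [4, 7, 13], [4, 4, 8, 8], [8, 8, 8]], []),
  ([1, 11, 17], [], [[4, 20], [8, 16], [8, 16], [1, 3, 20], [3, 9, 11, 16, 16, 17]], []),
  ([1, 13, 17], [], [[4, 20], [8, 16], [8, 16], [1, 8, 15], [3, 3, 4, 8, 13, 17]], []),
  ([1, 5, 7, 11], [], [[3, 21], [4, 20], [4, 20], [8, 16], [8, 16], [8, 16], [8, 16], [9, 15], [1, 5, 7, 11]], []),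
  ([1, 5, 7, 13], [], [[3, 21], [4, 20], [8, 16], [8, 16], [1, 8, 15], [4, 5, 15], [4, 7, 8, 8, 8, 13]], []),
  ([1, 5, 13, 17], [], [[4, 20], [4, 20], [8, 16], [8, 16], [8, 16], [8, 16], [1, 3, 3, 5, 13, 15, 15, 17]], []),
  ([1, 7, 13, 19], [], [[3, 21], [9, 15], [1, 4, 19], [4, 7, 13], [4, 4, 8, 8], [8, 8, 8], [8, 8, 8]], []),
  ([1, 11, 17, 19], [], [[4, 20], [4, 20], [8, 16], [8, 16], [8, 16], [8, 16], [1, 3, 3, 9, 9, 11, 17, 19]], [])]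

/-- exponents [3, 3, 6, 8, 24] -/
def c3_3_6_8_24A : List Cert := [
  ([3, 8, 8, 9, 20], [12], [[3, 9, 12]], [[8, 8, 12, 20]]),
  ([3, 8, 8, 12, 17], [4], [[3, 4, 17]], [[8, 8, 12, 20]]),
  ([4, 6, 8, 8, 22], [8], [[8, 8, 8]], [[4, 6, 16, 22]]),
  ([6, 6, 8, 8, 20], [10], [[6, 8, 10]], [[6, 8, 14, 20]]),
  ([6, 8, 8, 12, 14], [2], [[2, 8, 14]], [[6, 8, 12, 22]])]

theorem c3_3_6_8_24 : chkUnits 24 [8, 8, 4, 3, 1] c3_3_6_8_24U = true ∧ chkChars 24 [8, 8, 4, 3, 1] c3_3_6_8_24A = true := by decide +kernel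

/-- exponents [3, 3, 8, 8, 12] -/
def c3_3_8_8_12U : List Cert := [
  ([1], [], [[8, 8, 3, 3, 2]], []),
  ([1, 5], [], [[8, 16], [8, 16], [2, 3, 3, 10, 15, 15]], []),
  ([1, 7], [], [[3, 21], [3, 21], [2, 8, 8, 8, 8, 14]], []),
  ([1, 11], [], [[2, 22], [8, 16], [8, 16], [3, 3, 9, 9]], []),
  ([1, 13], [2], [[2, 2, 2, 3, 15], [8, 8, 8]], [[3, 8, 15, 22]]),
  ([1, 17], [], [[8, 16], [8, 16], [2, 3, 3, 3, 3, 10]], []),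
  ([1, 19], [], [[2, 8, 14], [3, 3, 9, 9], [8, 8, 8]], []),
  ([1, 7, 11], [], [[2, 22], [3, 21], [3, 21], [8, 16], [8, 16], [8, 8, 9, 9, 14]], []),
  ([1, 7, 13], [], [[3, 21], [3, 21], [2, 8, 14], [2, 8, 8, 15, 15], [8, 8, 8]], []),
  ([1, 11, 17], [], [[2, 22], [8, 16], [8, 16], [3, 3, 9, 9], [3, 3, 10, 16, 16]], []),
  ([1, 13, 17], [2], [[8, 16], [8, 16], [2, 2, 2, 3, 15], [3, 3, 3, 15]], [[8, 8, 10, 22]]),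
  ([1, 5, 7, 11], [], [[2, 22], [3, 21], [3, 21], [8, 16], [8, 16], [8, 16], [8, 16], [9, 15], [9, 15], [10, 14]], []),
  ([1, 5, 7, 13], [], [[3, 21], [3, 21], [8, 16], [8, 16], [10, 14], [2, 8, 8, 15, 15], [2, 8, 8, 15, 15]], []),
  ([1, 5, 13, 17], [], [[8, 16], [8, 16], [8, 16], [8, 16], [2, 2, 10, 10], [3, 3, 3, 15], [3, 15, 15, 15]], []),
  ([1, 7, 13, 19], [], [[3, 21], [3, 21], [9, 15], [9, 15], [2, 8, 14], [2, 8, 14], [8, 8, 8, 8, 8, 8]], []),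
  ([1, 11, 17, 19], [], [[2, 22], [8, 16], [8, 16], [8, 16], [8, 16], [10, 14], [3, 3, 3, 3, 9, 9, 9, 9]], [])]

/-- exponents [3, 3, 8, 8, 12] -/
def c3_3_8_8_12A : List Cert := [
  ([3, 8, 8, 9, 20], [12], [[3, 9, 12]], [[8, 8, 12, 20]]),
  ([3, 8, 8, 14, 15], [2], [[2, 8, 14]], [[3, 8, 15, 22]]),
  ([6, 6, 8, 8, 20], [10], [[6, 8, 10]], [[6, 8, 14, 20]]),
  ([6, 8, 8, 12, 14], [2], [[2, 8, 14]], [[6, 8, 12, 22]])]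

theorem c3_3_8_8_12 : chkUnits 24 [8, 8, 3, 3, 2] c3_3_8_8_12U = true ∧ chkChars 24 [8, 8, 3, 3, 2] c3_3_8_8_12A = true := by decide +kernel

/-- exponents [3, 4, 6, 8, 8] -/
def c3_4_6_8_8U : List Cert := [
  ([1], [], [[8, 6, 4, 3, 3]], []),
  ([1, 5], [], [[4, 20], [8, 16], [3, 3, 6, 6, 15, 15]], []),
  ([1, 7], [], [[3, 21], [3, 21], [6, 18], [4, 4, 8, 8]], []),
  ([1, 11], [], [[4, 20], [6, 18], [8, 16], [3, 3, 9, 9]], []),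
  ([1, 13], [], [[3, 6, 15], [3, 6, 15], [4, 4, 8, 8]], []),
  ([1, 17], [], [[4, 20], [8, 16], [3, 3, 3, 3, 6, 6]], []),
  ([1, 19], [], [[6, 18], [3, 3, 9, 9], [4, 4, 8, 8]], []),
  ([1, 7, 11], [], [[3, 21], [3, 21], [4, 20], [6, 18], [8, 16], [4, 8, 9, 9, 18]], []),
  ([1, 7, 13], [], [[3, 21], [3, 21], [6, 18], [4, 4, 8, 8], [4, 6, 8, 15, 15]], []),
  ([1, 11, 17], [], [[4, 20], [6, 18], [8, 16], [3, 3, 9, 9], [3, 3, 6, 16, 20]], []),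
  ([1, 13, 17], [], [[4, 20], [8, 16], [3, 6, 15], [3, 6, 15], [3, 3, 4, 6, 8]], []),
  ([1, 5, 7, 11], [], [[3, 21], [3, 21], [4, 20], [4, 20], [6, 18], [6, 18], [8, 16], [8, 16], [9, 15], [9, 15]], []),
  ([1, 5, 7, 13], [], [[3, 21], [3, 21], [4, 20], [6, 18], [8, 16], [4, 4, 8, 8], [6, 6, 15, 15, 15, 15]], []),
  ([1, 5, 13, 17], [], [[4, 20], [4, 20], [8, 16], [8, 16], [3, 6, 15], [3, 6, 15], [3, 3, 6, 6, 15, 15]], []),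
  ([1, 7, 13, 19], [], [[3, 21], [3, 21], [6, 18], [6, 18], [9, 15], [9, 15], [4, 4, 4, 4, 8, 8, 8, 8]], []),
  ([1, 11, 17, 19], [], [[4, 20], [4, 20], [6, 18], [6, 18], [8, 16], [8, 16], [3, 3, 3, 3, 9, 9, 9, 9]], [])]

/-- exponents [3, 4, 6, 8, 8] -/
def c3_4_6_8_8A : List Cert := [
  ([4, 6, 8, 9, 21], [10], [[4, 6, 14]], [[8, 9, 10, 21]])]

theorem c3_4_6_8_8 : chkUnits 24 [8, 6, 4, 3, 3] c3_4_6_8_8U = true ∧ chkChars 24 [8, 6, 4, 3, 3] c3_4_6_8_8A = true := by decide +kernel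

/-- exponents [2, 3, 10, 30, 30] -/
def c2_3_10_30_30U : List Cert := [
  ([1], [], [[15, 10, 3, 1, 1]], []),
  ([1, 11], [], [[10, 20], [15, 15], [1, 1, 3, 3, 11, 11]], []),
  ([1, 13], [], [[15, 15], [1, 3, 13, 13], [1, 9, 10, 10]], []),
  ([1, 17], [], [[10, 20], [15, 15], [1, 1, 3, 17, 17, 21]], []),
  ([1, 19], [], [[3, 27], [15, 15], [1, 1, 10, 10, 19, 19]], []),
  ([1, 11, 13], [], [[10, 20], [15, 15], [1, 1, 13, 15], [3, 3, 11, 13], [9, 10, 11]], []),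
  ([1, 11, 17], [3], [[10, 20], [15, 15], [1, 3, 11, 15], [3, 3, 17, 17, 20]], [[1, 11, 21, 27]]),
  ([1, 13, 19], [], [[3, 27], [15, 15], [1, 10, 19], [1, 10, 19], [9, 10, 13, 13, 15]], []),
  ([1, 17, 19], [], [[3, 27], [10, 20], [15, 15], [1, 10, 19], [1, 15, 17, 17, 19, 21]], []),
  ([1, 7, 11, 13], [], [[9, 21], [10, 20], [15, 15], [15, 15], [1, 3, 13, 13], [1, 7, 11, 11], [3, 7, 10, 10]], []),
  ([1, 7, 11, 17], [], [[10, 20], [10, 20], [15, 15], [15, 15], [1, 1, 7, 21], [3, 3, 7, 17], [11, 11, 17, 21]], []),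
  ([1, 7, 13, 19], [], [[3, 27], [9, 21], [15, 15], [15, 15], [1, 10, 19], [1, 10, 19], [7, 7, 10, 10, 13, 13]], []),
  ([1, 17, 19, 23], [], [[3, 27], [9, 21], [10, 20], [10, 20], [15, 15], [15, 15], [1, 1, 17, 17, 19, 19, 23, 23]], [])]

/-- exponents [2, 3, 10, 30, 30] -/
def c2_3_10_30_30A : List Cert := [
  ([1, 6, 10, 15, 28], [1], [[1, 1, 28]], [[6, 10, 15, 29]]),
  ([3, 3, 10, 15, 29], [6], [[3, 3, 24]], [[6, 10, 15, 29]]),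
  ([3, 4, 10, 15, 28], [12], [[3, 12, 15]], [[4, 10, 18, 28]]),
  ([3, 6, 10, 15, 26], [1], [[1, 3, 26]], [[6, 10, 15, 29]]),
  ([3, 7, 10, 15, 25], [10], [[3, 7, 20]], [[10, 10, 15, 25]]),
  ([3, 8, 10, 15, 24], [7], [[7, 8, 15]], [[3, 10, 23, 24]]),
  ([3, 9, 10, 15, 23], [6], [[6, 9, 15]], [[3, 10, 23, 24]]),
  ([3, 10, 10, 15, 22], [5], [[3, 5, 22]], [[10, 10, 15, 25]]),
  ([3, 10, 13, 15, 19], [1], [[1, 10, 19]], [[3, 13, 15, 29]]),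
  ([3, 10, 14, 15, 18], [1], [[1, 14, 15]], [[3, 10, 18, 29]]),
  ([3, 10, 15, 16, 16], [4], [[4, 10, 16]], [[3, 15, 16, 26]]),
  ([4, 6, 10, 15, 25], [1], [[1, 4, 25]], [[6, 10, 15, 29]]),
  ([6, 6, 10, 15, 23], [1], [[1, 6, 23]], [[6, 10, 15, 29]]),
  ([6, 7, 10, 15, 22], [1], [[1, 7, 22]], [[6, 10, 15, 29]]),
  ([6, 10, 10, 15, 19], [1], [[1, 10, 19]], [[6, 10, 15, 29]]),
  ([6, 10, 11, 15, 18], [1], [[1, 11, 18]], [[6, 10, 15, 29]]),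
  ([6, 10, 13, 15, 16], [1], [[1, 13, 16]], [[6, 10, 15, 29]])]

theorem c2_3_10_30_30 : chkUnits 30 [15, 10, 3, 1, 1] c2_3_10_30_30U = true ∧ chkChars 30 [15, 10, 3, 1, 1] c2_3_10_30_30A = true := by decide +kernel

/-- exponents [2, 3, 15, 15, 30] -/
def c2_3_15_15_30U : List Cert := [
  ([1], [], [[15, 10, 2, 2, 1]], []),
  ([1, 11], [], [[10, 20], [15, 15], [1, 2, 2, 11, 22, 22]], []),
  ([1, 13], [], [[15, 15], [1, 10, 10, 13, 26], [2, 2, 26]], []),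
  ([1, 17], [], [[10, 20], [15, 15], [1, 2, 2, 4, 4, 17]], []),
  ([1, 19], [], [[15, 15], [1, 10, 19], [2, 2, 8, 8, 10]], []),
  ([1, 11, 13], [], [[10, 20], [15, 15], [1, 11, 22, 26], [2, 2, 26], [10, 13, 15, 22]], []),
  ([1, 11, 17], [], [[10, 20], [15, 15], [1, 15, 22, 22], [2, 11, 17], [2, 4, 4, 20]], []),
  ([1, 13, 19], [], [[15, 15], [1, 10, 19], [2, 13, 15], [2, 8, 10, 10], [8, 26, 26]], []),
  ([1, 17, 19], [3], [[10, 20], [15, 15], [2, 2, 3, 4, 19], [4, 8, 8, 10]], [[1, 15, 17, 27]]),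
  ([1, 7, 11, 13], [], [[10, 20], [15, 15], [15, 15], [1, 7, 22], [2, 2, 26], [10, 10, 14, 26], [11, 13, 14, 22]], []),
  ([1, 7, 11, 17], [], [[10, 20], [10, 20], [15, 15], [15, 15], [1, 7, 22], [2, 11, 17], [2, 4, 4, 14, 14, 22]], []),
  ([1, 7, 13, 19], [], [[15, 15], [15, 15], [1, 10, 19], [2, 2, 26], [7, 10, 13], [8, 8, 14], [10, 10, 14, 26]], []),
  ([1, 17, 19, 23], [], [[10, 20], [10, 20], [15, 15], [15, 15], [1, 2, 4, 23], [2, 4, 8, 16], [8, 16, 17, 19]], [])]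

/-- exponents [2, 3, 15, 15, 30] -/
def c2_3_15_15_30A : List Cert := [
  ([2, 4, 10, 15, 29], [6], [[2, 4, 24]], [[6, 10, 15, 29]]),
  ([2, 6, 10, 15, 27], [1], [[1, 2, 27]], [[6, 10, 15, 29]]),
  ([2, 8, 10, 15, 25], [10], [[2, 8, 20]], [[10, 10, 15, 25]]),
  ([2, 9, 10, 15, 24], [11], [[2, 9, 19]], [[10, 11, 15, 24]]),
  ([2, 10, 10, 15, 23], [5], [[2, 5, 23]], [[10, 10, 15, 25]]),
  ([2, 10, 11, 15, 22], [6], [[2, 6, 22]], [[10, 11, 15, 24]]),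
  ([2, 10, 12, 15, 21], [7], [[2, 7, 21]], [[10, 12, 15, 23]]),
  ([2, 10, 14, 15, 19], [1], [[1, 10, 19]], [[2, 14, 15, 29]]),
  ([2, 10, 15, 16, 17], [4], [[4, 10, 16]], [[2, 15, 17, 26]]),
  ([4, 4, 10, 15, 27], [14], [[4, 10, 16]], [[4, 14, 15, 27]]),
  ([4, 6, 10, 15, 25], [1], [[1, 4, 25]], [[6, 10, 15, 29]]),
  ([4, 7, 10, 15, 24], [8], [[7, 8, 15]], [[4, 10, 22, 24]]),
  ([4, 9, 10, 15, 22], [6], [[6, 9, 15]], [[4, 10, 22, 24]]),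
  ([4, 10, 10, 15, 21], [5], [[4, 5, 21]], [[10, 10, 15, 25]]),
  ([4, 10, 12, 15, 19], [7], [[4, 7, 19]], [[10, 12, 15, 23]]),
  ([4, 10, 13, 15, 18], [2], [[2, 10, 18]], [[4, 13, 15, 28]]),
  ([6, 6, 10, 15, 23], [1], [[1, 6, 23]], [[6, 10, 15, 29]]),
  ([6, 10, 10, 15, 19], [1], [[1, 10, 19]], [[6, 10, 15, 29]]),
  ([6, 10, 12, 15, 17], [1], [[1, 12, 17]], [[6, 10, 15, 29]])]

theorem c2_3_15_15_30 : chkUnits 30 [15, 10, 2, 2, 1] c2_3_15_15_30U = true ∧ chkChars 30 [15, 10, 2, 2, 1] c2_3_15_15_30A = true := by decide +kernel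

/-- exponents [3, 3, 5, 10, 30] -/
def c3_3_5_10_30U : List Cert := [
  ([1], [], [[10, 10, 6, 3, 1]], []),
  ([1, 11], [], [[10, 20], [10, 20], [1, 3, 3, 6, 6, 11]], []),
  ([1, 13], [], [[1, 6, 10, 13], [3, 9, 18], [10, 10, 10]], []),
  ([1, 17], [], [[10, 20], [10, 20], [1, 3, 6, 12, 17, 21]], []),
  ([1, 19], [], [[3, 27], [6, 24], [1, 10, 10, 10, 10, 19]], []),
  ([1, 11, 13], [], [[10, 20], [10, 20], [1, 6, 10, 13], [3, 9, 18], [3, 6, 10, 11]], []),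
  ([1, 11, 17], [], [[10, 20], [10, 20], [1, 12, 17], [3, 6, 21], [3, 6, 11, 20, 20]], []),
  ([1, 13, 19], [], [[3, 27], [6, 24], [1, 10, 19], [9, 10, 10, 13, 18], [10, 10, 10]], []),
  ([1, 17, 19], [], [[3, 27], [6, 24], [10, 20], [10, 20], [1, 10, 10, 12, 17, 19, 21]], []),
  ([1, 7, 11, 13], [], [[9, 21], [10, 20], [10, 20], [12, 18], [1, 6, 10, 13], [3, 6, 10, 11], [3, 7, 10, 10]], []),
  ([1, 7, 11, 17], [], [[10, 20], [10, 20], [10, 20], [10, 20], [1, 12, 17], [3, 6, 21], [3, 6, 7, 11, 12, 21]], []),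
  ([1, 7, 13, 19], [], [[3, 27], [6, 24], [9, 21], [12, 18], [1, 10, 19], [7, 10, 13], [10, 10, 10, 10, 10, 10]], []),
  ([1, 17, 19, 23], [], [[3, 27], [6, 24], [9, 21], [10, 20], [10, 20], [10, 20], [10, 20], [12, 18], [1, 17, 19, 23]], [])]

/-- exponents [3, 3, 5, 10, 30] -/
def c3_3_5_10_30A : List Cert := [
  ([6, 6, 10, 10, 28], [14], [[6, 10, 14]], [[6, 10, 16, 28]]),
  ([6, 7, 10, 10, 27], [10], [[10, 10, 10]], [[6, 7, 20, 27]]),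
  ([6, 9, 10, 10, 25], [11], [[9, 10, 11]], [[6, 10, 19, 25]]),
  ([6, 10, 10, 12, 22], [14], [[6, 10, 14]], [[10, 12, 16, 22]]),
  ([6, 10, 10, 13, 21], [7], [[7, 10, 13]], [[6, 10, 21, 23]]),
  ([6, 10, 10, 15, 19], [1], [[1, 10, 19]], [[6, 10, 15, 29]])]

theorem c3_3_5_10_30 : chkUnits 30 [10, 10, 6, 3, 1] c3_3_5_10_30U = true ∧ chkChars 30 [10, 10, 6, 3, 1] c3_3_5_10_30A = true := by decide +kernel

/-- exponents [3, 5, 5, 6, 10] -/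
def c3_5_5_6_10U : List Cert := [
  ([1], [], [[10, 6, 6, 5, 3]], []),
  ([1, 11], [], [[5, 25], [10, 20], [3, 3, 6, 6, 6, 6]], []),
  ([1, 13], [], [[3, 9, 18], [5, 5, 10, 10], [6, 6, 18]], []),
  ([1, 17], [], [[5, 25], [10, 20], [3, 6, 6, 12, 12, 21]], []),
  ([1, 19], [], [[3, 27], [6, 24], [6, 24], [5, 5, 10, 10]], []),
  ([1, 11, 13], [], [[5, 25], [10, 20], [3, 9, 18], [3, 5, 6, 6, 10], [6, 6, 18]], []),
  ([1, 11, 17], [], [[5, 25], [10, 20], [3, 6, 21], [3, 12, 20, 25], [6, 6, 6, 12]], []),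
  ([1, 13, 19], [], [[3, 27], [6, 24], [6, 24], [5, 5, 10, 10], [5, 9, 10, 18, 18]], []),
  ([1, 17, 19], [], [[3, 27], [5, 25], [6, 24], [6, 24], [10, 20], [5, 10, 12, 12, 21]], []),
  ([1, 7, 11, 13], [], [[5, 25], [9, 21], [10, 20], [12, 18], [12, 18], [3, 5, 6, 6, 10], [3, 5, 6, 6, 10]], []),
  ([1, 7, 11, 17], [], [[5, 25], [5, 25], [10, 20], [10, 20], [3, 6, 21], [3, 6, 21], [6, 6, 12, 12, 12, 12]], []),
  ([1, 7, 13, 19], [], [[3, 27], [6, 24], [6, 24], [9, 21], [12, 18], [12, 18], [5, 5, 5, 5, 10, 10, 10, 10]], []),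
  ([1, 17, 19, 23], [], [[3, 27], [5, 25], [5, 25], [6, 24], [6, 24], [9, 21], [10, 20], [10, 20], [12, 18], [12, 18]], [])]

/-- exponents [3, 5, 5, 6, 10] -/
def c3_5_5_6_10A : List Cert := [
  ([5, 6, 10, 12, 27], [11], [[5, 6, 19]], [[10, 11, 12, 27]])]

theorem c3_5_5_6_10 : chkUnits 30 [10, 6, 6, 5, 3] c3_5_5_6_10U = true ∧ chkChars 30 [10, 6, 6, 5, 3] c3_5_5_6_10A = true := by decide +kernel

end Pool.Agent.TH540.CY
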