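import Pool.Agent.TH540.Trip

/-!
# Cutting characters of prime degree into vanishing sums
-/

set_option linter.unusedSectionVars false

namespace Pool.Agent.TH540

open Finset Pool.Agent.H916R2 Pool.Agent.H916T

variable {p l : ℕ} [Fact l.Prime]

/-- `b` is a multiple of `a` by a power of `p` -/
def Fr (p : ℕ) {l : ℕ} (a b : ZMod l) : Prop := ∃ j : ℕ, b = (p : ZMod l) ^ j * a

lemma fr_refl (a : ZMod l) : Fr p a a := ⟨0, by simp⟩

lemma rel_refl (s : Multiset (ZMod l)) : Multiset.Rel (Fr p) s s :=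
  Multiset.rel_refl_of_refl_on fun a _ => fr_refl a

lemma fr_trans {a b c : ZMod l} (h : Fr p a b) (h' : Fr p b c) : Fr p a c := by
  obtain ⟨i, rfl⟩ := h
  obtain ⟨j, rfl⟩ := h'
  exact ⟨j + i, by rw [pow_add, mul_assoc]⟩

lemma rel_trans {s t u : Multiset (ZMod l)} (h : Multiset.Rel (Fr p) s t)
    (h' : Multiset.Rel (Fr p) t u) : Multiset.Rel (Fr p) s u := by
  have : IsTrans (ZMod l) (Fr p) := ⟨fun _ _ _ => fr_trans⟩
  exact Multiset.Rel.trans (Fr p) h h'

lemma rel_smul (s : Multiset (ZMod l)) (j : ℕ) :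
    Multiset.Rel (Fr p) s (s.map fun a => (p : ZMod l) ^ j * a) := by
  rw [Multiset.rel_map_right]
  exact Multiset.rel_refl_of_refl_on fun a _ => ⟨j, rfl⟩

lemma rel_zero_not_mem (hp : (p : ZMod l) ≠ 0) {s t : Multiset (ZMod l)}
    (h : Multiset.Rel (Fr p) s t) (h0 : (0 : ZMod l) ∉ s) : (0 : ZMod l) ∉ t := by
  intro ht
  obtain ⟨a, ha, j, hj⟩ := Multiset.exists_mem_of_rel_of_mem (Multiset.rel_flip.mpr h) ht
  have h1 : a = 0 := (mul_eq_zero.mp hj.symm).resolve_left (pow_ne_zero j hp)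
  rw [h1] at ha
  exact h0 ha

lemma smul_sum (s : Multiset (ZMod l)) (c : ZMod l) : (s.map fun a => c * a).sum = c * s.sum := by
  rw [Multiset.sum_map_mul_left, Multiset.map_id']

lemma card_succ {α : Type*} {s : Multiset α} {n : ℕ} (h : Multiset.card s = n + 1) :
    ∃ a t, s = a ::ₘ t ∧ Multiset.card t = n := by
  obtain ⟨a, ha⟩ := Multiset.card_pos_iff_exists_mem.mp (by omega : 0 < Multiset.card s)
  obtain ⟨t, rfl⟩ := Multiset.exists_cons_of_mem ha
  exact ⟨a, t, rfl, by rw [Multiset.card_cons] at h; omega⟩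

/-- the classes of a nonempty list contain a list with nonzero sum -/
lemma exists_ne (hp : (p : ZMod l) ≠ 0) (hT : Trip p l) : ∀ n : ℕ, ∀ s : Multiset (ZMod l),
    Multiset.card s = n + 1 → (0 : ZMod l) ∉ s → ∃ s', Multiset.Rel (Fr p) s s' ∧ s'.sum ≠ 0 := by
  intro n
  induction n with
  | zero =>
    intro s hs h0
    obtain ⟨a, rfl⟩ := Multiset.card_eq_one.mp hs
    exact ⟨{a}, rel_refl _, by
      rw [Multiset.sum_singleton]
      exact fun h => h0 (by rw [h]; exact Multiset.mem_singleton_self 0)⟩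
  | succ n ih =>
    intro s hs h0
    obtain ⟨u, s0, rfl, hc⟩ := card_succ hs
    rw [Multiset.mem_cons, not_or] at h0
    obtain ⟨s', h1, h2⟩ := ih s0 hc h0.2
    obtain ⟨i, j, k, h3⟩ := hT u s'.sum 1 (Ne.symm h0.1) h2 one_ne_zero
    refine ⟨((p : ZMod l) ^ i * u) ::ₘ s'.map fun a => (p : ZMod l) ^ j * a,
      Multiset.Rel.cons ⟨i, rfl⟩ (rel_trans h1 (rel_smul _ _)), ?_⟩
    rw [Multiset.sum_cons, smul_sum]
    intro h4
    rw [h4, zero_add, mul_one] at h3
    exact pow_ne_zero k hp h3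

/-- the classes of a list with at least three entries contain a list with sum zero -/
lemma exists_zero (hp : (p : ZMod l) ≠ 0) (hT : Trip p l) {s : Multiset (ZMod l)}
    (hs : 3 ≤ Multiset.card s) (h0 : (0 : ZMod l) ∉ s) :
    ∃ s', Multiset.Rel (Fr p) s s' ∧ s'.sum = 0 := by
  obtain ⟨n, hn⟩ : ∃ n, Multiset.card s = n + 1 + 1 + 1 := ⟨Multiset.card s - 3, by omega⟩
  obtain ⟨u, s1, rfl, hc⟩ := card_succ hn
  obtain ⟨v, s2, rfl, hc'⟩ := card_succ hc
  rw [Multiset.mem_cons, not_or, Multiset.mem_cons, not_or] at h0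
  obtain ⟨s', h1, h2⟩ := exists_ne hp hT n s2 hc' h0.2.2
  obtain ⟨i, j, k, h3⟩ := hT u v s'.sum (Ne.symm h0.1) (Ne.symm h0.2.1) h2
  refine ⟨((p : ZMod l) ^ i * u) ::ₘ ((p : ZMod l) ^ j * v) ::ₘ
    s'.map fun a => (p : ZMod l) ^ k * a,
      Multiset.Rel.cons ⟨i, rfl⟩ (Multiset.Rel.cons ⟨j, rfl⟩ (rel_trans h1 (rel_smul _ _))), ?_⟩
  rw [Multiset.sum_cons, Multiset.sum_cons, smul_sum, ← h3]
  ring

/-- **Cutting into triples.** -/
theorem split (hp : (p : ZMod l) ≠ 0) (hT : Trip p l) : ∀ ν : ℕ, ∀ s : Multiset (ZMod l),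
    3 * (ν + 1) ≤ Multiset.card s → (0 : ZMod l) ∉ s →
    ∃ E : Multiset (Multiset (ZMod l)), Multiset.card E = ν + 1 ∧
      (∀ e ∈ E, (0 : ZMod l) ∉ e ∧ e.sum = 0 ∧ 3 ≤ Multiset.card e) ∧
      Multiset.Rel (Fr p) s E.join := by
  intro ν
  induction ν with
  | zero =>
    intro s hs h0
    obtain ⟨s', h1, h2⟩ := exists_zero hp hT (by omega) h0
    refine ⟨{s'}, Multiset.card_singleton _, fun e he => ?_, ?_⟩
    · rw [Multiset.mem_singleton] at he
      subst he
      exact ⟨rel_zero_not_mem hp h1 h0, h2, by rw [← Multiset.card_eq_card_of_rel h1]; omega⟩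
    · rwa [Multiset.join, Multiset.sum_singleton]
  | succ ν ih =>
    intro s hs h0
    obtain ⟨n, hn⟩ : ∃ n, Multiset.card s = n + 1 + 1 + 1 := ⟨Multiset.card s - 3, by omega⟩
    obtain ⟨u, s1, rfl, hc⟩ := card_succ hn
    obtain ⟨v, s2, rfl, hc'⟩ := card_succ hc
    obtain ⟨w, s3, rfl, hc''⟩ := card_succ hc'
    rw [Multiset.mem_cons, not_or, Multiset.mem_cons, not_or, Multiset.mem_cons, not_or] at h0
    obtain ⟨i, j, k, h3⟩ := hT u v w (Ne.symm h0.1) (Ne.symm h0.2.1) (Ne.symm h0.2.2.1)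
    simp only [Multiset.card_cons] at hs
    obtain ⟨E, hE1, hE2, hE3⟩ := ih s3 (by omega) h0.2.2.2
    have hrel : Multiset.Rel (Fr p) (u ::ₘ v ::ₘ w ::ₘ 0)
        (((p : ZMod l) ^ i * u) ::ₘ ((p : ZMod l) ^ j * v) ::ₘ ((p : ZMod l) ^ k * w) ::ₘ 0) :=
      Multiset.Rel.cons ⟨i, rfl⟩ (Multiset.Rel.cons ⟨j, rfl⟩ (Multiset.Rel.cons ⟨k, rfl⟩
        Multiset.Rel.zero))
    refine ⟨(((p : ZMod l) ^ i * u) ::ₘ ((p : ZMod l) ^ j * v) ::ₘ
      ((p : ZMod l) ^ k * w) ::ₘ 0) ::ₘ E, by rw [Multiset.card_cons, hE1], ?_, ?_⟩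
    · intro e he
      rcases Multiset.mem_cons.mp he with rfl | he
      · refine ⟨rel_zero_not_mem hp hrel (by simp [h0.1, h0.2.1, h0.2.2.1]), ?_, by simp⟩
        simp only [Multiset.sum_cons, Multiset.sum_zero]
        linear_combination h3
      · exact hE2 e he
    · rw [Multiset.join_cons]
      have h4 : u ::ₘ v ::ₘ w ::ₘ s3 = (u ::ₘ v ::ₘ w ::ₘ 0) + s3 := by
        simp only [Multiset.cons_add, zero_add]
      rw [h4]
      exact Multiset.Rel.add hrel hE3

/-- merging vanishing sums -/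
lemma merge {c ν : ℕ} : ∀ k : ℕ, ∀ E : Multiset (Multiset (ZMod l)), Multiset.card E = ν + 1 + k →
    (∀ e ∈ E, (0 : ZMod l) ∉ e ∧ e.sum = 0 ∧ c ≤ Multiset.card e) →
    ∃ E' : Multiset (Multiset (ZMod l)), Multiset.card E' = ν + 1 ∧
      (∀ e ∈ E', (0 : ZMod l) ∉ e ∧ e.sum = 0 ∧ c ≤ Multiset.card e) ∧ E'.join = E.join := by
  intro k
  induction k with
  | zero => exact fun E hE h => ⟨E, hE, h, rfl⟩
  | succ k ih =>
    intro E hE h
    obtain ⟨a, E1, rfl, h1⟩ := card_succ (n := ν + k + 1)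
      (show Multiset.card E = ν + k + 1 + 1 by omega)
    obtain ⟨b, E2, rfl, h2⟩ := card_succ (n := ν + k) h1
    obtain ⟨E', h3, h4, h5⟩ := ih ((a + b) ::ₘ E2) (by rw [Multiset.card_cons]; omega) (by
      intro e he
      rcases Multiset.mem_cons.mp he with rfl | he
      · have ha := h a (Multiset.mem_cons_self _ _)
        have hb := h b (Multiset.mem_cons_of_mem (Multiset.mem_cons_self _ _))
        refine ⟨?_, by rw [Multiset.sum_add, ha.2.1, hb.2.1, add_zero], ?_⟩
        · rw [Multiset.mem_add, not_or]; exact ⟨ha.1, hb.1⟩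
        · rw [Multiset.card_add]; have := ha.2.2; omega
      · exact h e (Multiset.mem_cons_of_mem (Multiset.mem_cons_of_mem he)))
    refine ⟨E', h3, h4, ?_⟩
    rw [h5, Multiset.join_cons, Multiset.join_cons, Multiset.join_cons, add_assoc]

lemma join_sum_zero {E : Multiset (Multiset (ZMod l))} (h : ∀ e ∈ E, e.sum = 0) :
    E.join.sum = 0 := by
  induction E using Multiset.induction_on with
  | empty => simp
  | cons e E ih =>
    rw [Multiset.join_cons, Multiset.sum_add, h e (Multiset.mem_cons_self _ _), zero_add]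
    exact ih fun x hx => h x (Multiset.mem_cons_of_mem hx)

lemma rel_W (t : (ZMod l)ˣ) {s s' : Multiset (ZMod l)}
    (h : Multiset.Rel (Fr p) s s') :
    (s'.map fun a => W p ((t : ZMod l) * a)).sum = (s.map fun a => W p ((t : ZMod l) * a)).sum := by
  induction h with
  | zero => rfl
  | cons hab _ ih =>
    obtain ⟨j, rfl⟩ := hab
    rw [Multiset.map_cons, Multiset.sum_cons, Multiset.map_cons, Multiset.sum_cons, ih,
      mul_left_comm, W_pow_mul]

/-- a list and the negatives of a list in the same classes form a Tate character -/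
lemma isTate_rel (hp : p.Coprime l) {s s' : Multiset (ZMod l)} (h : Multiset.Rel (Fr p) s s')
    (h0 : (0 : ZMod l) ∉ s) (h0' : (0 : ZMod l) ∉ s') (hs : s.sum = 0) (hs' : s'.sum = 0) :
    IsTate p l (s + s'.map Neg.neg) := by
  refine isTate_of_W hp ?_ ?_ ?_ ?_
  · rw [Multiset.mem_add, not_or]
    refine ⟨h0, fun h1 => ?_⟩
    obtain ⟨b, hb, hb0⟩ := Multiset.mem_map.mp h1
    rw [neg_eq_zero] at hb0
    rw [hb0] at hb
    exact h0' hb
  · rw [Multiset.card_add, Multiset.card_map, Multiset.card_eq_card_of_rel h]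
    exact Even.add_self _
  · rw [Multiset.sum_add, hs, zero_add, Multiset.sum_map_neg', hs', neg_zero]
  · intro t
    rw [Multiset.map_add, Multiset.sum_add, Multiset.map_map]
    have h1 : (s'.map ((fun a => W p ((t : ZMod l) * a)) ∘ Neg.neg)).sum =
        -(s'.map fun a => W p ((t : ZMod l) * a)).sum := by
      rw [← Multiset.sum_map_neg', Multiset.map_map]
      congr 1
      refine Multiset.map_congr rfl fun a _ => ?_
      simp only [Function.comp]
      rw [mul_neg, W_neg]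
    rw [h1, rel_W t h]
    ring

/-! ### index two -/

section two

/-- the pairs -/
def prs (Q : Multiset (ZMod l)) : Multiset (Multiset (ZMod l)) := Q.map fun x => x ::ₘ -x ::ₘ 0

lemma fr_of_char (hl3 : l % 4 = 3) (hf : 2 * orderOf (p : ZMod l) = l - 1) {a b : ZMod l}
    (ha : a ≠ 0) (hb : b ≠ 0) (h : quadraticChar (ZMod l) a = quadraticChar (ZMod l) b) :
    Fr p a b := by
  have hl2 : l ≠ 2 := by rintro rfl; omega
  have hprim : IsPrimitiveRoot (p : ZMod l) (orderOf (p : ZMod l)) := IsPrimitiveRoot.orderOf _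
  have hc : ringChar (ZMod l) ≠ 2 := by rw [ZMod.ringChar_zmod_n]; exact hl2
  have hcard : Fintype.card (ZMod l) / 2 = orderOf (p : ZMod l) := by rw [ZMod.card]; omega
  have h1 : quadraticChar (ZMod l) (b * a⁻¹) = 1 := by
    rw [map_mul, ← h]
    have h2 : quadraticChar (ZMod l) a * quadraticChar (ZMod l) a⁻¹ = 1 := by
      rw [← map_mul, mul_inv_cancel₀ ha, map_one]
    exact h2
  have h3 : (b * a⁻¹) ^ orderOf (p : ZMod l) = 1 := by
    have h4 := quadraticChar_eq_pow_of_char_ne_two' hc (b * a⁻¹)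
    rw [h1, hcard] at h4
    simpa using h4.symm
  have : NeZero (orderOf (p : ZMod l)) := ⟨by
    have := (Fact.out : l.Prime).two_le; omega⟩
  obtain ⟨i, _, hi⟩ := hprim.eq_pow_of_pow_eq_one h3
  exact ⟨i, by rw [hi]; field_simp⟩

/-- the difference of the numbers of squares and of nonsquares -/
def DD (s : Multiset (ZMod l)) : ℤ := (s.map fun a => quadraticChar (ZMod l) a).sum

lemma char_neg (hl3 : l % 4 = 3) (a : ZMod l) :
    quadraticChar (ZMod l) (-a) = -quadraticChar (ZMod l) a := by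
  have hl2 : l ≠ 2 := by rintro rfl; omega
  have hc : ringChar (ZMod l) ≠ 2 := by rw [ZMod.ringChar_zmod_n]; exact hl2
  have h1 : quadraticChar (ZMod l) (-1) = -1 := by
    rw [quadraticChar_neg_one hc, ZMod.card]
    exact ZMod.χ₄_nat_three_mod_four hl3
  have h2 : -a = -1 * a := by ring
  rw [h2, map_mul, h1]
  ring

lemma DD_cons (a : ZMod l) (s : Multiset (ZMod l)) :
    DD (a ::ₘ s) = quadraticChar (ZMod l) a + DD s := by
  unfold DD
  rw [Multiset.map_cons, Multiset.sum_cons]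

lemma DD_const {ε : ℤ} {s : Multiset (ZMod l)} (h : ∀ a ∈ s, quadraticChar (ZMod l) a = ε) :
    DD s = ε * Multiset.card s := by
  induction s using Multiset.induction_on with
  | empty => simp [DD]
  | cons a s ih =>
    rw [DD_cons, h a (Multiset.mem_cons_self _ _),
      ih fun x hx => h x (Multiset.mem_cons_of_mem hx), Multiset.card_cons]
    push_cast
    ring

lemma decompose (hl3 : l % 4 = 3) (hf : 2 * orderOf (p : ZMod l) = l - 1) : ∀ n : ℕ,
    ∀ s : Multiset (ZMod l), Multiset.card s = n → (0 : ZMod l) ∉ s →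
    ∃ Q R : Multiset (ZMod l), ∃ ε : ℤ, Multiset.Rel (Fr p) s ((prs Q).join + R) ∧
      (0 : ZMod l) ∉ Q ∧ (0 : ZMod l) ∉ R ∧ (ε = 1 ∨ ε = -1) ∧ DD s = ε * Multiset.card R ∧
      Multiset.card s = 2 * Multiset.card Q + Multiset.card R := by
  intro n
  induction n using Nat.strong_induction_on with
  | _ n ih =>
    intro s hs h0
    have hdich : ∀ a ∈ s, quadraticChar (ZMod l) a = 1 ∨ quadraticChar (ZMod l) a = -1 :=
      fun a ha => quadraticChar_dichotomy (fun h => h0 (h ▸ ha))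
    by_cases h1 : ∀ a ∈ s, quadraticChar (ZMod l) a = 1
    · exact ⟨0, s, 1, by simpa [prs] using rel_refl (p := p) s, by simp, h0, Or.inl rfl,
        DD_const h1, by simp⟩
    by_cases h2 : ∀ a ∈ s, quadraticChar (ZMod l) a = -1
    · exact ⟨0, s, -1, by simpa [prs] using rel_refl (p := p) s, by simp, h0, Or.inr rfl,
        DD_const h2, by simp⟩
    push Not at h1 h2
    obtain ⟨b, hb, hb1⟩ := h1
    obtain ⟨a, ha, ha1⟩ := h2
    have hb' : quadraticChar (ZMod l) b = -1 := (hdich b hb).resolve_left hb1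
    have ha' : quadraticChar (ZMod l) a = 1 := (hdich a ha).resolve_right ha1
    obtain ⟨s1, rfl⟩ := Multiset.exists_cons_of_mem ha
    have hb2 : b ∈ s1 := by
      rcases Multiset.mem_cons.mp hb with h | h
      · rw [h, ha'] at hb'; norm_num at hb'
      · exact h
    obtain ⟨s2, rfl⟩ := Multiset.exists_cons_of_mem hb2
    rw [Multiset.mem_cons, not_or, Multiset.mem_cons, not_or] at h0
    simp only [Multiset.card_cons] at hs
    obtain ⟨Q, R, ε, k1, k2, k3, k4, k5, k6⟩ := ih (Multiset.card s2) (by omega) s2 rfl h0.2.2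
    have hfr : Fr p b (-a) := fr_of_char hl3 hf (Ne.symm h0.2.1)
      (neg_ne_zero.mpr (Ne.symm h0.1)) (by rw [char_neg hl3, ha', hb'])
    refine ⟨a ::ₘ Q, R, ε, ?_, ?_, k3, k4, ?_, ?_⟩
    · unfold prs at k1 ⊢
      rw [Multiset.map_cons, Multiset.join_cons, add_assoc, Multiset.cons_add, Multiset.cons_add,
        zero_add]
      exact Multiset.Rel.cons (fr_refl a) (Multiset.Rel.cons hfr k1)
    · rw [Multiset.mem_cons, not_or]; exact ⟨h0.1, k2⟩
    · rw [DD_cons, DD_cons, ha', hb', k5]; ring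
    · simp only [Multiset.card_cons]; omega

lemma prs_good {Q : Multiset (ZMod l)} (h0 : (0 : ZMod l) ∉ Q) : ∀ e ∈ prs Q,
    (0 : ZMod l) ∉ e ∧ e.sum = 0 ∧ 2 ≤ Multiset.card e := by
  intro e he
  obtain ⟨x, hx, rfl⟩ := Multiset.mem_map.mp he
  have hx0 : x ≠ 0 := fun h => h0 (h ▸ hx)
  refine ⟨?_, by simp, by simp⟩
  simp only [Multiset.mem_cons, not_or, Multiset.notMem_zero, not_false_eq_true, and_true]
  exact ⟨Ne.symm hx0, Ne.symm (neg_ne_zero.mpr hx0)⟩

/-- **Cutting in the case of index two.** -/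
theorem level (hp : (p : ZMod l) ≠ 0) (hT : Trip p l) (hl3 : l % 4 = 3)
    (hf : 2 * orderOf (p : ZMod l) = l - 1) {s : Multiset (ZMod l)} (h0 : (0 : ZMod l) ∉ s)
    {ν : ℕ} (hν : |DD s| + 6 * (ν + 1) ≤ 3 * Multiset.card s) :
    ∃ E : Multiset (Multiset (ZMod l)), Multiset.card E = ν + 1 ∧
      (∀ e ∈ E, (0 : ZMod l) ∉ e ∧ e.sum = 0 ∧ 2 ≤ Multiset.card e) ∧
      Multiset.Rel (Fr p) s E.join := by
  obtain ⟨Q, R, ε, k1, k2, k3, k4, k5, k6⟩ := decompose hl3 hf (Multiset.card s) s rfl h0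
  have hD : |DD s| = Multiset.card R := by
    rw [k5, abs_mul, Nat.abs_cast]
    rcases k4 with rfl | rfl <;> simp
  have hkey : 3 * (ν + 1) ≤ 3 * Multiset.card Q + Multiset.card R := by
    rw [hD, k6] at hν
    push_cast at hν
    omega
  have hcQ : Multiset.card (prs Q) = Multiset.card Q := Multiset.card_map _ _
  rcases Nat.lt_or_ge (Multiset.card R) 3 with hR | hR
  · rcases Nat.eq_zero_or_pos (Multiset.card R) with hR0 | hR0
    · rw [Multiset.card_eq_zero] at hR0
      subst hR0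
      rw [add_zero] at k1
      obtain ⟨E', e1, e2, e3⟩ := merge (c := 2) (ν := ν) (Multiset.card Q - (ν + 1)) (prs Q) (by
        rw [hcQ]; simp only [Multiset.card_zero] at hkey; omega) (prs_good k2)
      exact ⟨E', e1, e2, by rw [e3]; exact k1⟩
    · obtain ⟨x, Q1, rfl, hQ1⟩ := card_succ (s := Q) (n := Multiset.card Q - 1) (by omega)
      rw [Multiset.mem_cons, not_or] at k2
      have hx0 : x ≠ 0 := Ne.symm k2.1
      have hmem : (0 : ZMod l) ∉ x ::ₘ -x ::ₘ R := by
        rw [Multiset.mem_cons, not_or, Multiset.mem_cons, not_or]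
        exact ⟨Ne.symm hx0, Ne.symm (neg_ne_zero.mpr hx0), k3⟩
      obtain ⟨e', r1, r2⟩ := exists_zero hp hT (s := x ::ₘ -x ::ₘ R)
        (by simp only [Multiset.card_cons]; omega) hmem
      have hc' : Multiset.card (prs Q1) = Multiset.card Q1 := Multiset.card_map _ _
      obtain ⟨E', e1, e2, e3⟩ := merge (c := 2) (ν := ν) (Multiset.card Q1 - ν) (e' ::ₘ prs Q1) (by
        rw [Multiset.card_cons, hc']
        simp only [Multiset.card_cons] at hkey
        omega) (by
        intro e he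
        rcases Multiset.mem_cons.mp he with rfl | he
        · refine ⟨rel_zero_not_mem hp r1 hmem, r2, ?_⟩
          rw [← Multiset.card_eq_card_of_rel r1]
          simp only [Multiset.card_cons]; omega
        · exact prs_good k2.2 e he)
      refine ⟨E', e1, e2, ?_⟩
      rw [e3, Multiset.join_cons]
      have h5 : (prs (x ::ₘ Q1)).join + R = (x ::ₘ -x ::ₘ R) + (prs Q1).join := by
        unfold prs
        rw [Multiset.map_cons, Multiset.join_cons]
        simp only [Multiset.cons_add, zero_add]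
        rw [add_comm R]
      rw [h5] at k1
      exact rel_trans k1 (Multiset.Rel.add r1 (rel_refl _))
  · obtain ⟨ER, e1, e2, e3⟩ := split hp hT (Multiset.card R / 3 - 1) R (by omega) k3
    obtain ⟨E', f1, f2, f3⟩ := merge (c := 2) (ν := ν)
      (Multiset.card Q + Multiset.card R / 3 - (ν + 1)) (prs Q + ER) (by
        rw [Multiset.card_add, hcQ, e1]; omega) (by
        intro e he
        rcases Multiset.mem_add.mp he with he | he
        · exact prs_good k2 e he
        · obtain ⟨g1, g2, g3⟩ := e2 e he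
          exact ⟨g1, g2, by omega⟩)
    refine ⟨E', f1, f2, ?_⟩
    rw [f3, Multiset.join_add]
    exact rel_trans k1 (Multiset.Rel.add (rel_refl _) e3)

end two

end Pool.Agent.TH540
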