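import Pool.Agent.TH540.Phi
import Pool.Agent.H916Y.Fams3

/-!
# Evenness of the number of elements with a given support
-/

set_option linter.unusedSectionVars false

namespace Pool.Agent.TH540

open Finset Pool.Agent.H916R2 Pool.Agent.H916T Pool.Agent.H916U Pool.Agent.H916Z Pool.Agent.H916Q

variable {m p : ℕ}

open scoped Classical in
theorem even_of_dist [NeZero m] (hp : p.Coprime m) {s : Multiset (ZMod m)} (hs : Rel0 p s)
    {B W : Finset (PF m)} {φ : Finset (PF m) → (∀ i, GG m i) → ℤ} (hφ : Dist (sg m) (tt m) φ)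
    (h1 : ∀ x, ¬ 2 ∣ φ B x) (h2 : ∀ V, V ≠ B → ∀ x, 2 ∣ φ V x)
    (h3 : ∀ V, ¬ V ⊆ W → φ V = fun _ => 0) (hBW : B ⊆ W) (hW : ∀ i ∈ W, (i : ℕ) ≠ 2)
    (hinv : ∀ U x, φ U (vec m p * x) = φ U x) :
    Even (s.countP fun a => H916Q.TT m (addOrderOf a) = B) := by
  obtain ⟨k, hk, hk0⟩ := H916D.torsion_sum hp (H916Y.Psi_od' hφ) (H916Y.Psi_inv hφ hp hinv) s hs
  have hsum : (s.map (Psi φ)).sum = 0 := by
    rw [nsmul_eq_mul] at hk0
    rcases mul_eq_zero.mp hk0 with h | h
    · exact absurd (by exact_mod_cast h) hk.ne'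
    · exact h
  -- divide by the power of two
  obtain ⟨v, m', hm', hmm⟩ := Nat.exists_eq_two_pow_mul_odd (NeZero.ne m)
  have h2v : (2 : ℤ) ^ v ≠ 0 := pow_ne_zero _ two_ne_zero
  have key : ∀ a : ZMod m, ∃ r : ℤ, Psi φ a = 2 ^ v * r ∧
      (2 ∣ r ↔ ¬ (H916Q.TT m (addOrderOf a) = B)) := by
    intro a
    by_cases ha : H916Q.TT m (addOrderOf a) ⊆ W
    · have h2n : ¬ 2 ∣ addOrderOf a := by
        intro h2
        have h2m : 2 ∣ m := h2.trans (addOrderOf_dvd_level a)
        have h3 : (⟨2, Nat.mem_primeFactors.mpr ⟨Nat.prime_two, h2m, NeZero.ne m⟩⟩ : PF m) ∈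
            H916Q.TT m (addOrderOf a) := mem_TT.mpr h2
        exact hW _ (ha h3) rfl
      have hdvd := addOrderOf_dvd_level a
      have hg : Nat.gcd a.val m = m / addOrderOf a := by
        rw [H916Q.addOrderOf_eq, Nat.div_div_self (Nat.gcd_dvd_right _ _) (NeZero.ne m)]
      have hcop : (addOrderOf a).Coprime (2 ^ v) := by
        apply Nat.Coprime.pow_right
        rw [Nat.coprime_comm, Nat.prime_two.coprime_iff_not_dvd]
        exact h2n
      have hdm' : addOrderOf a ∣ m' := by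
        have h5 : addOrderOf a ∣ 2 ^ v * m' := hmm ▸ hdvd
        exact hcop.dvd_of_dvd_mul_left h5
      obtain ⟨e, he⟩ := hdm'
      have hpos := addOrderOf_pos a
      have hge : Nat.gcd a.val m = 2 ^ v * e := by
        have h5 : m = addOrderOf a * (2 ^ v * e) := by
          calc m = 2 ^ v * m' := hmm
            _ = 2 ^ v * (addOrderOf a * e) := congrArg (fun z => 2 ^ v * z) he
            _ = addOrderOf a * (2 ^ v * e) := by ring
        rw [hg]
        exact Nat.div_eq_of_eq_mul_right hpos h5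
      have heodd : ¬ 2 ∣ e := by
        intro h
        have h5 : 2 ∣ m' := he ▸ (h.mul_left _)
        exact (Nat.not_even_iff_odd.mpr hm') (even_iff_two_dvd.mpr h5)
      have heodd' : ¬ (2 : ℤ) ∣ (e : ℤ) := fun h => heodd (by exact_mod_cast h)
      have hprod : ¬ (2 : ℤ) ∣ ∏ i ∈ H916Q.TT m (m / Nat.gcd a.val m), ((i : ℕ) : ℤ) := by
        intro h
        rw [Prime.dvd_finsetProd_iff Int.prime_two] at h
        obtain ⟨i, hi, hi2⟩ := h
        rw [← H916Q.addOrderOf_eq] at hi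
        have h6 : 2 ∣ (i : ℕ) := by exact_mod_cast hi2
        have hip : (i : ℕ).Prime := Fact.out
        have h7 := (Nat.prime_dvd_prime_iff_eq Nat.prime_two hip).mp h6
        rw [mem_TT, ← h7] at hi
        exact h2n hi
      refine ⟨(e : ℤ) * (∏ i ∈ H916Q.TT m (m / Nat.gcd a.val m), ((i : ℕ) : ℤ)) *
        φ (H916Q.TT m (m / Nat.gcd a.val m)) (vec m (a.val / Nat.gcd a.val m)), ?_, ?_⟩
      · unfold Psi PsiN
        have h9 : ((Nat.gcd a.val m : ℕ) : ℤ) = 2 ^ v * (e : ℤ) := by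
          rw [hge]; push_cast; rfl
        rw [h9]; ring
      · rw [mul_assoc, two_dvd_mul_iff heodd', two_dvd_mul_iff hprod, ← H916Q.addOrderOf_eq]
        constructor
        · intro h hV
          rw [hV] at h
          exact h1 _ h
        · intro hV
          exact h2 _ hV _
    · refine ⟨0, ?_, ?_⟩
      · unfold Psi PsiN
        rw [← H916Q.addOrderOf_eq, h3 _ ha]; simp
      · refine ⟨fun _ hV => ha (hV ▸ hBW), fun _ => dvd_zero 2⟩
  choose r hr1 hr2 using key
  refine countP_parity _ r hr2 s ?_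
  have h1 : (s.map (Psi φ)).sum = 2 ^ v * (s.map r).sum := by
    rw [← Multiset.sum_map_mul_left]
    congr 1
    exact Multiset.map_congr rfl fun a _ => hr1 a
  rw [h1] at hsum
  exact (mul_eq_zero.mp hsum).resolve_left h2v

/-- supports consisting of primes congruent to one modulo four -/
theorem even_one [NeZero m] (hpm : p.Coprime m) (H : Hyp p m) {s : Multiset (ZMod m)}
    (hs : Rel0 p s) {S : Finset ℕ} (hS : S ⊆ m.primeFactors) (hne : S.Nonempty)
    (hS1 : ∀ q ∈ S, q % 4 = 1) (hdead : ¬ H916Y.Dead p S) : Even (s.countP (Supp S)) := by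
  classical
  set B := H916Y.FS m S with hBdef
  have hB : B.Nonempty := by
    obtain ⟨q, hq⟩ := hne
    exact ⟨⟨q, hS hq⟩, H916Y.mem_FS.mpr hq⟩
  have hB1 : ∀ i ∈ B, (i : ℕ) % 4 = 1 := fun i hi => hS1 _ (H916Y.mem_FS.mp hi)
  have hnd : ∀ k : ℕ, ∃ i ∈ B, ((p : ℕ) : ZMod (i : ℕ)) ^ k ≠ -1 := by
    intro k
    by_contra hcon
    push Not at hcon
    apply hdead
    refine ⟨k, ?_⟩
    refine Finset.prod_primes_dvd _ (fun q hq => ?_) (fun q hq => ?_)
    · exact (Nat.prime_of_mem_primeFactors (hS hq)).prime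
    · have h1 := hcon ⟨q, hS hq⟩ (H916Y.mem_FS.mpr hq)
      rw [← ZMod.natCast_eq_zero_iff]
      push_cast
      rw [h1]; ring
  obtain ⟨φ, hφ, h1, h2, h3, h4⟩ := exists_phi (NeZero.ne m) hpm H hB hB1 hnd
  have h5 := even_of_dist hpm hs hφ h1 h2 h3 subset_union_left (by
    intro i hi h
    rcases mem_union.mp hi with h' | h'
    · have := hB1 i h'
      omega
    · exact (mem_JJ.mp h').2.1 h) h4
  have h6 : s.countP (Supp S) = s.countP fun a => H916Q.TT m (addOrderOf a) = B := by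
    apply Multiset.countP_congr rfl
    intro a _
    rw [← TT_eq_iff hS]
    rfl
  rw [h6]
  exact h5

/-- the remaining supports -/
theorem even_three [NeZero m] (hpm : p.Coprime m) (H : Hyp p m) {s : Multiset (ZMod m)}
    (hs : Rel0 p s) {S : Finset ℕ} (hS : S ⊆ m.primeFactors) (h2 : 2 ∉ S) {q0 : ℕ} (hq0 : q0 ∈ S)
    (h3 : q0 % 4 = 3) : Even (s.countP (Supp S)) := by
  classical
  have hpr : ∀ q ∈ S, q.Prime := fun q hq => Nat.prime_of_mem_primeFactors (hS hq)
  have hdv : ∀ q ∈ S, q ∣ m := fun q hq => Nat.dvd_of_mem_primeFactors (hS hq)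
  have hn2 : ∀ q ∈ S, q ≠ 2 := fun q hq h => h2 (h ▸ hq)
  have hrest : ∀ q ∈ S.erase q0, q % 4 = 1 := by
    intro q hq
    obtain ⟨hne, hqS⟩ := mem_erase.mp hq
    have hodd : q % 4 = 1 ∨ q % 4 = 3 := by
      have h5 := (hpr q hqS).eq_two_or_odd
      have h6 := hn2 q hqS
      omega
    rcases hodd with h | h
    · exact h
    · exfalso
      have f1 : Fact q.Prime := ⟨hpr q hqS⟩
      have f2 : Fact q0.Prime := ⟨hpr q0 hq0⟩
      have h4 := ZMod.exists_sq_eq_prime_iff_of_mod_four_eq_three h h3 hne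
      have h5 := H.sq q q0 (hpr q hqS) (hpr q0 hq0) (hn2 q hqS) (hn2 q0 hq0) (hdv q hqS)
        (hdv q0 hq0) hne
      have h6 := H.sq q0 q (hpr q0 hq0) (hpr q hqS) (hn2 q0 hq0) (hn2 q hqS) (hdv q0 hq0)
        (hdv q hqS) hne.symm
      exact h4.mp h5 h6
  have jprod : ∀ (T : Finset ℕ), T ⊆ S → ∀ a : ℤ, (∀ q ∈ T, jacobiSym a q = 1) →
      jacobiSym a (∏ q ∈ T, q) = 1 := by
    intro T
    induction T using Finset.induction_on with
    | empty => intro _ a _; simp
    | insert b T hb ih =>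
      intro hT a ha
      rw [prod_insert hb]
      have z1 : NeZero b := ⟨(hpr b (hT (mem_insert_self _ _))).ne_zero⟩
      have z2 : NeZero (∏ q ∈ T, q) :=
        ⟨prod_ne_zero_iff.mpr fun q hq => (hpr q (hT (mem_insert_of_mem hq))).ne_zero⟩
      rw [jacobiSym.mul_right, ha b (mem_insert_self _ _),
        ih (fun q hq => hT (mem_insert_of_mem hq)) a (fun q hq => ha q (mem_insert_of_mem hq)),
        one_mul]
  have jsq : ∀ q ∈ S, ∀ x : ℕ, ¬ q ∣ x → IsSquare ((x : ℕ) : ZMod q) → jacobiSym (x : ℤ) q = 1 := by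
    intro q hq x hx hsq
    have f1 : Fact q.Prime := ⟨hpr q hq⟩
    rw [← jacobiSym.legendreSym.to_jacobiSym, legendreSym.eq_one_iff]
    · simpa using hsq
    · rw [Int.cast_natCast, Ne, ZMod.natCast_eq_zero_iff]
      exact hx
  refine H916Y.even_leg hpm hs hS h2 ⟨q0, hq0⟩ ?_ ?_ ?_
  · -- minus one
    rw [← mul_prod_erase S _ hq0]
    have z1 : NeZero q0 := ⟨(hpr q0 hq0).ne_zero⟩
    have z2 : NeZero (∏ q ∈ S.erase q0, q) :=
      ⟨prod_ne_zero_iff.mpr fun q hq => (hpr q (mem_of_mem_erase hq)).ne_zero⟩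
    rw [jacobiSym.mul_right, jprod (S.erase q0) (erase_subset _ _) (-1) ?_, mul_one]
    · rw [jacobiSym.at_neg_one (Nat.odd_iff.mpr (by omega)), ZMod.χ₄_nat_three_mod_four h3]
    · intro q hq
      rw [jacobiSym.at_neg_one (Nat.odd_iff.mpr (by have := hrest q hq; omega)),
        ZMod.χ₄_nat_one_mod_four (hrest q hq)]
  · refine jprod S (Subset.refl _) p fun q hq => jsq q hq p ?_ ?_
    · exact fun h => not_dvd_of_coprime (hpr q hq) hpm (hdv q hq) h
    · exact H.sqp q (hpr q hq) (hn2 q hq) (hdv q hq)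
  · intro j hj hjS
    have hjp := Nat.prime_of_mem_primeFactors hj
    have hjm := Nat.dvd_of_mem_primeFactors hj
    refine jprod S (Subset.refl _) j fun q hq => jsq q hq j ?_ ?_
    · intro h
      exact hjS ((Nat.prime_dvd_prime_iff_eq (hpr q hq) hjp).mp h ▸ hq)
    · have hqj : q ≠ j := fun h => hjS (h ▸ hq)
      by_cases hj2 : j = 2
      · subst hj2
        exact isSquare_of_odd (H.two hjm q (hpr q hq) (hn2 q hq) (hdv q hq))
      · exact H.sq q j (hpr q hq) hjp (hn2 q hq) hj2 (hdv q hq) hjm hqj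

theorem even_supp [NeZero m] (hpm : p.Coprime m) (H : Hyp p m) {s : Multiset (ZMod m)}
    (hs : Rel0 p s) {S : Finset ℕ} (hne : S.Nonempty) (h2 : 2 ∉ S) (hdead : ¬ H916Y.Dead p S) :
    Even (s.countP (Supp S)) := by
  classical
  by_cases hS : S ⊆ m.primeFactors
  · by_cases h3 : ∃ q ∈ S, q % 4 = 3
    · obtain ⟨q, hq, h⟩ := h3
      exact even_three hpm H hs hS h2 hq h
    · push Not at h3
      refine even_one hpm H hs hS hne (fun q hq => ?_) hdead
      have h5 := (Nat.prime_of_mem_primeFactors (hS hq)).eq_two_or_odd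
      have h6 : q ≠ 2 := fun h => h2 (h ▸ hq)
      have h7 := h3 q hq
      omega
  · have h1 : s.countP (Supp S) = 0 := by
      rw [Multiset.countP_eq_zero]
      intro a _ ha
      apply hS
      rw [← ha]
      exact Nat.primeFactors_mono (addOrderOf_dvd_level a) (NeZero.ne m)
    rw [h1]
    exact Even.zero

end Pool.Agent.TH540
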