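import Pool.Agent.TH540.SavChen3

/-!
# Minimal zero-sum lists containing an element of small order
-/

set_option linter.unusedSectionVars false

namespace Pool.Agent.TH540.SC

open Multiset

variable {m : ℕ} [NeZero m]

/-- A minimal zero-sum list over `ZMod m` which contains an element `b` with `e b = 0` has at most
`m - m / e + 1` elements. -/
theorem card_le_of_order {e : ℕ} (he : e ∣ m) {b : ZMod m} (hb0 : b ≠ 0) (hbe : e • b = 0)
    {T : Multiset (ZMod m)} (h : IsMin (b ::ₘ T)) : card T + m / e ≤ m := by
  classical
  have hm0 : 0 < m := Nat.pos_of_ne_zero (NeZero.ne m)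
  obtain ⟨l, rfl⟩ := Quot.exists_rep T
  change IsMin (b ::ₘ (l : Multiset (ZMod m))) at h
  change l.length + m / e ≤ m
  -- the partial sums
  set s : ℕ → ZMod m := fun i => (l.take i).sum with hs
  have hseg : ∀ i j, i ≤ j → j ≤ l.length → s i + ((l.take j).drop i).sum = s j := by
    intro i j hij _
    have h1 : (l.take j).take i = l.take i := by
      rw [List.take_take, min_eq_left hij]
    have h2 := List.take_append_drop i (l.take j)
    rw [hs]
    change (l.take i).sum + _ = (l.take j).sum
    rw [← h1, ← List.sum_append, h2]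
  have hsub : ∀ i j, (((l.take j).drop i : List (ZMod m)) : Multiset (ZMod m)) ≤ l := by
    intro i j
    exact Multiset.coe_le.mpr ((List.drop_sublist _ _).trans (List.take_sublist _ _)).subperm
  -- a segment never has sum zero or `-b`, unless it is everything
  have hA : ∀ i j, i < j → j < l.length → s i ≠ s j := by
    intro i j hij hj heq
    have h1 := hseg i j hij.le hj.le
    rw [heq] at h1
    have h2 : ((l.take j).drop i).sum = 0 := add_eq_left.mp h1
    have h3 := h.2.2 (((l.take j).drop i : List (ZMod m)) : Multiset (ZMod m))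
      ((hsub i j).trans (Multiset.le_cons_self _ b)) (by
        intro h0
        rw [Multiset.coe_eq_zero] at h0
        have := congrArg List.length h0
        rw [List.length_drop, List.length_take, List.length_nil] at this
        omega) (by rw [Multiset.sum_coe]; exact h2)
    have h4 := congrArg card h3
    rw [Multiset.card_cons, Multiset.coe_card, Multiset.coe_card, List.length_drop,
      List.length_take] at h4
    omega
  have hB : ∀ i j, i < j → j < l.length → s j ≠ s i - b := by
    intro i j hij hj heq
    have h1 := hseg i j hij.le hj.le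
    rw [heq] at h1
    have h2 : ((l.take j).drop i).sum = -b := by
      have : s i + ((l.take j).drop i).sum = s i + -b := by rw [h1]; ring
      exact add_left_cancel this
    have h3 := h.2.2 (b ::ₘ (((l.take j).drop i : List (ZMod m)) : Multiset (ZMod m)))
      ((Multiset.cons_le_cons_iff b).mpr (hsub i j)) Multiset.cons_ne_zero (by
        rw [Multiset.sum_cons, Multiset.sum_coe, h2]; ring)
    have h4 := congrArg card h3
    rw [Multiset.card_cons, Multiset.card_cons, Multiset.coe_card, Multiset.coe_card,
      List.length_drop, List.length_take] at h4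
    omega
  set P : Finset (ZMod m) := (Finset.range l.length).image s with hP
  have hPcard : P.card = l.length := by
    rw [hP, Finset.card_image_of_injOn, Finset.card_range]
    intro i hi j hj hij
    rw [Finset.coe_range, Set.mem_Iio] at hi hj
    by_contra hne
    rcases Nat.lt_or_ge i j with h1 | h1
    · exact hA i j h1 hj hij
    · exact hA j i (lt_of_le_of_ne h1 (Ne.symm hne)) hi hij.symm
  -- no coset of the group generated by `b` is contained in `P`
  have hdesc : ∀ j, j < l.length → ∃ k : ℕ, s j - k • b ∉ P := by
    intro j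
    induction j using Nat.strong_induction_on with
    | _ j ih =>
      intro hj
      by_cases h1 : s j - b ∈ P
      · obtain ⟨i, hi, hi2⟩ := Finset.mem_image.mp h1
        rw [Finset.mem_range] at hi
        have hij : i < j := by
          by_contra hge
          rcases Nat.lt_or_ge j i with h2 | h2
          · exact hB j i h2 hi hi2
          · have : i = j := by omega
            rw [this] at hi2
            have h3 : s j + 0 = s j + -b := by rw [add_zero, ← sub_eq_add_neg]; exact hi2
            have h4 := add_left_cancel h3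
            exact hb0 (neg_eq_zero.mp h4.symm)
        obtain ⟨k, hk⟩ := ih i hij hi
        refine ⟨k + 1, ?_⟩
        have : s j - (k + 1) • b = s i - k • b := by
          rw [hi2, succ_nsmul]; ring
        rwa [this]
      · exact ⟨1, by rwa [one_nsmul]⟩
  let H : AddSubgroup (ZMod m) := AddSubgroup.zmultiples b
  have hsurj : ∀ q : ZMod m ⧸ H, ∃ x ∈ Pᶜ, (QuotientAddGroup.mk x : ZMod m ⧸ H) = q := by
    intro q
    obtain ⟨x, rfl⟩ := QuotientAddGroup.mk_surjective q
    by_cases hx : x ∈ P
    · obtain ⟨j, hj, rfl⟩ := Finset.mem_image.mp hx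
      rw [Finset.mem_range] at hj
      obtain ⟨k, hk⟩ := hdesc j hj
      refine ⟨s j - k • b, Finset.mem_compl.mpr hk, ?_⟩
      rw [QuotientAddGroup.eq]
      have : -(s j - k • b) + s j = k • b := by abel
      rw [this]
      exact AddSubgroup.nsmul_mem _ (AddSubgroup.mem_zmultiples b) k
    · exact ⟨x, Finset.mem_compl.mpr hx, rfl⟩
  have hcount : Fintype.card (ZMod m ⧸ H) ≤ (Pᶜ).card := by
    have h1 : (Finset.univ : Finset (ZMod m ⧸ H)) ⊆
        (Pᶜ).image (fun x => (QuotientAddGroup.mk x : ZMod m ⧸ H)) := by
      intro q _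
      obtain ⟨x, hx, hq⟩ := hsurj q
      exact Finset.mem_image.mpr ⟨x, hx, hq⟩
    have h2 := Finset.card_le_card h1
    rw [Finset.card_univ] at h2
    exact h2.trans Finset.card_image_le
  rw [Finset.card_compl, ZMod.card, hPcard] at hcount
  -- the number of cosets
  have hidx : Fintype.card (ZMod m ⧸ H) * addOrderOf b = m := by
    have h1 := AddSubgroup.card_eq_card_quotient_mul_card_addSubgroup H
    rw [Nat.card_zmultiples, Nat.card_eq_fintype_card, ZMod.card, Nat.card_eq_fintype_card] at h1
    exact h1.symm
  have hord : addOrderOf b ≤ e := by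
    apply Nat.le_of_dvd _ (addOrderOf_dvd_of_nsmul_eq_zero hbe)
    exact Nat.pos_of_dvd_of_pos he hm0
  have hle : m / e ≤ Fintype.card (ZMod m ⧸ H) := by
    apply Nat.div_le_of_le_mul
    calc m = Fintype.card (ZMod m ⧸ H) * addOrderOf b := hidx.symm
      _ ≤ Fintype.card (ZMod m ⧸ H) * e := Nat.mul_le_mul_left _ hord
      _ = e * Fintype.card (ZMod m ⧸ H) := mul_comm _ _
  have hlen : l.length ≤ m := by
    rw [← hPcard]
    have := Finset.card_le_univ P
    rwa [ZMod.card] at this
  omega

/-- The number of blocks of a list which contains an element `b` with `e b = 0`. -/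
theorem splits_of_order {e : ℕ} (he : e ∣ m) {b : ZMod m} (hb0 : b ≠ 0) (hbe : e • b = 0) (k : ℕ)
    {T : Multiset (ZMod m)} (hs : (b ::ₘ T).sum = 0) (hl : m * k < card T + m / e) :
    Splits (b ::ₘ T) (k + 1) := by
  classical
  obtain ⟨P, p1, p2⟩ := exists_parts hs
  have hbj : b ∈ P.join := by rw [p1]; exact Multiset.mem_cons_self b T
  obtain ⟨τ, hτ, hbτ⟩ := Multiset.mem_join.mp hbj
  obtain ⟨P', rfl⟩ := Multiset.exists_cons_of_mem hτ
  obtain ⟨τ', rfl⟩ := Multiset.exists_cons_of_mem hbτ
  have h1 := card_le_of_order he hb0 hbe (p2 _ (Multiset.mem_cons_self _ _))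
  have h2 : card (b ::ₘ T) = card (b ::ₘ τ') + (P'.map card).sum := by
    rw [← p1, Multiset.join_cons, Multiset.card_add, Multiset.card_join]
  have h3 : (P'.map card).sum ≤ m * card P' :=
    sum_le card m P' fun σ hσ => card_le_of_min (p2 σ (Multiset.mem_cons_of_mem hσ))
  rw [Multiset.card_cons, Multiset.card_cons] at h2
  have h4 : m * k < m * (card P' + 1) := by
    rw [mul_add, mul_one]
    omega
  have h5 : k < card P' + 1 := Nat.lt_of_mul_lt_mul_left h4
  rw [← p1]
  refine merge (card P' - k) _ k ?_ fun σ hσ => ⟨(p2 σ hσ).1, (p2 σ hσ).2.1⟩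
  rw [Multiset.card_cons]
  omega

end Pool.Agent.TH540.SC
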