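import Pool.Agent.TH540.Fix

/-!
# Relations between the values of an odd distribution
-/

set_option linter.unusedSectionVars false

namespace Pool.Agent.TH540

open Finset Pool.Agent.H916R2 Pool.Agent.H916T Pool.Agent.H916U Pool.Agent.H916Z Pool.Agent.H916Q

variable {p M : ℕ} [NeZero M]

/-- odd distributions invariant under `p` -/
structure DF (p : ℕ) {M : ℕ} (V : ZMod M → ℤ) : Prop where
  pm : ∀ (j : ℕ) (a : ZMod M), V ((p : ZMod M) ^ j * a) = V a
  ng : ∀ a : ZMod M, V (-a) = -V a
  dist : ∀ q d : ℕ, q * d = M → ∀ a : ZMod M,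
    ∑ i ∈ range q, V (a + (i : ZMod M) * (d : ZMod M)) = V ((q : ZMod M) * a)

lemma DF_W (hp : p.Coprime M) (t : (ZMod M)ˣ) : DF p (fun a : ZMod M => W p ((t : ZMod M) * a)) where
  pm j a := by
    have h : (t : ZMod M) * ((p : ZMod M) ^ j * a) = (p : ZMod M) ^ j * ((t : ZMod M) * a) := by ring
    rw [h, W_pow_mul]
  ng a := by rw [mul_neg, W_neg]
  dist q d hqd a := W_dist_unit hp hqd t a

namespace DF

variable {V : ZMod M → ℤ}

lemma two (hV : DF p V) {d : ℕ} (hd : 2 * d = M) (a : ZMod M) :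
    V a + V (a + (d : ZMod M)) = V (2 * a) := by
  have h := hV.dist 2 d hd a
  rw [sum_range_succ, sum_range_one] at h
  simpa using h

lemma three (hV : DF p V) {d : ℕ} (hd : 3 * d = M) (a : ZMod M) :
    V a + V (a + (d : ZMod M)) + V (a - (d : ZMod M)) = V (3 * a) := by
  have h := hV.dist 3 d hd a
  rw [sum_range_succ, sum_range_succ, sum_range_one] at h
  have h3 : (3 : ZMod M) * (d : ZMod M) = 0 := by
    have h1 : ((3 * d : ℕ) : ZMod M) = 0 := by rw [hd]; simp
    simpa using h1
  have h4 : a + ((2 : ℕ) : ZMod M) * (d : ZMod M) = a - (d : ZMod M) := by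
    push_cast
    linear_combination h3
  rw [h4] at h
  simpa using h

lemma five (hV : DF p V) {d : ℕ} (hd : 5 * d = M) (a : ZMod M) :
    V a + V (a + (d : ZMod M)) + V (a + 2 * (d : ZMod M)) + V (a - 2 * (d : ZMod M)) +
      V (a - (d : ZMod M)) = V (5 * a) := by
  have h := hV.dist 5 d hd a
  rw [sum_range_succ, sum_range_succ, sum_range_succ, sum_range_succ, sum_range_one] at h
  have h5 : (5 : ZMod M) * (d : ZMod M) = 0 := by
    have h1 : ((5 * d : ℕ) : ZMod M) = 0 := by rw [hd]; simp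
    simpa using h1
  have h3 : a + ((3 : ℕ) : ZMod M) * (d : ZMod M) = a - 2 * (d : ZMod M) := by
    push_cast
    linear_combination h5
  have h4 : a + ((4 : ℕ) : ZMod M) * (d : ZMod M) = a - (d : ZMod M) := by
    push_cast
    linear_combination h5
  rw [h3, h4] at h
  simpa using h

lemma zero (hV : DF p V) : V 0 = 0 := by
  have h := hV.ng 0
  rw [neg_zero] at h
  omega

/-- `V` vanishes at elements of order two -/
lemma half (hV : DF p V) {a : ZMod M} (h : 2 * a = 0) : V a = 0 := by
  have h1 : -a = a := by linear_combination -h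
  have h2 := hV.ng a
  rw [h1] at h2
  omega

lemma eq_of (hV : DF p V) (j : ℕ) {a b : ZMod M} (h : (p : ZMod M) ^ j * a = b) : V b = V a := by
  rw [← h, hV.pm]

lemma eq_neg_of (hV : DF p V) (j : ℕ) {a b : ZMod M} (h : (p : ZMod M) ^ j * a = -b) :
    V b = -V a := by
  have h1 := hV.pm j a
  rw [h, hV.ng] at h1
  omega

/-- the rule for minus four -/
lemma rel4 (hV : DF p V) {d : ℕ} (hd : 4 * d = M) {u : ZMod M} {s k : ℕ}
    (hsu : (p : ZMod M) ^ s * u = u) (hsz : (p : ZMod M) ^ s * (d : ZMod M) = -(d : ZMod M))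
    (hku : (p : ZMod M) ^ k * u = -(4 * u)) (hkz : (p : ZMod M) ^ k * (d : ZMod M) = d) :
    V (2 * u) + V (2 * u + d) + V (-(4 * u) + d) + V (2 * (d : ZMod M)) = 0 := by
  set z : ZMod M := (d : ZMod M) with hz
  have h4z : 4 * z = 0 := by
    have h1 : ((4 * d : ℕ) : ZMod M) = 0 := by rw [hd]; simp
    rw [hz]
    push_cast at h1
    exact h1
  have hd2 : 2 * (2 * d) = M := by omega
  have hcast : ((2 * d : ℕ) : ZMod M) = 2 * z := by push_cast; rw [hz]
  have H2 : ∀ a, V a + V (a + 2 * z) = V (2 * a) := by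
    intro a
    have h := hV.two hd2 a
    rwa [hcast] at h
  have hh : V (2 * z) = 0 := hV.half (by linear_combination h4z)
  -- the values at `u + z`, `2 * u + z`
  have e1 : V (u - z) = V (u + z) := hV.eq_of s (by rw [mul_add, hsu, hsz]; ring)
  have e2 : V (2 * u - z) = V (2 * u + z) := hV.eq_of s (by
    linear_combination (2 : ZMod M) * hsu + hsz)
  have e3 : V (-(4 * u) + z) = V (u + z) := hV.eq_of k (by rw [mul_add, hku, hkz])
  have e4 := H2 (u - z)
  have e5 : u - z + 2 * z = u + z := by ring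
  have e6 : 2 * (u - z) = 2 * u + 2 * z := by linear_combination -h4z
  rw [e5, e6] at e4
  have e7 := H2 (2 * u - z)
  have e8 : 2 * u - z + 2 * z = 2 * u + z := by ring
  have e9 : V (2 * (2 * u - z)) = -V (u + 2 * z) := hV.eq_neg_of k (by
    linear_combination hku + (2 : ZMod M) * hkz)
  rw [e8, e9] at e7
  have e10 := H2 u
  have e11 := H2 (2 * u)
  have e12 : V (2 * (2 * u)) = - V u := hV.eq_neg_of k (by linear_combination hku)
  rw [e12] at e11
  omega

/-- the rule for minus two, characteristic five modulo eight -/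
lemma rel25 (hV : DF p V) {d : ℕ} (hd : 8 * d = M) {u : ZMod M} {s k : ℕ}
    (hsu : (p : ZMod M) ^ s * u = u) (hse : (p : ZMod M) ^ s * (d : ZMod M) = 5 * (d : ZMod M))
    (hku : (p : ZMod M) ^ k * u = -(2 * u)) (hke : (p : ZMod M) ^ k * (d : ZMod M) = d) :
    V (-(2 * u)) + V (u + d) + V (u + 3 * d) + V (4 * (d : ZMod M)) = 0 := by
  set e : ZMod M := (d : ZMod M) with he
  have h8e : 8 * e = 0 := by
    have h1 : ((8 * d : ℕ) : ZMod M) = 0 := by rw [hd]; simp
    rw [he]
    push_cast at h1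
    exact h1
  have hd2 : 2 * (4 * d) = M := by omega
  have hcast : ((4 * d : ℕ) : ZMod M) = 4 * e := by push_cast; rw [he]
  have H2 : ∀ a, V a + V (a + 4 * e) = V (2 * a) := by
    intro a
    have h := hV.two hd2 a
    rwa [hcast] at h
  have hh : V (4 * e) = 0 := hV.half (by linear_combination h8e)
  have e0 : V (-(2 * u)) = V u := hV.eq_of k hku
  -- first level
  have a1 : V (u + e + 4 * e) = V (u + e) := hV.eq_of s (by rw [mul_add, hsu, hse]; ring)
  have a3 : V (u + 3 * e + 4 * e) = V (u + 3 * e) := hV.eq_of s (by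
    linear_combination hsu + (3 : ZMod M) * hse + h8e)
  have b1 := H2 (u + e)
  have b3 := H2 (u + 3 * e)
  have c1 : V (2 * (u + e)) = -V (u - 2 * e) := hV.eq_neg_of k (by
    linear_combination hku - (2 : ZMod M) * hke)
  have c3 : V (2 * (u + 3 * e)) = -V (u + 2 * e) := hV.eq_neg_of k (by
    linear_combination hku + (2 : ZMod M) * hke + h8e)
  -- second level
  have b5 := H2 (u - 2 * e)
  have e5 : u - 2 * e + 4 * e = u + 2 * e := by ring
  have c5 : V (2 * (u - 2 * e)) = -V (u + 4 * e) := hV.eq_neg_of k (by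
    linear_combination hku + (4 : ZMod M) * hke)
  rw [e5, c5] at b5
  have b7 := H2 u
  have c7 : V (2 * u) = -V u := hV.eq_neg_of k (by linear_combination hku)
  omega

/-- the rule for minus two and minus three -/
lemma rel23 (hV : DF p V) {d g : ℕ} (hd : 8 * d = M) (hg : 3 * g = M) {u : ZMod M} {s k l : ℕ}
    (hsu : (p : ZMod M) ^ s * u = u) (hse : (p : ZMod M) ^ s * (d : ZMod M) = d)
    (hsg : (p : ZMod M) ^ s * (g : ZMod M) = -g)
    (hku : (p : ZMod M) ^ k * u = -(2 * u)) (hke : (p : ZMod M) ^ k * (d : ZMod M) = d)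
    (hlu : (p : ZMod M) ^ l * u = -(3 * u)) (hle : (p : ZMod M) ^ l * (d : ZMod M) = d)
    (hlg : (p : ZMod M) ^ l * (g : ZMod M) = g) :
    V (-(2 * u)) + V (3 * u - d + g) + V (-u - 3 * d - g) + V (4 * (d : ZMod M)) = 0 := by
  set e : ZMod M := (d : ZMod M) with he
  set w : ZMod M := (g : ZMod M) with hw
  have h8e : 8 * e = 0 := by
    have h1 : ((8 * d : ℕ) : ZMod M) = 0 := by rw [hd]; simp
    rw [he]
    push_cast at h1
    exact h1
  have h3w : 3 * w = 0 := by
    have h1 : ((3 * g : ℕ) : ZMod M) = 0 := by rw [hg]; simp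
    rw [hw]
    push_cast at h1
    exact h1
  have hd2 : 2 * (4 * d) = M := by omega
  have hcast : ((4 * d : ℕ) : ZMod M) = 4 * e := by push_cast; rw [he]
  have H2 : ∀ a, V a + V (a + 4 * e) = V (2 * a) := by
    intro a
    have h := hV.two hd2 a
    rwa [hcast] at h
  have H3 : ∀ a, V a + V (a + w) + V (a - w) = V (3 * a) := fun a => hV.three hg a
  have hh : V (4 * e) = 0 := hV.half (by linear_combination h8e)
  have e0 : V (-(2 * u)) = V u := hV.eq_of k hku
  -- level three
  have s1 : V (u + e - w) = V (u + e + w) := hV.eq_of s (by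
    linear_combination hsu + hse + hsg)
  have s3 : V (u + 3 * e - w) = V (u + 3 * e + w) := hV.eq_of s (by
    linear_combination hsu + (3 : ZMod M) * hse + hsg)
  have t1 := H3 (u + e)
  have t3 := H3 (u + 3 * e)
  have r1 : V (3 * (u + e)) = -V (u + 5 * e) := hV.eq_neg_of l (by
    linear_combination hlu + (5 : ZMod M) * hle + h8e)
  have r3 : V (3 * (u + 3 * e)) = -V (u + 7 * e) := hV.eq_neg_of l (by
    linear_combination hlu + (7 : ZMod M) * hle + (2 : ZMod M) * h8e)
  -- level two
  have b1 := H2 (u + e)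
  have f1 : u + e + 4 * e = u + 5 * e := by ring
  have b3 := H2 (u + 3 * e)
  have f3 : u + 3 * e + 4 * e = u + 7 * e := by ring
  rw [f1] at b1
  rw [f3] at b3
  have c1 : V (2 * (u + e)) = -V (u - 2 * e) := hV.eq_neg_of k (by
    linear_combination hku - (2 : ZMod M) * hke)
  have c3 : V (2 * (u + 3 * e)) = -V (u + 2 * e) := hV.eq_neg_of k (by
    linear_combination hku + (2 : ZMod M) * hke + h8e)
  have b5 := H2 (u - 2 * e)
  have e5 : u - 2 * e + 4 * e = u + 2 * e := by ring
  have c5 : V (2 * (u - 2 * e)) = -V (u + 4 * e) := hV.eq_neg_of k (by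
    linear_combination hku + (4 : ZMod M) * hke)
  rw [e5, c5] at b5
  have b7 := H2 u
  have c7 : V (2 * u) = -V u := hV.eq_neg_of k (by linear_combination hku)
  -- the two remaining elements
  have x1 : V (3 * u - e + w) = -V (u + e - w) := hV.eq_neg_of l (by
    linear_combination hlu + hle - hlg)
  have x3 : V (-u - 3 * e - w) = -V (u + 3 * e + w) := by
    rw [← hV.ng]; congr 1; ring
  omega

/-- the rule for minus two and three -/
lemma rel23' (hV : DF p V) {d g : ℕ} (hd : 4 * d = M) (hg : 3 * g = M) {u : ZMod M} {s k l : ℕ}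
    (hsu : (p : ZMod M) ^ s * u = u) (hse : (p : ZMod M) ^ s * (d : ZMod M) = d)
    (hsg : (p : ZMod M) ^ s * (g : ZMod M) = -g)
    (hku : (p : ZMod M) ^ k * u = -(2 * u)) (hke : (p : ZMod M) ^ k * (d : ZMod M) = d)
    (hlu : (p : ZMod M) ^ l * u = 3 * u) (hle : (p : ZMod M) ^ l * (d : ZMod M) = d) :
    V u + V (u + d + g) + V (-u + d) + V (-u - g + 2 * (d : ZMod M)) = 0 := by
  set z : ZMod M := (d : ZMod M) with hz
  set w : ZMod M := (g : ZMod M) with hw
  have h4z : 4 * z = 0 := by
    have h1 : ((4 * d : ℕ) : ZMod M) = 0 := by rw [hd]; simp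
    rw [hz]
    push_cast at h1
    exact h1
  have hd2 : 2 * (2 * d) = M := by omega
  have hcast : ((2 * d : ℕ) : ZMod M) = 2 * z := by push_cast; rw [hz]
  have H2 : ∀ a, V a + V (a + 2 * z) = V (2 * a) := by
    intro a
    have h := hV.two hd2 a
    rwa [hcast] at h
  have H3 : ∀ a, V a + V (a + w) + V (a - w) = V (3 * a) := fun a => hV.three hg a
  have s1 : V (u + z - w) = V (u + z + w) := hV.eq_of s (by
    linear_combination hsu + hse + hsg)
  have s2 : V (u + 2 * z - w) = V (u + 2 * z + w) := hV.eq_of s (by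
    linear_combination hsu + (2 : ZMod M) * hse + hsg)
  have t1 := H3 (u + z)
  have t2 := H3 (u + 2 * z)
  have r1 : V (3 * (u + z)) = V (u - z) := hV.eq_of l (by
    linear_combination hlu - hle - h4z)
  have r2 : V (3 * (u + 2 * z)) = V (u + 2 * z) := hV.eq_of l (by
    linear_combination hlu + (2 : ZMod M) * hle - h4z)
  have b1 := H2 (u - z)
  have f1 : u - z + 2 * z = u + z := by ring
  have c1 : V (2 * (u - z)) = -V (u + 2 * z) := hV.eq_neg_of k (by
    linear_combination hku + (2 : ZMod M) * hke)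
  rw [f1, c1] at b1
  have b7 := H2 u
  have c7 : V (2 * u) = -V u := hV.eq_neg_of k (by linear_combination hku)
  have x1 : V (-u + z) = -V (u - z) := by
    rw [← hV.ng]; congr 1; ring
  have x2 : V (-u - w + 2 * z) = -V (u + 2 * z + w) := by
    rw [← hV.ng]; congr 1; linear_combination h4z
  omega

end DF

end Pool.Agent.TH540
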