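import Pool.Agent.TH540.MainH

/-!
# Relations for the primes three and five
-/

set_option linter.unusedSectionVars false

namespace Pool.Agent.TH540

open Finset Pool.Agent.H916R2 Pool.Agent.H916T Pool.Agent.H916U Pool.Agent.H916Z Pool.Agent.H916Q

variable {p M : ℕ} [NeZero M] {V : ZMod M → ℤ}

/-- the relation for minus nine -/
lemma DF.rel9 (hV : DF p V) {g : ℕ} (hg : 3 * g = M) {u : ZMod M} {s l : ℕ}
    (hsu : (p : ZMod M) ^ s * u = u) (hsg : (p : ZMod M) ^ s * (g : ZMod M) = -g)
    (hlu : (p : ZMod M) ^ l * u = -(9 * u)) :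
    V u + V (u + g) + V (3 * u + g) = 0 := by
  set w : ZMod M := (g : ZMod M) with hw
  have H3 : ∀ a, V a + V (a + w) + V (a - w) = V (3 * a) := fun a => hV.three hg a
  have e1 : V (u - w) = V (u + w) := hV.eq_of s (by linear_combination hsu + hsg)
  have e2 : V (3 * u - w) = V (3 * u + w) := hV.eq_of s (by
    linear_combination (3 : ZMod M) * hsu + hsg)
  have e3 := H3 u
  have e4 := H3 (3 * u)
  have e5 : V (3 * (3 * u)) = -V u := hV.eq_neg_of l (by linear_combination hlu)
  omega

/-- the relation for minus five -/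
lemma DF.rel5 (hV : DF p V) {g : ℕ} (hg : 5 * g = M) {u : ZMod M} {s l : ℕ}
    (hsu : (p : ZMod M) ^ s * u = u) (hsg : (p : ZMod M) ^ s * (g : ZMod M) = -g)
    (hlu : (p : ZMod M) ^ l * u = -(5 * u)) :
    V u + V (u + g) + V (u + 2 * g) = 0 := by
  set w : ZMod M := (g : ZMod M) with hw
  have H5 : ∀ a, V a + V (a + w) + V (a + 2 * w) + V (a - 2 * w) + V (a - w) = V (5 * a) :=
    fun a => hV.five hg a
  have e1 : V (u - w) = V (u + w) := hV.eq_of s (by linear_combination hsu + hsg)
  have e2 : V (u - 2 * w) = V (u + 2 * w) := hV.eq_of s (by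
    linear_combination hsu + (2 : ZMod M) * hsg)
  have e3 := H5 u
  have e5 : V (5 * u) = -V u := hV.eq_neg_of l (by linear_combination hlu)
  omega

/-- the relation for minus three and minus five, first case -/
lemma DF.rel35a (hV : DF p V) {g d : ℕ} (hg : 3 * g = M) (hd : 5 * d = M) {u : ZMod M}
    {s l r : ℕ} (hsu : (p : ZMod M) ^ s * u = u) (hsd : (p : ZMod M) ^ s * (d : ZMod M) = -d)
    (hlu : (p : ZMod M) ^ l * u = -(3 * u)) (hld : (p : ZMod M) ^ l * (d : ZMod M) = d)
    (hru : (p : ZMod M) ^ r * u = -(5 * u)) :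
    V (u + d + g) + V (u + d - g) = V u := by
  set w : ZMod M := (g : ZMod M) with hw
  set y : ZMod M := (d : ZMod M) with hy
  have h5y : 5 * y = 0 := by
    have h1 : ((5 * d : ℕ) : ZMod M) = 0 := by rw [hd]; simp
    rw [hy]
    push_cast at h1
    exact h1
  have H3 : ∀ a, V a + V (a + w) + V (a - w) = V (3 * a) := fun a => hV.three hg a
  have e3 := hV.rel5 hd hsu hsd hru
  rw [← hy] at e3
  have e4 := H3 (u + y)
  have e5 : V (3 * (u + y)) = -V (u - 3 * y) := hV.eq_neg_of l (by
    linear_combination hlu - (3 : ZMod M) * hld)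
  have e6 : u - 3 * y = u + 2 * y := by linear_combination -h5y
  rw [e6] at e5
  omega

/-- the relation for minus three and minus five, second case -/
lemma DF.rel35b (hV : DF p V) {g d : ℕ} (hg : 3 * g = M) (hd : 5 * d = M) {u : ZMod M}
    {s l r : ℕ} (hsu : (p : ZMod M) ^ s * u = u) (hsd : (p : ZMod M) ^ s * (d : ZMod M) = d)
    (hsg : (p : ZMod M) ^ s * (g : ZMod M) = -g)
    (hlu : (p : ZMod M) ^ l * u = -(3 * u)) (hld : (p : ZMod M) ^ l * (d : ZMod M) = d)
    (hru : (p : ZMod M) ^ r * u = -(5 * u)) :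
    V (u + d + g) + V (u - d + g) = V u := by
  set w : ZMod M := (g : ZMod M) with hw
  set y : ZMod M := (d : ZMod M) with hy
  have h5y : 5 * y = 0 := by
    have h1 : ((5 * d : ℕ) : ZMod M) = 0 := by rw [hd]; simp
    rw [hy]
    push_cast at h1
    exact h1
  have H3 : ∀ a, V a + V (a + w) + V (a - w) = V (3 * a) := fun a => hV.three hg a
  have H5 : ∀ a, V a + V (a + y) + V (a + 2 * y) + V (a - 2 * y) + V (a - y) = V (5 * a) :=
    fun a => hV.five hd a
  have e0 := H5 u
  have e01 : V (5 * u) = -V u := hV.eq_neg_of r (by linear_combination hru)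
  have s1 : V (u + y - w) = V (u + y + w) := hV.eq_of s (by
    linear_combination hsu + hsd + hsg)
  have s2 : V (u - y - w) = V (u - y + w) := hV.eq_of s (by
    linear_combination hsu - hsd + hsg)
  have e4 := H3 (u + y)
  have e5 : V (3 * (u + y)) = -V (u - 3 * y) := hV.eq_neg_of l (by
    linear_combination hlu - (3 : ZMod M) * hld)
  have e6 : u - 3 * y = u + 2 * y := by linear_combination -h5y
  rw [e6] at e5
  have e7 := H3 (u - y)
  have e8 : V (3 * (u - y)) = -V (u + 3 * y) := hV.eq_neg_of l (by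
    linear_combination hlu + (3 : ZMod M) * hld)
  have e9 : u + 3 * y = u - 2 * y := by linear_combination h5y
  rw [e9] at e8
  omega

end Pool.Agent.TH540
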