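import Mathlib

/-!
# Zero-sum lists in cyclic groups
-/

namespace Pool.Agent.TH540

open Multiset

/-- The Davenport constant of a cyclic group of order `m` is at most `m`. -/
theorem davenport {m : ℕ} [NeZero m] (s : Multiset (ZMod m)) (hs : m ≤ card s) :
    ∃ σ ≤ s, σ ≠ 0 ∧ card σ ≤ m ∧ σ.sum = 0 := by
  obtain ⟨l, rfl⟩ := Quot.exists_rep s
  change m ≤ l.length at hs
  obtain ⟨i, j, hij, hf⟩ := Fintype.exists_ne_map_eq_of_card_lt
    (fun i : Fin (m + 1) => (l.take i.val).sum) (by simp [ZMod.card])
  wlog hlt : i < j generalizing i j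
  · exact this j i hij.symm hf.symm (lt_of_le_of_ne (not_lt.mp hlt) hij.symm)
  have hlt' : i.val < j.val := hlt
  have hj : j.val ≤ m := Nat.lt_succ_iff.mp j.isLt
  refine ⟨((l.take j.val).drop i.val : List (ZMod m)), ?_, ?_, ?_, ?_⟩
  · exact Multiset.coe_le.mpr
      ((List.drop_sublist _ _).trans (List.take_sublist _ _)).subperm
  · intro h
    have h1 : ((l.take j.val).drop i.val).length = 0 := by
      rw [Multiset.coe_eq_zero] at h
      rw [h]; rfl
    rw [List.length_drop, List.length_take] at h1
    omega
  · change ((l.take j.val).drop i.val).length ≤ m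
    rw [List.length_drop, List.length_take]
    omega
  · change ((l.take j.val).drop i.val).sum = 0
    have h1 : (l.take j.val).take i.val = l.take i.val := by
      rw [List.take_take, min_eq_left hlt'.le]
    have h2 := List.take_append_drop i.val (l.take j.val)
    have h3 : (l.take i.val).sum + ((l.take j.val).drop i.val).sum = (l.take j.val).sum := by
      rw [← h1, ← List.sum_append, h2]
    have h4 : (l.take i.val).sum = (l.take j.val).sum := hf
    rw [← h4] at h3
    exact left_eq_add.mp h3.symm

/-- A list of more than `m * c` residues with sum zero is a union of `c + 1` nonempty lists with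
sum zero. -/
theorem exists_split {m : ℕ} [NeZero m] : ∀ (c : ℕ) (s : Multiset (ZMod m)), s.sum = 0 →
    m * c < card s → ∃ P : Multiset (Multiset (ZMod m)), card P = c + 1 ∧ P.join = s ∧
      ∀ σ ∈ P, σ ≠ 0 ∧ σ.sum = 0 := by
  intro c
  induction c with
  | zero =>
    intro s hs hc
    refine ⟨{s}, by simp, by simp [Multiset.join], ?_⟩
    intro σ hσ
    rw [Multiset.mem_singleton] at hσ
    subst hσ
    refine ⟨?_, hs⟩
    rintro rfl
    simp at hc
  | succ c ih =>
    intro s hs hc
    have hm : 0 < m := Nat.pos_of_ne_zero (NeZero.ne m)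
    obtain ⟨σ, h1, h2, h3, h4⟩ := davenport s (by nlinarith)
    obtain ⟨τ, rfl⟩ := Multiset.le_iff_exists_add.mp h1
    rw [Multiset.sum_add, h4, zero_add] at hs
    rw [Multiset.card_add] at hc
    obtain ⟨P, p1, p2, p3⟩ := ih τ hs (by rw [mul_add, mul_one] at hc; omega)
    refine ⟨σ ::ₘ P, by rw [Multiset.card_cons, p1], by rw [Multiset.join_cons, p2], ?_⟩
    intro x hx
    rcases Multiset.mem_cons.mp hx with rfl | hx
    · exact ⟨h2, h4⟩
    · exact p3 x hx

end Pool.Agent.TH540
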