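import Pool.Agent.TH540.Search

/-!
# Divisibility of tensor products of Fermat motives, with algebraic lists of length four
-/

set_option linter.unusedSectionVars false

namespace Pool.Agent.TH540.SC

open Multiset

variable {m : ℕ} [NeZero m]

/-- four nonzero residues, all unit multiples of which have height `2 m` -/
def IsAlg (σ : Multiset (ZMod m)) : Prop :=
  card σ = 4 ∧ (0 : ZMod m) ∉ σ ∧ ∀ u : (ZMod m)ˣ, ht (tw u σ) = 2 * m

/-- `s` together with pairs `x, -x`, `x` in `p`, is composed of nonempty zero-sum lists `P` and of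
algebraic lists `Q`, and `|p| + c ≤ |P| + 2 |Q|` -/
def DivBy (s : Multiset (ZMod m)) (c : ℕ) : Prop :=
  ∃ (p : Multiset (ZMod m)) (P Q : Multiset (Multiset (ZMod m))), (0 : ZMod m) ∉ p ∧
    (∀ σ ∈ P, σ ≠ 0 ∧ σ.sum = 0) ∧ (∀ σ ∈ Q, IsAlg σ) ∧
      P.join + Q.join = s + (p + p.map fun x => -x) ∧ card p + c ≤ card P + 2 * card Q

lemma divBy_of_splits {s : Multiset (ZMod m)} {k : ℕ} (h : Splits s k) : DivBy s k := by
  obtain ⟨P, h1, h2, h3⟩ := h
  exact ⟨0, P, 0, by simp, h3, by simp, by simp [h2], by simp [h1]⟩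

lemma divBy_add {s s' : Multiset (ZMod m)} {c c' : ℕ} (h : DivBy s c) (h' : DivBy s' c') :
    DivBy (s + s') (c + c') := by
  obtain ⟨p, P, Q, h1, h2, h3, h4, h5⟩ := h
  obtain ⟨p', P', Q', h1', h2', h3', h4', h5'⟩ := h'
  refine ⟨p + p', P + P', Q + Q', ?_, ?_, ?_, ?_, ?_⟩
  · rw [Multiset.mem_add]
    exact fun h => h.elim h1 h1'
  · intro σ hσ
    exact (Multiset.mem_add.mp hσ).elim (h2 σ) (h2' σ)
  · intro σ hσ
    exact (Multiset.mem_add.mp hσ).elim (h3 σ) (h3' σ)
  · rw [Multiset.join_add, Multiset.join_add, Multiset.map_add]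
    calc P.join + P'.join + (Q.join + Q'.join) = (P.join + Q.join) + (P'.join + Q'.join) := by abel
      _ = _ := by
        rw [h4, h4']
        abel
  · rw [Multiset.card_add, Multiset.card_add, Multiset.card_add]
    omega

lemma divBy_mono {s : Multiset (ZMod m)} {c c' : ℕ} (h : DivBy s c) (hc : c' ≤ c) : DivBy s c' := by
  obtain ⟨p, P, Q, h1, h2, h3, h4, h5⟩ := h
  exact ⟨p, P, Q, h1, h2, h3, h4, by omega⟩

lemma join_tw (u : (ZMod m)ˣ) (P : Multiset (Multiset (ZMod m))) :
    (P.map (tw u)).join = tw u P.join := by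
  induction P using Multiset.induction_on with
  | empty => simp [tw]
  | cons σ P ih => rw [Multiset.map_cons, Multiset.join_cons, Multiset.join_cons, ih, tw_add]

lemma divBy_tw (u : (ZMod m)ˣ) {s : Multiset (ZMod m)} {c : ℕ} (h : DivBy s c) :
    DivBy (tw u s) c := by
  obtain ⟨p, P, Q, h1, h2, h3, h4, h5⟩ := h
  refine ⟨tw u p, P.map (tw u), Q.map (tw u), zero_notMem_tw u h1, ?_, ?_, ?_, ?_⟩
  · intro σ hσ
    obtain ⟨τ, h6, rfl⟩ := Multiset.mem_map.mp hσ
    obtain ⟨h7, h8⟩ := h2 τ h6
    refine ⟨?_, by rw [sum_tw, h8, mul_zero]⟩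
    unfold tw
    rw [Ne, Multiset.map_eq_zero]
    exact h7
  · intro σ hσ
    obtain ⟨τ, h6, rfl⟩ := Multiset.mem_map.mp hσ
    obtain ⟨h7, h8, h9⟩ := h3 τ h6
    refine ⟨by rw [tw_card, h7], zero_notMem_tw u h8, ?_⟩
    intro v
    rw [tw_tw]
    exact h9 _
  · rw [join_tw, join_tw, ← tw_add, h4, tw_add, tw_add]
    congr 2
    unfold tw
    rw [Multiset.map_map, Multiset.map_map]
    apply Multiset.map_congr rfl
    intro x _
    simp
  · rw [tw_card, Multiset.card_map, Multiset.card_map]
    exact h5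

/-- `a` and `-a` together split into pairs -/
lemma splits_neg {n : ℕ} (a : Fin n → ZMod m) : Splits (vals a + vals fun i => -a i) n := by
  refine ⟨(Finset.univ : Finset (Fin n)).val.map fun i => {a i, -a i}, ?_, ?_, ?_⟩
  · rw [Multiset.card_map, Finset.card_val, Finset.card_univ, Fintype.card_fin]
  · unfold vals
    generalize (Finset.univ : Finset (Fin n)).val = t
    induction t using Multiset.induction_on with
    | empty => simp
    | cons i t ih =>
      rw [Multiset.map_cons, Multiset.join_cons, ih, Multiset.map_cons, Multiset.map_cons]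
      simp only [Multiset.insert_eq_cons, ← Multiset.singleton_add]
      abel
  · intro σ hσ
    obtain ⟨i, _, rfl⟩ := Multiset.mem_map.mp hσ
    exact ⟨by simp, by simp⟩

lemma tw_neg_vals {n : ℕ} (u : (ZMod m)ˣ) (a : Fin n → ZMod m) :
    tw u (vals a) + tw (-u) (vals a) =
      vals (fun i => (u : ZMod m) * a i) + vals fun i => -((u : ZMod m) * a i) := by
  rw [tw_vals, tw_vals]
  congr 2
  funext i
  rw [Units.val_neg, neg_mul]

/-- reduction to sets of units without `t, -t` -/
theorem units_of_free {n : ℕ} (hn : 4 ≤ n) (hm : 3 ≤ m) {w : Fin n → ZMod m}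
    (hfree : ∀ U : Finset (ZMod m)ˣ, U.Nonempty → (∀ t ∈ U, -t ∉ U) →
      DivBy (∑ u ∈ U, tw u (vals w)) (2 * U.card - 1)) :
    ∀ (k : ℕ) (U : Finset (ZMod m)ˣ), U.card = k + 1 →
      DivBy (∑ u ∈ U, tw u (vals w)) (2 * U.card - 1) := by
  classical
  intro k
  induction k using Nat.strong_induction_on with
  | _ k ih =>
    intro U hU
    have hne : U.Nonempty := Finset.card_pos.mp (by omega)
    by_cases hp : ∀ t ∈ U, -t ∉ U
    · exact hfree U hne hp
    · push Not at hp
      obtain ⟨t, ht, ht'⟩ := hp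
      have htt : -t ≠ t := by
        intro h
        have h1 : -(t : ZMod m) = t := by rw [← Units.val_neg, h]
        have h2 : (2 : ZMod m) * t = 0 := by linear_combination -h1
        have h3 : (2 : ZMod m) = 0 := (Units.mul_left_eq_zero t).mp h2
        have h4 : ((2 : ℕ) : ZMod m) = 0 := by exact_mod_cast h3
        rw [ZMod.natCast_eq_zero_iff] at h4
        have := Nat.le_of_dvd (by omega) h4
        omega
      have hmem : -t ∈ U.erase t := Finset.mem_erase.mpr ⟨htt, ht'⟩
      rw [← Finset.add_sum_erase _ _ ht, ← Finset.add_sum_erase _ _ hmem, ← add_assoc, tw_neg_vals]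
      have h5 := divBy_of_splits (splits_neg fun i => (t : ZMod m) * w i)
      have hc : ((U.erase t).erase (-t)).card = k + 1 - 1 - 1 := by
        rw [Finset.card_erase_of_mem hmem, Finset.card_erase_of_mem ht, hU]
      rcases Nat.lt_or_ge k 2 with hk | hk
      · have hk1 : k = 1 := by
          by_contra hk1
          have hk0 : k = 0 := by omega
          rw [hk0] at hU
          obtain ⟨y, hy⟩ := Finset.card_eq_one.mp hU
          rw [hy, Finset.mem_singleton] at ht ht'
          exact htt (ht'.trans ht.symm)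
        have he : (U.erase t).erase (-t) = ∅ := by
          rw [← Finset.card_eq_zero, hc]
          omega
        rw [he, Finset.sum_empty, add_zero]
        exact divBy_mono h5 (by omega)
      · have h6 := ih (k - 2) (by omega) ((U.erase t).erase (-t)) (by omega)
        have h7 := divBy_add h5 h6
        exact divBy_mono h7 (by omega)

end Pool.Agent.TH540.SC
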