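import Pool.Agent.TH540.DivBy

/-!
# Certificates for `DivBy`, as lists of natural numbers
-/

set_option linter.unusedSectionVars false

namespace Pool.Agent.TH540.SC

open Multiset

/-- check of an algebraic list -/
def algN (m : ℕ) (b : List ℕ) : Bool :=
  b.length == 4 && b.all (fun x => x % m != 0) &&
    (unitList m).all fun t => (b.map fun x => t * x % m).sum == 2 * m

/-- check of one certificate -/
def chkN (m : ℕ) (L : List ℕ) (c : ℕ) (p : List ℕ) (P Q : List (List ℕ)) : Bool :=
  p.all (fun x => decide (0 < x) && decide (x < m)) &&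
    (P.all (fun b => !b.isEmpty && b.sum % m == 0) && (Q.all (algN m) &&
      ((P.flatten ++ Q.flatten).isPerm (L ++ (p ++ p.map fun x => m - x)) &&
        decide (p.length + c ≤ P.length + 2 * Q.length))))

variable {m : ℕ} [NeZero m]

lemma cst_append (L L' : List ℕ) : (cst (L ++ L') : Multiset (ZMod m)) = cst L + cst L' := by
  unfold cst
  rw [← Multiset.coe_add, Multiset.map_add]

lemma cst_perm {L L' : List ℕ} (h : L.Perm L') : (cst L : Multiset (ZMod m)) = cst L' := by
  unfold cst
  rw [Multiset.coe_eq_coe.mpr h]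

lemma cst_flatten (P : List (List ℕ)) :
    (cst P.flatten : Multiset (ZMod m)) = Multiset.join ((P : Multiset (List ℕ)).map cst) := by
  induction P with
  | nil => simp [cst]
  | cons b P ih =>
    rw [List.flatten_cons, cst_append, ih, ← Multiset.cons_coe, Multiset.map_cons,
      Multiset.join_cons]

lemma mem_cst {L : List ℕ} {y : ZMod m} (h : y ∈ (cst L : Multiset (ZMod m))) :
    ∃ x ∈ L, ((x : ℕ) : ZMod m) = y := by
  unfold cst at h
  obtain ⟨x, hx, rfl⟩ := Multiset.mem_map.mp h
  exact ⟨x, by simpa using hx, rfl⟩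

lemma val_mem_unitList (hm : 2 ≤ m) (u : (ZMod m)ˣ) : (u : ZMod m).val ∈ unitList m := by
  unfold unitList
  rw [List.mem_filter]
  refine ⟨List.mem_range.mpr (ZMod.val_lt _), ?_⟩
  rw [beq_iff_eq]
  exact ZMod.val_coe_unit_coprime u

lemma algN_sound (hm : 2 ≤ m) {b : List ℕ} (h : algN m b = true) :
    IsAlg (cst b : Multiset (ZMod m)) := by
  unfold algN at h
  simp only [Bool.and_eq_true, beq_iff_eq, List.all_eq_true, bne_iff_ne] at h
  obtain ⟨⟨h1, h2⟩, h3⟩ := h
  refine ⟨?_, ?_, ?_⟩
  · unfold cst
    rw [Multiset.card_map, Multiset.coe_card, h1]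
  · intro h0
    obtain ⟨x, hx, hx0⟩ := mem_cst h0
    rw [ZMod.natCast_eq_zero_iff] at hx0
    exact h2 x hx (Nat.mod_eq_zero_of_dvd hx0)
  · intro u
    have h4 := h3 _ (val_mem_unitList hm u)
    rw [← h4]
    unfold ht tw cst
    rw [Multiset.map_map, Multiset.map_map, Multiset.map_coe, Multiset.sum_coe]
    congr 1
    apply List.map_congr_left
    intro x _
    simp only [Function.comp_apply]
    rw [ZMod.val_mul, ZMod.val_natCast, Nat.mul_mod_mod]

lemma chkN_sound (hm : 2 ≤ m) {L : List ℕ} {c : ℕ} {p : List ℕ} {P Q : List (List ℕ)}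
    (h : chkN m L c p P Q = true) : DivBy (cst L : Multiset (ZMod m)) c := by
  unfold chkN at h
  simp only [Bool.and_eq_true, beq_iff_eq, List.all_eq_true, decide_eq_true_eq,
    Bool.not_eq_true', List.isEmpty_eq_false_iff, List.isPerm_iff] at h
  obtain ⟨h1, h2, h3, h4, h5⟩ := h
  refine ⟨cst p, (P : Multiset (List ℕ)).map cst, (Q : Multiset (List ℕ)).map cst,
    ?_, ?_, ?_, ?_, ?_⟩
  · intro h0
    obtain ⟨x, hx, hx0⟩ := mem_cst h0
    rw [ZMod.natCast_eq_zero_iff] at hx0
    have h6 := h1 x hx
    have := Nat.le_of_dvd h6.1 hx0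
    omega
  · intro σ hσ
    obtain ⟨b, hb, rfl⟩ := Multiset.mem_map.mp hσ
    have h6 := h2 b (by simpa using hb)
    constructor
    · intro h0
      unfold cst at h0
      rw [Multiset.map_eq_zero] at h0
      exact h6.1 (by simpa using h0)
    · rw [sum_cst, ZMod.natCast_eq_zero_iff]
      exact Nat.dvd_of_mod_eq_zero h6.2
  · intro σ hσ
    obtain ⟨b, hb, rfl⟩ := Multiset.mem_map.mp hσ
    exact algN_sound hm (h3 b (by simpa using hb))
  · rw [← cst_flatten, ← cst_flatten, ← cst_append, cst_perm h4, cst_append, cst_append]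
    congr 2
    unfold cst
    rw [Multiset.map_coe, Multiset.map_coe, Multiset.map_coe, List.map_map, List.map_map]
    congr 1
    apply List.map_congr_left
    intro x hx
    simp only [Function.comp_apply]
    rw [Nat.cast_sub (h1 x hx).2.le, ZMod.natCast_self, zero_sub]
  · rw [Multiset.card_map, Multiset.card_map, Multiset.coe_card, Multiset.coe_card]
    unfold cst
    rw [Multiset.card_map, Multiset.coe_card]
    exact h5

/-- certificates: `(list, p, P, Q)` -/
abbrev Cert := List ℕ × List ℕ × List (List ℕ) × List (List ℕ)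

/-- `S` is a permutation of a unit multiple of a list in the table -/
def cover (m : ℕ) (R : List Cert) (S : List ℕ) : Bool :=
  R.any fun e => (unitList m).any fun u => (e.1.map fun t => u * t % m).isPerm S

/-- sets of units -/
def chkUnits (m : ℕ) (w : List ℕ) (R : List Cert) : Bool :=
  (R.all fun e => chkN m (e.1.flatMap fun t => w.map fun x => t * x % m) (2 * e.1.length - 1)
    e.2.1 e.2.2.1 e.2.2.2) &&
    (unitList m).sublists.all fun S => S.isEmpty || (S.any fun t => S.contains (m - t)) ||
      cover m R S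

lemma exists_unit (hm : 2 ≤ m) {u : ℕ} (hu : u ∈ unitList m) :
    ∃ v : (ZMod m)ˣ, (v : ZMod m) = (u : ZMod m) := by
  unfold unitList at hu
  rw [List.mem_filter, beq_iff_eq] at hu
  exact ⟨ZMod.unitOfCoprime u hu.2, ZMod.coe_unitOfCoprime u hu.2⟩

lemma tw_msum (u : (ZMod m)ˣ) (s : Multiset (Multiset (ZMod m))) :
    tw u s.sum = (s.map (tw u)).sum := by
  induction s using Multiset.induction_on with
  | empty => simp [tw]
  | cons a s ih => rw [Multiset.sum_cons, tw_add, ih, Multiset.map_cons, Multiset.sum_cons]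

theorem chkUnits_sound (hm : 2 ≤ m) {n : ℕ} {w : List ℕ} {a : Fin n → ZMod m}
    (hw : vals a = cst w) {R : List Cert} (h : chkUnits m w R = true) :
    ∀ U : Finset (ZMod m)ˣ, U.Nonempty → (∀ t ∈ U, -t ∉ U) →
      DivBy (∑ u ∈ U, tw u (vals a)) (2 * U.card - 1) := by
  classical
  have hm1 : Fact (1 < m) := ⟨by omega⟩
  unfold chkUnits at h
  rw [Bool.and_eq_true] at h
  obtain ⟨hR, hS'⟩ := h
  intro U hU hfree
  set g : ℕ → Bool := fun t => decide (∃ u ∈ U, ((u : ZMod m)).val = t) with hg
  set S := (unitList m).filter g with hS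
  have hgt : ∀ t, g t = true ↔ ∃ u ∈ U, ((u : ZMod m)).val = t := by
    intro t
    rw [hg]
    simp only [decide_eq_true_eq]
  have hSU : (S : Multiset ℕ) = U.val.map fun u : (ZMod m)ˣ => (u : ZMod m).val := by
    have hnd : S.Nodup := by
      apply List.Nodup.filter
      unfold unitList
      exact (List.nodup_range).filter _
    have hnd' : (U.val.map fun u : (ZMod m)ˣ => (u : ZMod m).val).Nodup := by
      apply Multiset.Nodup.map _ U.nodup
      intro u v huv
      exact Units.ext (ZMod.val_injective m huv)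
    apply (Multiset.Nodup.ext (Multiset.coe_nodup.mpr hnd) hnd').mpr
    intro t
    rw [Multiset.mem_coe, hS, List.mem_filter, Multiset.mem_map]
    constructor
    · rintro ⟨_, h2⟩
      obtain ⟨u, hu, rfl⟩ := (hgt t).mp h2
      exact ⟨u, hu, rfl⟩
    · rintro ⟨u, hu, rfl⟩
      exact ⟨val_mem_unitList hm u, (hgt _).mpr ⟨u, hu, rfl⟩⟩
  have hlen : S.length = U.card := by
    have := congrArg card hSU
    rwa [Multiset.coe_card, Multiset.card_map] at this
  have hsub : S ∈ (unitList m).sublists := List.mem_sublists.mpr List.filter_sublist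
  have h1 := List.all_eq_true.mp hS' S hsub
  have hpos := hU.card_pos
  have hemp : S.isEmpty = false := by
    rw [List.isEmpty_eq_false_iff]
    intro h0
    rw [h0] at hlen
    simp at hlen
    omega
  have hpair : (S.any fun t => S.contains (m - t)) = false := by
    rw [List.any_eq_false]
    intro t ht hc
    rw [List.contains_iff_mem] at hc
    rw [hS, List.mem_filter] at ht hc
    obtain ⟨u, hu, rfl⟩ := (hgt _).mp ht.2
    obtain ⟨v, hv, hvt⟩ := (hgt _).mp hc.2
    apply hfree u hu
    have : v = -u := by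
      apply Units.ext
      rw [Units.val_neg]
      have h3 := ZMod.natCast_zmod_val (v : ZMod m)
      rw [hvt, Nat.cast_sub (ZMod.val_lt _).le, ZMod.natCast_self, ZMod.natCast_zmod_val,
        zero_sub] at h3
      exact h3.symm
    rw [← this]
    exact hv
  rw [hemp, hpair, Bool.or_self, Bool.false_or] at h1
  unfold cover at h1
  obtain ⟨e, he, h2⟩ := List.any_eq_true.mp h1
  obtain ⟨u, hu, h3⟩ := List.any_eq_true.mp h2
  rw [List.isPerm_iff] at h3
  obtain ⟨v, hv⟩ := exists_unit hm hu
  have h4 := chkN_sound hm (List.all_eq_true.mp hR e he)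
  have h5 := divBy_tw v h4
  have hlen' : e.1.length = U.card := by
    rw [← hlen, ← h3.length_eq, List.length_map]
  rw [hlen'] at h5
  have hL : tw v (cst (e.1.flatMap fun t => w.map fun x => t * x % m) : Multiset (ZMod m)) =
      ∑ u ∈ U, tw u (vals a) := by
    have h6 : ∑ u ∈ U, tw u (vals a) =
        ((S : Multiset ℕ).map fun t : ℕ =>
          (w : Multiset ℕ).map fun x : ℕ => (t : ZMod m) * (x : ZMod m)).sum := by
      rw [hSU, Multiset.map_map]
      unfold Finset.sum
      congr 1
      apply Multiset.map_congr rfl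
      intro u _
      rw [hw]
      unfold tw cst
      rw [Multiset.map_map]
      simp
    rw [h6, flatMap_cst, tw_msum, Multiset.map_map, ← Multiset.coe_eq_coe.mpr h3,
      ← Multiset.map_coe, Multiset.map_map]
    congr 1
    apply Multiset.map_congr rfl
    intro t _
    simp only [Function.comp_apply]
    unfold tw
    rw [Multiset.map_map]
    apply Multiset.map_congr rfl
    intro x _
    simp only [Function.comp_apply]
    rw [hv, ZMod.natCast_mod, Nat.cast_mul, mul_assoc]
  rwa [hL] at h5

/-- tuples with entries divisible by the weights; the last entry is determined by the sum -/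
def tup (m : ℕ) : List ℕ → ℕ → List (List ℕ)
  | [], s => if s % m = 0 then [[]] else []
  | [x], s => if (m - s % m) % m ≠ 0 ∧ (m - s % m) % m % x = 0 then [[(m - s % m) % m]] else []
  | x :: y :: ws, s =>
    ((List.range m).filter fun z => z != 0 && z % x == 0).flatMap fun z =>
      (tup m (y :: ws) (s + z)).map fun l => z :: l

lemma mem_tup (hm : 2 ≤ m) : ∀ (w L : List ℕ) (s : ℕ),
    List.Forall₂ (fun x z => 0 < z ∧ z < m ∧ x ∣ z) w L → (s + L.sum) % m = 0 → L ∈ tup m w s := by
  intro w
  induction w with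
  | nil =>
    intro L s h hs
    cases h
    simp only [List.sum_nil, add_zero] at hs
    simp [tup, hs]
  | cons x w ih =>
    intro L s h hs
    cases h with
    | cons h1 h2 =>
      rename_i z L
      cases w with
      | nil =>
        cases h2
        simp only [List.sum_cons, List.sum_nil, add_zero] at hs
        have h3 : (m - s % m) % m = z := by
          have h4 : (s % m + z) % m = 0 := by rw [Nat.mod_add_mod]; exact hs
          have h5 : s % m < m := Nat.mod_lt _ (by omega)
          have h6 : s % m + z = m := by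
            obtain ⟨q, hq⟩ := Nat.dvd_of_mod_eq_zero h4
            have hq1 : q = 1 := by
              have hq0 : q ≠ 0 := by
                rintro rfl
                omega
              have hq2 : q < 2 := by
                by_contra hge
                have := Nat.mul_le_mul_left m (by omega : 2 ≤ q)
                omega
              omega
            rw [hq, hq1, mul_one]
          rw [show m - s % m = z by omega]
          exact Nat.mod_eq_of_lt h1.2.1
        unfold tup
        rw [h3, if_pos ⟨by omega, Nat.mod_eq_zero_of_dvd h1.2.2⟩]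
        simp
      | cons y ws =>
        rw [tup, List.mem_flatMap]
        refine ⟨z, ?_, ?_⟩
        · rw [List.mem_filter]
          refine ⟨List.mem_range.mpr h1.2.1, ?_⟩
          simp only [Bool.and_eq_true, bne_iff_ne, beq_iff_eq]
          exact ⟨by omega, Nat.mod_eq_zero_of_dvd h1.2.2⟩
        · rw [List.mem_map]
          refine ⟨L, ih L (s + z) h2 ?_, rfl⟩
          rw [add_assoc]
          simpa using hs

/-- all characters -/
def chkChars (m : ℕ) (w : List ℕ) (R : List Cert) : Bool :=
  (R.all fun e => chkN m e.1 2 e.2.1 e.2.2.1 e.2.2.2) &&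
    (tup m w 0).all fun L => dec m 2 L 2 ||
      ((unitList m).any fun u => (w.map fun x => u * x % m) == L) || cover m R L

theorem chkChars_sound (hm : 2 ≤ m) {n : ℕ} {w : Fin n → ℕ} {R : List Cert}
    (h : chkChars m (List.ofFn w) R = true) {a : Fin n → ZMod m} (h0 : ∀ l, a l ≠ 0)
    (hd : ∀ l, w l ∣ (a l).val) (hs : ∑ l, a l = 0) :
    DivBy (vals a) 2 ∨ ∃ t : (ZMod m)ˣ, a = fun l => (t : ZMod m) * (w l : ZMod m) := by
  unfold chkChars at h
  rw [Bool.and_eq_true] at h
  obtain ⟨hR, hT⟩ := h
  set L := List.ofFn fun l => (a l).val with hL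
  have hLa : (cst L : Multiset (ZMod m)) = vals a := by
    rw [hL, ← vals_ofFn]
    congr 1
    funext l
    exact ZMod.natCast_zmod_val _
  have hmem : L ∈ tup m (List.ofFn w) 0 := by
    apply mem_tup hm
    · rw [List.forall₂_iff_get]
      refine ⟨by rw [hL, List.length_ofFn, List.length_ofFn], ?_⟩
      intro i h1 h2
      simp only [hL, List.get_eq_getElem, List.getElem_ofFn]
      refine ⟨?_, ZMod.val_lt _, hd _⟩
      rw [Nat.pos_iff_ne_zero, Ne, ZMod.val_eq_zero]
      exact h0 _
    · rw [zero_add]
      apply Nat.mod_eq_zero_of_dvd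
      rw [← ZMod.natCast_eq_zero_iff, ← sum_cst, hLa, sum_vals]
      exact hs
  have h1 := List.all_eq_true.mp hT L hmem
  rw [Bool.or_eq_true, Bool.or_eq_true] at h1
  rcases h1 with (h1 | h1) | h1
  · left
    have h2 := dec_sound 2 L 2 h1 (by rw [hLa, sum_vals]; exact hs)
    rw [hLa] at h2
    exact divBy_of_splits h2
  · right
    obtain ⟨u, hu, h2⟩ := List.any_eq_true.mp h1
    obtain ⟨v, hv⟩ := exists_unit hm hu
    refine ⟨v, ?_⟩
    rw [beq_iff_eq, hL, List.map_ofFn] at h2
    have h3 := List.ofFn_injective h2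
    funext l
    have h4 := congrFun h3 l
    simp only [Function.comp_apply] at h4
    rw [← ZMod.natCast_zmod_val (a l), ← h4, hv, ZMod.natCast_mod, Nat.cast_mul]
  · left
    unfold cover at h1
    obtain ⟨e, he, h2⟩ := List.any_eq_true.mp h1
    obtain ⟨u, hu, h3⟩ := List.any_eq_true.mp h2
    rw [List.isPerm_iff] at h3
    obtain ⟨v, hv⟩ := exists_unit hm hu
    have h4 := divBy_tw v (chkN_sound hm (List.all_eq_true.mp hR e he))
    have h5 : tw v (cst e.1) = vals a := by
      rw [← hLa, ← cst_perm h3]
      unfold tw cst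
      rw [Multiset.map_map, ← Multiset.map_coe, Multiset.map_map]
      apply Multiset.map_congr rfl
      intro t _
      simp only [Function.comp_apply]
      rw [hv, ZMod.natCast_mod, Nat.cast_mul]
    rwa [h5] at h4

lemma divBy_sum_two {k n : ℕ} {b : Fin k → Fin n → ZMod m}
    (I : Finset (Fin k)) (h : ∀ i ∈ I, DivBy (vals (b i)) 2) :
    DivBy (∑ i ∈ I, vals (b i)) (2 * I.card) := by
  classical
  induction I using Finset.induction_on with
  | empty => exact ⟨0, 0, 0, by simp, by simp, by simp, by simp, by simp⟩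
  | insert i I hi ih =>
    rw [Finset.sum_insert hi, Finset.card_insert_of_notMem hi]
    have h1 := divBy_add (h i (Finset.mem_insert_self i I))
      (ih fun j hj => h j (Finset.mem_insert_of_mem hj))
    exact divBy_mono h1 (by omega)

theorem family_div {k n : ℕ} {w : Fin n → ZMod m}
    (hU : ∀ U : Finset (ZMod m)ˣ, U.Nonempty →
      DivBy (∑ u ∈ U, tw u (vals w)) (2 * U.card - 1))
    {b : Fin k → Fin n → ZMod m} (hk : 1 ≤ k) (hinj : Function.Injective b)
    (hb : ∀ i, DivBy (vals (b i)) 2 ∨ ∃ t : (ZMod m)ˣ, b i = fun l => (t : ZMod m) * w l) :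
    DivBy (∑ i, vals (b i)) (2 * k - 1) := by
  classical
  set I := Finset.univ.filter fun i => ∃ t : (ZMod m)ˣ, b i = fun l => (t : ZMod m) * w l with hI
  have hD : ∀ i ∈ Finset.univ \ I, DivBy (vals (b i)) 2 := by
    intro i hi
    rcases hb i with h | h
    · exact h
    · exfalso
      rw [Finset.mem_sdiff] at hi
      exact hi.2 (Finset.mem_filter.mpr ⟨Finset.mem_univ i, h⟩)
  have h1 := divBy_sum_two _ hD
  have hcard : (Finset.univ \ I).card + I.card = k := by
    rw [Finset.card_sdiff_add_card_eq_card (Finset.subset_univ I), Finset.card_univ,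
      Fintype.card_fin]
  rw [← Finset.sum_sdiff (Finset.subset_univ I)]
  rcases I.eq_empty_or_nonempty with he | hne
  · rw [he] at h1 hcard ⊢
    rw [Finset.card_empty, add_zero] at hcard
    rw [hcard] at h1
    rw [Finset.sum_empty, add_zero]
    exact divBy_mono h1 (by omega)
  · have hex : ∀ i : Fin k, ∃ t : (ZMod m)ˣ, i ∈ I → b i = fun l => (t : ZMod m) * w l := by
      intro i
      by_cases hi : i ∈ I
      · obtain ⟨t, ht⟩ := (Finset.mem_filter.mp hi).2
        exact ⟨t, fun _ => ht⟩
      · exact ⟨1, fun h => absurd h hi⟩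
    choose t ht' using hex
    have htinj : Set.InjOn t (I : Set (Fin k)) := by
      intro i hi j hj hij
      apply hinj
      rw [ht' i hi, ht' j hj, hij]
    have h2 : ∑ i ∈ I, vals (b i) = ∑ u ∈ I.image t, tw u (vals w) := by
      rw [Finset.sum_image htinj]
      apply Finset.sum_congr rfl
      intro i hi
      rw [tw_vals, ht' i hi]
    have h3 := hU (I.image t) (hne.image t)
    rw [← h2, Finset.card_image_of_injOn htinj] at h3
    have h4 := divBy_add h1 h3
    have h5 : 0 < I.card := hne.card_pos
    exact divBy_mono h4 (by omega)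

/-- everything together -/
theorem cy_sound (hm : 3 ≤ m) {n : ℕ} (hn : 4 ≤ n) {w : Fin n → ℕ} {R R' : List Cert}
    (h : chkUnits m (List.ofFn w) R = true) (h' : chkChars m (List.ofFn w) R' = true)
    {k : ℕ} (hk : 1 ≤ k) {b : Fin k → Fin n → ZMod m} (hinj : Function.Injective b)
    (h0 : ∀ i l, b i l ≠ 0) (hd : ∀ i l, w l ∣ (b i l).val) (hs : ∀ i, ∑ l, b i l = 0) :
    DivBy (∑ i, vals (b i)) (2 * k - 1) := by
  have h1 := chkUnits_sound (by omega) (vals_ofFn (m := m) w) h
  have h2 := units_of_free hn hm h1
  refine family_div (w := fun l => (w l : ZMod m)) ?_ hk hinj ?_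
  · intro U hU
    have hc := hU.card_pos
    exact h2 (U.card - 1) U (by omega)
  · intro i
    exact chkChars_sound (by omega) h' (h0 i) (hd i) (hs i)

end Pool.Agent.TH540.SC
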