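import Pool.Agent.TH540.Sec

/-!
# Families of functions with prescribed sums over coordinates
-/

set_option linter.unusedSectionVars false

namespace Pool.Agent.TH540

open Finset Pool.Agent.H916Q

section

variable {ι : Type} [DecidableEq ι] {G : ι → Type} [∀ i, CommGroup (G i)]
  [∀ i, Fintype (G i)] [∀ i, DecidableEq (G i)]

/-- equivariant base points -/
structure Sec (B J : Finset ι) (σ π : ∀ i, G i) (β : ∀ j, (∀ i, G i) → G j) : Prop where
  ind : ∀ j ∈ J, ∀ k, k ∉ B → ∀ (y : G k) (x : ∀ i, G i), β j (Pi.mulSingle k y * x) = β j x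
  sg : ∀ j ∈ J, ∀ x, β j (σ * x) = σ j * β j x
  pi : ∀ j ∈ J, ∀ x, β j (π * x) = π j * β j x

/-- the indicator of the base point -/
def ee (β : ∀ j, (∀ i, G i) → G j) (j : ι) (x : ∀ i, G i) : ℤ := if x j = β j x then 1 else 0

variable {B J : Finset ι} {σ π : ∀ i, G i} {β : ∀ j, (∀ i, G i) → G j}

lemma ee_single (hS : Sec B J σ π β) {j k : ι} (hj : j ∈ J) (hk : k ∉ B) (hkj : k ≠ j) (y : G k)
    (x : ∀ i, G i) : ee β j (Pi.mulSingle k y * x) = ee β j x := by
  unfold ee
  have h2 : (Pi.mulSingle k y * x) j = x j := by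
    rw [Pi.mul_apply, Pi.mulSingle_eq_of_ne hkj.symm, one_mul]
  rw [h2, hS.ind j hj k hk]

lemma ee_sg (hS : Sec B J σ π β) {j : ι} (hj : j ∈ J) (x : ∀ i, G i) :
    ee β j (σ * x) = ee β j x := by
  unfold ee
  rw [hS.sg j hj, Pi.mul_apply]
  simp only [mul_right_inj]

lemma ee_pi (hS : Sec B J σ π β) {j : ι} (hj : j ∈ J) (x : ∀ i, G i) :
    ee β j (π * x) = ee β j x := by
  unfold ee
  rw [hS.pi j hj, Pi.mul_apply]
  simp only [mul_right_inj]

lemma NN_ee_self (hS : Sec B J σ π β) {j : ι} (hj : j ∈ J) (hjB : j ∉ B)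
    {h : (∀ i, G i) → ℤ} (hI : Ind j h) : NN j (fun x => ee β j x * h x) = h := by
  funext x
  unfold NN
  have h1 : ∀ y : G j, ee β j (Pi.mulSingle j y * x) * h (Pi.mulSingle j y * x) =
      if y = β j x * (x j)⁻¹ then h x else 0 := by
    intro y
    rw [hI]
    unfold ee
    have h2 : (Pi.mulSingle j y * x) j = y * x j := by
      rw [Pi.mul_apply, Pi.mulSingle_eq_same]
    rw [h2, hS.ind j hj j hjB]
    by_cases hc : y * x j = β j x
    · rw [if_pos hc, if_pos (by rw [← hc, mul_assoc, mul_inv_cancel, mul_one]), one_mul]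
    · rw [if_neg hc, if_neg, zero_mul]
      intro h3
      apply hc
      rw [h3, mul_assoc, inv_mul_cancel, mul_one]
  rw [sum_congr rfl fun y _ => h1 y, Finset.sum_ite_eq' univ]
  simp

lemma NN_ee_of_ne (hS : Sec B J σ π β) {i j : ι} (hj : j ∈ J) (hi : i ∉ B) (hij : i ≠ j)
    (h : (∀ i, G i) → ℤ) :
    NN i (fun x => ee β j x * h x) = fun x => ee β j x * NN i h x := by
  funext x
  unfold NN
  rw [mul_sum]
  refine sum_congr rfl fun y _ => ?_
  show ee β j _ * h _ = _
  rw [ee_single hS hj hi hij]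

/-- the functions we work with -/
structure Good (B : Finset ι) (σ π : ∀ i, G i) (K : Finset ι) (f : (∀ i, G i) → ℤ) : Prop where
  ind : ∀ k, k ∉ K → k ∉ B → Ind k f
  odd : ∀ x, f (σ * x) = - f x
  inv : ∀ x, f (π * x) = f x
  even : ∀ x, 2 ∣ f x

lemma Good.zero (K : Finset ι) : Good B σ π K (fun _ => 0) :=
  ⟨fun _ _ _ _ _ => rfl, fun _ => by simp, fun _ => rfl, fun _ => dvd_zero 2⟩

lemma Good.sub {K : Finset ι} {f g : (∀ i, G i) → ℤ} (hf : Good B σ π K f)
    (hg : Good B σ π K g) : Good B σ π K (fun x => f x - g x) :=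
  ⟨fun k h1 h2 => (hf.ind k h1 h2).sub (hg.ind k h1 h2),
    fun x => by show f _ - g _ = _; rw [hf.odd, hg.odd]; ring,
    fun x => by show f _ - g _ = _; rw [hf.inv, hg.inv],
    fun x => dvd_sub (hf.even x) (hg.even x)⟩

lemma Good.add {K : Finset ι} {f g : (∀ i, G i) → ℤ} (hf : Good B σ π K f)
    (hg : Good B σ π K g) : Good B σ π K (fun x => f x + g x) :=
  ⟨fun k h1 h2 => (hf.ind k h1 h2).add (hg.ind k h1 h2),
    fun x => by show f _ + g _ = _; rw [hf.odd, hg.odd]; ring,
    fun x => by show f _ + g _ = _; rw [hf.inv, hg.inv],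
    fun x => dvd_add (hf.even x) (hg.even x)⟩

lemma Good.mul_ee (hS : Sec B J σ π β) {K : Finset ι} {f : (∀ i, G i) → ℤ}
    (hf : Good B σ π K f) {j : ι} (hj : j ∈ K) (hjJ : j ∈ J) :
    Good B σ π K (fun x => ee β j x * f x) :=
  ⟨fun k h1 h2 y x => by
      show ee β j _ * f _ = _
      rw [ee_single hS hjJ h2 (fun h => h1 (h ▸ hj)), hf.ind k h1 h2],
    fun x => by show ee β j _ * f _ = _; rw [ee_sg hS hjJ, hf.odd]; ring,
    fun x => by show ee β j _ * f _ = _; rw [ee_pi hS hjJ, hf.inv],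
    fun x => Dvd.dvd.mul_left (hf.even x) _⟩

lemma Good.NN {K : Finset ι} {f : (∀ i, G i) → ℤ} (hf : Good B σ π K f) (j : ι) :
    Good B σ π K (NN j f) :=
  ⟨fun k h1 h2 => (hf.ind k h1 h2).NN j,
    fun x => by
      rw [← NN_trans]
      unfold H916Q.NN
      rw [← sum_neg_distrib]
      exact sum_congr rfl fun y _ => hf.odd _,
    fun x => by
      rw [← NN_trans]
      unfold H916Q.NN
      exact sum_congr rfl fun y _ => hf.inv _,
    fun x => Finset.dvd_sum fun y _ => hf.even _⟩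

/-- prescribed sums over the coordinates -/
lemma marg (hS : Sec B J σ π β) (K : Finset ι) (hKJ : K ⊆ J) (hKB : ∀ j ∈ K, j ∉ B)
    (r : ι → (∀ i, G i) → ℤ) (hr : ∀ j ∈ K, Good B σ π K (r j) ∧ Ind j (r j))
    (hc : ∀ i ∈ K, ∀ j ∈ K, NN i (r j) = NN j (r i)) :
    ∀ T : Finset ι, T ⊆ K → ∃ f, Good B σ π K f ∧ ∀ j ∈ T, NN j f = r j := by
  intro T
  induction T using Finset.induction_on with
  | empty => intro _; exact ⟨fun _ => 0, Good.zero K, fun j hj => by simp at hj⟩
  | insert a T haT ih =>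
    intro hTK
    have haK : a ∈ K := hTK (mem_insert_self _ _)
    have haB : a ∉ B := hKB a haK
    obtain ⟨f, hf, hfr⟩ := ih (fun x hx => hTK (mem_insert_of_mem hx))
    have h1 : Good B σ π K (fun x => r a x - NN a f x) := (hr a haK).1.sub (hf.NN a)
    have h2 : Ind a (fun x => r a x - NN a f x) := (hr a haK).2.sub (Ind_NN_self a f)
    refine ⟨fun x => f x + ee β a x * (r a x - NN a f x),
      hf.add (h1.mul_ee hS haK (hKJ haK)), ?_⟩
    intro j hj
    rw [NN_add]
    rcases mem_insert.mp hj with rfl | hjT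
    · rw [NN_ee_self hS (hKJ haK) haB h2]
      funext x
      ring
    · have hjK : j ∈ K := hTK hj
      have hjB : j ∉ B := hKB j hjK
      have hja : j ≠ a := fun h => haT (h ▸ hjT)
      rw [NN_ee_of_ne hS (hKJ haK) hjB hja, NN_sub, NN_comm j a, hfr j hjT, hc j hjK a haK]
      funext x
      ring

/-- the properties of the family -/
structure Fam (B : Finset ι) (σ π : ∀ i, G i) (t : ι → ∀ i, G i)
    (ω : Finset ι → (∀ i, G i) → ℤ) (T : Finset ι) : Prop where
  ind : ∀ k, k ∉ T → k ∉ B → Ind k (ω T)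
  odd : ∀ x, ω T (σ * x) = - ω T x
  inv : ∀ x, ω T (π * x) = ω T x
  even : T ≠ ∅ → ∀ x, 2 ∣ ω T x
  rel : ∀ j ∈ T, NN j (ω T) = DD (t j) (ω (T.erase j))

theorem exists_family (hS : Sec B J σ π β) (hJB : ∀ j ∈ J, j ∉ B)
    (t : ι → ∀ i, G i) (ω0 : (∀ i, G i) → ℤ) (h0 : ∀ k, k ∉ B → Ind k ω0)
    (h1 : ∀ x, ω0 (σ * x) = - ω0 x) (h1' : ∀ x, ω0 (π * x) = ω0 x)
    (h2 : ∀ j ∈ J, ∀ x, 2 ∣ DD (t j) ω0 x) :
    ∀ n : ℕ, ∃ ω : Finset ι → (∀ i, G i) → ℤ, ω ∅ = ω0 ∧
      ∀ T : Finset ι, T ⊆ J → T.card ≤ n → Fam B σ π t ω T := by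
  intro n
  induction n with
  | zero =>
    refine ⟨fun _ => ω0, rfl, fun T hT hc => ?_⟩
    have hT0 : T = ∅ := Finset.card_eq_zero.mp (by omega)
    subst hT0
    exact ⟨fun k _ hk => h0 k hk, h1, h1', fun h => absurd rfl h, fun j hj => by simp at hj⟩
  | succ n ih =>
    obtain ⟨ω, hω0, hω⟩ := ih
    -- the new functions
    have key : ∀ T : Finset ι, T ⊆ J → T.card = n + 1 →
        ∃ f, Good B σ π T f ∧ ∀ j ∈ T, NN j f = DD (t j) (ω (T.erase j)) := by
      intro T hT hc
      have herase : ∀ j ∈ T, Fam B σ π t ω (T.erase j) := by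
        intro j hj
        refine hω _ ((erase_subset _ _).trans hT) ?_
        rw [card_erase_of_mem hj, hc]; omega
      refine marg hS T hT (fun j hj => hJB j (hT hj)) (fun j => DD (t j) (ω (T.erase j))) ?_ ?_
        T (Subset.refl _)
      · intro j hj
        have hF := herase j hj
        refine ⟨⟨?_, ?_, ?_, ?_⟩, ?_⟩
        · intro k hk hk0
          exact (hF.ind k (fun h => hk (mem_of_mem_erase h)) hk0).DD _
        · intro x
          unfold DD
          rw [mul_left_comm, hF.odd, hF.odd]; ring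
        · intro x
          unfold DD
          rw [mul_left_comm, hF.inv, hF.inv]
        · intro x
          by_cases he : T.erase j = ∅
          · show 2 ∣ DD (t j) (ω (T.erase j)) x
            rw [he, hω0]
            exact h2 j (hT hj) x
          · exact dvd_sub (hF.even he _) (hF.even he _)
        · exact (hF.ind j (notMem_erase j T) (hJB j (hT hj))).DD _
      · intro i hi j hj
        by_cases hij : i = j
        · subst hij; rfl
        · show NN i (DD (t j) (ω (T.erase j))) = NN j (DD (t i) (ω (T.erase i)))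
          rw [NN_DD, NN_DD, (herase j hj).rel i (mem_erase.mpr ⟨hij, hi⟩),
            (herase i hi).rel j (mem_erase.mpr ⟨Ne.symm hij, hj⟩), erase_right_comm, DD_comm]
    classical
    choose! F hF hFr using key
    refine ⟨fun T => if T.card ≤ n then ω T else F T, ?_, ?_⟩
    · simp [hω0]
    · intro T hT hc
      by_cases hn : T.card ≤ n
      · have hFm := hω T hT hn
        refine ⟨?_, ?_, ?_, ?_, ?_⟩
        · simp only [if_pos hn]; exact hFm.ind
        · simp only [if_pos hn]; exact hFm.odd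
        · simp only [if_pos hn]; exact hFm.inv
        · simp only [if_pos hn]; exact hFm.even
        · intro j hj
          have h3 : (T.erase j).card ≤ n := (card_le_card (erase_subset j T)).trans hn
          simp only [if_pos hn, if_pos h3]
          exact hFm.rel j hj
      · have hc' : T.card = n + 1 := by omega
        refine ⟨?_, ?_, ?_, ?_, ?_⟩
        · simp only [if_neg hn]; exact fun k h1 h2 => (hF T hT hc').ind k h1 h2
        · simp only [if_neg hn]; exact (hF T hT hc').odd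
        · simp only [if_neg hn]; exact (hF T hT hc').inv
        · simp only [if_neg hn]; exact fun _ => (hF T hT hc').even
        · intro j hj
          have h3 : (T.erase j).card ≤ n := by
            rw [card_erase_of_mem hj]; omega
          simp only [if_neg hn, if_pos h3]
          exact hFr T hT hc' j hj

/-- the family with vanishing sums over the coordinates in `C ⊆ B` -/
structure Core (B J C : Finset ι) (σ π : ∀ i, G i) (t : ι → ∀ i, G i) (ν : ∀ i, G i → ℤ)
    (κ : Finset ι → (∀ i, G i) → ℤ) : Prop where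
  fam : ∀ T, T ⊆ J → Fam B σ π t κ T
  zero : ∀ T, T ⊆ J → ∀ i ∈ C, NN i (κ T) = fun _ => 0
  par : ∀ x, 2 ∣ κ ∅ x - ∏ i ∈ B \ C, ν i (x i)

lemma DD_zero (t : ∀ i, G i) : DD t (fun _ => 0) = fun _ => 0 := by
  funext x; unfold DD; simp

theorem core_step {C : Finset ι} {t : ι → ∀ i, G i} {ν : ∀ i, G i → ℤ}
    {κ : Finset ι → (∀ i, G i) → ℤ} (hκ : Core B J C σ π t ν κ) {a : ι} (ha : a ∈ B) (haC : a ∉ C)
    (g : G a) (hg : ∀ u, ¬ 2 ∣ ν a u - ν a (g * u)) :
    Core B J (insert a C) σ π t ν (fun T => DD (Pi.mulSingle a g) (κ T)) := by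
  refine ⟨?_, ?_, ?_⟩
  · intro T hT
    have hF := hκ.fam T hT
    refine ⟨?_, ?_, ?_, ?_, ?_⟩
    · intro k hk hkB
      exact (hF.ind k hk hkB).DD _
    · intro x
      unfold DD
      rw [mul_left_comm, hF.odd, hF.odd]; ring
    · intro x
      unfold DD
      rw [mul_left_comm, hF.inv, hF.inv]
    · intro hne x
      exact dvd_sub (hF.even hne _) (hF.even hne _)
    · intro j hj
      rw [NN_DD, hF.rel j hj, DD_comm]
  · intro T hT i hi
    rcases mem_insert.mp hi with rfl | hi
    · rw [NN_DD]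
      funext x
      unfold DD
      rw [Ind_NN_self i _ g x, sub_self]
    · rw [NN_DD, hκ.zero T hT i hi, DD_zero]
  · intro x
    show 2 ∣ (κ ∅ x - κ ∅ (Pi.mulSingle a g * x)) - _
    have hmem : a ∈ B \ C := mem_sdiff.mpr ⟨ha, haC⟩
    have hset : B \ insert a C = (B \ C).erase a := by
      ext k
      simp only [mem_sdiff, mem_insert, mem_erase, not_or]
      tauto
    have h1 := hκ.par x
    have h2 := hκ.par (Pi.mulSingle a g * x)
    rw [← mul_prod_erase _ _ hmem] at h1 h2
    have h3 : ∏ i ∈ (B \ C).erase a, ν i ((Pi.mulSingle a g * x) i) =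
        ∏ i ∈ (B \ C).erase a, ν i (x i) := by
      refine prod_congr rfl fun i hi => ?_
      rw [Pi.mul_apply, Pi.mulSingle_eq_of_ne (ne_of_mem_erase hi), one_mul]
    rw [h3, Pi.mul_apply, Pi.mulSingle_eq_same] at h2
    rw [hset]
    set P := ∏ i ∈ (B \ C).erase a, ν i (x i) with hP
    have h4 := hg (x a)
    obtain ⟨c1, hc1⟩ := h1
    obtain ⟨c2, hc2⟩ := h2
    have h5 : ∃ e, ν a (x a) - ν a (g * x a) = 2 * e + 1 := by
      obtain ⟨e, he⟩ := Int.even_or_odd' (ν a (x a) - ν a (g * x a))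
      rcases he with he | he
      · exact absurd ⟨e, he⟩ h4
      · exact ⟨e, he⟩
    obtain ⟨e, he⟩ := h5
    refine ⟨c1 - c2 + e * P, ?_⟩
    linear_combination hc1 - hc2 + P * he

end

end Pool.Agent.TH540
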