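import Pool.Agent.TH540.Main2

/-!
# Correcting parities by surfaces
-/

set_option linter.unusedSectionVars false

namespace Pool.Agent.TH540

open Finset Pool.Agent.H916R2 Pool.Agent.H916T Pool.Agent.H916U Pool.Agent.H916Z Pool.Agent.H916Q

variable {p : ℕ}

/-- equivalence generated by the links -/
abbrev EL (p : ℕ) {M : ℕ} (a b : ZMod M) : Prop := Relation.EqvGen (Link p) a b

lemma el_zero {M : ℕ} {x y : ZMod M} (h : EL p x y) : x = 0 ↔ y = 0 := by
  induction h with
  | rel x y h => exact ⟨fun h' => absurd h' h.1, fun h' => absurd h' h.2.1⟩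
  | refl x => exact Iff.rfl
  | symm x y _ ih => exact ih.symm
  | trans x y z _ _ ih1 ih2 => exact ih1.trans ih2

/-- the class at which all Stickelberger functions vanish -/
def Null (p : ℕ) {M : ℕ} (c : ZMod M) : Prop := ∃ y : ZMod M, y ≠ 0 ∧ H916Y.PW p y ∧ EL p c y

lemma Null.of_el {M : ℕ} {a b : ZMod M} (h : EL p a b) (hb : Null p b) : Null p a := by
  obtain ⟨y, hy0, hy, hby⟩ := hb
  exact ⟨y, hy0, hy, h.trans _ _ _ hby⟩

lemma Null.el {M : ℕ} {a b : ZMod M} (ha : Null p a) (hb : Null p b) : EL p a b := by
  obtain ⟨y, hy0, hy, hay⟩ := ha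
  obtain ⟨z, hz0, hz, hbz⟩ := hb
  have h1 : EL p y z := Relation.EqvGen.rel _ _ ⟨hy0, hz0, Or.inr (Or.inr fun t => by
    rw [hy t, hz t])⟩
  exact (hay.trans _ _ _ h1).trans _ _ _ (hbz.symm _ _)

lemma el_congr {M : ℕ} {a b c : ZMod M} (h : EL p a b) : EL p c a ↔ EL p c b :=
  ⟨fun h' => h'.trans _ _ _ h, fun h' => h'.trans _ _ _ (h.symm _ _)⟩

open scoped Classical in
/-- the parity of the class of `a` can be corrected by surfaces -/
def Fix (p : ℕ) {M : ℕ} (a : ZMod M) : Prop :=
  ∃ l : Multiset (Multiset (ZMod M)), (∀ x ∈ l, SurfaceTate p M x) ∧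
    ∀ c : ZMod M, ¬ Null p c →
      Even ((if EL p c a then 1 else 0) + l.sum.countP fun b => EL p c b)

lemma fix_null {M : ℕ} {a : ZMod M} (h : Null p a) : Fix p a := by
  refine ⟨0, by simp, fun c hc => ?_⟩
  rw [if_neg fun h' => hc (h.of_el h')]
  simp

lemma fix_link {M : ℕ} {a b : ZMod M} (h : EL p a b) (hb : Fix p b) : Fix p a := by
  classical
  obtain ⟨l, hl, H⟩ := hb
  refine ⟨l, hl, fun c hc => ?_⟩
  have h1 := H c hc
  have h2 : (if EL p c a then 1 else 0 : ℕ) = if EL p c b then 1 else 0 :=
    if_congr (el_congr h) rfl rfl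
  rw [h2]
  exact h1

lemma fix_surface {M : ℕ} {a x y z w : ZMod M} (hs : SurfaceTate p M {x, y, z, w})
    (hx : EL p a x) (hyz : EL p y z) (hw : Null p w) : Fix p a := by
  classical
  refine ⟨{{x, y, z, w}}, ?_, fun c hc => ?_⟩
  · intro t ht
    rw [Multiset.mem_singleton.mp ht]
    exact hs
  · rw [Multiset.sum_singleton]
    have h1 : (if EL p c a then 1 else 0 : ℕ) = if EL p c x then 1 else 0 :=
      if_congr (el_congr hx) rfl rfl
    have h2 : (if EL p c y then 1 else 0 : ℕ) = if EL p c z then 1 else 0 :=
      if_congr (el_congr hyz) rfl rfl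
    have h3 : (if EL p c w then 1 else 0 : ℕ) = 0 := if_neg fun h' => hc (hw.of_el h')
    have h4 : ({x, y, z, w} : Multiset (ZMod M)).countP (fun b => EL p c b) =
        (if EL p c x then 1 else 0) + (if EL p c z then 1 else 0) +
          (if EL p c z then 1 else 0) := by
      have h5 : ({x, y, z, w} : Multiset (ZMod M)) = x ::ₘ y ::ₘ z ::ₘ w ::ₘ 0 := rfl
      rw [h5, Multiset.countP_cons, Multiset.countP_cons, Multiset.countP_cons,
        Multiset.countP_cons, Multiset.countP_zero, h2, h3]
      omega
    rw [h4, h1]
    exact ⟨(if EL p c x then 1 else 0) + (if EL p c z then 1 else 0), by ring⟩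

lemma countP_sum_map {α β : Type} (P : α → Prop) [DecidablePred P] (F : β → Multiset α)
    (s : Multiset β) : (s.map F).sum.countP P = (s.map fun a => (F a).countP P).sum := by
  induction s using Multiset.induction_on with
  | empty => simp
  | cons a s ih => rw [Multiset.map_cons, Multiset.sum_cons, Multiset.countP_add, ih,
      Multiset.map_cons, Multiset.sum_cons]

lemma countP_sum_ite {β : Type} (P : β → Prop) [DecidablePred P] (s : Multiset β) :
    s.countP P = (s.map fun a => if P a then 1 else 0).sum := by
  induction s using Multiset.induction_on with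
  | empty => simp
  | cons a s ih => rw [Multiset.countP_cons, ih, Multiset.map_cons, Multiset.sum_cons]; ring

lemma even_sum_map {β : Type} (s : Multiset β) (g : β → ℕ) (h : ∀ b ∈ s, Even (g b)) :
    Even (s.map g).sum := by
  induction s using Multiset.induction_on with
  | empty => simp
  | cons a s ih =>
    rw [Multiset.map_cons, Multiset.sum_cons]
    exact (h a (Multiset.mem_cons_self _ _)).add
      (ih fun b hb => h b (Multiset.mem_cons_of_mem hb))

lemma sum_sum_map {α β : Type} (G : β → Multiset (Multiset α)) (s : Multiset β) :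
    (s.map G).sum.sum = (s.map fun a => (G a).sum).sum := by
  induction s using Multiset.induction_on with
  | empty => simp
  | cons a s ih => rw [Multiset.map_cons, Multiset.sum_cons, Multiset.sum_add, ih,
      Multiset.map_cons, Multiset.sum_cons]

lemma mem_sum_map {α β : Type} (G : β → Multiset α) (s : Multiset β) {x : α}
    (hx : x ∈ (s.map G).sum) : ∃ b ∈ s, x ∈ G b := by
  induction s using Multiset.induction_on with
  | empty => simp at hx
  | cons a s ih =>
    rw [Multiset.map_cons, Multiset.sum_cons, Multiset.mem_add] at hx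
    rcases hx with h | h
    · exact ⟨a, Multiset.mem_cons_self _ _, h⟩
    · obtain ⟨b, hb, h'⟩ := ih h
      exact ⟨b, Multiset.mem_cons_of_mem hb, h'⟩

/-- **Correcting parities.** -/
theorem parity_fix {m M k : ℕ} (hp : p.Prime) (hm : 0 < m) (hk : 0 < k) (hkm : k * m = M)
    (hpM : p.Coprime M) {s : Multiset (ZMod m)} (hs : IsTate p m s) (hne : s ≠ 0)
    (E : Finset ℕ → Prop) (hE : ∀ S, E S → Even (s.countP (Supp S)))
    (hfix : ∀ a : ZMod M, a ≠ 0 → addOrderOf a ∣ m → ¬ E (addOrderOf a).primeFactors →
      Fix p a) :
    ∃ N : ℕ, 0 < N ∧ p.Coprime N ∧ ∀ M : ℕ, N * m = M →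
      H916T.Generated M (ZBase p M) (s.map (iota N : ZMod m → ZMod M)) := by
  classical
  have hM : 0 < M := by rw [← hkm]; exact Nat.mul_pos hk hm
  have hz : NeZero m := ⟨hm.ne'⟩
  have hzM : NeZero M := ⟨hM.ne'⟩
  set s' : Multiset (ZMod M) := s.map (iota k : ZMod m → ZMod M) with hs'
  have hT : IsTate p M s' := H916Y.isTate_iota hkm hpM hs
  have hmem : ∀ a ∈ s', a ≠ 0 ∧ addOrderOf a ∣ m := by
    intro a ha
    refine ⟨fun h => hT.1 (h ▸ ha), ?_⟩
    obtain ⟨b, _, rfl⟩ := Multiset.mem_map.mp ha
    rw [H916Z.addOrderOf_iota hkm]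
    exact addOrderOf_dvd_level b
  -- choice of surfaces
  have hch : ∀ a : ZMod M, ∃ l : Multiset (Multiset (ZMod M)), (∀ x ∈ l, SurfaceTate p M x) ∧
      ((a ∈ s' ∧ ¬ E (addOrderOf a).primeFactors) → ∀ c : ZMod M, ¬ Null p c →
        Even ((if EL p c a then 1 else 0) + l.sum.countP fun b => EL p c b)) ∧
      (¬ (a ∈ s' ∧ ¬ E (addOrderOf a).primeFactors) → l = 0) := by
    intro a
    by_cases h : a ∈ s' ∧ ¬ E (addOrderOf a).primeFactors
    · obtain ⟨l, hl, H⟩ := hfix a (hmem a h.1).1 (hmem a h.1).2 h.2
      exact ⟨l, hl, fun _ => H, fun h' => absurd h h'⟩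
    · exact ⟨0, by simp, fun h' => absurd h' h, fun _ => rfl⟩
  choose F hF1 hF2 hF3 using hch
  set l : Multiset (Multiset (ZMod M)) := (s'.map F).sum with hl
  have hlS : ∀ x ∈ l, SurfaceTate p M x := by
    intro x hx
    obtain ⟨b, _, hb⟩ := mem_sum_map F s' hx
    exact hF1 b x hb
  -- classes different from the null class
  have hcls : ∀ c : ZMod M, ¬ Null p c → Even ((s' + l.sum).countP fun b => EL p c b) := by
    intro c hc
    rw [Multiset.countP_add, hl, sum_sum_map, countP_sum_map, countP_sum_ite _ s',
      ← Multiset.sum_map_add]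
    -- split into the two kinds of elements
    have hsplit : (s'.map fun a => (if EL p c a then 1 else 0) +
        (F a).sum.countP fun b => EL p c b) =
        s'.map fun a => (if E (addOrderOf a).primeFactors then
          (if EL p c a then 1 else 0) else ((if EL p c a then 1 else 0) +
          (F a).sum.countP fun b => EL p c b)) := by
      apply Multiset.map_congr rfl
      intro a _
      by_cases h : E (addOrderOf a).primeFactors
      · rw [if_pos h, hF3 a (fun h' => h'.2 h)]
        simp
      · rw [if_neg h]
    rw [hsplit]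
    have hsplit2 : (s'.map fun a => (if E (addOrderOf a).primeFactors then
          (if EL p c a then 1 else 0) else ((if EL p c a then 1 else 0) +
          (F a).sum.countP fun b => EL p c b))) =
        s'.map fun a => (if E (addOrderOf a).primeFactors ∧ EL p c a then 1 else 0) +
          (if E (addOrderOf a).primeFactors then 0 else ((if EL p c a then 1 else 0) +
          (F a).sum.countP fun b => EL p c b)) := by
      apply Multiset.map_congr rfl
      intro a _
      by_cases h : E (addOrderOf a).primeFactors <;> by_cases h' : EL p c a <;> simp [h, h']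
    rw [hsplit2, Multiset.sum_map_add, ← countP_sum_ite]
    apply Even.add
    · have hkey : Even ((s'.filter fun a => E (addOrderOf a).primeFactors).countP
          fun a => EL p c a) := by
        refine even_of_key (fun b : ZMod M => (addOrderOf b).primeFactors) _ _ _ rfl ?_ ?_
        · intro K
          rw [Multiset.countP_filter]
          by_cases hK : E K
          · have h1 : s'.countP (fun a => (addOrderOf a).primeFactors = K ∧
                E (addOrderOf a).primeFactors) = s'.countP (Supp K) := by
              apply Multiset.countP_congr rfl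
              intro a _
              unfold Supp
              simp only [eq_iff_iff]
              exact ⟨fun h => h.1, fun h => ⟨h, by rw [h]; exact hK⟩⟩
            rw [h1, hs', H916Y.countP_iota hkm]
            exact hE K hK
          · have h1 : s'.countP (fun a => (addOrderOf a).primeFactors = K ∧
                E (addOrderOf a).primeFactors) = 0 := by
              rw [Multiset.countP_eq_zero]
              rintro a _ ⟨h1, h2⟩
              exact hK (h1 ▸ h2)
            rw [h1]; exact Even.zero
        · intro a ha b hb hab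
          apply el_congr
          have ha' := (Multiset.mem_filter.mp ha).1
          have hb' := (Multiset.mem_filter.mp hb).1
          exact Relation.EqvGen.rel _ _ ⟨(hmem a ha').1, (hmem b hb').1, Or.inl hab⟩
      rw [Multiset.countP_filter] at hkey
      have h1 : s'.countP (fun a => E (addOrderOf a).primeFactors ∧ EL p c a) =
          s'.countP (fun a => EL p c a ∧ E (addOrderOf a).primeFactors) := by
        apply Multiset.countP_congr rfl
        intro a _
        simp only [eq_iff_iff]
        exact and_comm
      rw [h1]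
      exact hkey
    · apply even_sum_map
      intro a ha
      by_cases h : E (addOrderOf a).primeFactors
      · rw [if_pos h]; exact Even.zero
      · rw [if_neg h]
        exact hF2 a ⟨ha, h⟩ c hc
  refine H916Y.parity_surf hp hm hk hkm hpM hs hne l hlS ?_
  intro c
  by_cases hc : Null p c
  · -- the null class
    have htot : Even (Multiset.card (s' + l.sum)) :=
      (H916Y.isTate_add hpM hT (H916Y.isTate_sum hpM l hlS)).2.1
    have h0 : (0 : ZMod M) ∉ s' + l.sum :=
      (H916Y.isTate_add hpM hT (H916Y.isTate_sum hpM l hlS)).1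
    have hrest : Even (((s' + l.sum).filter fun b => ¬ EL p c b).countP fun _ => True) := by
      refine even_of_key (fun b : ZMod M => Quot.mk (Link p) b) _ _ _ rfl ?_
        (fun _ _ _ _ _ => Iff.rfl)
      intro K
      obtain ⟨d, rfl⟩ := Quot.exists_rep K
      rw [Multiset.countP_filter]
      by_cases hd : Null p d
      · have h1 : (s' + l.sum).countP (fun a => Quot.mk (Link p) a = Quot.mk (Link p) d ∧
            ¬ EL p c a) = 0 := by
          rw [Multiset.countP_eq_zero]
          rintro a _ ⟨h1, h2⟩
          exact h2 ((hc.el hd).trans _ _ _ ((Quot.eqvGen_exact h1).symm _ _))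
        rw [h1]; exact Even.zero
      · have h1 : (s' + l.sum).countP (fun a => Quot.mk (Link p) a = Quot.mk (Link p) d ∧
            ¬ EL p c a) = (s' + l.sum).countP (fun b => EL p d b) := by
          apply Multiset.countP_congr rfl
          intro a _
          simp only [eq_iff_iff]
          constructor
          · exact fun h => (Quot.eqvGen_exact h.1).symm _ _
          · intro h
            refine ⟨Quot.eqvGen_sound (h.symm _ _), fun h' => hd ?_⟩
            exact hc.of_el (h.trans _ _ _ (h'.symm _ _))
        rw [h1]
        exact hcls d hd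
    have h1 := Multiset.card_eq_countP_add_countP (fun b => EL p c b) (s' + l.sum)
    rw [Multiset.countP_True, ← Multiset.countP_eq_card_filter] at hrest
    rw [h1] at htot
    exact (Nat.even_add.mp htot).mpr hrest
  · exact hcls c hc

end Pool.Agent.TH540
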