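import Pool.Agent.TH540.GTCList
import Pool.Agent.H916R2.Families

/-!
# Characteristic zero
-/

set_option linter.unusedSectionVars false

namespace Pool.Agent.TH540

open Finset Pool.Agent.H916R2 Pool.Agent.H916T

/-- the total sawtooth -/
def St {m : ℕ} (s : Multiset (ZMod m)) (t : (ZMod m)ˣ) : ℤ :=
  (s.map fun a => saw ((t : ZMod m) * a)).sum

variable {m : ℕ} [NeZero m]

theorem exists_triples (hm3 : 3 ≤ m)
    (hC : ∀ p : ℕ, p.Prime → (p : ZMod m) = 1 → Curves p m) {s : Multiset (ZMod m)}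
    {w : ℕ} (h0 : (0 : ZMod m) ∉ s) (hs : s.sum = 0) (hpar : 2 ∣ Multiset.card s + w)
    (hW : ∀ t, |St s t| ≤ w * m) :
    ∃ E : Multiset (Multiset (ZMod m)), Multiset.card E = w ∧
      (∀ e ∈ E, (0 : ZMod m) ∉ e ∧ e.sum = 0 ∧ Multiset.card e = 3) ∧
      IsHodge m (s + E.join.map Neg.neg) := by
  obtain ⟨p, hp, _, hp1⟩ := Nat.exists_prime_gt_modEq_one (k := m) m (NeZero.ne m)
  have hpc : (p : ZMod m) = 1 := by
    have h := (ZMod.natCast_eq_natCast_iff p 1 m).mpr hp1
    rwa [Nat.cast_one] at h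
  have hcop : p.Coprime m := by
    rw [← ZMod.isUnit_iff_coprime, hpc]
    exact isUnit_one
  have hf : orderOf (p : ZMod m) = 1 := by rw [hpc, orderOf_one]
  have hWs : ∀ a : ZMod m, W p a = saw a := by
    intro a
    unfold W
    rw [hf]
    simp
  have hWt : ∀ (s : Multiset (ZMod m)) (t : (ZMod m)ˣ), Wt p s t = St s t := by
    intro s t
    unfold Wt St
    congr 1
    exact Multiset.map_congr rfl fun a _ => hWs _
  obtain ⟨E, hE1, hE2, hE3⟩ := exists_curves hcop hm3 (hC p hp hpc) w s h0 hs hpar (by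
    intro t
    rw [hWt, hf]
    push_cast
    rw [mul_one]
    exact hW t)
  refine ⟨E, hE1, hE2, ?_⟩
  apply isHodge_of_saw
  · rw [Multiset.mem_add, not_or]
    refine ⟨h0, fun h1 => ?_⟩
    obtain ⟨b, hb, hb0⟩ := Multiset.mem_map.mp h1
    rw [neg_eq_zero] at hb0
    rw [hb0] at hb
    exact join_zero (fun e he => (hE2 e he).1) hb
  · rw [Multiset.card_add, Multiset.card_map, join_card (fun e he => (hE2 e he).2.2), hE1,
      Nat.even_iff]
    omega
  · intro t
    have h1 : ((s + E.join.map Neg.neg).map fun a => saw ((t : ZMod m) * a)).sum =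
        St (s + E.join.map Neg.neg) t := rfl
    rw [h1, ← hWt, Wt_add, Wt_neg, Wt_join, hE3]
    ring

/-- the Hodge condition as a bound for the sawtooth -/
lemma hodge_bound {s : Multiset (ZMod m)} (h0 : (0 : ZMod m) ∉ s) {ν : ℕ}
    (h : ∀ t : (ZMod m)ˣ, m * (ν + 1) ≤ (s.map fun a => ((t : ZMod m) * a).val).sum) :
    ∃ w : ℕ, w + 2 * ν + 2 = Multiset.card s ∧ ∀ t, |St s t| ≤ w * m := by
  have hm : (0 : ℤ) < m := by exact_mod_cast Nat.pos_of_ne_zero (NeZero.ne m)
  have hneg : ∀ t, St s (-t) = -St s t := by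
    intro t
    unfold St
    rw [← Multiset.sum_map_neg', Multiset.map_map]
    congr 1
    refine Multiset.map_congr rfl fun a _ => ?_
    simp only [Function.comp]
    rw [Units.val_neg, neg_mul, saw_neg]
  have key : ∀ t : (ZMod m)ˣ, -(((Multiset.card s : ℤ) - 2 * ν - 2) * m) ≤ St s t := by
    intro t
    have h1 := saw_sum_eq s h0 t
    have h2 := h t
    have h3 : ((m * (ν + 1) : ℕ) : ℤ) ≤
        (((s.map fun a => ((t : ZMod m) * a).val).sum : ℕ) : ℤ) := by exact_mod_cast h2
    unfold St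
    rw [h1]
    generalize (((s.map fun a => ((t : ZMod m) * a).val).sum : ℕ) : ℤ) = S at *
    push_cast at h3 ⊢
    nlinarith
  have h1 := key 1
  have h2 := key (-1)
  rw [hneg] at h2
  have h3 : 0 ≤ ((Multiset.card s : ℤ) - 2 * ν - 2) * m := by linarith
  have h4 : 0 ≤ (Multiset.card s : ℤ) - 2 * ν - 2 := by
    by_contra h5
    push Not at h5
    nlinarith
  refine ⟨Multiset.card s - 2 * ν - 2, by omega, fun t => ?_⟩
  have h5 := key t
  have h6 := key (-t)
  rw [hneg] at h6
  have h7 : ((Multiset.card s - 2 * ν - 2 : ℕ) : ℤ) = (Multiset.card s : ℤ) - 2 * ν - 2 := by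
    omega
  rw [h7, abs_le]
  constructor
  · exact h5
  · linarith

/-- the sawtooth at levels `m` and `k * m` -/
lemma St_iota {m2 k : ℕ} [NeZero m2] (hm2 : k * m = m2) (s : Multiset (ZMod m)) {w : ℕ}
    (h : ∀ t, |St s t| ≤ w * m) (t : (ZMod m2)ˣ) :
    |St (s.map (iota k : ZMod m → ZMod m2)) t| ≤ w * m2 := by
  have hdvd : m ∣ m2 := Dvd.intro_left k hm2
  have h5 : St (s.map (iota k : ZMod m → ZMod m2)) t = k * St s (ZMod.unitsMap hdvd t) := by
    unfold St
    rw [Multiset.map_map, ← Multiset.sum_map_mul_left]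
    congr 1
    refine Multiset.map_congr rfl fun a _ => ?_
    simp only [Function.comp]
    rw [unit_iota hm2, saw_iota hm2]
  rw [h5, abs_mul, Nat.abs_cast]
  have h6 := h (ZMod.unitsMap hdvd t)
  have h7 : (m2 : ℤ) = k * m := by rw [← hm2]; push_cast; ring
  rw [h7]
  calc (k : ℤ) * |St s (ZMod.unitsMap hdvd t)| ≤ k * (w * m) :=
        mul_le_mul_of_nonneg_left h6 (by positivity)
    _ = w * (k * (m : ℤ)) := by ring

lemma good_list (hm : m ∈ listA) : GoodDegree m := by
  simp only [listA, List.mem_cons, List.not_mem_nil, or_false] at hm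
  rcases hm with rfl | rfl | rfl | rfl | rfl | rfl | rfl | rfl | rfl | rfl | rfl | rfl | rfl |
      rfl | rfl | rfl | rfl | rfl | rfl
  · exact Or.inl (primes_of_dvd Nat.prime_five (by norm_num))
  · exact Or.inl (primes_of_dvd Nat.prime_five (by norm_num))
  · exact Or.inl (primes_of_dvd Nat.prime_five (by norm_num))
  · exact Or.inl (primes_of_dvd Nat.prime_five (by norm_num))
  · exact Or.inr (Or.inl (primes_of_dvd (by norm_num) (by norm_num)))
  · exact Or.inl (primes_of_dvd Nat.prime_five (by norm_num))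
  · exact Or.inl (primes_of_dvd Nat.prime_five (by norm_num))
  · exact Or.inl (primes_of_dvd Nat.prime_five (by norm_num))
  · exact Or.inl (primes_of_dvd Nat.prime_five (by norm_num))
  · exact Or.inr (Or.inl (primes_of_dvd (by norm_num) (by norm_num)))
  · exact Or.inl (primes_of_dvd Nat.prime_five (by norm_num))
  · exact Or.inl (primes_of_dvd Nat.prime_five (by norm_num))
  · exact Or.inl (primes_of_dvd Nat.prime_five (by norm_num))
  · exact Or.inl (primes_of_dvd Nat.prime_five (by norm_num))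
  · exact Or.inr (Or.inr (Or.inl ⟨11, 1, by norm_num, Or.inr (by norm_num)⟩))
  · exact Or.inl (primes_of_dvd Nat.prime_five (by norm_num))
  · exact Or.inl (primes_of_dvd Nat.prime_five (by norm_num))
  · exact Or.inl (primes_of_dvd Nat.prime_five (by norm_num))
  · exact Or.inr (Or.inl (primes_of_dvd (by norm_num) (by norm_num)))

end Pool.Agent.TH540
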