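import Pool.Agent.TH540.GTCList

/-!
# All degrees of the list
-/

set_option linter.unusedSectionVars false
set_option maxRecDepth 100000

namespace Pool.Agent.TH540

open Finset Pool.Agent.H916R2 Pool.Agent.H916T Pool.Agent.H916U Pool.Agent.H916Z

theorem ok11 : okDeg 11 (fun q => decide (q = 2)) = true := by decide +kernel
theorem ok21 : okDeg 21 (fun q => decide (q = 2)) = true := by decide +kernel

variable {p m : ℕ}

theorem conc_list [NeZero m] (hpp : p.Prime) (hp : p.Coprime m) (hm : m ∈ listA)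
    {s : Multiset (ZMod m)} {w : ℕ} (h0 : (0 : ZMod m) ∉ s) (hs : s.sum = 0) (hne : s ≠ 0)
    (hpar : 2 ∣ Multiset.card s + w)
    (hW : ∀ t, |Wt p s t| ≤ w * (m * orderOf (p : ZMod m))) :
    ∃ N : ℕ, 0 < N ∧ p.Coprime N ∧ Conc p m N w s := by
  have hm3 : 3 ≤ m := by
    simp only [listA, List.mem_cons, List.not_mem_nil, or_false] at hm
    omega
  exact gtc_of_concl hp hm3 (curves_list hm hp) (fun s' h1 h2 => concl_list hm hpp hp h1 h2)
    h0 hs hne hpar hW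

theorem conc_half [NeZero m] (hpp : p.Prime) (hp : p.Coprime m) {m2 : ℕ} (hm2 : 2 * m = m2)
    (hp2 : p ≠ 2) (hm : m2 ∈ listA)
    {s : Multiset (ZMod m)} {w : ℕ} (h0 : (0 : ZMod m) ∉ s) (hs : s.sum = 0) (hne : s ≠ 0)
    (hpar : 2 ∣ Multiset.card s + w)
    (hW : ∀ t, |Wt p s t| ≤ w * (m * orderOf (p : ZMod m))) :
    ∃ N : ℕ, 0 < N ∧ p.Coprime N ∧ Conc p m N w s := by
  have hpc : p.Coprime 2 := (Nat.coprime_primes hpp Nat.prime_two).mpr hp2
  have hpm2 : p.Coprime m2 := by rw [← hm2]; exact Nat.Coprime.mul_right hpc hp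
  have hz : NeZero m2 := ⟨by rw [← hm2]; have := NeZero.ne m; omega⟩
  obtain ⟨N, hN, hpN, h⟩ := conc_list hpp hpm2 hm
    (s := s.map (iota 2 : ZMod m → ZMod m2)) (w := w) (by
      intro h
      obtain ⟨b, hb, hb0⟩ := Multiset.mem_map.mp h
      rw [iota_eq_zero hm2 hb0] at hb
      exact h0 hb) (by rw [sum_iota hm2, hs, iota_zero]) (by
      intro h
      apply hne
      rwa [Multiset.map_eq_zero] at h) (by rw [Multiset.card_map]; exact hpar)
    (Wt_iota hm2 s hW)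
  exact ⟨N * 2, by omega, Nat.Coprime.mul_right hpN hpc, gtc_mul hm2 h⟩

theorem conc_all [NeZero m] (hpp : p.Prime) (hp : p.Coprime m)
    (hm : m ∈ listA ∨ m = 11 ∨ m = 21)
    {s : Multiset (ZMod m)} {w : ℕ} (h0 : (0 : ZMod m) ∉ s) (hs : s.sum = 0) (hne : s ≠ 0)
    (hpar : 2 ∣ Multiset.card s + w)
    (hW : ∀ t, |Wt p s t| ≤ w * (m * orderOf (p : ZMod m))) :
    ∃ N : ℕ, 0 < N ∧ p.Coprime N ∧ Conc p m N w s := by
  rcases hm with hm | hm | hm
  · exact conc_list hpp hp hm h0 hs hne hpar hW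
  · subst hm
    by_cases h2 : p = 2
    · subst h2
      exact gtc_of_concl hp (by norm_num) (curves_of_okDeg (by norm_num) ok11 hp (by decide))
        (fun s' h1 h2 => H916Y.all2311 hpp (by norm_num) (by norm_num) hp
          (primes_of_dvd (by norm_num) (by norm_num)) h1 h2) h0 hs hne hpar hW
    · exact conc_half hpp hp (m2 := 22) (by norm_num) h2 (by decide) h0 hs hne hpar hW
  · subst hm
    by_cases h2 : p = 2
    · subst h2
      exact gtc_of_concl hp (by norm_num) (curves_of_okDeg (by norm_num) ok21 hp (by decide))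
        (fun s' h1 h2 => H916Y.all237 hpp (by norm_num) hp
          (primes_of_dvd (by norm_num) (by norm_num)) h1 h2) h0 hs hne hpar hW
    · exact conc_half hpp hp (m2 := 42) (by norm_num) h2 (by decide) h0 hs hne hpar hW

/-- the degrees for which the Tate conjecture is known -/
def GoodDeg (m : ℕ) : Prop :=
  (∀ r : ℕ, r.Prime → r ∣ m → r = 2 ∨ r = 3 ∨ r = 5) ∨
    (∀ r : ℕ, r.Prime → r ∣ m → r = 2 ∨ r = 3 ∨ r = 7) ∨
    (∃ q : ℕ, q.Prime ∧ q % 8 = 7 ∧ ∀ r : ℕ, r.Prime → r ∣ m → r = 2 ∨ r = q) ∨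
    (¬ 4 ∣ m ∧ ((∀ r : ℕ, r.Prime → r ∣ m → r = 2 ∨ r = 3 ∨ r = 11) ∨
      ∀ r : ℕ, r.Prime → r ∣ m → r = 2 ∨ r = 3 ∨ r = 13))

theorem conc_good [NeZero m] {m2 k : ℕ} (hkm : k * m = m2) (hpp : p.Prime) (hp : p.Coprime m2)
    (hm3 : 3 ≤ m2) (hm : GoodDeg m2) (hC : Curves p m2)
    {s : Multiset (ZMod m)} {w : ℕ} (h0 : (0 : ZMod m) ∉ s) (hs : s.sum = 0) (hne : s ≠ 0)
    (hpar : 2 ∣ Multiset.card s + w)
    (hW : ∀ t, |Wt p s t| ≤ w * (m * orderOf (p : ZMod m))) :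
    ∃ N : ℕ, 0 < N ∧ p.Coprime N ∧ Conc p m N w s := by
  have hz : NeZero m2 := ⟨by omega⟩
  have hk : 0 < k := Nat.pos_of_ne_zero (by rintro rfl; omega)
  have hpk : p.Coprime k := Nat.Coprime.coprime_dvd_right (Dvd.intro m hkm) hp
  obtain ⟨N, hN, hpN, h⟩ := gtc_of_concl hp hm3 hC (fun s' h1 h2 => by
      rcases hm with h | h | ⟨q, hq, hq7, h⟩ | ⟨h4, h | h⟩
      · exact H916Y.all235 hpp (by omega) hp h h1 h2
      · exact H916Y.all237 hpp (by omega) hp h h1 h2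
      · exact H916Y.allq7 hpp (by omega) hp hq hq7 h h1 h2
      · exact H916Y.all2311 hpp (by omega) h4 hp h h1 h2
      · exact H916Y.all2313 hpp (by omega) h4 hp h h1 h2)
    (s := s.map (iota k : ZMod m → ZMod m2)) (w := w) (by
      intro h
      obtain ⟨b, hb, hb0⟩ := Multiset.mem_map.mp h
      rw [iota_eq_zero hkm hb0] at hb
      exact h0 hb) (by rw [sum_iota hkm, hs, iota_zero]) (by
      intro h
      apply hne
      rwa [Multiset.map_eq_zero] at h) (by rw [Multiset.card_map]; exact hpar)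
    (Wt_iota hkm s hW)
  exact ⟨N * k, Nat.mul_pos hN hk, Nat.Coprime.mul_right hpN hpk, gtc_mul hkm h⟩

end Pool.Agent.TH540
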