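import Pool.Agent.TH540.GTCGen

/-!
# A finite check that all slope functions of weight one come from Fermat curves
-/

set_option linter.unusedSectionVars false

namespace Pool.Agent.TH540

open Finset Pool.Agent.H916R2 Pool.Agent.H916T

/-- the sum of the representatives -/
def slp (m q f t x : ℕ) : ℕ := ((List.range f).map fun j => (q ^ j * (t * x)) % m).sum

/-- all assignments of slopes -/
def assign (f : ℕ) : List ℕ → List (List (ℕ × ℕ))
  | [] => [[]]
  | r :: rs => (List.range (f + 1)).flatMap fun a => (assign f rs).map fun v => (r, a) :: v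

/-- `f` is the order of `q` modulo `m` -/
def okOrder (m q f : ℕ) : Bool :=
  decide (0 < f) && decide (q ^ f % m = 1 % m) &&
    (List.range f).all fun j => decide (j = 0) || decide (q ^ j % m ≠ 1 % m)

/-- the list `reps` represents all classes -/
def okCover (m q f : ℕ) (reps : List ℕ) : Bool :=
  (reps.all fun r => decide (Nat.gcd r m = 1)) &&
    (List.range m).all fun t => decide (Nat.gcd t m ≠ 1) || reps.any fun r =>
      (List.range f).any fun j => decide (q ^ j * r % m = t) || decide ((q ^ j * r + t) % m = 0)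

/-- all slopes are realised -/
def okCurves (m q f : ℕ) (reps : List ℕ) : Bool :=
  (assign f reps).all fun v => (List.range m).any fun x => (List.range m).any fun y =>
    decide (0 < x) && decide (0 < y) && decide ((x + y) % m ≠ 0) &&
      v.all fun ra => decide (slp m q f ra.1 x + slp m q f ra.1 y +
        slp m q f ra.1 (2 * m - (x + y)) = m * (ra.2 + f))

lemma mem_assign {f : ℕ} (g : ℕ → ℕ) : ∀ reps : List ℕ, (∀ r ∈ reps, g r ≤ f) →
    reps.map (fun r => (r, g r)) ∈ assign f reps := by
  intro reps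
  induction reps with
  | nil => intro _; simp [assign]
  | cons r rs ih =>
    intro h
    rw [List.map_cons, assign, List.mem_flatMap]
    refine ⟨g r, List.mem_range.mpr (by have := h r List.mem_cons_self; omega), ?_⟩
    rw [List.mem_map]
    exact ⟨_, ih fun x hx => h x (List.mem_cons_of_mem _ hx), rfl⟩

lemma slp_eq (m q f t x : ℕ) : slp m q f t x = ∑ j ∈ range f, (q ^ j * (t * x)) % m := by
  unfold slp
  induction f with
  | zero => simp
  | succ f ih => rw [List.range_succ, List.map_append, List.sum_append, ih, sum_range_succ]; simp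

variable {m p q f : ℕ} [NeZero m]

lemma order_of_ok (hpq : (p : ZMod m) = (q : ZMod m)) (h : okOrder m q f = true) :
    orderOf (p : ZMod m) = f := by
  unfold okOrder at h
  simp only [Bool.and_eq_true, decide_eq_true_eq, List.all_eq_true, List.mem_range,
    Bool.or_eq_true] at h
  obtain ⟨⟨h1, h2⟩, h3⟩ := h
  have hcast : ∀ j, (q ^ j % m = 1 % m) ↔ (p : ZMod m) ^ j = 1 := by
    intro j
    rw [hpq]
    have h4 := ZMod.natCast_eq_natCast_iff' (q ^ j) 1 m
    push_cast at h4
    exact h4.symm
  rw [orderOf_eq_iff h1]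
  refine ⟨(hcast f).mp h2, fun j hj hj0 => ?_⟩
  rcases h3 j hj with h | h
  · omega
  · exact fun h' => h ((hcast j).mpr h')

lemma W_slp (hpq : (p : ZMod m) = (q : ZMod m)) (hp : p.Coprime m) (ho : orderOf (p : ZMod m) = f)
    {r x : ℕ} (hr : r.Coprime m) (hx : (x : ZMod m) ≠ 0) :
    W p ((r : ZMod m) * (x : ZMod m)) = 2 * (slp m q f r x : ℤ) - f * m := by
  unfold W
  rw [ho, slp_eq]
  have h1 : ∀ j ∈ range f, saw ((p : ZMod m) ^ j * ((r : ZMod m) * (x : ZMod m))) =
      2 * (((q ^ j * (r * x)) % m : ℕ) : ℤ) - m := by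
    intro j _
    have h2 : (p : ZMod m) ^ j * ((r : ZMod m) * (x : ZMod m)) ≠ 0 := by
      rw [← mul_assoc]
      have hu : IsUnit ((p : ZMod m) ^ j * (r : ZMod m)) :=
        ((isUnit_p hp).pow j).mul ((ZMod.isUnit_iff_coprime r m).mpr hr)
      exact fun h => hx (hu.mul_right_eq_zero.mp h)
    rw [saw_of_ne_zero h2]
    have h3 : (p : ZMod m) ^ j * ((r : ZMod m) * (x : ZMod m)) = ((q ^ j * (r * x) : ℕ) : ZMod m) := by
      rw [hpq]; push_cast; ring
    rw [h3, ZMod.val_natCast]
  rw [sum_congr rfl h1, sum_sub_distrib, ← mul_sum, sum_const, card_range, nsmul_eq_mul]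
  push_cast
  ring

lemma phi_pow (hp : p.Coprime m) {φ : (ZMod m)ˣ → ℤ}
    (h : ∀ t t' : (ZMod m)ˣ, (t' : ZMod m) = (p : ZMod m) * t → φ t' = φ t) : ∀ (j : ℕ)
    (t t' : (ZMod m)ˣ), (t' : ZMod m) = (p : ZMod m) ^ j * t → φ t' = φ t := by
  intro j
  induction j with
  | zero =>
    intro t t' ht
    rw [pow_zero, one_mul] at ht
    rw [Units.ext ht]
  | succ j ih =>
    intro t t' ht
    have h1 := ih t ((isUnit_p hp).unit ^ j * t) (by
      rw [Units.val_mul, Units.val_pow_eq_pow_val, IsUnit.unit_spec])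
    rw [← h1]
    refine h _ _ ?_
    rw [ht, Units.val_mul, Units.val_pow_eq_pow_val, IsUnit.unit_spec, pow_succ']
    ring

/-- **Soundness of the check.** -/
theorem curves_of_ok (hm : 3 ≤ m) (hp : p.Coprime m) (hpq : (p : ZMod m) = (q : ZMod m))
    {reps : List ℕ} (h1 : okOrder m q f = true) (h2 : okCover m q f reps = true)
    (h3 : okCurves m q f reps = true) : Curves p m := by
  have ho := order_of_ok hpq h1
  intro φ hb hpar hneg hinv
  rw [ho] at hb hpar
  unfold okCover at h2
  simp only [Bool.and_eq_true, decide_eq_true_eq, List.all_eq_true, List.mem_range,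
    Bool.or_eq_true, List.any_eq_true] at h2
  obtain ⟨hcop, hcov⟩ := h2
  set ur : ℕ → (ZMod m)ˣ := fun r => if h : r.Coprime m then ZMod.unitOfCoprime r h else 1 with hur
  have hur' : ∀ r : ℕ, r.Coprime m → ((ur r : (ZMod m)ˣ) : ZMod m) = (r : ZMod m) := by
    intro r hr
    rw [hur]
    simp only [dif_pos hr, ZMod.coe_unitOfCoprime]
  set g : ℕ → ℕ := fun r => ((φ (ur r) + f) / 2).toNat with hg
  have hgle : ∀ r, g r ≤ f := by
    intro r
    have a1 := hb (ur r)
    rw [abs_le] at a1
    simp only [hg]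
    omega
  have hgeq : ∀ r, (2 : ℤ) * (g r : ℤ) = φ (ur r) + f := by
    intro r
    have a1 := hb (ur r)
    have a2 := hpar (ur r)
    rw [abs_le] at a1
    simp only [hg]
    omega
  unfold okCurves at h3
  simp only [Bool.and_eq_true, decide_eq_true_eq, List.all_eq_true, List.mem_range,
    List.any_eq_true] at h3
  obtain ⟨x, hxm, y, hym, ⟨⟨⟨hx0, hy0⟩, hxy⟩, hall⟩⟩ := h3 _ (mem_assign g reps fun r _ => hgle r)
  have hx : (x : ZMod m) ≠ 0 := by
    rw [Ne, ZMod.natCast_eq_zero_iff]
    intro h; have := Nat.le_of_dvd hx0 h; omega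
  have hy : (y : ZMod m) ≠ 0 := by
    rw [Ne, ZMod.natCast_eq_zero_iff]
    intro h; have := Nat.le_of_dvd hy0 h; omega
  have hz1 : ((2 * m - (x + y) : ℕ) : ZMod m) = -((x : ZMod m) + (y : ZMod m)) := by
    rw [Nat.cast_sub (by omega)]
    push_cast
    rw [ZMod.natCast_self]
    ring
  have hz : ((2 * m - (x + y) : ℕ) : ZMod m) ≠ 0 := by
    rw [hz1, neg_ne_zero]
    intro h
    have h4 : ((x + y : ℕ) : ZMod m) = 0 := by push_cast; exact h
    rw [ZMod.natCast_eq_zero_iff] at h4
    exact hxy (Nat.mod_eq_zero_of_dvd h4)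
  refine ⟨x, y, ((2 * m - (x + y) : ℕ) : ZMod m), hx, hy, hz, by rw [hz1]; ring, fun t => ?_⟩
  -- the values at the representatives
  have hrep : ∀ r ∈ reps, W p ((r : ZMod m) * (x : ZMod m)) + W p ((r : ZMod m) * (y : ZMod m)) +
      W p ((r : ZMod m) * ((2 * m - (x + y) : ℕ) : ZMod m)) = m * φ (ur r) := by
    intro r hr
    have hc : r.Coprime m := hcop r hr
    have h5 := hall (r, g r) (List.mem_map.mpr ⟨r, hr, rfl⟩)
    simp only at h5
    rw [W_slp hpq hp ho hc hx, W_slp hpq hp ho hc hy, W_slp hpq hp ho hc hz]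
    have h6 : (slp m q f r x : ℤ) + slp m q f r y + slp m q f r (2 * m - (x + y)) =
        m * (g r + f) := by exact_mod_cast h5
    have h7 := hgeq r
    have h8 : φ (ur r) = 2 * (g r : ℤ) - f := by omega
    rw [h8]
    linear_combination (2 : ℤ) * h6
  -- the unit
  have htv : Nat.gcd (t : ZMod m).val m = 1 := ZMod.val_coe_unit_coprime t
  rcases hcov (t : ZMod m).val (ZMod.val_lt _) with h | ⟨r, hr, j, _, h⟩
  · exact absurd htv h
  · have hc : r.Coprime m := hcop r hr
    have hrep' := hrep r hr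
    rcases h with h | h
    · have ht : (t : ZMod m) = (p : ZMod m) ^ j * (r : ZMod m) := by
        have h4 : ((q ^ j * r : ℕ) : ZMod m) = (((t : ZMod m).val : ℕ) : ZMod m) := by
          rw [← h, ZMod.natCast_mod]
        rw [ZMod.natCast_zmod_val] at h4
        rw [← h4, hpq]
        push_cast
        rfl
      have hφ : φ t = φ (ur r) := phi_pow hp hinv j (ur r) t (by rw [hur' r hc]; exact ht)
      rw [hφ, ht, mul_assoc, mul_assoc, mul_assoc, W_pow_mul, W_pow_mul, W_pow_mul]
      exact hrep'
    · have ht : ((-t : (ZMod m)ˣ) : ZMod m) = (p : ZMod m) ^ j * (r : ZMod m) := by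
        have h4 : ((q ^ j * r + (t : ZMod m).val : ℕ) : ZMod m) = 0 :=
          (ZMod.natCast_eq_zero_iff _ _).mpr (Nat.dvd_of_mod_eq_zero h)
        push_cast at h4
        rw [ZMod.natCast_zmod_val] at h4
        rw [Units.val_neg, hpq]
        linear_combination -h4
      have hφ : φ (-t) = φ (ur r) := phi_pow hp hinv j (ur r) (-t) (by rw [hur' r hc]; exact ht)
      rw [hneg] at hφ
      have ht' : (t : ZMod m) = -((p : ZMod m) ^ j * (r : ZMod m)) := by
        rw [← ht, Units.val_neg, neg_neg]
      have hW : ∀ a : ZMod m, W p ((t : ZMod m) * a) = -W p ((r : ZMod m) * a) := by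
        intro a
        rw [ht', neg_mul, W_neg, mul_assoc, W_pow_mul]
      rw [hW, hW, hW]
      have h9 : φ t = -φ (ur r) := by omega
      rw [h9]
      linear_combination -hrep'

/-- the supersingular case -/
theorem curves_of_super (hm : 3 ≤ m) (hp : p.Coprime m) {j : ℕ} (hj : (p : ZMod m) ^ j = -1) :
    Curves p m := by
  intro φ hb hpar hneg hinv
  have h1 : (1 : ZMod m) ≠ 0 := by
    have : ((1 : ℕ) : ZMod m) ≠ 0 := by
      rw [Ne, ZMod.natCast_eq_zero_iff]
      intro h; have := Nat.le_of_dvd one_pos h; omega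
    simpa using this
  have h2 : (-2 : ZMod m) ≠ 0 := by
    rw [neg_ne_zero]
    have : ((2 : ℕ) : ZMod m) ≠ 0 := by
      rw [Ne, ZMod.natCast_eq_zero_iff]
      intro h; have := Nat.le_of_dvd two_pos h; omega
    simpa using this
  have hW : ∀ a : ZMod m, W p a = 0 := by
    intro a
    have h3 := W_pow_mul p j a
    rw [hj, neg_one_mul, W_neg] at h3
    omega
  refine ⟨1, 1, -2, h1, h1, h2, by ring, fun t => ?_⟩
  have h3 : φ (-t) = φ t := phi_pow hp hinv j t (-t) (by rw [hj, Units.val_neg]; ring)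
  rw [hneg] at h3
  have h4 : φ t = 0 := by omega
  simp only [h4, hW]
  ring

/-- the order, computed -/
def ordB (m q : ℕ) : ℕ := ((List.range m).find? fun f => decide (0 < f) && decide (q ^ f % m = 1 % m)).getD 0

/-- representatives, computed -/
def repsB (m q f : ℕ) : List ℕ := (List.range m).filter fun t => decide (Nat.gcd t m = 1) &&
  (List.range f).all fun j => decide (t ≤ q ^ j * t % m) && decide (t ≤ m - q ^ j * t % m)

/-- the check for all characteristics allowed by `good` -/
def okDeg (m : ℕ) (good : ℕ → Bool) : Bool := (List.range m).all fun q =>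
  decide (Nat.gcd q m ≠ 1) || !good q ||
    ((List.range m).any fun j => decide ((q ^ j + 1) % m = 0)) ||
    (okOrder m q (ordB m q) && okCover m q (ordB m q) (repsB m q (ordB m q)) &&
      okCurves m q (ordB m q) (repsB m q (ordB m q)))

theorem curves_of_okDeg {good : ℕ → Bool} (hm : 3 ≤ m) (hok : okDeg m good = true)
    (hp : p.Coprime m) (hg : good (p % m) = true) : Curves p m := by
  unfold okDeg at hok
  rw [List.all_eq_true] at hok
  have h1 := hok (p % m) (List.mem_range.mpr (Nat.mod_lt _ (by omega)))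
  simp only [Bool.or_eq_true, decide_eq_true_eq, Bool.and_eq_true, List.any_eq_true,
    Bool.not_eq_true', hg] at h1
  have hcop : Nat.gcd (p % m) m = 1 := by
    rw [← Nat.gcd_rec, Nat.gcd_comm]
    exact hp
  have hpq : (p : ZMod m) = ((p % m : ℕ) : ZMod m) := (ZMod.natCast_mod p m).symm
  rcases h1 with ((h | h) | ⟨j, _, h⟩) | ⟨⟨h, h'⟩, h''⟩
  · exact absurd hcop h
  · exact absurd h (by simp)
  · refine curves_of_super hm hp (j := j) ?_
    have h2 : (((p % m) ^ j + 1 : ℕ) : ZMod m) = 0 :=
      (ZMod.natCast_eq_zero_iff _ _).mpr (Nat.dvd_of_mod_eq_zero h)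
    push_cast at h2
    rw [← Nat.cast_pow] at h2
    have h3 : ((p % m : ℕ) : ZMod m) ^ j + 1 = 0 := by
      have := (ZMod.natCast_eq_zero_iff ((p % m) ^ j + 1) m).mpr (Nat.dvd_of_mod_eq_zero h)
      push_cast at this
      simpa using this
    rw [hpq]
    linear_combination h3
  · exact curves_of_ok hm hp hpq h h' h''

end Pool.Agent.TH540
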