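import Pool.Agent.TH540.GTCGen
import Pool.Agent.H916Z.Final
import Pool.Agent.H916Y.Fams

/-!
# From slopes to generated characters
-/

set_option linter.unusedSectionVars false

namespace Pool.Agent.TH540

open Finset Pool.Agent.H916R2 Pool.Agent.H916T Pool.Agent.H916U Pool.Agent.H916Z

variable {p m : ℕ}

/-- the conclusion, for all multiples -/
def Conc (p m N w : ℕ) (s : Multiset (ZMod m)) : Prop :=
  ∀ M : ℕ, N * m = M → ∃ E : Multiset (Multiset (ZMod M)), Multiset.card E = w ∧
    (∀ e ∈ E, (0 : ZMod M) ∉ e ∧ e.sum = 0 ∧ Multiset.card e = 3) ∧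
    H916T.Generated M (ZBase p M) (s.map (iota N : ZMod m → ZMod M) + E.join.map Neg.neg)

lemma join_card {M : ℕ} {E : Multiset (Multiset (ZMod M))} (h : ∀ e ∈ E, Multiset.card e = 3) :
    Multiset.card E.join = 3 * Multiset.card E := by
  induction E using Multiset.induction_on with
  | empty => simp
  | cons e E ih =>
    rw [Multiset.join_cons, Multiset.card_add, h e (Multiset.mem_cons_self _ _),
      ih fun x hx => h x (Multiset.mem_cons_of_mem hx), Multiset.card_cons]
    ring

lemma join_sum {M : ℕ} {E : Multiset (Multiset (ZMod M))} (h : ∀ e ∈ E, e.sum = 0) :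
    E.join.sum = 0 := by
  induction E using Multiset.induction_on with
  | empty => simp
  | cons e E ih =>
    rw [Multiset.join_cons, Multiset.sum_add, h e (Multiset.mem_cons_self _ _), zero_add]
    exact ih fun x hx => h x (Multiset.mem_cons_of_mem hx)

lemma join_zero {M : ℕ} {E : Multiset (Multiset (ZMod M))} (h : ∀ e ∈ E, (0 : ZMod M) ∉ e) :
    (0 : ZMod M) ∉ E.join := by
  intro h0
  obtain ⟨e, he, h1⟩ := Multiset.mem_join.mp h0
  exact h e he h1

lemma Wt_join [NeZero m] (E : Multiset (Multiset (ZMod m))) (t : (ZMod m)ˣ) :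
    Wt p E.join t = (E.map fun e => Wt p e t).sum := by
  induction E using Multiset.induction_on with
  | empty => simp [Wt]
  | cons e E ih => rw [Multiset.join_cons, Wt_add, ih, Multiset.map_cons, Multiset.sum_cons]

/-- **Weight by weight, algebraically.** -/
theorem gtc_core {ℓ k : ℕ} (hp : p.Prime) (hℓ : ℓ.Prime) (hm : m = ℓ ^ k ∨ m = 2 * ℓ ^ k)
    (hpm : p.Coprime m) (hm3 : 3 ≤ m) (hC : Curves p m) : ∃ N : ℕ, 0 < N ∧ p.Coprime N ∧
    ∀ (s : Multiset (ZMod m)) (w : ℕ), (0 : ZMod m) ∉ s → s.sum = 0 → s ≠ 0 →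
      2 ∣ Multiset.card s + w → (∀ t, |Wt p s t| ≤ w * (m * orderOf (p : ZMod m))) →
      Conc p m N w s := by
  have hmz : NeZero m := ⟨by omega⟩
  obtain ⟨N, hN, hpN, hgen⟩ := H916T.main p m ℓ k hp hℓ hm hpm
  refine ⟨N, hN, hpN, fun s w h0 hs hne hpar hW M hM => ?_⟩
  have hMz : NeZero M := ⟨by rw [← hM]; exact (Nat.mul_pos hN (by omega)).ne'⟩
  obtain ⟨E, hE1, hE2, hE3⟩ := exists_curves hpm hm3 hC w s h0 hs hpar hW
  have hc3 : ∀ e ∈ E, Multiset.card e = 3 := fun e he => (hE2 e he).2.2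
  have htate : IsTate p m (s + E.join.map Neg.neg) := by
    refine isTate_of_W hpm ?_ ?_ ?_ ?_
    · rw [Multiset.mem_add, not_or]
      refine ⟨h0, fun h1 => ?_⟩
      obtain ⟨b, hb, hb0⟩ := Multiset.mem_map.mp h1
      rw [neg_eq_zero] at hb0
      rw [hb0] at hb
      exact join_zero (fun e he => (hE2 e he).1) hb
    · rw [Multiset.card_add, Multiset.card_map, join_card hc3, hE1, Nat.even_iff]
      omega
    · rw [Multiset.sum_add, hs, zero_add, Multiset.sum_map_neg',
        join_sum fun e he => (hE2 e he).2.1, neg_zero]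
    · intro t
      have h1 : ((s + E.join.map Neg.neg).map fun a => W p ((t : ZMod m) * a)).sum =
          Wt p (s + E.join.map Neg.neg) t := rfl
      rw [h1, Wt_add, Wt_neg, Wt_join, hE3]
      ring
  have h1 := hgen _ htate (by
    intro h
    apply hne
    rw [← Multiset.card_eq_zero] at h ⊢
    rw [Multiset.card_add] at h
    omega)
  subst hM
  refine ⟨E.map fun e => e.map (iota N : ZMod m → ZMod (N * m)), ?_, ?_, ?_⟩
  · rw [Multiset.card_map, hE1]
  · intro e' he'
    obtain ⟨e, he, rfl⟩ := Multiset.mem_map.mp he'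
    obtain ⟨k1, k2, k3⟩ := hE2 e he
    refine ⟨fun h => ?_, by rw [sum_iota rfl, k2, iota_zero], by rw [Multiset.card_map, k3]⟩
    obtain ⟨b, hb, hb0⟩ := Multiset.mem_map.mp h
    rw [iota_eq_zero rfl hb0] at hb
    exact k1 hb
  · have h2 : (s.map (iota N : ZMod m → ZMod (N * m)) +
        ((E.map fun e => e.map (iota N : ZMod m → ZMod (N * m))).join).map Neg.neg) =
        (s + E.join.map Neg.neg).map fun a => ((N * a.val : ℕ) : ZMod (N * m)) := by
      rw [Multiset.map_add]
      congr 1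
      rw [← Multiset.map_join, Multiset.map_map, Multiset.map_map]
      refine Multiset.map_congr rfl fun a _ => ?_
      simp only [Function.comp]
      rw [← iota_neg (rfl : N * m = N * m)]
      rfl
    rw [h2]
    refine generated_mono ?_ h1
    intro t ht
    rcases ht with ht | ⟨ht, ht'⟩
    · exact Or.inl ht
    · refine Or.inr ⟨ℓ, hℓ, ?_, ht'⟩
      exact (sq_dvd ht).mul_left N

/-- the same, character by character -/
theorem gtc_of_concl (hpm : p.Coprime m) (hm3 : 3 ≤ m) (hC : Curves p m)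
    (hT : ∀ s' : Multiset (ZMod m), IsTate p m s' → s' ≠ 0 → H916Y.Concl p m s')
    {s : Multiset (ZMod m)} {w : ℕ} (h0 : (0 : ZMod m) ∉ s) (hs : s.sum = 0) (hne : s ≠ 0)
    (hpar : 2 ∣ Multiset.card s + w)
    (hW : ∀ t, |Wt p s t| ≤ w * (m * orderOf (p : ZMod m))) :
    ∃ N : ℕ, 0 < N ∧ p.Coprime N ∧ Conc p m N w s := by
  have hmz : NeZero m := ⟨by omega⟩
  obtain ⟨E, hE1, hE2, hE3⟩ := exists_curves hpm hm3 hC w s h0 hs hpar hW
  have hc3 : ∀ e ∈ E, Multiset.card e = 3 := fun e he => (hE2 e he).2.2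
  have htate : IsTate p m (s + E.join.map Neg.neg) := by
    refine isTate_of_W hpm ?_ ?_ ?_ ?_
    · rw [Multiset.mem_add, not_or]
      refine ⟨h0, fun h1 => ?_⟩
      obtain ⟨b, hb, hb0⟩ := Multiset.mem_map.mp h1
      rw [neg_eq_zero] at hb0
      rw [hb0] at hb
      exact join_zero (fun e he => (hE2 e he).1) hb
    · rw [Multiset.card_add, Multiset.card_map, join_card hc3, hE1, Nat.even_iff]
      omega
    · rw [Multiset.sum_add, hs, zero_add, Multiset.sum_map_neg',
        join_sum fun e he => (hE2 e he).2.1, neg_zero]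
    · intro t
      have h1 : ((s + E.join.map Neg.neg).map fun a => W p ((t : ZMod m) * a)).sum =
          Wt p (s + E.join.map Neg.neg) t := rfl
      rw [h1, Wt_add, Wt_neg, Wt_join, hE3]
      ring
  obtain ⟨N, hN, hpN, hgen⟩ := hT _ htate (by
    intro h
    apply hne
    rw [← Multiset.card_eq_zero] at h ⊢
    rw [Multiset.card_add] at h
    omega)
  refine ⟨N, hN, hpN, fun M hM => ?_⟩
  have hMz : NeZero M := ⟨by rw [← hM]; exact (Nat.mul_pos hN (by omega)).ne'⟩
  have h1 := hgen M hM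
  refine ⟨E.map fun e => e.map (iota N : ZMod m → ZMod M), ?_, ?_, ?_⟩
  · rw [Multiset.card_map, hE1]
  · intro e' he'
    obtain ⟨e, he, rfl⟩ := Multiset.mem_map.mp he'
    obtain ⟨k1, k2, k3⟩ := hE2 e he
    refine ⟨fun h => ?_, by rw [sum_iota hM, k2, iota_zero], by rw [Multiset.card_map, k3]⟩
    obtain ⟨b, hb, hb0⟩ := Multiset.mem_map.mp h
    rw [iota_eq_zero hM hb0] at hb
    exact k1 hb
  · have h2 : (s.map (iota N : ZMod m → ZMod M) +
        ((E.map fun e => e.map (iota N : ZMod m → ZMod M)).join).map Neg.neg) =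
        (s + E.join.map Neg.neg).map (iota N : ZMod m → ZMod M) := by
      rw [Multiset.map_add]
      congr 1
      rw [← Multiset.map_join, Multiset.map_map, Multiset.map_map]
      refine Multiset.map_congr rfl fun a _ => ?_
      simp only [Function.comp]
      rw [← iota_neg hM]
    rw [h2]
    exact h1

/-- the passage from degree `m` to degree `k * m` -/
theorem gtc_mul [NeZero m] {N k : ℕ} {m2 w : ℕ} (hm2 : k * m = m2)
    {s : Multiset (ZMod m)} (h : Conc p m2 N w (s.map (iota k : ZMod m → ZMod m2))) :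
    Conc p m (N * k) w s := by
  intro M hM
  have hM' : N * m2 = M := by rw [← hM, ← hm2]; ring
  obtain ⟨E, h1, h2, h3⟩ := h M hM'
  refine ⟨E, h1, h2, ?_⟩
  rw [Multiset.map_map] at h3
  have h4 : (iota N : ZMod m2 → ZMod M) ∘ (iota k : ZMod m → ZMod m2) =
      (iota (N * k) : ZMod m → ZMod M) := by
    funext b
    simp only [Function.comp]
    rw [iota_comp hM']
  rwa [h4] at h3

/-- the slopes at levels `m` and `k * m` -/
lemma Wt_iota [NeZero m] {m2 k : ℕ} [NeZero m2] (hm2 : k * m = m2)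
    (s : Multiset (ZMod m)) {w : ℕ} (h : ∀ t, |Wt p s t| ≤ w * (m * orderOf (p : ZMod m)))
    (t : (ZMod m2)ˣ) : |Wt p (s.map (iota k : ZMod m → ZMod m2)) t| ≤
      w * (m2 * orderOf (p : ZMod m2)) := by
  have hdvd : m ∣ m2 := Dvd.intro_left k hm2
  have h1 : orderOf (p : ZMod m) ∣ orderOf (p : ZMod m2) := by
    apply orderOf_dvd_of_pow_eq_one
    have h2 := congrArg (ZMod.castHom hdvd (ZMod m)) (H916T.pow_order (m := m2) p)
    rwa [map_pow, map_natCast, map_one] at h2
  obtain ⟨r, hr⟩ := h1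
  have hW : ∀ x : ZMod m, W p (iota k x : ZMod m2) = k * (r : ℤ) * W p x := by
    intro x
    unfold W
    have h3 : ∀ j, saw ((p : ZMod m2) ^ j * iota k x) = (k : ℤ) * saw ((p : ZMod m) ^ j * x) := by
      intro j
      have h4 := iota_natMul hm2 (p ^ j) x
      push_cast at h4
      rw [← h4, saw_iota hm2]
    simp only [h3]
    rw [← mul_sum, hr, mul_comm (orderOf (p : ZMod m)) r, sum_range_period, nsmul_eq_mul]
    · push_cast; ring
    · intro j
      rw [pow_add, H916T.pow_order, mul_one]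
  have h5 : Wt p (s.map (iota k : ZMod m → ZMod m2)) t =
      k * (r : ℤ) * Wt p s (ZMod.unitsMap hdvd t) := by
    unfold Wt
    rw [Multiset.map_map, ← Multiset.sum_map_mul_left]
    congr 1
    refine Multiset.map_congr rfl fun a _ => ?_
    simp only [Function.comp]
    rw [unit_iota hm2, hW]
  rw [h5, abs_mul, abs_of_nonneg (by positivity), hr]
  have h6 := h (ZMod.unitsMap hdvd t)
  have h7 : (m2 : ℤ) = k * m := by rw [← hm2]; push_cast; ring
  rw [h7]
  push_cast
  have hr0 : (0 : ℤ) ≤ k * (r : ℤ) := by positivity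
  calc k * (r : ℤ) * |Wt p s (ZMod.unitsMap hdvd t)| ≤
      k * (r : ℤ) * (w * (m * orderOf (p : ZMod m))) := mul_le_mul_of_nonneg_left h6 hr0
    _ = w * (k * (m : ℤ) * (orderOf (p : ZMod m) * r)) := by ring

/-- the Galois condition as a bound for the averaged sawtooth -/
lemma galois_bound [NeZero m] (hp : p.Coprime m) {s : Multiset (ZMod m)}
    (h0 : (0 : ZMod m) ∉ s) {ν : ℕ}
    (h : ∀ t : (ZMod m)ˣ, orderOf (p : ZMod m) * (m * (ν + 1)) ≤
      ∑ j ∈ range (orderOf (p : ZMod m)),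
        (s.map fun a => ((p : ZMod m) ^ j * ((t : ZMod m) * a)).val).sum) :
    ∃ w : ℕ, w + 2 * ν + 2 = Multiset.card s ∧
      ∀ t, |Wt p s t| ≤ w * (m * orderOf (p : ZMod m)) := by
  have hf : (0 : ℤ) < orderOf (p : ZMod m) := by exact_mod_cast order_pos hp
  have hm : (0 : ℤ) < m := by exact_mod_cast Nat.pos_of_ne_zero (NeZero.ne m)
  have hmf : (0 : ℤ) < m * orderOf (p : ZMod m) := mul_pos hm hf
  have key : ∀ t : (ZMod m)ˣ, -(((Multiset.card s : ℤ) - 2 * ν - 2) *
      (m * orderOf (p : ZMod m))) ≤ Wt p s t := by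
    intro t
    have h1 := val_sum_eq hp s h0 t
    have h2 := h t
    have h3 : ((orderOf (p : ZMod m) * (m * (ν + 1)) : ℕ) : ℤ) ≤
        ((∑ j ∈ range (orderOf (p : ZMod m)),
          (s.map fun a => ((p : ZMod m) ^ j * ((t : ZMod m) * a)).val).sum : ℕ) : ℤ) := by
      exact_mod_cast h2
    unfold Wt
    rw [h1]
    rw [Nat.cast_mul 2]
    generalize ((∑ j ∈ range (orderOf (p : ZMod m)),
          (s.map fun a => ((p : ZMod m) ^ j * ((t : ZMod m) * a)).val).sum : ℕ) : ℤ) = S at *
    push_cast at h3 ⊢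
    nlinarith
  have h1 := key 1
  have h2 := key (-1)
  rw [Wt_unit_neg] at h2
  have h3 : 0 ≤ ((Multiset.card s : ℤ) - 2 * ν - 2) * (m * orderOf (p : ZMod m)) := by linarith
  have h4 : 0 ≤ (Multiset.card s : ℤ) - 2 * ν - 2 := by
    by_contra h5
    push Not at h5
    nlinarith
  refine ⟨Multiset.card s - 2 * ν - 2, by omega, fun t => ?_⟩
  have h5 := key t
  have h6 := key (-t)
  rw [Wt_unit_neg] at h6
  have h7 : ((Multiset.card s - 2 * ν - 2 : ℕ) : ℤ) = (Multiset.card s : ℤ) - 2 * ν - 2 := by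
    omega
  rw [h7, abs_le]
  constructor
  · exact h5
  · linarith

end Pool.Agent.TH540
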