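import Pool.Agent.H916Z.Two
import Pool.Agent.H916Y.Surf

/-!
# Products of curves
-/

set_option linter.unusedSectionVars false

namespace Pool.Agent.TH540

open Finset Pool.Agent.H916R2 Pool.Agent.H916T Pool.Agent.H916U Pool.Agent.H916Z

variable {p m : ℕ} [NeZero m]

/-- the total averaged sawtooth -/
noncomputable def Wt (p : ℕ) {m : ℕ} (s : Multiset (ZMod m)) (t : (ZMod m)ˣ) : ℤ :=
  (s.map fun a => W p ((t : ZMod m) * a)).sum

lemma Wt_add (s s' : Multiset (ZMod m)) (t : (ZMod m)ˣ) : Wt p (s + s') t = Wt p s t + Wt p s' t := by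
  unfold Wt
  rw [Multiset.map_add, Multiset.sum_add]

lemma Wt_neg (s : Multiset (ZMod m)) (t : (ZMod m)ˣ) : Wt p (s.map Neg.neg) t = -Wt p s t := by
  unfold Wt
  rw [Multiset.map_map, ← Multiset.sum_map_neg', Multiset.map_map]
  congr 1
  refine Multiset.map_congr rfl fun a _ => ?_
  simp only [Function.comp]
  rw [mul_neg, W_neg]

lemma Wt_unit_neg (s : Multiset (ZMod m)) (t : (ZMod m)ˣ) : Wt p s (-t) = -Wt p s t := by
  unfold Wt
  rw [← Multiset.sum_map_neg', Multiset.map_map]
  congr 1
  refine Multiset.map_congr rfl fun a _ => ?_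
  simp only [Function.comp]
  rw [Units.val_neg, neg_mul, W_neg]

lemma Wt_unit_p (s : Multiset (ZMod m)) {t t' : (ZMod m)ˣ} (h : (t' : ZMod m) = (p : ZMod m) * t) :
    Wt p s t' = Wt p s t := by
  unfold Wt
  congr 1
  refine Multiset.map_congr rfl fun a _ => ?_
  rw [h, mul_assoc, W_mul]

lemma val_sum_dvd (c : ZMod m) (s : Multiset (ZMod m)) (hs : s.sum = 0) :
    m ∣ (s.map fun a => (c * a).val).sum := by
  rw [← ZMod.natCast_eq_zero_iff]
  have h1 : ∀ s : Multiset (ZMod m), (((s.map fun a => (c * a).val).sum : ℕ) : ZMod m) =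
      c * s.sum := by
    intro s
    induction s using Multiset.induction_on with
    | empty => simp
    | cons a s ih =>
      rw [Multiset.map_cons, Multiset.sum_cons, Nat.cast_add, ih, ZMod.natCast_zmod_val,
        Multiset.sum_cons]
      ring
  rw [h1, hs, mul_zero]

lemma Wt_dvd (hp : p.Coprime m) {s : Multiset (ZMod m)} (h0 : (0 : ZMod m) ∉ s)
    (hs : s.sum = 0) (t : (ZMod m)ˣ) :
    ∃ k : ℤ, Wt p s t = m * k ∧ (2 : ℤ) ∣ k + orderOf (p : ZMod m) * Multiset.card s := by
  have h1 := val_sum_eq hp s h0 t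
  have h2 : m ∣ ∑ j ∈ range (orderOf (p : ZMod m)),
      (s.map fun a => ((p : ZMod m) ^ j * ((t : ZMod m) * a)).val).sum := by
    refine Finset.dvd_sum fun j _ => ?_
    have h3 := val_sum_dvd ((p : ZMod m) ^ j * (t : ZMod m)) s hs
    have h4 : (s.map fun a => ((p : ZMod m) ^ j * ((t : ZMod m) * a)).val) =
        (s.map fun a => ((p : ZMod m) ^ j * (t : ZMod m) * a).val) :=
      Multiset.map_congr rfl fun a _ => by rw [mul_assoc]
    rw [h4]
    exact h3
  obtain ⟨c, hc⟩ := h2
  rw [hc] at h1
  refine ⟨2 * c - orderOf (p : ZMod m) * Multiset.card s, ?_, ?_⟩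
  · unfold Wt
    rw [h1]
    push_cast
    ring
  · exact ⟨c, by ring⟩

/-- every slope function of weight one with the expected properties is that of a Fermat curve -/
def Curves (p m : ℕ) : Prop := ∀ φ : (ZMod m)ˣ → ℤ,
  (∀ t, |φ t| ≤ orderOf (p : ZMod m)) → (∀ t, (2 : ℤ) ∣ φ t + orderOf (p : ZMod m)) →
  (∀ t, φ (-t) = -φ t) → (∀ t t' : (ZMod m)ˣ, (t' : ZMod m) = (p : ZMod m) * t → φ t' = φ t) →
  ∃ x y z : ZMod m, x ≠ 0 ∧ y ≠ 0 ∧ z ≠ 0 ∧ x + y + z = 0 ∧
    ∀ t : (ZMod m)ˣ, W p ((t : ZMod m) * x) + W p ((t : ZMod m) * y) + W p ((t : ZMod m) * z) =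
      m * φ t

lemma Wt_three (x y z : ZMod m) (t : (ZMod m)ˣ) : Wt p (x ::ₘ y ::ₘ z ::ₘ 0) t =
    W p ((t : ZMod m) * x) + W p ((t : ZMod m) * y) + W p ((t : ZMod m) * z) := by
  unfold Wt
  simp only [Multiset.map_cons, Multiset.sum_cons, Multiset.map_zero, Multiset.sum_zero]
  ring

/-- the clamping function -/
def clamp (f k : ℤ) : ℤ := max (-f) (min f k)

/-- **Weight by weight.** -/
theorem exists_curves (hp : p.Coprime m) (hm : 3 ≤ m) (hC : Curves p m) : ∀ w : ℕ,
    ∀ s : Multiset (ZMod m), (0 : ZMod m) ∉ s → s.sum = 0 → 2 ∣ Multiset.card s + w →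
    (∀ t, |Wt p s t| ≤ w * (m * orderOf (p : ZMod m))) →
    ∃ E : Multiset (Multiset (ZMod m)), Multiset.card E = w ∧
      (∀ e ∈ E, (0 : ZMod m) ∉ e ∧ e.sum = 0 ∧ Multiset.card e = 3) ∧
      ∀ t, (E.map fun e => Wt p e t).sum = Wt p s t := by
  intro w
  induction w with
  | zero =>
    intro s _ _ _ hW
    refine ⟨0, rfl, by simp, fun t => ?_⟩
    have h1 := hW t
    simp only [Nat.cast_zero, zero_mul, abs_nonpos_iff] at h1
    rw [h1]; simp
  | succ w ih =>
    intro s h0 hs hpar hW
    set f := orderOf (p : ZMod m) with hf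
    have hf0 : 0 < f := order_pos hp
    have hmz : (0 : ℤ) < m := by exact_mod_cast (by omega : 0 < m)
    -- the auxiliary list
    have h1 : (1 : ZMod m) ≠ 0 := by
      have : ((1 : ℕ) : ZMod m) ≠ 0 := by
        rw [Ne, ZMod.natCast_eq_zero_iff]
        intro h; have := Nat.le_of_dvd one_pos h; omega
      simpa using this
    have h2 : (-2 : ZMod m) ≠ 0 := by
      rw [neg_ne_zero]
      have : ((2 : ℕ) : ZMod m) ≠ 0 := by
        rw [Ne, ZMod.natCast_eq_zero_iff]
        intro h; have := Nat.le_of_dvd two_pos h; omega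
      simpa using this
    set e0 : Multiset (ZMod m) := 1 ::ₘ 1 ::ₘ (-2) ::ₘ 0 with he0
    have he00 : (0 : ZMod m) ∉ e0 := by
      rw [he0]
      simp only [Multiset.mem_cons, not_or, Multiset.notMem_zero, not_false_eq_true, and_true]
      exact ⟨h1.symm, h1.symm, h2.symm⟩
    have he0s : e0.sum = 0 := by
      rw [he0]
      simp only [Multiset.sum_cons, Multiset.sum_zero]
      ring
    choose κ0 hκ0 hκ0' using fun t => Wt_dvd hp he00 he0s t
    choose κ hκ hκ' using fun t => Wt_dvd hp h0 hs t
    have hc0 : (Multiset.card e0 : ℤ) = 3 := by rw [he0]; simp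
    simp only [hc0, ← hf] at hκ0' hκ'
    have hneg : ∀ t, κ (-t) = -κ t := fun t => by
      have h := Wt_unit_neg (p := p) s t
      rw [hκ, hκ] at h
      have : (m : ℤ) * κ (-t) = m * (-κ t) := by rw [h]; ring
      exact mul_left_cancel₀ hmz.ne' this
    have hneg0 : ∀ t, κ0 (-t) = -κ0 t := fun t => by
      have h := Wt_unit_neg (p := p) e0 t
      rw [hκ0, hκ0] at h
      have : (m : ℤ) * κ0 (-t) = m * (-κ0 t) := by rw [h]; ring
      exact mul_left_cancel₀ hmz.ne' this
    have hinv : ∀ t t' : (ZMod m)ˣ, (t' : ZMod m) = (p : ZMod m) * t → κ t' = κ t := fun t t' h => by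
      have h := Wt_unit_p s h
      rw [hκ, hκ] at h
      exact mul_left_cancel₀ hmz.ne' h
    have hinv0 : ∀ t t' : (ZMod m)ˣ, (t' : ZMod m) = (p : ZMod m) * t → κ0 t' = κ0 t :=
      fun t t' h => by
      have h := Wt_unit_p e0 h
      rw [hκ0, hκ0] at h
      exact mul_left_cancel₀ hmz.ne' h
    have hbound : ∀ t, |κ t| ≤ (w : ℤ) * f + f := fun t => by
      have h := hW t
      rw [hκ, abs_mul, abs_of_pos hmz] at h
      push_cast at h
      have : (m : ℤ) * |κ t| ≤ m * ((w : ℤ) * f + f) := by
        calc (m : ℤ) * |κ t| ≤ ((w : ℤ) + 1) * (m * f) := h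
          _ = m * ((w : ℤ) * f + f) := by ring
      exact le_of_mul_le_mul_left this hmz
    -- the correction
    obtain ⟨δ, hδ⟩ : ∃ δ : ℤ, δ = if (2 : ℤ) ∣ (f : ℤ) * Multiset.card s + f then 0 else 1 :=
      ⟨_, rfl⟩
    have hδ0 : δ = 0 ∨ δ = 1 := by
      rw [hδ]; split_ifs <;> simp
    have hpar' : ∀ t, (2 : ℤ) ∣ κ t + δ * Int.sign (κ0 t) + f := by
      intro t
      have a1 := hκ' t
      have a2 := hκ0' t
      rw [hδ]
      split_ifs with h
      · rw [zero_mul, add_zero]
        obtain ⟨u, hu⟩ := a1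
        obtain ⟨v, hv⟩ := h
        exact ⟨u + v - f * Multiset.card s, by linarith⟩
      · -- f is odd and the number of entries is even
        have hfo : ¬ (2 : ℤ) ∣ (f : ℤ) := by
          intro hd
          exact h (dvd_add (hd.mul_right _) hd)
        have h3 : ¬ (2 : ℤ) ∣ κ0 t := by
          intro hd
          have h4 : (2 : ℤ) ∣ (f : ℤ) * 3 := (dvd_add_right hd).mp a2
          omega
        have hk0 : κ0 t ≠ 0 := by rintro h5; rw [h5] at h3; exact h3 (dvd_zero 2)
        have h6 : Int.sign (κ0 t) = 1 ∨ Int.sign (κ0 t) = -1 := by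
          rcases lt_or_gt_of_ne hk0 with h7 | h7
          · right; exact Int.sign_eq_neg_one_of_neg h7
          · left; exact Int.sign_eq_one_of_pos h7
        have hcard : (2 : ℤ) ∣ (f : ℤ) * Multiset.card s := by
          by_contra h8
          exact h (by omega)
        rcases h6 with h6 | h6 <;> rw [h6] <;> omega
    set φ : (ZMod m)ˣ → ℤ := fun t => clamp f (κ t + δ * Int.sign (κ0 t)) with hφ
    have hsg : ∀ t, |δ * Int.sign (κ0 t)| ≤ δ := by
      intro t
      rw [abs_mul]
      have : |Int.sign (κ0 t)| ≤ 1 := by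
        rcases Int.sign_trichotomy (κ0 t) with h | h | h <;> rw [h] <;> simp
      rcases hδ0 with h | h <;> rw [h]
      · simp
      · simpa using this
    obtain ⟨x, y, z, hx, hy, hz, hxyz, hWxyz⟩ := hC φ (by
        intro t
        simp only [hφ, clamp, ← hf]
        rw [abs_le]
        constructor
        · exact le_max_left _ _
        · exact max_le (by omega) (min_le_left _ _)) (by
        intro t
        simp only [hφ, clamp, ← hf]
        have a1 := hpar' t
        rcases le_total (f : ℤ) (κ t + δ * Int.sign (κ0 t)) with h | h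
        · rw [min_eq_left h, max_eq_right (by omega)]
          exact ⟨f, by ring⟩
        · rw [min_eq_right h]
          rcases le_total (-(f : ℤ)) (κ t + δ * Int.sign (κ0 t)) with h' | h'
          · rw [max_eq_right h']; exact a1
          · rw [max_eq_left h']; exact ⟨0, by ring⟩) (by
        intro t
        simp only [hφ, clamp]
        rw [hneg, hneg0, Int.sign_neg]
        have : -κ t + δ * -Int.sign (κ0 t) = -(κ t + δ * Int.sign (κ0 t)) := by ring
        rw [this]
        generalize κ t + δ * Int.sign (κ0 t) = k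
        omega) (by
        intro t t' h
        simp only [hφ]
        rw [hinv t t' h, hinv0 t t' h])
    -- the rest
    set e : Multiset (ZMod m) := x ::ₘ y ::ₘ z ::ₘ 0 with he
    have he1 : (0 : ZMod m) ∉ e := by
      rw [he]
      simp only [Multiset.mem_cons, not_or, Multiset.notMem_zero, not_false_eq_true, and_true]
      exact ⟨hx.symm, hy.symm, hz.symm⟩
    have he2 : e.sum = 0 := by
      rw [he]
      simp only [Multiset.sum_cons, Multiset.sum_zero]
      linear_combination hxyz
    have he3 : Multiset.card e = 3 := by rw [he]; simp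
    have heW : ∀ t, Wt p e t = m * φ t := fun t => by rw [he, Wt_three, hWxyz]
    obtain ⟨E, hE1, hE2, hE3⟩ := ih (s + e.map Neg.neg) (by
        rw [Multiset.mem_add, not_or]
        refine ⟨h0, fun h => ?_⟩
        obtain ⟨b, hb, hb0⟩ := Multiset.mem_map.mp h
        rw [neg_eq_zero] at hb0
        rw [hb0] at hb
        exact he1 hb) (by
        rw [Multiset.sum_add, hs, zero_add, Multiset.sum_map_neg', he2, neg_zero]) (by
        rw [Multiset.card_add, Multiset.card_map, he3]
        omega) (by
        intro t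
        rw [Wt_add, Wt_neg, heW, hκ]
        have h5 : (m : ℤ) * κ t + -(m * φ t) = m * (κ t - φ t) := by ring
        rw [h5, abs_mul, abs_of_pos hmz]
        have h6 : |κ t - φ t| ≤ (w : ℤ) * f := by
          have a1 := hbound t
          have a2 := hsg t
          have hfz : (1 : ℤ) ≤ f := by exact_mod_cast hf0
          have a3 : δ ≤ (w : ℤ) * f := by
            rcases Nat.eq_zero_or_pos w with hw | hw
            · -- parity
              have hodd : ¬ 2 ∣ Multiset.card s := by omega
              have : δ = 0 := by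
                rw [hδ, if_pos]
                have h7 : (2 : ℤ) ∣ (Multiset.card s : ℤ) + 1 := by omega
                have h8 : (f : ℤ) * Multiset.card s + f = f * (Multiset.card s + 1) := by ring
                rw [h8]
                exact h7.mul_left _
              rw [this, hw]; simp
            · have h9 : (1 : ℤ) ≤ w := by exact_mod_cast hw
              have h10 : (1 : ℤ) ≤ (w : ℤ) * f := by nlinarith
              rcases hδ0 with h | h <;> omega
          simp only [hφ, clamp]
          rw [abs_le] at a1 a2 ⊢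
          generalize (w : ℤ) * f = B at *
          generalize δ * Int.sign (κ0 t) = σ at *
          omega
        calc (m : ℤ) * |κ t - φ t| ≤ m * ((w : ℤ) * f) := by
              exact mul_le_mul_of_nonneg_left h6 hmz.le
          _ = (w : ℤ) * (m * f) := by ring)
    refine ⟨e ::ₘ E, by rw [Multiset.card_cons, hE1], ?_, fun t => ?_⟩
    · intro x hx
      rcases Multiset.mem_cons.mp hx with rfl | hx
      · exact ⟨he1, he2, he3⟩
      · exact hE2 x hx
    · rw [Multiset.map_cons, Multiset.sum_cons, hE3, Wt_add, Wt_neg]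
      ring

end Pool.Agent.TH540
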