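import Pool.Agent.TH540.GTCCore
import Pool.Agent.TH540.GTCCheck
import Pool.Agent.H916Y.Fams3

/-!
# The list of degrees
-/

set_option linter.unusedSectionVars false
set_option maxRecDepth 100000

namespace Pool.Agent.TH540

open Finset Pool.Agent.H916R2 Pool.Agent.H916T Pool.Agent.H916U Pool.Agent.H916Z

theorem ok3 : okDeg 3 (fun _ => true) = true := by decide +kernel
theorem ok4 : okDeg 4 (fun _ => true) = true := by decide +kernel
theorem ok5 : okDeg 5 (fun _ => true) = true := by decide +kernel
theorem ok6 : okDeg 6 (fun _ => true) = true := by decide +kernel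
theorem ok7 : okDeg 7 (fun _ => true) = true := by decide +kernel
theorem ok8 : okDeg 8 (fun _ => true) = true := by decide +kernel
theorem ok9 : okDeg 9 (fun _ => true) = true := by decide +kernel
theorem ok10 : okDeg 10 (fun _ => true) = true := by decide +kernel
theorem ok12 : okDeg 12 (fun _ => true) = true := by decide +kernel
theorem ok14 : okDeg 14 (fun _ => true) = true := by decide +kernel
theorem ok15 : okDeg 15 (fun _ => true) = true := by decide +kernel
theorem ok16 : okDeg 16 (fun _ => true) = true := by decide +kernel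
theorem ok18 : okDeg 18 (fun _ => true) = true := by decide +kernel
theorem ok20 : okDeg 20 (fun _ => true) = true := by decide +kernel
theorem ok22 : okDeg 22 (fun _ => true) = true := by decide +kernel
theorem ok24 : okDeg 24 (fun _ => true) = true := by decide +kernel
theorem ok30 : okDeg 30 (fun _ => true) = true := by decide +kernel
theorem ok36 : okDeg 36 (fun _ => true) = true := by decide +kernel
theorem ok42 : okDeg 42 (fun _ => true) = true := by decide +kernel

/-- the degrees for which all slope functions of weight one come from curves of that degree -/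
def listA : List ℕ := [3, 4, 5, 6, 7, 8, 9, 10, 12, 14, 15, 16, 18, 20, 22, 24, 30, 36, 42]

theorem curves_list {p m : ℕ} [NeZero m] (hm : m ∈ listA) (hp : p.Coprime m) : Curves p m := by
  have key : 3 ≤ m ∧ okDeg m (fun _ => true) = true := by
    simp only [listA, List.mem_cons, List.not_mem_nil, or_false] at hm
    rcases hm with rfl | rfl | rfl | rfl | rfl | rfl | rfl | rfl | rfl | rfl | rfl | rfl | rfl |
      rfl | rfl | rfl | rfl | rfl | rfl
    · exact ⟨by norm_num, ok3⟩
    · exact ⟨by norm_num, ok4⟩
    · exact ⟨by norm_num, ok5⟩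
    · exact ⟨by norm_num, ok6⟩
    · exact ⟨by norm_num, ok7⟩
    · exact ⟨by norm_num, ok8⟩
    · exact ⟨by norm_num, ok9⟩
    · exact ⟨by norm_num, ok10⟩
    · exact ⟨by norm_num, ok12⟩
    · exact ⟨by norm_num, ok14⟩
    · exact ⟨by norm_num, ok15⟩
    · exact ⟨by norm_num, ok16⟩
    · exact ⟨by norm_num, ok18⟩
    · exact ⟨by norm_num, ok20⟩
    · exact ⟨by norm_num, ok22⟩
    · exact ⟨by norm_num, ok24⟩
    · exact ⟨by norm_num, ok30⟩
    · exact ⟨by norm_num, ok36⟩
    · exact ⟨by norm_num, ok42⟩
  exact curves_of_okDeg key.1 key.2 hp rfl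

lemma primes_of_dvd {m q : ℕ} (hq : q.Prime) (h : m ∣ 2 ^ 4 * 3 ^ 2 * q) :
    ∀ r : ℕ, r.Prime → r ∣ m → r = 2 ∨ r = 3 ∨ r = q := by
  intro r hr hrm
  have h1 := hrm.trans h
  rcases (Nat.Prime.dvd_mul hr).mp h1 with h2 | h2
  · rcases (Nat.Prime.dvd_mul hr).mp h2 with h3 | h3
    · exact Or.inl ((Nat.prime_dvd_prime_iff_eq hr Nat.prime_two).mp (hr.dvd_of_dvd_pow h3))
    · exact Or.inr (Or.inl ((Nat.prime_dvd_prime_iff_eq hr Nat.prime_three).mp
        (hr.dvd_of_dvd_pow h3)))
  · exact Or.inr (Or.inr ((Nat.prime_dvd_prime_iff_eq hr hq).mp h2))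

theorem concl_list {p m : ℕ} (hm : m ∈ listA) (hpp : p.Prime) (hp : p.Coprime m)
    {s : Multiset (ZMod m)} (hs : IsTate p m s) (hne : s ≠ 0) : H916Y.Concl p m s := by
  simp only [listA, List.mem_cons, List.not_mem_nil, or_false] at hm
  rcases hm with rfl | rfl | rfl | rfl | rfl | rfl | rfl | rfl | rfl | rfl | rfl | rfl | rfl |
      rfl | rfl | rfl | rfl | rfl | rfl
  · exact H916Y.all235 hpp (by norm_num) hp (primes_of_dvd Nat.prime_five (by norm_num)) hs hne
  · exact H916Y.all235 hpp (by norm_num) hp (primes_of_dvd Nat.prime_five (by norm_num)) hs hne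
  · exact H916Y.all235 hpp (by norm_num) hp (primes_of_dvd Nat.prime_five (by norm_num)) hs hne
  · exact H916Y.all235 hpp (by norm_num) hp (primes_of_dvd Nat.prime_five (by norm_num)) hs hne
  · exact H916Y.all237 hpp (by norm_num) hp (primes_of_dvd (by norm_num) (by norm_num)) hs hne
  · exact H916Y.all235 hpp (by norm_num) hp (primes_of_dvd Nat.prime_five (by norm_num)) hs hne
  · exact H916Y.all235 hpp (by norm_num) hp (primes_of_dvd Nat.prime_five (by norm_num)) hs hne
  · exact H916Y.all235 hpp (by norm_num) hp (primes_of_dvd Nat.prime_five (by norm_num)) hs hne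
  · exact H916Y.all235 hpp (by norm_num) hp (primes_of_dvd Nat.prime_five (by norm_num)) hs hne
  · exact H916Y.all237 hpp (by norm_num) hp (primes_of_dvd (by norm_num) (by norm_num)) hs hne
  · exact H916Y.all235 hpp (by norm_num) hp (primes_of_dvd Nat.prime_five (by norm_num)) hs hne
  · exact H916Y.all235 hpp (by norm_num) hp (primes_of_dvd Nat.prime_five (by norm_num)) hs hne
  · exact H916Y.all235 hpp (by norm_num) hp (primes_of_dvd Nat.prime_five (by norm_num)) hs hne
  · exact H916Y.all235 hpp (by norm_num) hp (primes_of_dvd Nat.prime_five (by norm_num)) hs hne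
  · exact H916Y.all2311 hpp (by norm_num) (by norm_num) hp (primes_of_dvd (by norm_num) (by norm_num))
      hs hne
  · exact H916Y.all235 hpp (by norm_num) hp (primes_of_dvd Nat.prime_five (by norm_num)) hs hne
  · exact H916Y.all235 hpp (by norm_num) hp (primes_of_dvd Nat.prime_five (by norm_num)) hs hne
  · exact H916Y.all235 hpp (by norm_num) hp (primes_of_dvd Nat.prime_five (by norm_num)) hs hne
  · exact H916Y.all237 hpp (by norm_num) hp (primes_of_dvd (by norm_num) (by norm_num)) hs hne

end Pool.Agent.TH540
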