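import Pool.Agent.TH540.KS

/-!
# Decompositions with invariance
-/

set_option linter.unusedSectionVars false
set_option linter.unusedTactic false

namespace Pool.Agent.TH540

open Finset Pool.Agent.H916R2 Pool.Agent.H916T

variable {m : ℕ}

/-- a type of complex multiplication which is invariant under a subgroup -/
theorem exists_type [NeZero m] (H : Subgroup (ZMod m)ˣ) (hneg : (-1 : (ZMod m)ˣ) ∉ H) :
    ∃ Φ : (ZMod m)ˣ → ℕ, (∀ t, Φ (-t) + Φ t = 1) ∧ ∀ h ∈ H, ∀ t, Φ (h * t) = Φ t := by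
  classical
  let A : (ZMod m)ˣ → Set ℕ := fun t => {n | ∃ h ∈ H, n = ((h * t : (ZMod m)ˣ) : ZMod m).val}
  let f : (ZMod m)ˣ → ℕ := fun t => sInf (A t)
  have hf : ∀ t, f t ∈ A t := fun t =>
    Nat.sInf_mem ⟨_, 1, H.one_mem, rfl⟩
  have hinv : ∀ h ∈ H, ∀ t, f (h * t) = f t := by
    intro h hh t
    have : A (h * t) = A t := by
      ext n
      constructor
      · rintro ⟨g, hg, rfl⟩
        exact ⟨g * h, H.mul_mem hg hh, by rw [mul_assoc]⟩
      · rintro ⟨g, hg, rfl⟩
        exact ⟨g * h⁻¹, H.mul_mem hg (H.inv_mem hh), by rw [mul_assoc, inv_mul_cancel_left]⟩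
    simp only [f, this]
  have hne : ∀ t, f (-t) ≠ f t := by
    intro t h
    obtain ⟨g, hg, h1⟩ := hf t
    obtain ⟨g', hg', h2⟩ := hf (-t)
    rw [h, h1] at h2
    have h3 : g * t = g' * -t := by
      apply Units.ext
      exact ZMod.val_injective m h2
    apply hneg
    have h4 : (-1 : (ZMod m)ˣ) = g * g'⁻¹ := by
      rw [mul_neg, ← neg_mul] at h3
      have h5 : g = -g' := mul_right_cancel h3
      rw [h5, neg_mul, mul_inv_cancel]
    rw [h4]
    exact H.mul_mem hg (H.inv_mem hg')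
  refine ⟨fun t => if f t < f (-t) then 1 else 0, fun t => ?_, fun h hh t => ?_⟩
  · have h1 := hne t
    simp only [neg_neg]
    rcases lt_or_gt_of_ne h1 with h2 | h2
    · rw [if_pos h2, if_neg (by omega)]
    · rw [if_neg (by omega), if_pos h2]
  · have h1 : -(h * t) = h * -t := by rw [mul_neg]
    simp only [h1, hinv h hh]

/-- sums of types -/
theorem decomp_types (H : Subgroup (ZMod m)ˣ) {Φ₀ : (ZMod m)ˣ → ℕ}
    (h₀ : ∀ t, Φ₀ (-t) + Φ₀ t = 1) (h₁ : ∀ h ∈ H, ∀ t, Φ₀ (h * t) = Φ₀ t) :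
    ∀ (w : ℕ) (κ : (ZMod m)ˣ → ℤ), (∀ t, κ (-t) = -κ t) → (∀ t, (2 : ℤ) ∣ κ t + w) →
      (∀ t, |κ t| ≤ w) → (∀ h ∈ H, ∀ t, κ (h * t) = κ t) →
      ∃ F : Multiset ((ZMod m)ˣ → ℕ), Multiset.card F = w ∧
        (∀ Φ ∈ F, (∀ t, Φ (-t) + Φ t = 1) ∧ ∀ h ∈ H, ∀ t, Φ (h * t) = Φ t) ∧
        ∀ t, (F.map fun Φ => 2 * (Φ t : ℤ) - 1).sum = κ t := by
  intro w
  induction w with
  | zero =>
    intro κ _ _ hb _
    refine ⟨0, rfl, by simp, fun t => ?_⟩
    have h1 := hb t
    simp only [Nat.cast_zero, abs_nonpos_iff] at h1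
    rw [h1]; simp
  | succ w ih =>
    intro κ hneg hpar hb hinv
    obtain ⟨Φ, hΦ⟩ : ∃ Φ : (ZMod m)ˣ → ℕ,
        Φ = fun t => if 0 < κ t then 1 else if κ t < 0 then 0 else Φ₀ t := ⟨_, rfl⟩
    have hval : ∀ t, (0 < κ t → Φ t = 1) ∧ (κ t < 0 → Φ t = 0) ∧ (κ t = 0 → Φ t = Φ₀ t) := by
      intro t
      rw [hΦ]
      refine ⟨fun h => if_pos h, fun h => ?_, fun h => ?_⟩
      · simp only
        rw [if_neg (by omega), if_pos h]
      · simp only
        rw [if_neg (by omega), if_neg (by omega)]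
    have hcm : ∀ t, Φ (-t) + Φ t = 1 := by
      intro t
      have a1 := hval t
      have a2 := hval (-t)
      have a3 := hneg t
      have a4 := h₀ t
      rcases lt_trichotomy (κ t) 0 with h | h | h
      · rw [a1.2.1 h, a2.1 (by omega)]
      · rw [a1.2.2 h, a2.2.2 (by omega), a4]
      · rw [a1.1 h, a2.2.1 (by omega)]
    have hin : ∀ h ∈ H, ∀ t, Φ (h * t) = Φ t := by
      intro h hh t
      rw [hΦ]
      simp only [hinv h hh t, h₁ h hh t]
    obtain ⟨F, f1, f2, f3⟩ := ih (fun t => κ t - (2 * (Φ t : ℤ) - 1)) (by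
        intro t
        have a1 := hneg t
        have a2 := hcm t
        omega) (by
        intro t
        have a1 := hpar t
        push_cast at a1
        omega) (by
        intro t
        have a1 := hb t
        have a2 := hpar t
        have a3 := hval t
        have a4 := h₀ t
        push_cast at a1 a2
        rw [abs_le] at a1 ⊢
        rcases lt_trichotomy (κ t) 0 with h | h | h
        · rw [a3.2.1 h]; push_cast; omega
        · rw [a3.2.2 h]; omega
        · rw [a3.1 h]; push_cast; omega) (by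
        intro h hh t
        rw [hinv h hh t, hin h hh t])
    refine ⟨Φ ::ₘ F, by rw [Multiset.card_cons, f1], ?_, fun t => ?_⟩
    · intro Ψ hΨ
      rcases Multiset.mem_cons.mp hΨ with rfl | hΨ
      · exact ⟨hcm, hin⟩
      · exact f2 Ψ hΨ
    · rw [Multiset.map_cons, Multiset.sum_cons, f3]
      ring

lemma Ht_join [NeZero m] (E : Multiset (Multiset (ZMod m))) (t : (ZMod m)ˣ) :
    Ht m E.join t = (E.map fun e => Ht m e t).sum := by
  induction E using Multiset.induction_on with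
  | empty => simp [Ht]
  | cons e E ih => rw [Multiset.join_cons, Ht_add, ih, Multiset.map_cons, Multiset.sum_cons]

lemma Ht_unit_neg [NeZero m] {s : Multiset (ZMod m)} (h0 : (0 : ZMod m) ∉ s) (t : (ZMod m)ˣ) :
    Ht m s (-t) + Ht m s t = m * Multiset.card s := by
  rw [← Ht_neg h0 t]
  congr 1
  unfold Ht
  rw [Multiset.map_map]
  congr 1
  refine Multiset.map_congr rfl fun a _ => ?_
  simp only [Function.comp, Units.val_neg, neg_mul, mul_neg]

/-- **Decomposition into lines of Fermat curves of invariant types.** -/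
theorem hk_decomp [NeZero m] (hmem : m ∈ listA) (H : Subgroup (ZMod m)ˣ)
    (hH : (-1 : (ZMod m)ˣ) ∉ H) {v : Multiset (ZMod m)} (h0 : (0 : ZMod m) ∉ v)
    (hs : v.sum = 0) {w ν : ℕ} (hw : w + 2 * ν + 2 = Multiset.card v)
    (hν : ∀ t, m * (ν + 1) ≤ Ht m v t) (hinv : ∀ h ∈ H, ∀ t, Ht m v (h * t) = Ht m v t) :
    ∃ E : Multiset (Multiset (ZMod m)), Multiset.card E = w ∧
      (∀ e ∈ E, ∃ Φ : (ZMod m)ˣ → ℕ, (∀ t, Φ (-t) + Φ t = 1) ∧
        (∀ h ∈ H, ∀ t, Φ (h * t) = Φ t) ∧ Multiset.card e = 3 ∧ (0 : ZMod m) ∉ e ∧ e.sum = 0 ∧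
        ∀ t, Ht m e t = m * (Φ t + 1)) ∧
      IsHodge m (v + E.join.map Neg.neg) := by
  classical
  obtain ⟨Φ₀, a1, a2⟩ := exists_type H hH
  have hm : 0 < m := Nat.pos_of_ne_zero (NeZero.ne m)
  have hdiv : ∀ t : (ZMod m)ˣ, m ∣ Ht m v t := fun t => val_sum_dvd (t : ZMod m) v hs
  choose q hq using hdiv
  have hqn : ∀ t, q (-t) + q t = Multiset.card v := by
    intro t
    have h1 := Ht_unit_neg h0 t
    rw [hq, hq, ← mul_add] at h1
    exact Nat.eq_of_mul_eq_mul_left hm h1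
  have hqν : ∀ t, ν + 1 ≤ q t := by
    intro t
    have h1 := hν t
    rw [hq] at h1
    exact Nat.le_of_mul_le_mul_left h1 hm
  have hqi : ∀ h ∈ H, ∀ t, q (h * t) = q t := by
    intro h hh t
    have h1 := hinv h hh t
    rw [hq, hq] at h1
    exact Nat.eq_of_mul_eq_mul_left hm h1
  obtain ⟨F, f1, f2, f3⟩ := decomp_types H a1 a2 w
    (fun t => 2 * (q t : ℤ) - Multiset.card v) (by
      intro t
      have h1 := hqn t
      omega) (by
      intro t
      exact ⟨(q t : ℤ) - ν - 1, by rw [← hw]; push_cast; ring⟩) (by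
      intro t
      have h1 := hqn t
      have h2 := hqν t
      have h3 := hqν (-t)
      rw [abs_le]
      constructor <;> omega) (by
      intro h hh t
      rw [hqi h hh t])
  have hch : ∀ Φ : (ZMod m)ˣ → ℕ, ∃ c : Multiset (ZMod m), (∀ t, Φ (-t) + Φ t = 1) →
      Multiset.card c = 3 ∧ (0 : ZMod m) ∉ c ∧ c.sum = 0 ∧ ∀ t, Ht m c t = m * (Φ t + 1) := by
    intro Φ
    by_cases h : ∀ t, Φ (-t) + Φ t = 1
    · obtain ⟨c, hc⟩ := types_list hmem Φ h
      exact ⟨c, fun _ => hc⟩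
    · exact ⟨0, fun h' => absurd h' h⟩
  choose c hc using hch
  have hE : ∀ e ∈ F.map c, ∃ Φ : (ZMod m)ˣ → ℕ, (∀ t, Φ (-t) + Φ t = 1) ∧
        (∀ h ∈ H, ∀ t, Φ (h * t) = Φ t) ∧ Multiset.card e = 3 ∧ (0 : ZMod m) ∉ e ∧ e.sum = 0 ∧
        ∀ t, Ht m e t = m * (Φ t + 1) := by
    intro e he
    obtain ⟨Φ, hΦ, rfl⟩ := Multiset.mem_map.mp he
    obtain ⟨h1, h2⟩ := f2 Φ hΦ
    exact ⟨Φ, h1, h2, hc Φ h1⟩
  have hE3 : ∀ e ∈ F.map c, Multiset.card e = 3 := fun e he => by
    obtain ⟨_, _, _, h, _⟩ := hE e he; exact h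
  have hE0 : ∀ e ∈ F.map c, (0 : ZMod m) ∉ e := fun e he => by
    obtain ⟨_, _, _, _, h, _⟩ := hE e he; exact h
  have hEs : ∀ e ∈ F.map c, e.sum = 0 := fun e he => by
    obtain ⟨_, _, _, _, _, h, _⟩ := hE e he; exact h
  have hcard : Multiset.card (F.map c) = w := by rw [Multiset.card_map, f1]
  have hsum : ∀ t, (Ht m (F.map c).join t : ℤ) =
      m * w + m * (F.map fun Φ => (Φ t : ℤ)).sum := by
    intro t
    rw [Ht_join, Multiset.map_map]
    have key : ∀ F' : Multiset ((ZMod m)ˣ → ℕ), (∀ Φ ∈ F', Φ ∈ F) →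
        (((F'.map ((fun e => Ht m e t) ∘ c)).sum : ℕ) : ℤ) =
          m * (Multiset.card F' : ℤ) + m * (F'.map fun Φ => (Φ t : ℤ)).sum := by
      intro F'
      induction F' using Multiset.induction_on with
      | empty => intro _; simp
      | cons Φ F' ih =>
        intro h
        have h1 := ih fun Ψ hΨ => h Ψ (Multiset.mem_cons_of_mem hΨ)
        have h2 := (hc Φ (f2 Φ (h Φ (Multiset.mem_cons_self _ _))).1).2.2.2 t
        rw [Multiset.map_cons, Multiset.sum_cons, Nat.cast_add, h1, Function.comp, h2,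
          Multiset.card_cons, Multiset.map_cons, Multiset.sum_cons]
        push_cast
        ring
    rw [key F fun _ h => h, f1]
  refine ⟨F.map c, hcard, hE, ?_, ?_, ?_, fun t => ?_⟩
  · rw [Multiset.mem_add, not_or]
    refine ⟨h0, fun h => ?_⟩
    obtain ⟨b, hb, hb0⟩ := Multiset.mem_map.mp h
    rw [neg_eq_zero] at hb0
    rw [hb0] at hb
    exact join_zero hE0 hb
  · rw [Multiset.card_add, Multiset.card_map, join_card hE3, hcard, Nat.even_iff]
    omega
  · rw [Multiset.sum_add, hs, Multiset.sum_map_neg', join_sum hEs]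
    simp
  · change 2 * Ht m (v + (F.map c).join.map Neg.neg) t = _
    have e1 := Ht_neg (join_zero hE0) t
    rw [join_card hE3, hcard] at e1
    have e2 := hsum t
    have e3 := f3 t
    have e4 : (F.map fun Φ => 2 * (Φ t : ℤ) - 1).sum = 2 * (F.map fun Φ => (Φ t : ℤ)).sum - w := by
      have key : ∀ F' : Multiset ((ZMod m)ˣ → ℕ), (F'.map fun Φ => 2 * (Φ t : ℤ) - 1).sum =
          2 * (F'.map fun Φ => (Φ t : ℤ)).sum - Multiset.card F' := by
        intro F'
        induction F' using Multiset.induction_on with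
        | empty => simp
        | cons Φ F' ih =>
          rw [Multiset.map_cons, Multiset.sum_cons, ih, Multiset.map_cons, Multiset.sum_cons,
            Multiset.card_cons]
          push_cast
          ring
      rw [key, f1]
    rw [e4] at e3
    rw [Ht_add, Multiset.card_add, Multiset.card_map, join_card hE3, hcard, hq]
    generalize (F.map fun Φ => (Φ t : ℤ)).sum = X at *
    generalize Ht m (Multiset.map c F).join t = Y at *
    generalize Ht m ((Multiset.map c F).join.map Neg.neg) t = Z at *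
    zify at e1 ⊢
    have e5 : (m : ℤ) * (2 * X - w) = m * (2 * (q t : ℤ) - (Multiset.card v : ℤ)) := by rw [e3]
    linear_combination 2 * e1 - 2 * e2 - e5

end Pool.Agent.TH540
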