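import Pool.Agent.TH540.DivCert

/-!
# Certificates for K3 surfaces of Fermat type
-/

namespace Pool.Agent.TH540.K3

open SC

set_option maxRecDepth 100000

/-- type `(12, [5, 3, 2, 2])` -/
def k12_5_3_2_2U : List Cert := [
  ([1], [], [[5, 3, 2, 2]], []),
  ([1, 5], [], [[2, 10], [2, 10], [1, 3, 3, 5]], []),
  ([1, 7], [6], [[3, 9], [2, 2, 2, 6]], [[2, 5, 6, 11]])]

theorem k12_5_3_2_2 : chkUnits 12 [5, 3, 2, 2] k12_5_3_2_2U = true := by decide +kernel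

/-- type `(14, [5, 4, 3, 2])` -/
def k14_5_4_3_2U : List Cert := [
  ([1], [], [[5, 4, 3, 2]], []),
  ([1, 5], [], [[3, 11], [4, 10], [1, 2, 5, 6]], []),
  ([1, 9], [6], [[2, 4, 8], [3, 3, 8]], [[4, 5, 6, 13]]),
  ([1, 3, 5], [], [[2, 12], [3, 11], [4, 10], [5, 9], [1, 1, 6, 6]], []),
  ([1, 9, 11], [7], [[2, 4, 8], [2, 4, 8]], [[3, 5, 7, 13], [3, 5, 7, 13]])]

theorem k14_5_4_3_2 : chkUnits 14 [5, 4, 3, 2] k14_5_4_3_2U = true := by decide +kernel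

/-- type `(14, [7, 3, 2, 2])` -/
def k14_7_3_2_2U : List Cert := [
  ([1], [], [[7, 3, 2, 2]], []),
  ([1, 5], [], [[7, 7], [1, 3, 10], [2, 2, 10]], []),
  ([1, 9], [4], [[7, 7], [2, 4, 4, 4]], [[2, 3, 10, 13]]),
  ([1, 3, 5], [], [[7, 7], [1, 3, 10], [2, 6, 6]], [[2, 7, 9, 10]]),
  ([1, 9, 11], [], [[7, 7], [2, 4, 8], [2, 4, 8]], [[3, 5, 7, 13]])]

theorem k14_7_3_2_2 : chkUnits 14 [7, 3, 2, 2] k14_7_3_2_2U = true := by decide +kernel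

/-- type `(14, [7, 4, 2, 1])` -/
def k14_7_4_2_1U : List Cert := [
  ([1], [], [[7, 4, 2, 1]], []),
  ([1, 5], [], [[4, 10], [7, 7], [1, 2, 5, 6]], []),
  ([1, 9], [], [[7, 7], [1, 4, 9], [2, 4, 8]], []),
  ([1, 3, 5], [], [[2, 12], [4, 10], [7, 7], [1, 6, 7], [3, 5, 6]], []),
  ([1, 9, 11], [], [[7, 7], [2, 4, 8], [2, 4, 8]], [[1, 7, 9, 11]])]

theorem k14_7_4_2_1 : chkUnits 14 [7, 4, 2, 1] k14_7_4_2_1U = true := by decide +kernel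

/-- type `(15, [5, 5, 3, 2])` -/
def k15_5_5_3_2U : List Cert := [
  ([1], [], [[5, 5, 3, 2]], []),
  ([1, 4], [], [[3, 12], [2, 5, 8], [5, 5, 5]], []),
  ([1, 7], [6], [[3, 6, 6], [5, 5, 5]], [[2, 5, 9, 14]]),
  ([1, 8], [], [[5, 10], [5, 10], [1, 2, 3, 9]], []),
  ([1, 11], [], [[5, 10], [5, 10], [2, 3, 3, 7]], []),
  ([1, 4, 7], [3, 4], [[3, 12], [4, 5, 6], [5, 5, 5]], [[2, 5, 11, 12], [3, 5, 8, 14]]),
  ([1, 4, 8], [], [[3, 12], [5, 10], [5, 10], [1, 5, 9], [2, 5, 8]], []),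
  ([1, 7, 11], [6], [[5, 10], [5, 10], [3, 5, 7], [3, 6, 6]], [[2, 5, 9, 14]]),
  ([1, 8, 11], [3], [[5, 10], [5, 10], [2, 3, 10], [3, 3, 9]], [[1, 7, 10, 12]]),
  ([1, 2, 4, 7], [3, 4], [[3, 12], [5, 10], [5, 10], [4, 5, 6], [4, 5, 6]], [[2, 5, 11, 12], [3, 5, 8, 14]]),
  ([1, 2, 4, 8], [], [[3, 12], [5, 10], [5, 10], [5, 10], [5, 10], [6, 9], [1, 2, 4, 8]], []),
  ([1, 2, 7, 11], [6], [[5, 10], [5, 10], [5, 10], [5, 10], [2, 6, 7], [3, 6, 6]], [[3, 4, 9, 14]]),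
  ([1, 4, 7, 13], [3], [[3, 12], [6, 9], [5, 5, 5], [5, 5, 5]], [[2, 5, 11, 12], [3, 5, 8, 14]])]

theorem k15_5_5_3_2 : chkUnits 15 [5, 5, 3, 2] k15_5_5_3_2U = true := by decide +kernel

/-- type `(18, [6, 5, 4, 3])` -/
def k18_6_5_4_3U : List Cert := [
  ([1], [], [[6, 5, 4, 3]], []),
  ([1, 7], [6], [[3, 5, 10], [6, 6, 6]], [[3, 4, 12, 17]]),
  ([1, 11], [], [[3, 15], [6, 12], [1, 4, 5, 8]], []),
  ([1, 5, 7], [5], [[3, 15], [6, 12], [3, 5, 10], [5, 6, 7]], [[2, 4, 13, 17]]),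
  ([1, 7, 13], [], [[3, 3, 6, 6]], [[3, 5, 11, 17], [4, 6, 10, 16]])]

theorem k18_6_5_4_3 : chkUnits 18 [6, 5, 4, 3] k18_6_5_4_3U = true := by decide +kernel

/-- type `(18, [7, 6, 4, 1])` -/
def k18_7_6_4_1U : List Cert := [
  ([1], [], [[7, 6, 4, 1]], []),
  ([1, 7], [6], [[1, 7, 10], [6, 6, 6]], [[4, 7, 12, 13]]),
  ([1, 11], [], [[6, 12], [7, 11], [1, 4, 5, 8]], []),
  ([1, 5, 7], [], [[1, 17], [5, 13], [6, 12], [2, 6, 10], [4, 7, 7]], []),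
  ([1, 7, 13], [3, 3], [[3, 3, 6, 6]], [[1, 7, 13, 15], [1, 7, 13, 15], [4, 6, 10, 16]])]

theorem k18_7_6_4_1 : chkUnits 18 [7, 6, 4, 1] k18_7_6_4_1U = true := by decide +kernel

/-- type `(18, [8, 5, 3, 2])` -/
def k18_8_5_3_2U : List Cert := [
  ([1], [], [[8, 5, 3, 2]], []),
  ([1, 7], [6], [[2, 2, 14], [3, 3, 12]], [[5, 6, 8, 17]]),
  ([1, 11], [], [[2, 16], [3, 15], [1, 4, 5, 8]], []),
  ([1, 5, 7], [7], [[3, 15], [4, 14], [8, 10], [2, 2, 7, 7]], [[3, 5, 11, 17]]),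
  ([1, 7, 13], [6, 6], [[3, 3, 6, 6]], [[2, 8, 12, 14], [2, 8, 12, 14], [3, 5, 11, 17]])]

theorem k18_8_5_3_2 : chkUnits 18 [8, 5, 3, 2] k18_8_5_3_2U = true := by decide +kernel

/-- type `(18, [9, 4, 3, 2])` -/
def k18_9_4_3_2U : List Cert := [
  ([1], [], [[9, 4, 3, 2]], []),
  ([1, 7], [], [[4, 14], [9, 9], [2, 3, 3, 10]], []),
  ([1, 11], [], [[3, 15], [9, 9], [2, 4, 4, 8]], []),
  ([1, 5, 7], [4, 5], [[3, 15], [4, 14], [9, 9], [2, 2, 14], [3, 5, 10]], [[4, 9, 10, 13]]),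
  ([1, 7, 13], [], [[2, 16], [4, 14], [8, 10], [9, 9], [3, 3, 3, 9]], [])]

theorem k18_9_4_3_2 : chkUnits 18 [9, 4, 3, 2] k18_9_4_3_2U = true := by decide +kernel

/-- type `(18, [9, 5, 3, 1])` -/
def k18_9_5_3_1U : List Cert := [
  ([1], [], [[9, 5, 3, 1]], []),
  ([1, 7], [], [[1, 17], [9, 9], [3, 3, 5, 7]], []),
  ([1, 11], [], [[3, 15], [9, 9], [1, 1, 5, 11]], []),
  ([1, 5, 7], [2, 6], [[1, 17], [3, 15], [9, 9], [2, 7, 9], [5, 6, 7]], [[3, 5, 12, 16]]),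
  ([1, 7, 13], [], [[1, 17], [5, 13], [7, 11], [9, 9], [3, 3, 3, 9]], [])]

theorem k18_9_5_3_1 : chkUnits 18 [9, 5, 3, 1] k18_9_5_3_1U = true := by decide +kernel

/-- type `(18, [9, 6, 2, 1])` -/
def k18_9_6_2_1U : List Cert := [
  ([1], [], [[9, 6, 2, 1]], []),
  ([1, 7], [3], [[9, 9], [2, 3, 6, 7]], [[1, 6, 14, 15]]),
  ([1, 11], [], [[6, 12], [9, 9], [1, 2, 4, 11]], []),
  ([1, 5, 7], [2], [[6, 12], [9, 9], [1, 7, 10], [2, 2, 14]], [[5, 6, 9, 16]]),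
  ([1, 7, 13], [1, 3], [[9, 9], [1, 3, 14], [6, 6, 6]], [[1, 7, 13, 15], [2, 8, 9, 17]])]

theorem k18_9_6_2_1 : chkUnits 18 [9, 6, 2, 1] k18_9_6_2_1U = true := by decide +kernel

/-- type `(20, [8, 5, 4, 3])` -/
def k20_8_5_4_3U : List Cert := [
  ([1], [], [[8, 5, 4, 3]], []),
  ([1, 7], [], [[4, 16], [5, 15], [1, 3, 8, 8]], []),
  ([1, 9], [], [[4, 16], [8, 12], [3, 5, 5, 7]], []),
  ([1, 11], [], [[5, 15], [3, 4, 13], [4, 8, 8]], []),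
  ([1, 13], [6], [[8, 12], [4, 5, 5, 6]], [[3, 4, 14, 19]]),
  ([1, 7, 9], [], [[4, 16], [5, 15], [8, 12], [1, 3, 16], [5, 7, 8]], []),
  ([1, 7, 11], [2], [[4, 16], [5, 15], [2, 3, 15], [4, 8, 8]], [[1, 8, 13, 18]]),
  ([1, 9, 13], [10], [[4, 16], [8, 12], [3, 5, 12], [5, 5, 10]], [[4, 7, 10, 19]]),
  ([1, 11, 13], [9], [[5, 15], [8, 12], [3, 4, 13], [4, 5, 11]], [[4, 8, 9, 19]]),
  ([1, 3, 7, 9], [], [[4, 16], [4, 16], [5, 15], [5, 15], [8, 12], [8, 12], [1, 3, 7, 9]], []),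
  ([1, 3, 7, 11], [1, 2], [[4, 16], [5, 15], [8, 12], [1, 4, 15], [2, 3, 15]], [[1, 8, 13, 18], [4, 8, 9, 19]]),
  ([1, 3, 11, 13], [8], [[5, 15], [5, 15], [8, 12], [8, 12], [3, 4, 13], [4, 4, 12]], [[4, 8, 9, 19]]),
  ([1, 9, 13, 17], [], [[4, 16], [4, 16], [8, 12], [8, 12], [5, 5, 5, 5]], [[3, 7, 11, 19]])]

theorem k20_8_5_4_3 : chkUnits 20 [8, 5, 4, 3] k20_8_5_4_3U = true := by decide +kernel

/-- type `(20, [9, 5, 4, 2])` -/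
def k20_9_5_4_2U : List Cert := [
  ([1], [], [[9, 5, 4, 2]], []),
  ([1, 7], [], [[5, 15], [2, 4, 14], [3, 8, 9]], []),
  ([1, 9], [], [[2, 18], [4, 16], [1, 5, 5, 9]], []),
  ([1, 11], [8], [[5, 15], [2, 2, 4, 12]], [[4, 8, 9, 19]]),
  ([1, 13], [], [[4, 5, 5, 6]], [[2, 9, 12, 17]]),
  ([1, 7, 9], [], [[2, 18], [4, 16], [5, 15], [1, 5, 14], [3, 8, 9]], []),
  ([1, 7, 11], [], [[5, 15], [2, 3, 15], [2, 4, 14]], [[4, 8, 9, 19]]),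
  ([1, 9, 13], [10], [[2, 18], [4, 16], [5, 5, 10], [5, 6, 9]], [[1, 10, 12, 17]]),
  ([1, 11, 13], [7, 8], [[5, 15], [2, 5, 13], [2, 6, 12]], [[4, 7, 12, 17], [4, 8, 9, 19]]),
  ([1, 3, 7, 9], [], [[2, 18], [4, 16], [5, 15], [5, 15], [6, 14], [8, 12], [1, 3, 7, 9]], []),
  ([1, 3, 7, 11], [1, 8], [[5, 15], [6, 14], [8, 12], [1, 4, 15], [2, 3, 15]], [[2, 7, 12, 19], [4, 8, 9, 19]]),
  ([1, 3, 11, 13], [], [[5, 15], [5, 15], [4, 4, 6, 6]], [[2, 7, 12, 19], [2, 9, 12, 17]]),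
  ([1, 9, 13, 17], [], [[2, 18], [4, 16], [6, 14], [8, 12], [5, 5, 5, 5]], [[1, 9, 13, 17]])]

theorem k20_9_5_4_2 : chkUnits 20 [9, 5, 4, 2] k20_9_5_4_2U = true := by decide +kernel

/-- type `(20, [10, 5, 3, 2])` -/
def k20_10_5_3_2U : List Cert := [
  ([1], [], [[10, 5, 3, 2]], []),
  ([1, 7], [], [[5, 15], [10, 10], [1, 2, 3, 14]], []),
  ([1, 9], [], [[2, 18], [10, 10], [3, 5, 5, 7]], []),
  ([1, 11], [], [[5, 15], [10, 10], [2, 2, 3, 13]], []),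
  ([1, 13], [4], [[10, 10], [4, 5, 5, 6]], [[2, 3, 16, 19]]),
  ([1, 7, 9], [], [[2, 18], [5, 15], [10, 10], [1, 5, 14], [3, 7, 10]], []),
  ([1, 7, 11], [], [[5, 15], [10, 10], [1, 2, 2, 15]], [[3, 10, 13, 14]]),
  ([1, 9, 13], [8], [[2, 18], [10, 10], [3, 5, 12], [5, 5, 10]], [[6, 7, 8, 19]]),
  ([1, 11, 13], [4], [[5, 15], [10, 10], [2, 5, 13], [4, 6, 10]], [[2, 3, 16, 19]]),
  ([1, 3, 7, 9], [], [[2, 18], [5, 15], [5, 15], [6, 14], [10, 10], [10, 10], [1, 3, 7, 9]], []),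
  ([1, 3, 7, 11], [3], [[5, 15], [6, 14], [10, 10], [10, 10], [2, 3, 15], [2, 3, 15]], [[1, 9, 13, 17]]),
  ([1, 3, 11, 13], [4, 4], [[5, 15], [5, 15], [10, 10], [10, 10], [4, 4, 6, 6]], [[2, 3, 16, 19], [2, 9, 13, 16]]),
  ([1, 9, 13, 17], [], [[2, 18], [6, 14], [10, 10], [10, 10], [5, 5, 5, 5]], [[3, 7, 11, 19]])]

theorem k20_10_5_3_2 : chkUnits 20 [10, 5, 3, 2] k20_10_5_3_2U = true := by decide +kernel

/-- type `(20, [10, 5, 4, 1])` -/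
def k20_10_5_4_1U : List Cert := [
  ([1], [], [[10, 5, 4, 1]], []),
  ([1, 7], [], [[5, 15], [10, 10], [1, 4, 7, 8]], []),
  ([1, 9], [], [[4, 16], [10, 10], [1, 5, 5, 9]], []),
  ([1, 11], [], [[5, 15], [10, 10], [1, 4, 4, 11]], []),
  ([1, 13], [6], [[10, 10], [4, 5, 5, 6]], [[1, 12, 13, 14]]),
  ([1, 7, 9], [], [[4, 16], [5, 15], [10, 10], [1, 9, 10], [5, 7, 8]], []),
  ([1, 7, 11], [1], [[5, 15], [10, 10], [1, 4, 15], [1, 8, 11]], [[4, 7, 10, 19]]),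
  ([1, 9, 13], [3], [[4, 16], [10, 10], [3, 5, 12], [5, 5, 10]], [[1, 9, 13, 17]]),
  ([1, 11, 13], [2], [[5, 15], [10, 10], [2, 5, 13], [4, 4, 12]], [[1, 10, 11, 18]]),
  ([1, 3, 7, 9], [], [[4, 16], [5, 15], [5, 15], [8, 12], [10, 10], [10, 10], [1, 3, 7, 9]], []),
  ([1, 3, 7, 11], [1], [[5, 15], [8, 12], [10, 10], [10, 10], [1, 4, 15], [1, 4, 15]], [[3, 7, 11, 19]]),
  ([1, 3, 11, 13], [4], [[5, 15], [5, 15], [10, 10], [10, 10], [3, 4, 13], [4, 4, 12]], [[1, 11, 12, 16]]),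
  ([1, 9, 13, 17], [], [[4, 16], [8, 12], [10, 10], [10, 10], [5, 5, 5, 5]], [[1, 9, 13, 17]])]

theorem k20_10_5_4_1 : chkUnits 20 [10, 5, 4, 1] k20_10_5_4_1U = true := by decide +kernel

/-- type `(24, [8, 7, 6, 3])` -/
def k24_8_7_6_3U : List Cert := [
  ([1], [], [[8, 7, 6, 3]], []),
  ([1, 5], [], [[8, 16], [3, 6, 15], [6, 7, 11]], []),
  ([1, 7], [], [[3, 21], [6, 18], [1, 7, 8, 8]], []),
  ([1, 11], [], [[6, 18], [8, 16], [3, 5, 7, 9]], []),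
  ([1, 13], [8], [[3, 6, 15], [8, 8, 8]], [[6, 7, 16, 19]]),
  ([1, 17], [9], [[8, 16], [3, 6, 6, 9]], [[3, 7, 15, 23]]),
  ([1, 19], [], [[6, 18], [3, 8, 13], [7, 8, 9]], []),
  ([1, 7, 11], [], [[3, 21], [6, 18], [8, 16], [1, 5, 18], [7, 8, 9]], []),
  ([1, 7, 13], [2], [[3, 21], [6, 18], [2, 7, 15], [8, 8, 8]], [[1, 6, 19, 22]]),
  ([1, 11, 17], [9], [[6, 18], [8, 16], [3, 5, 16], [6, 9, 9]], [[3, 7, 15, 23]]),
  ([1, 13, 17], [2, 10], [[8, 16], [2, 3, 19], [3, 6, 15]], [[6, 6, 14, 22], [7, 8, 10, 23]]),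
  ([1, 5, 7, 11], [], [[3, 21], [6, 18], [6, 18], [8, 16], [8, 16], [9, 15], [1, 5, 7, 11]], []),
  ([1, 5, 7, 13], [1, 2], [[3, 21], [6, 18], [8, 16], [1, 8, 15], [2, 7, 15]], [[1, 6, 19, 22], [6, 8, 11, 23]]),
  ([1, 5, 13, 17], [], [[8, 16], [8, 16], [6, 6, 6, 6]], [[3, 7, 15, 23], [3, 11, 15, 19]]),
  ([1, 7, 13, 19], [4], [[3, 21], [6, 18], [6, 18], [9, 15], [1, 4, 19], [8, 8, 8]], [[7, 8, 13, 20]]),
  ([1, 11, 17, 19], [], [[6, 18], [6, 18], [8, 16], [8, 16], [3, 3, 9, 9]], [[5, 7, 13, 23]])]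

theorem k24_8_7_6_3 : chkUnits 24 [8, 7, 6, 3] k24_8_7_6_3U = true := by decide +kernel

/-- type `(24, [9, 8, 5, 2])` -/
def k24_9_8_5_2U : List Cert := [
  ([1], [], [[9, 8, 5, 2]], []),
  ([1, 5], [], [[8, 16], [1, 2, 21], [5, 9, 10]], []),
  ([1, 7], [], [[9, 15], [2, 8, 14], [5, 8, 11]], []),
  ([1, 11], [], [[2, 22], [8, 16], [3, 5, 7, 9]], []),
  ([1, 13], [8], [[2, 5, 17], [8, 8, 8]], [[2, 9, 16, 21]]),
  ([1, 17], [], [[8, 16], [2, 9, 13], [5, 9, 10]], []),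
  ([1, 19], [12], [[2, 8, 14], [3, 9, 12]], [[5, 8, 12, 23]]),
  ([1, 7, 11], [], [[2, 22], [8, 16], [9, 15], [3, 7, 14], [5, 8, 11]], []),
  ([1, 7, 13], [1, 6], [[9, 15], [1, 2, 21], [2, 8, 14]], [[5, 8, 17, 18], [6, 8, 11, 23]]),
  ([1, 11, 17], [6], [[2, 22], [8, 16], [3, 5, 16], [6, 9, 9]], [[7, 10, 13, 18]]),
  ([1, 13, 17], [], [[8, 16], [2, 5, 17], [2, 9, 13]], [[8, 9, 10, 21]]),
  ([1, 5, 7, 11], [], [[2, 22], [3, 21], [8, 16], [8, 16], [9, 15], [10, 14], [1, 5, 7, 11]], []),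
  ([1, 5, 7, 13], [1, 6], [[8, 16], [9, 15], [10, 14], [1, 2, 21], [1, 2, 21]], [[5, 8, 17, 18], [6, 8, 11, 23]]),
  ([1, 5, 13, 17], [], [[8, 16], [8, 16], [2, 2, 10, 10]], [[1, 9, 17, 21], [5, 9, 13, 21]]),
  ([1, 7, 13, 19], [6], [[3, 21], [9, 15], [2, 8, 14], [2, 8, 14]], [[5, 8, 17, 18], [6, 8, 11, 23]]),
  ([1, 11, 17, 19], [], [[2, 22], [8, 16], [8, 16], [10, 14], [3, 3, 9, 9]], [[5, 7, 13, 23]])]

theorem k24_9_8_5_2 : chkUnits 24 [9, 8, 5, 2] k24_9_8_5_2U = true := by decide +kernel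

/-- type `(24, [11, 8, 3, 2])` -/
def k24_11_8_3_2U : List Cert := [
  ([1], [], [[11, 8, 3, 2]], []),
  ([1, 5], [], [[8, 16], [2, 7, 15], [3, 10, 11]], []),
  ([1, 7], [], [[3, 21], [2, 8, 14], [5, 8, 11]], []),
  ([1, 11], [], [[2, 22], [8, 16], [1, 3, 9, 11]], []),
  ([1, 13], [2, 6], [[2, 2, 2, 18]], [[3, 8, 15, 22], [6, 8, 11, 23]]),
  ([1, 17], [], [[8, 16], [2, 3, 19], [3, 10, 11]], []),
  ([1, 19], [12], [[2, 8, 14], [3, 9, 12]], [[8, 11, 12, 17]]),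
  ([1, 7, 11], [], [[2, 22], [3, 21], [8, 16], [1, 9, 14], [5, 8, 11]], []),
  ([1, 7, 13], [1, 6], [[3, 21], [1, 8, 15], [2, 8, 14]], [[2, 5, 18, 23], [6, 8, 11, 23]]),
  ([1, 11, 17], [12], [[2, 22], [8, 16], [3, 9, 12], [3, 10, 11]], [[1, 12, 16, 19]]),
  ([1, 13, 17], [7], [[8, 16], [2, 2, 3, 17]], [[3, 7, 15, 23], [8, 10, 11, 19]]),
  ([1, 5, 7, 11], [], [[2, 22], [3, 21], [8, 16], [8, 16], [9, 15], [10, 14], [1, 5, 7, 11]], []),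
  ([1, 5, 7, 13], [1, 6], [[3, 21], [8, 16], [10, 14], [1, 8, 15], [2, 7, 15]], [[2, 5, 18, 23], [6, 8, 11, 23]]),
  ([1, 5, 13, 17], [], [[8, 16], [8, 16], [2, 2, 10, 10]], [[3, 7, 15, 23], [3, 11, 15, 19]]),
  ([1, 7, 13, 19], [6], [[3, 21], [9, 15], [2, 8, 14], [2, 8, 14]], [[5, 8, 17, 18], [6, 8, 11, 23]]),
  ([1, 11, 17, 19], [], [[2, 22], [8, 16], [8, 16], [10, 14], [3, 3, 9, 9]], [[1, 11, 17, 19]])]

theorem k24_11_8_3_2 : chkUnits 24 [11, 8, 3, 2] k24_11_8_3_2U = true := by decide +kernel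

/-- type `(24, [12, 7, 3, 2])` -/
def k24_12_7_3_2U : List Cert := [
  ([1], [], [[12, 7, 3, 2]], []),
  ([1, 5], [], [[12, 12], [2, 7, 15], [3, 10, 11]], []),
  ([1, 7], [], [[3, 21], [12, 12], [1, 2, 7, 14]], []),
  ([1, 11], [], [[2, 22], [12, 12], [3, 5, 7, 9]], []),
  ([1, 13], [], [[12, 12], [2, 3, 19], [2, 7, 15]], []),
  ([1, 17], [8], [[12, 12], [2, 3, 3, 16]], [[7, 8, 10, 23]]),
  ([1, 19], [], [[12, 12], [2, 9, 13], [3, 7, 14]], []),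
  ([1, 7, 11], [], [[2, 22], [3, 21], [12, 12], [1, 9, 14], [5, 7, 12]], []),
  ([1, 7, 13], [4], [[3, 21], [12, 12], [1, 4, 19], [2, 7, 15]], [[2, 12, 14, 20]]),
  ([1, 11, 17], [6], [[2, 22], [12, 12], [3, 3, 18], [5, 9, 10]], [[6, 7, 12, 23]]),
  ([1, 13, 17], [], [[12, 12], [2, 3, 19], [2, 10, 12]], [[3, 7, 15, 23]]),
  ([1, 5, 7, 11], [], [[2, 22], [3, 21], [9, 15], [10, 14], [12, 12], [12, 12], [1, 5, 7, 11]], []),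
  ([1, 5, 7, 13], [3], [[3, 21], [10, 14], [12, 12], [12, 12], [1, 2, 21], [2, 7, 15]], [[3, 11, 15, 19]]),
  ([1, 5, 13, 17], [], [[12, 12], [12, 12], [2, 2, 10, 10]], [[3, 7, 15, 23], [3, 11, 15, 19]]),
  ([1, 7, 13, 19], [4, 4], [[3, 21], [9, 15], [12, 12], [12, 12], [2, 4, 4, 14]], [[1, 13, 14, 20], [2, 7, 19, 20]]),
  ([1, 11, 17, 19], [], [[2, 22], [10, 14], [12, 12], [12, 12], [3, 3, 9, 9]], [[5, 7, 13, 23]])]

theorem k24_12_7_3_2 : chkUnits 24 [12, 7, 3, 2] k24_12_7_3_2U = true := by decide +kernel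

/-- type `(30, [10, 9, 7, 4])` -/
def k30_10_9_7_4U : List Cert := [
  ([1], [], [[10, 9, 7, 4]], []),
  ([1, 11], [], [[10, 20], [4, 9, 17], [7, 9, 14]], []),
  ([1, 13], [], [[1, 9, 10, 10]], [[4, 7, 22, 27]]),
  ([1, 17], [11], [[10, 20], [4, 7, 8, 11]], [[3, 9, 19, 29]]),
  ([1, 19], [], [[9, 21], [4, 10, 16], [7, 10, 13]], []),
  ([1, 11, 13], [6], [[10, 20], [1, 6, 9, 14]], [[4, 7, 22, 27], [9, 10, 17, 24]]),
  ([1, 11, 17], [], [[10, 20], [3, 7, 20], [4, 9, 17]], [[8, 9, 14, 29]]),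
  ([1, 13, 19], [], [[9, 21], [1, 13, 16], [10, 10, 10]], [[4, 7, 22, 27]]),
  ([1, 17, 19], [11], [[9, 21], [10, 20], [3, 8, 19], [4, 10, 16]], [[7, 11, 13, 29]]),
  ([1, 7, 11, 13], [6], [[3, 27], [10, 20], [1, 7, 22], [6, 10, 14]], [[4, 9, 19, 28], [9, 10, 17, 24]]),
  ([1, 7, 11, 17], [], [[10, 20], [10, 20], [3, 3, 7, 17]], [[4, 9, 19, 28], [8, 9, 14, 29]]),
  ([1, 7, 13, 19], [3], [[3, 27], [9, 21], [1, 10, 19], [10, 10, 10]], [[3, 13, 16, 28], [4, 7, 22, 27]]),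
  ([1, 17, 19, 23], [], [[3, 27], [9, 21], [10, 20], [10, 20], [2, 4, 8, 16]], [[7, 11, 13, 29]])]

theorem k30_10_9_7_4 : chkUnits 30 [10, 9, 7, 4] k30_10_9_7_4U = true := by decide +kernel

/-- type `(30, [15, 7, 6, 2])` -/
def k30_15_7_6_2U : List Cert := [
  ([1], [], [[15, 7, 6, 2]], []),
  ([1, 11], [], [[15, 15], [2, 6, 22], [6, 7, 17]], []),
  ([1, 13], [1], [[15, 15], [1, 1, 2, 26]], [[6, 7, 18, 29]]),
  ([1, 17], [8], [[15, 15], [4, 6, 8, 12]], [[2, 7, 22, 29]]),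
  ([1, 19], [], [[6, 24], [15, 15], [2, 7, 8, 13]], []),
  ([1, 11, 13], [], [[15, 15], [1, 7, 22], [6, 6, 18]], [[2, 15, 17, 26]]),
  ([1, 11, 17], [3], [[15, 15], [3, 4, 6, 17]], [[2, 7, 22, 29], [6, 12, 15, 27]]),
  ([1, 13, 19], [5], [[6, 24], [15, 15], [2, 13, 15], [5, 7, 18]], [[1, 8, 25, 26]]),
  ([1, 17, 19], [6], [[6, 24], [15, 15], [2, 4, 24], [7, 8, 15]], [[6, 12, 13, 29]]),
  ([1, 7, 11, 13], [1, 3], [[12, 18], [15, 15], [15, 15], [1, 3, 26], [1, 7, 22]], [[2, 14, 17, 27], [6, 6, 19, 29]]),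
  ([1, 7, 11, 17], [1], [[15, 15], [15, 15], [1, 12, 17], [4, 12, 14]], [[2, 7, 22, 29], [6, 6, 19, 29]]),
  ([1, 7, 13, 19], [5, 5], [[6, 24], [12, 18], [15, 15], [15, 15], [1, 5, 5, 19]], [[2, 7, 25, 26], [8, 13, 14, 25]]),
  ([1, 17, 19, 23], [], [[6, 24], [12, 18], [15, 15], [15, 15], [2, 4, 8, 16]], [[7, 11, 13, 29]])]

theorem k30_15_7_6_2 : chkUnits 30 [15, 7, 6, 2] k30_15_7_6_2U = true := by decide +kernel

/-- type `(30, [15, 8, 6, 1])` -/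
def k30_15_8_6_1U : List Cert := [
  ([1], [], [[15, 8, 6, 1]], []),
  ([1, 11], [7], [[15, 15], [6, 6, 7, 11]], [[1, 8, 23, 28]]),
  ([1, 13], [2], [[15, 15], [1, 2, 13, 14]], [[6, 8, 18, 28]]),
  ([1, 17], [], [[15, 15], [1, 12, 17], [6, 8, 16]], []),
  ([1, 19], [], [[6, 24], [15, 15], [1, 2, 8, 19]], []),
  ([1, 11, 13], [], [[15, 15], [1, 14, 15], [6, 6, 18]], [[8, 11, 13, 28]]),
  ([1, 11, 17], [1, 11], [[15, 15], [1, 12, 17], [8, 11, 11]], [[1, 15, 16, 28], [6, 6, 19, 29]]),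
  ([1, 13, 19], [10], [[6, 24], [15, 15], [1, 10, 19], [2, 13, 15]], [[8, 14, 18, 20]]),
  ([1, 17, 19], [3], [[6, 24], [15, 15], [2, 12, 16], [3, 8, 19]], [[1, 15, 17, 27]]),
  ([1, 7, 11, 13], [1, 10], [[12, 18], [15, 15], [15, 15], [1, 1, 28], [6, 10, 14]], [[6, 8, 20, 26], [7, 11, 13, 29]]),
  ([1, 7, 11, 17], [5], [[15, 15], [15, 15], [6, 7, 17], [6, 12, 12]], [[1, 8, 25, 26], [5, 11, 16, 28]]),
  ([1, 7, 13, 19], [5, 5], [[6, 24], [12, 18], [15, 15], [15, 15], [1, 5, 5, 19]], [[2, 7, 25, 26], [8, 13, 14, 25]]),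
  ([1, 17, 19, 23], [], [[6, 24], [12, 18], [15, 15], [15, 15], [2, 4, 8, 16]], [[1, 17, 19, 23]])]

theorem k30_15_8_6_1 : chkUnits 30 [15, 8, 6, 1] k30_15_8_6_1U = true := by decide +kernel

/-- type `(30, [15, 10, 4, 1])` -/
def k30_15_10_4_1U : List Cert := [
  ([1], [], [[15, 10, 4, 1]], []),
  ([1, 11], [], [[10, 20], [15, 15], [1, 4, 11, 14]], []),
  ([1, 13], [6], [[15, 15], [1, 6, 10, 13]], [[4, 10, 22, 24]]),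
  ([1, 17], [], [[10, 20], [15, 15], [1, 4, 8, 17]], []),
  ([1, 19], [], [[15, 15], [1, 10, 19], [4, 10, 16]], []),
  ([1, 11, 13], [6], [[10, 20], [15, 15], [1, 14, 15], [6, 11, 13]], [[4, 10, 22, 24]]),
  ([1, 11, 17], [12], [[10, 20], [15, 15], [1, 12, 17], [4, 11, 15]], [[8, 14, 18, 20]]),
  ([1, 13, 19], [], [[15, 15], [1, 13, 16], [10, 10, 10]], [[4, 15, 19, 22]]),
  ([1, 17, 19], [3], [[10, 20], [15, 15], [3, 8, 19], [4, 10, 16]], [[1, 15, 17, 27]]),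
  ([1, 7, 11, 13], [1, 1], [[10, 20], [15, 15], [15, 15], [1, 1, 28], [1, 7, 22]], [[4, 13, 14, 29], [10, 10, 11, 29]]),
  ([1, 7, 11, 17], [3, 3], [[10, 20], [10, 20], [15, 15], [15, 15], [3, 3, 7, 17]], [[1, 4, 27, 28], [8, 11, 14, 27]]),
  ([1, 7, 13, 19], [3], [[15, 15], [15, 15], [1, 10, 19], [10, 10, 10]], [[3, 13, 16, 28], [4, 7, 22, 27]]),
  ([1, 17, 19, 23], [], [[10, 20], [10, 20], [15, 15], [15, 15], [2, 4, 8, 16]], [[1, 17, 19, 23]])]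

theorem k30_15_10_4_1 : chkUnits 30 [15, 10, 4, 1] k30_15_10_4_1U = true := by decide +kernel

end Pool.Agent.TH540.K3
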