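import Pool.Agent.TH540.GHC

/-!
# Types of complex multiplication and Fermat curves
-/

set_option linter.unusedSectionVars false

namespace Pool.Agent.TH540

open Finset Pool.Agent.H916R2 Pool.Agent.H916T

variable {m : ℕ}

/-- the sum of the representatives -/
def Ht (m : ℕ) (s : Multiset (ZMod m)) (t : (ZMod m)ˣ) : ℕ :=
  (s.map fun a => ((t : ZMod m) * a).val).sum

lemma Ht_add (s s' : Multiset (ZMod m)) (t : (ZMod m)ˣ) : Ht m (s + s') t = Ht m s t + Ht m s' t := by
  unfold Ht
  rw [Multiset.map_add, Multiset.sum_add]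

lemma Ht_neg [NeZero m] {s : Multiset (ZMod m)} (h0 : (0 : ZMod m) ∉ s) (t : (ZMod m)ˣ) :
    Ht m (s.map Neg.neg) t + Ht m s t = m * Multiset.card s := by
  induction s using Multiset.induction_on with
  | empty => simp [Ht]
  | cons a s ih =>
    rw [Multiset.mem_cons, not_or] at h0
    have h1 := ih h0.2
    unfold Ht at h1 ⊢
    rw [Multiset.map_cons, Multiset.map_cons, Multiset.map_cons, Multiset.sum_cons,
      Multiset.sum_cons, Multiset.card_cons, mul_neg]
    have h2 : (t : ZMod m) * a ≠ 0 := by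
      intro h
      exact h0.1 ((t.isUnit.mul_right_eq_zero).mp h).symm
    have h3 : (-((t : ZMod m) * a)).val = m - ((t : ZMod m) * a).val := by
      rw [ZMod.neg_val, if_neg h2]
    have h4 : ((t : ZMod m) * a).val ≤ m := (ZMod.val_lt _).le
    rw [h3, mul_add]
    omega

lemma Ht_mul (s : Multiset (ZMod m)) (t u : (ZMod m)ˣ) :
    Ht m (s.map fun a => (u : ZMod m) * a) t = Ht m s (t * u) := by
  unfold Ht
  rw [Multiset.map_map]
  congr 1
  refine Multiset.map_congr rfl fun a _ => ?_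
  simp only [Function.comp, Units.val_mul, mul_assoc]

/-- all types of complex multiplication come from Fermat curves -/
theorem types_of_curves {p : ℕ} [NeZero m] (hp : (p : ZMod m) = 1) (hC : Curves p m)
    (φ : (ZMod m)ˣ → ℕ) (h : ∀ t, φ (-t) + φ t = 1) :
    ∃ c : Multiset (ZMod m), Multiset.card c = 3 ∧ (0 : ZMod m) ∉ c ∧ c.sum = 0 ∧
      ∀ t, Ht m c t = m * (φ t + 1) := by
  have hf : orderOf (p : ZMod m) = 1 := by rw [hp, orderOf_one]
  obtain ⟨x, y, z, hx, hy, hz, hs, H⟩ := hC (fun t => 2 * (φ t : ℤ) - 1) (by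
      intro t
      have a1 := h t
      rw [hf, abs_le]
      push_cast
      omega) (by
      intro t
      rw [hf]
      push_cast
      exact ⟨φ t, by ring⟩) (by
      intro t
      have a1 := h t
      push_cast
      omega) (by
      intro t t' h1
      rw [hp, one_mul] at h1
      rw [Units.ext h1])
  refine ⟨x ::ₘ y ::ₘ z ::ₘ 0, by simp, ?_, ?_, fun t => ?_⟩
  · simp only [Multiset.mem_cons, not_or, Multiset.notMem_zero, not_false_eq_true, and_true]
    exact ⟨hx.symm, hy.symm, hz.symm⟩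
  · simp only [Multiset.sum_cons, Multiset.sum_zero]
    linear_combination hs
  have hW : ∀ a : ZMod m, a ≠ 0 → H916T.W p ((t : ZMod m) * a) =
      2 * ((((t : ZMod m) * a).val : ℕ) : ℤ) - m := by
    intro a ha
    unfold H916T.W
    rw [hf]
    simp only [Finset.sum_range_one, pow_zero, one_mul]
    apply saw_of_ne_zero
    intro h0
    exact ha ((t.isUnit.mul_right_eq_zero).mp h0)
  have h1 := H t
  rw [hW x hx, hW y hy, hW z hz] at h1
  unfold Ht
  simp only [Multiset.map_cons, Multiset.sum_cons, Multiset.map_zero, Multiset.sum_zero]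
  have h2 : (2 : ℤ) * ((((t : ZMod m) * x).val + (((t : ZMod m) * y).val +
      (((t : ZMod m) * z).val + 0)) : ℕ) : ℤ) = 2 * ((m * (φ t + 1) : ℕ) : ℤ) := by
    push_cast
    linear_combination h1
  omega

lemma coprime_of_eq_one {p m : ℕ} (h : (p : ZMod m) = 1) : p.Coprime m := by
  rw [← ZMod.isUnit_iff_coprime, h]
  exact isUnit_one

/-- for the degrees of the list -/
theorem types_list [NeZero m] (hm : m ∈ listA) (φ : (ZMod m)ˣ → ℕ)
    (h : ∀ t, φ (-t) + φ t = 1) :
    ∃ c : Multiset (ZMod m), Multiset.card c = 3 ∧ (0 : ZMod m) ∉ c ∧ c.sum = 0 ∧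
      ∀ t, Ht m c t = m * (φ t + 1) := by
  obtain ⟨p, hp, _, hp1⟩ := Nat.exists_prime_gt_modEq_one (k := m) m (NeZero.ne m)
  have hpc : (p : ZMod m) = 1 := by
    have h := (ZMod.natCast_eq_natCast_iff p 1 m).mpr hp1
    rwa [Nat.cast_one] at h
  exact types_of_curves hpc (curves_list hm (coprime_of_eq_one hpc)) φ h

/-- **The Kuga–Satake classes are Hodge classes.** -/
theorem ks_hodge [NeZero m] {k : ℕ} {s c c' : Multiset (ZMod m)} {u : (ZMod m)ˣ}
    {Φ Φ' : (ZMod m)ˣ → ℕ} (h0 : (0 : ZMod m) ∉ s) (hs : s.sum = 0)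
    (hcard : Multiset.card s = 2 * k) (c1 : Multiset.card c = 3) (c2 : (0 : ZMod m) ∉ c)
    (c3 : c.sum = 0) (c4 : ∀ t, Ht m c t = m * (Φ t + 1)) (d1 : Multiset.card c' = 3)
    (d2 : (0 : ZMod m) ∉ c') (d3 : c'.sum = 0) (d4 : ∀ t, Ht m c' t = m * (Φ' t + 1))
    (hflip : ∀ t, Ht m s (t * u) + m * Φ' t = m * (k + Φ t)) :
    IsHodge m ((s.map fun a => (u : ZMod m) * a) + c' + c.map Neg.neg) := by
  refine ⟨?_, ?_, ?_, fun t => ?_⟩
  · rw [Multiset.mem_add, Multiset.mem_add, not_or, not_or]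
    refine ⟨⟨fun h => ?_, d2⟩, fun h => ?_⟩
    · obtain ⟨b, hb, hb0⟩ := Multiset.mem_map.mp h
      rw [u.isUnit.mul_right_eq_zero] at hb0
      rw [hb0] at hb
      exact h0 hb
    · obtain ⟨b, hb, hb0⟩ := Multiset.mem_map.mp h
      rw [neg_eq_zero] at hb0
      rw [hb0] at hb
      exact c2 hb
  · rw [Multiset.card_add, Multiset.card_add, Multiset.card_map, Multiset.card_map, hcard, c1, d1]
    exact ⟨k + 3, by ring⟩
  · rw [Multiset.sum_add, Multiset.sum_add, Multiset.sum_map_neg', c3, d3,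
      Multiset.sum_map_mul_left, Multiset.map_id', hs]
    simp
  · have e2 := Ht_neg c2 t
    have e3 := hflip t
    rw [c4, c1] at e2
    rw [Multiset.card_add, Multiset.card_add, Multiset.card_map, Multiset.card_map, hcard, c1, d1]
    change 2 * Ht m ((s.map fun a => (u : ZMod m) * a) + c' + c.map Neg.neg) t = _
    rw [Ht_add, Ht_add, Ht_mul, d4]
    generalize Ht m (c.map Neg.neg) t = X at *
    generalize Ht m s (t * u) = Y at *
    nlinarith

end Pool.Agent.TH540
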