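import Pool.Agent.TH540.MinusTwo

/-!
# The theorem for characteristics one of whose powers is congruent to minus two
-/

set_option linter.unusedSectionVars false

namespace Pool.Agent.TH540

open Finset Pool.Agent.H916R2 Pool.Agent.H916T Pool.Agent.H916U Pool.Agent.H916Z Pool.Agent.H916Q

variable {p : ℕ}

theorem all_linked {M : ℕ} [NeZero M] (hp : p.Coprime M) (hp4 : p % 4 = 3) (h4 : 4 ∣ M) {d : ℕ}
    (hd : 2 * d = M) {r k ℓ : ℕ} (hr : Odd (orderOf ((p : ℕ) : ZMod r)))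
    (hk : ((p : ℕ) : ZMod r) ^ k = -2)
    (hM : ∀ q : ℕ, q.Prime → q ≠ 2 → q ∣ M → q ∣ r ∨ (q = ℓ ∧
      orderOf (((p : ℕ) : ZMod ℓ) ^ orderOf ((p : ℕ) : ZMod r)) = ℓ - 1 ∧
      ∃ j : ℕ, ((p : ℕ) : ZMod r) ^ j = ((ℓ : ℕ) : ZMod r) ∨
        (ℓ = 3 ∧ ((p : ℕ) : ZMod r) ^ j = -3)))
    {a : ZMod M} (ha0 : a ≠ 0) : Relation.EqvGen (Link p) a (d : ZMod M) := by
  classical
  have hfr : ((p : ℕ) : ZMod r) ^ orderOf ((p : ℕ) : ZMod r) = 1 := pow_orderOf_eq_one _
  by_cases h2 : 2 ∣ addOrderOf a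
  · exact Relation.EqvGen.rel _ _ (half_link hd ha0 h2)
  · set S := (addOrderOf a).primeFactors with hS
    have hpr : ∀ q ∈ S, q.Prime ∧ q ≠ 2 ∧ q ∣ M := by
      intro q hq
      have h3 := Nat.prime_of_mem_primeFactors hq
      have h4 := Nat.dvd_of_mem_primeFactors hq
      exact ⟨h3, fun h => h2 (h ▸ h4), h4.trans (addOrderOf_dvd_level a)⟩
    have hne : S.Nonempty := by
      rw [Finset.nonempty_iff_ne_empty]
      intro h
      rw [hS, Nat.primeFactors_eq_empty] at h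
      rcases h with h | h
      · exact (addOrderOf_pos a).ne' h
      · rw [AddMonoid.addOrderOf_eq_one_iff] at h
        exact ha0 h
    by_cases hall : ∀ q ∈ S, q ∣ r
    · exact link_T hp hp4 h4 hd hr hfr hk hne
        (fun q hq => ⟨(hpr q hq).1, (hpr q hq).2.1, hall q hq⟩) ha0 rfl
    · push Not at hall
      obtain ⟨q, hq, hqr⟩ := hall
      obtain ⟨h5, h6, h7⟩ := hpr q hq
      rcases hM q h5 h6 h7 with h | ⟨hqℓ, hg, hj⟩
      · exact absurd h hqr
      · subst hqℓ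
        have hins : insert q (S.erase q) = S := insert_erase hq
        refine link_extra hp hp4 h4 hd hr hfr hk h5 h6 hg hj (T := S.erase q) ?_
          (notMem_erase q S) ha0 (by rw [hins]; rfl)
        intro q' hq'
        obtain ⟨hne', hq'S⟩ := mem_erase.mp hq'
        obtain ⟨h8, h9, h10⟩ := hpr q' hq'S
        refine ⟨h8, h9, ?_⟩
        rcases hM q' h8 h9 h10 with h | ⟨h, _⟩
        · exact h
        · exact absurd h hne'

theorem main2 {m r k ℓ : ℕ} (hp : p.Prime) (hp4 : p % 4 = 3) (hm : 0 < m) (hpm : p.Coprime m)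
    (hr : Odd (orderOf ((p : ℕ) : ZMod r))) (hk : ((p : ℕ) : ZMod r) ^ k = -2)
    (hmr : ∀ q : ℕ, q.Prime → q ≠ 2 → q ∣ m → q ∣ r ∨ (q = ℓ ∧
      orderOf (((p : ℕ) : ZMod ℓ) ^ orderOf ((p : ℕ) : ZMod r)) = ℓ - 1 ∧
      ∃ j : ℕ, ((p : ℕ) : ZMod r) ^ j = ((ℓ : ℕ) : ZMod r) ∨
        (ℓ = 3 ∧ ((p : ℕ) : ZMod r) ^ j = -3)))
    {s : Multiset (ZMod m)} (hs : IsTate p m s) (hne : s ≠ 0) :
    ∃ N : ℕ, 0 < N ∧ p.Coprime N ∧ ∀ M : ℕ, N * m = M →
      H916T.Generated M (ZBase p M) (s.map (iota N : ZMod m → ZMod M)) := by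
  classical
  have hz : NeZero m := ⟨hm.ne'⟩
  have hM0 : 0 < 4 * m := by omega
  have hzM : NeZero (4 * m) := ⟨hM0.ne'⟩
  have hp2 : p.Coprime 4 := by
    have h1 : p.Coprime 2 := (Nat.coprime_primes hp Nat.prime_two).mpr (by omega)
    exact Nat.Coprime.mul_right h1 h1
  have hpM : p.Coprime (4 * m) := Nat.Coprime.mul_right hp2 hpm
  refine H916Y.parity_surf hp hm (by norm_num : 0 < 4) rfl hpM hs hne 0 (by simp) ?_
  have hT : IsTate p (4 * m) (s.map (iota 4 : ZMod m → ZMod (4 * m))) :=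
    H916Y.isTate_iota rfl hpM hs
  have hd : 2 * (2 * m) = 4 * m := by ring
  have key : ∀ b : ZMod (4 * m), b ≠ 0 →
      Relation.EqvGen (Link p) b ((2 * m : ℕ) : ZMod (4 * m)) := by
    intro b hb
    refine all_linked (ℓ := ℓ) hpM hp4 (Dvd.intro _ rfl) hd hr hk ?_ hb
    intro q hq hq2 hqM
    refine hmr q hq hq2 ?_
    rcases hq.dvd_mul.mp hqM with h | h
    · exfalso
      have h1 : q ∣ 2 ^ 2 := by norm_num; exact h
      exact hq2 ((Nat.prime_dvd_prime_iff_eq hq Nat.prime_two).mp (hq.dvd_of_dvd_pow h1))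
    · exact h
  intro a
  rw [Multiset.sum_zero, add_zero]
  by_cases ha : a = 0
  · have h0 : (s.map (iota 4 : ZMod m → ZMod (4 * m))).countP
        (fun b => Relation.EqvGen (Link p) a b) = 0 := by
      rw [Multiset.countP_eq_zero]
      intro b hb hab
      have h1 : ∀ x y : ZMod (4 * m), Relation.EqvGen (Link p) x y → (x = 0 ↔ y = 0) := by
        intro x y hxy
        induction hxy with
        | rel x y h => exact ⟨fun h' => absurd h' h.1, fun h' => absurd h' h.2.1⟩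
        | refl x => exact Iff.rfl
        | symm x y _ ih => exact ih.symm
        | trans x y z _ _ ih1 ih2 => exact ih1.trans ih2
      have h2 : b = 0 := (h1 a b hab).mp ha
      exact hT.1 (h2 ▸ hb)
    rw [h0]; exact Even.zero
  · have h1 : (s.map (iota 4 : ZMod m → ZMod (4 * m))).countP
        (fun b => Relation.EqvGen (Link p) a b) =
        Multiset.card (s.map (iota 4 : ZMod m → ZMod (4 * m))) := by
      rw [Multiset.countP_eq_card]
      intro b hb
      have hb0 : b ≠ 0 := fun h => hT.1 (h ▸ hb)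
      exact (key a ha).trans _ _ _ (Relation.EqvGen.symm _ _ (key b hb0))
    rw [h1]
    exact hT.2.1

end Pool.Agent.TH540
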