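import Pool.Agent.TH540.Rules2

/-!
# The general theorem
-/

set_option linter.unusedSectionVars false

namespace Pool.Agent.TH540

open Finset Pool.Agent.H916R2 Pool.Agent.H916T Pool.Agent.H916U Pool.Agent.H916Z Pool.Agent.H916Q

variable {p : ℕ}

/-- a Jacobi symbol forces the number of elements with the given support to be even -/
def RecEven (p m n : ℕ) : Prop :=
  n % 4 = 3 ∧ jacobiSym p n = 1 ∧
    ∀ j : ℕ, j.Prime → j ∣ m → ¬ j ∣ n → (j = 2 → 4 ∣ m) → jacobiSym j n = 1

theorem even_rec {m : ℕ} (hm : 0 < m) (hpm : p.Coprime m) {s : Multiset (ZMod m)} (hs : Rel0 p s)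
    {S : Finset ℕ} (hne : S.Nonempty) (h2 : 2 ∉ S) (hSm : S ⊆ m.primeFactors)
    (hR : RecEven p m (∏ q ∈ S, q)) : Even (s.countP (Supp S)) := by
  have hz : NeZero m := ⟨hm.ne'⟩
  obtain ⟨h4, hJ, hj⟩ := hR
  have hodd : Odd (∏ q ∈ S, q) := Nat.odd_iff.mpr (by omega)
  have hneg : jacobiSym (-1) (∏ q ∈ S, q) = -1 := by
    rw [jacobiSym.at_neg_one hodd, ZMod.χ₄_nat_three_mod_four h4]
  have hdvd : ∀ j : ℕ, j.Prime → j ∣ ∏ q ∈ S, q → j ∈ S := by
    intro j hjp h
    obtain ⟨q, hq, hjq⟩ := (hjp.prime.dvd_finsetProd_iff _).mp h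
    rwa [(Nat.prime_dvd_prime_iff_eq hjp (Nat.prime_of_mem_primeFactors (hSm hq))).mp hjq]
  by_cases h4m : 4 ∣ m
  · refine H916Y.even_leg hpm hs hSm h2 hne hneg hJ ?_
    intro j hjm hjS
    have hjp := Nat.prime_of_mem_primeFactors hjm
    exact hj j hjp (Nat.dvd_of_mem_primeFactors hjm) (fun h => hjS (hdvd j hjp h)) (fun _ => h4m)
  · refine H916Y.even_odd_level hm h4m hpm hs h2 ?_
    intro n hn hn2 hnm hr x' hx'
    have hzn : NeZero n := ⟨hn.ne'⟩
    refine H916Y.even_leg (Nat.Coprime.coprime_dvd_right hnm hpm) hx' ?_ h2 hne hneg hJ ?_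
    · intro q hq
      have h5 := Nat.prime_of_mem_primeFactors (hSm hq)
      exact Nat.mem_primeFactors.mpr ⟨h5, hr q h5 (fun h => h2 (h ▸ hq))
        (Nat.dvd_of_mem_primeFactors (hSm hq)), hn.ne'⟩
    · intro j hjn hjS
      have hjp := Nat.prime_of_mem_primeFactors hjn
      have hjd := Nat.dvd_of_mem_primeFactors hjn
      refine hj j hjp (hjd.trans hnm) (fun h => hjS (hdvd j hjp h)) ?_
      rintro rfl
      exact absurd hjd hn2

/-- **The general theorem.** -/
theorem main_fix {m k : ℕ} (hp : p.Prime) (hm : 0 < m) (hpm : p.Coprime m) (hk : 0 < k)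
    (hpk : p.Coprime k) (G : ℕ → Prop)
    (hG : ∀ n, G n → ∀ (M : ℕ) [NeZero M], k ∣ M → p.Coprime M → 1 < n → ¬ 2 ∣ n →
      ∀ u : ZMod M, addOrderOf u = n → Fix p u)
    (H : ∀ n : ℕ, Squarefree n → Odd n → 1 < n → n ∣ m → G n ∨ RecEven p m n)
    {s : Multiset (ZMod m)} (hs : IsTate p m s) (hne : s ≠ 0) :
    ∃ N : ℕ, 0 < N ∧ p.Coprime N ∧ ∀ M : ℕ, N * m = M →
      H916T.Generated M (ZBase p M) (s.map (iota N : ZMod m → ZMod M)) := by
  classical
  have hz : NeZero m := ⟨hm.ne'⟩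
  have hM : 0 < k * m := Nat.mul_pos hk hm
  have hzM : NeZero (k * m) := ⟨hM.ne'⟩
  have hpM : p.Coprime (k * m) := Nat.Coprime.mul_right hpk hpm
  have hrel : Rel0 p s := fun t => hs.W_sum hpm t
  refine parity_fix hp hm hk rfl hpM hs hne
    (fun S => S.Nonempty ∧ 2 ∉ S ∧ S ⊆ m.primeFactors ∧ RecEven p m (∏ q ∈ S, q))
    (fun S hS => even_rec hm hpm hrel hS.1 hS.2.1 hS.2.2.1 hS.2.2.2) ?_
  intro a ha0 ham hE
  by_cases h2 : 2 ∣ addOrderOf a
  · obtain ⟨d, hd⟩ := h2.trans (addOrderOf_dvd_level a)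
    exact fix_null (null_even hd.symm ha0 h2)
  · set S := (addOrderOf a).primeFactors with hS
    have hpos := addOrderOf_pos a
    have hne' : S.Nonempty := by
      rw [Finset.nonempty_iff_ne_empty]
      intro h
      rw [hS, Nat.primeFactors_eq_empty] at h
      rcases h with h | h
      · exact hpos.ne' h
      · rw [AddMonoid.addOrderOf_eq_one_iff] at h
        exact ha0 h
    have hprime : ∀ q ∈ S, q.Prime := fun q hq => Nat.prime_of_mem_primeFactors hq
    have h2S : 2 ∉ S := fun h => h2 (Nat.dvd_of_mem_primeFactors h)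
    have hSm : S ⊆ m.primeFactors := Nat.primeFactors_mono ham hm.ne'
    set n := ∏ q ∈ S, q with hn
    have hna : n ∣ addOrderOf a := Nat.prod_primeFactors_dvd _
    have hnm : n ∣ m := hna.trans ham
    have hsq : Squarefree n := by
      rw [hn]
      exact Finset.squarefree_prod_of_pairwise_isCoprime (fun q hq r hr hqr => by
        show IsRelPrime q r
        rw [← Nat.coprime_iff_isRelPrime]
        exact (Nat.coprime_primes (hprime q hq) (hprime r hr)).mpr hqr)
        (fun q hq => (hprime q hq).squarefree)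
    have hn2 : ¬ 2 ∣ n := fun h => h2 (h.trans hna)
    have hodd : Odd n := Nat.odd_iff.mpr (by omega)
    have hn1 : 1 < n := by
      obtain ⟨q, hq⟩ := hne'
      have h1 : q ∣ n := Finset.dvd_prod_of_mem _ hq
      have h3 := (hprime q hq).one_lt
      have h4 := Nat.le_of_dvd (Nat.pos_of_ne_zero (by rintro h; rw [h] at hn2; exact hn2 (dvd_zero 2))) h1
      omega
    rcases H n hsq hodd hn1 hnm with h | h
    · have hnM : n ∣ k * m := hnm.trans (Dvd.intro_left _ rfl)
      have hxo := order_elem (M := k * m) hnM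
      have hx0 := ne_zero_of_order hxo hn1.ne'
      refine fix_link (el_supp ha0 hx0 ?_) (hG n h (k * m) (Dvd.intro _ rfl) hpM hn1 hn2 _ hxo)
      rw [hxo, hn, Nat.primeFactors_prod hprime]
    · exact absurd ⟨hne', h2S, hSm, h⟩ hE

end Pool.Agent.TH540
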