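import Pool.Agent.TH540.PhiLoc

/-!
# The general theorem, with both kinds of even supports
-/

set_option linter.unusedSectionVars false

namespace Pool.Agent.TH540

open Finset Pool.Agent.H916R2 Pool.Agent.H916T Pool.Agent.H916U Pool.Agent.H916Z Pool.Agent.H916Q

variable {p : ℕ}

/-- **The general theorem.** -/
theorem main_fix2 {m k : ℕ} (hp : p.Prime) (hm : 0 < m) (hpm : p.Coprime m) (hk : 0 < k)
    (hpk : p.Coprime k) (G : ℕ → Prop)
    (hG : ∀ n, G n → ∀ (M : ℕ) [NeZero M], k ∣ M → p.Coprime M → 1 < n → ¬ 2 ∣ n →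
      ∀ u : ZMod M, addOrderOf u = n → Fix p u)
    (H : ∀ n : ℕ, Squarefree n → Odd n → 1 < n → n ∣ m →
      G n ∨ RecEven p m n ∨ SqEven p m n)
    {s : Multiset (ZMod m)} (hs : IsTate p m s) (hne : s ≠ 0) :
    ∃ N : ℕ, 0 < N ∧ p.Coprime N ∧ ∀ M : ℕ, N * m = M →
      H916T.Generated M (ZBase p M) (s.map (iota N : ZMod m → ZMod M)) := by
  classical
  have hz : NeZero m := ⟨hm.ne'⟩
  have hM : 0 < k * m := Nat.mul_pos hk hm
  have hzM : NeZero (k * m) := ⟨hM.ne'⟩
  have hpM : p.Coprime (k * m) := Nat.Coprime.mul_right hpk hpm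
  have hrel : Rel0 p s := fun t => hs.W_sum hpm t
  refine parity_fix hp hm hk rfl hpM hs hne
    (fun S => S.Nonempty ∧ 2 ∉ S ∧ S ⊆ m.primeFactors ∧ ¬ H916Y.Dead p S ∧
      (RecEven p m (∏ q ∈ S, q) ∨ SqEven p m (∏ q ∈ S, q)))
    (fun S hS => ?_) ?_
  · obtain ⟨h1, h2, h3, h4, h5 | h5⟩ := hS
    · exact even_rec hm hpm hrel h1 h2 h3 h5
    · exact even_sq hm hpm hrel h1 h2 h3 h4 h5
  intro a ha0 ham hE
  by_cases h2 : 2 ∣ addOrderOf a
  · obtain ⟨d, hd⟩ := h2.trans (addOrderOf_dvd_level a)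
    exact fix_null (null_even hd.symm ha0 h2)
  · set S := (addOrderOf a).primeFactors with hS
    have hpos := addOrderOf_pos a
    have hne' : S.Nonempty := by
      rw [Finset.nonempty_iff_ne_empty]
      intro h
      rw [hS, Nat.primeFactors_eq_empty] at h
      rcases h with h | h
      · exact hpos.ne' h
      · rw [AddMonoid.addOrderOf_eq_one_iff] at h
        exact ha0 h
    have hprime : ∀ q ∈ S, q.Prime := fun q hq => Nat.prime_of_mem_primeFactors hq
    have h2S : 2 ∉ S := fun h => h2 (Nat.dvd_of_mem_primeFactors h)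
    have hSm : S ⊆ m.primeFactors := Nat.primeFactors_mono ham hm.ne'
    set n := ∏ q ∈ S, q with hn
    have hna : n ∣ addOrderOf a := Nat.prod_primeFactors_dvd _
    have hnm : n ∣ m := hna.trans ham
    have hsq : Squarefree n := by
      rw [hn]
      exact Finset.squarefree_prod_of_pairwise_isCoprime (fun q hq r hr hqr => by
        show IsRelPrime q r
        rw [← Nat.coprime_iff_isRelPrime]
        exact (Nat.coprime_primes (hprime q hq) (hprime r hr)).mpr hqr)
        (fun q hq => (hprime q hq).squarefree)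
    have hn2 : ¬ 2 ∣ n := fun h => h2 (h.trans hna)
    have hodd : Odd n := Nat.odd_iff.mpr (by omega)
    have hn1 : 1 < n := by
      obtain ⟨q, hq⟩ := hne'
      have h1 : q ∣ n := Finset.dvd_prod_of_mem _ hq
      have h3 := (hprime q hq).one_lt
      have h4 := Nat.le_of_dvd (Nat.pos_of_ne_zero (by rintro h; rw [h] at hn2; exact hn2 (dvd_zero 2))) h1
      omega
    have hnM : n ∣ k * m := hnm.trans (Dvd.intro_left _ rfl)
    have hxo := order_elem (M := k * m) hnM
    have hx0 := ne_zero_of_order hxo hn1.ne'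
    have hax : EL p a (((k * m) / n : ℕ) : ZMod (k * m)) := by
      refine el_supp ha0 hx0 ?_
      rw [hxo, hn, Nat.primeFactors_prod hprime]
    by_cases hdead : H916Y.Dead p S
    · obtain ⟨j, hj⟩ := hdead
      refine fix_link hax (fix_null (fix_neg_one (k := j) hxo hn1.ne' ?_))
      have h1 : ((p ^ j + 1 : ℕ) : ZMod n) = 0 := (ZMod.natCast_eq_zero_iff _ _).mpr hj
      push_cast at h1
      linear_combination h1
    rcases H n hsq hodd hn1 hnm with h | h
    · exact fix_link hax (hG n h (k * m) (Dvd.intro _ rfl) hpM hn1 hn2 _ hxo)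
    · exact absurd ⟨hne', h2S, hSm, hdead, h⟩ hE

end Pool.Agent.TH540
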