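import Pool.Agent.TH540.Quarter

/-!
# Characteristics one of whose powers is congruent to minus two
-/

set_option linter.unusedSectionVars false

namespace Pool.Agent.TH540

open Finset Pool.Agent.H916R2 Pool.Agent.H916T Pool.Agent.H916U Pool.Agent.H916Z Pool.Agent.H916Q

variable {p : ℕ}

lemma pow_cast {r n : ℕ} (h : n ∣ r) {j : ℕ} {c : ℤ}
    (hj : ((p : ℕ) : ZMod r) ^ j = ((c : ℤ) : ZMod r)) :
    ((p : ℕ) : ZMod n) ^ j = ((c : ℤ) : ZMod n) := by
  have h1 := congrArg (ZMod.castHom h (ZMod n)) hj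
  rwa [map_pow, map_natCast, map_intCast] at h1

section level

variable {M : ℕ} [NeZero M]

lemma order_elem {n : ℕ} (hn : n ∣ M) : addOrderOf ((M / n : ℕ) : ZMod M) = n := by
  rw [ZMod.addOrderOf_coe _ (NeZero.ne M), Nat.gcd_eq_right (Nat.div_dvd_of_dvd hn),
    Nat.div_div_self hn (NeZero.ne M)]

lemma half_link {d : ℕ} (hd : 2 * d = M) {a : ZMod M} (ha : a ≠ 0)
    (h2 : 2 ∣ addOrderOf a) : Link p a (d : ZMod M) := by
  have hd0 : (d : ZMod M) ≠ 0 := H916T.half_ne_zero hd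
  refine ⟨ha, hd0, Or.inr (Or.inl ⟨h2, ?_⟩)⟩
  have hM : 0 < M := NeZero.pos M
  have hdpos : 0 < d := by omega
  rw [ZMod.addOrderOf_coe _ hM.ne', ← hd, Nat.gcd_eq_right (Dvd.intro_left _ rfl),
    Nat.mul_div_cancel _ hdpos]

lemma pure_link {d : ℕ} (hd : 2 * d = M) {a : ZMod M} (ha : a ≠ 0)
    (hW : ∀ t : (ZMod M)ˣ, W p ((t : ZMod M) * a) = 0) : Link p a (d : ZMod M) := by
  have hd0 : (d : ZMod M) ≠ 0 := H916T.half_ne_zero hd
  refine ⟨ha, hd0, Or.inr (Or.inr fun t => ?_)⟩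
  rw [hW t]
  symm
  apply W_half
  linear_combination (t : ZMod M) * H916T.two_mul_half hd

/-- the primes of `S` divide `r` -/
theorem link_T (hp : p.Coprime M) (hp4 : p % 4 = 3) (h4 : 4 ∣ M) {d : ℕ} (hd : 2 * d = M)
    {r f k : ℕ} (hf : Odd f) (hfr : ((p : ℕ) : ZMod r) ^ f = 1) (hk : ((p : ℕ) : ZMod r) ^ k = -2)
    {S : Finset ℕ} (hne : S.Nonempty) (hS : ∀ q ∈ S, q.Prime ∧ q ≠ 2 ∧ q ∣ r)
    {a : ZMod M} (ha0 : a ≠ 0) (ha : Supp S a) :
    Relation.EqvGen (Link p) a (d : ZMod M) := by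
  have hn1 : (∏ q ∈ S, q) ∣ M := by
    have h1 : (∏ q ∈ (addOrderOf a).primeFactors, q) ∣ addOrderOf a := Nat.prod_primeFactors_dvd _
    have h2 : (addOrderOf a).primeFactors = S := ha
    rw [h2] at h1
    exact h1.trans (addOrderOf_dvd_level a)
  have hnr : (∏ q ∈ S, q) ∣ r :=
    Finset.prod_primes_dvd _ (fun q hq => (hS q hq).1.prime) (fun q hq => (hS q hq).2.2)
  set n := ∏ q ∈ S, q with hn
  have hn2 : ¬ 2 ∣ n := by
    intro h
    obtain ⟨q, hq, h'⟩ := (Nat.prime_two.prime.dvd_finsetProd_iff _).mp h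
    exact (hS q hq).2.1 ((Nat.prime_dvd_prime_iff_eq Nat.prime_two (hS q hq).1).mp h').symm
  have hord := order_elem (M := M) hn1
  set x : ZMod M := ((M / n : ℕ) : ZMod M) with hx
  have hx0 : x ≠ 0 := by
    intro h
    rw [h, addOrderOf_zero] at hord
    obtain ⟨q, hq⟩ := hne
    have h1 : q ∣ n := Finset.dvd_prod_of_mem _ hq
    rw [← hord] at h1
    exact (hS q hq).1.one_lt.ne' (Nat.dvd_one.mp h1)
  have hsx : Supp S x := by
    unfold Supp
    rw [hord, hn]
    exact Nat.primeFactors_prod fun q hq => (hS q hq).1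
  have hnx : (n : ZMod M) * x = 0 := by
    rw [← nsmul_eq_mul, ← hord]
    exact addOrderOf_nsmul_eq_zero _
  have hfn := pow_cast (c := 1) hnr (by push_cast; exact hfr)
  have hkn := pow_cast (c := -2) hnr (by push_cast; exact hk)
  push_cast at hfn hkn
  obtain ⟨y, hy0, hy2, hxy⟩ := link_even hp hp4 h4 hn2 hf hfn hkn hx0 hnx
  have h1 : Link p a x := ⟨ha0, hx0, Or.inl (ha.trans hsx.symm)⟩
  exact ((Relation.EqvGen.rel _ _ h1).trans _ _ _ (Relation.EqvGen.rel _ _ hxy)).trans _ _ _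
    (Relation.EqvGen.rel _ _ (half_link hd hy0 hy2))

/-- all units are powers -/
lemma gen_units {ℓ : ℕ} (hℓ : ℓ.Prime) {g : ZMod ℓ} (hg : orderOf g = ℓ - 1) {w : ZMod ℓ}
    (hw : w ≠ 0) : ∃ j : ℕ, g ^ j = w := by
  have hF : Fact ℓ.Prime := ⟨hℓ⟩
  have hpos : 0 < ℓ - 1 := by have := hℓ.two_le; omega
  have hgu : IsUnit g := by
    have h1 : g ^ (ℓ - 1) = 1 := by rw [← hg]; exact pow_orderOf_eq_one g
    exact IsUnit.of_pow_eq_one h1 hpos.ne'
  obtain ⟨u, hu⟩ := hgu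
  have h1 : orderOf u = ℓ - 1 := by rw [← hg, ← hu, orderOf_units]
  have h2 : Subgroup.zpowers u = ⊤ := by
    apply Subgroup.eq_top_of_card_eq
    rw [Nat.card_zpowers, h1, Nat.card_eq_fintype_card, ZMod.card_units_eq_totient,
      Nat.totient_prime hℓ]
  have h3 : Units.mk0 w hw ∈ Subgroup.zpowers u := by rw [h2]; exact Subgroup.mem_top _
  rw [← mem_powers_iff_mem_zpowers] at h3
  obtain ⟨j, hj⟩ := h3
  refine ⟨j, ?_⟩
  have h4 := congrArg Units.val hj
  simp only [Units.val_pow_eq_pow_val, Units.val_mk0] at h4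
  rw [← hu]
  exact h4

/-- one more prime -/
lemma W_extra (hp : p.Coprime M) {ℓ e f : ℕ} (hℓ : ℓ.Prime) (he : ℓ * e = M)
    (hg : orderOf (((p : ℕ) : ZMod ℓ) ^ f) = ℓ - 1) {u : ZMod M}
    (hu : (p : ZMod M) ^ f * u = u) (t : (ZMod M)ˣ) :
    W p ((t : ZMod M) * u) + ((ℓ : ℤ) - 1) * W p ((t : ZMod M) * (u + (e : ZMod M))) =
      W p ((t : ZMod M) * ((ℓ : ZMod M) * u)) := by
  have hF : Fact ℓ.Prime := ⟨hℓ⟩
  have hle : (ℓ : ZMod M) * (e : ZMod M) = 0 := by
    rw [← Nat.cast_mul, he]; simp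
  have huj : ∀ j : ℕ, (p : ZMod M) ^ (f * j) * u = u := by
    intro j
    induction j with
    | zero => simp
    | succ j ih => rw [Nat.mul_succ, pow_add, mul_assoc, hu, ih]
  rw [← W_dist_unit hp he t u, ← Finset.add_sum_erase (range ℓ) _ (mem_range.mpr hℓ.pos)]
  have h1 : ∀ i ∈ (range ℓ).erase 0, W p ((t : ZMod M) * (u + (i : ZMod M) * (e : ZMod M))) =
      W p ((t : ZMod M) * (u + (e : ZMod M))) := by
    intro i hi
    obtain ⟨hi0, hi'⟩ := mem_erase.mp hi
    have hiℓ : ((i : ℕ) : ZMod ℓ) ≠ 0 := by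
      intro h
      rw [ZMod.natCast_eq_zero_iff] at h
      have h2 := Nat.le_of_dvd (Nat.pos_of_ne_zero hi0) h
      have h3 := mem_range.mp hi'
      omega
    obtain ⟨j, hj⟩ := gen_units hℓ hg hiℓ
    rw [← pow_mul] at hj
    have h4 := mul_eq_of_mod (a := ((p ^ (f * j) : ℕ) : ℤ)) (b := (i : ℤ)) hle (by
      push_cast; exact hj)
    push_cast at h4
    have h5 : (t : ZMod M) * (u + (i : ZMod M) * (e : ZMod M)) =
        (p : ZMod M) ^ (f * j) * ((t : ZMod M) * (u + (e : ZMod M))) := by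
      linear_combination -(t : ZMod M) * h4 - (t : ZMod M) * huj j
    rw [h5, W_pow_mul]
  rw [sum_congr rfl h1, sum_const, card_erase_of_mem (mem_range.mpr hℓ.pos), card_range,
    nsmul_eq_mul, Nat.cast_sub hℓ.one_le]
  simp only [Nat.cast_zero, zero_mul, add_zero, Nat.cast_one]

/-- supports containing the additional prime -/
theorem link_extra (hp : p.Coprime M) (hp4 : p % 4 = 3) (h4 : 4 ∣ M) {d : ℕ} (hd : 2 * d = M)
    {r f k : ℕ} (hf : Odd f) (hfr : ((p : ℕ) : ZMod r) ^ f = 1) (hk : ((p : ℕ) : ZMod r) ^ k = -2)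
    {ℓ : ℕ} (hℓ : ℓ.Prime) (hℓ2 : ℓ ≠ 2) (hg : orderOf (((p : ℕ) : ZMod ℓ) ^ f) = ℓ - 1)
    (hj : ∃ j : ℕ, ((p : ℕ) : ZMod r) ^ j = ((ℓ : ℕ) : ZMod r) ∨
      (ℓ = 3 ∧ ((p : ℕ) : ZMod r) ^ j = -3))
    {T : Finset ℕ} (hT : ∀ q ∈ T, q.Prime ∧ q ≠ 2 ∧ q ∣ r) (hℓT : ℓ ∉ T)
    {a : ZMod M} (ha0 : a ≠ 0) (ha : Supp (insert ℓ T) a) :
    Relation.EqvGen (Link p) a (d : ZMod M) := by
  have hn1 : (∏ q ∈ insert ℓ T, q) ∣ M := by
    have h1 : (∏ q ∈ (addOrderOf a).primeFactors, q) ∣ addOrderOf a := Nat.prod_primeFactors_dvd _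
    have h2 : (addOrderOf a).primeFactors = insert ℓ T := ha
    rw [h2] at h1
    exact h1.trans (addOrderOf_dvd_level a)
  rw [prod_insert hℓT] at hn1
  have hnr : (∏ q ∈ T, q) ∣ r :=
    Finset.prod_primes_dvd _ (fun q hq => (hT q hq).1.prime) (fun q hq => (hT q hq).2.2)
  set n := ∏ q ∈ T, q with hn
  have hℓM : ℓ ∣ M := (Dvd.intro _ rfl).trans hn1
  have hnM : n ∣ M := (Dvd.intro_left _ rfl).trans hn1
  obtain ⟨e, he'⟩ := hℓM
  have he : ℓ * e = M := he'.symm
  have hM : 0 < M := NeZero.pos M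
  have heo : addOrderOf (e : ZMod M) = ℓ := by
    have h1 := order_elem (M := M) (Dvd.intro e he)
    have h2 : M / ℓ = e := by rw [← he]; exact Nat.mul_div_cancel_left e hℓ.pos
    rwa [h2] at h1
  set u : ZMod M := ((M / n : ℕ) : ZMod M) with hu
  have huo : addOrderOf u = n := order_elem hnM
  have hnu : (n : ZMod M) * u = 0 := by
    rw [← nsmul_eq_mul]
    conv_lhs => rw [← huo]
    exact addOrderOf_nsmul_eq_zero _
  have hcop : Nat.Coprime n ℓ := by
    apply Nat.Coprime.prod_left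
    intro q hq
    rw [Nat.coprime_primes (hT q hq).1 hℓ]
    rintro rfl
    exact hℓT hq
  have hxo : addOrderOf (u + (e : ZMod M)) = n * ℓ := by
    have h1 := (AddCommute.all u (e : ZMod M)).addOrderOf_add_eq_mul_addOrderOf_of_coprime (by
      rw [huo, heo]; exact hcop)
    rw [h1, huo, heo]
  have hx0 : u + (e : ZMod M) ≠ 0 := by
    intro h
    rw [h, addOrderOf_zero] at hxo
    have h1 : ℓ ∣ 1 := by rw [hxo]; exact Dvd.intro_left n rfl
    exact hℓ.one_lt.ne' (Nat.dvd_one.mp h1)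
  have hnp : n.primeFactors = T := by
    rw [hn]; exact Nat.primeFactors_prod fun q hq => (hT q hq).1
  have hsx : Supp (insert ℓ T) (u + (e : ZMod M)) := by
    unfold Supp
    rw [hxo, hcop.primeFactors_mul, hnp, hℓ.primeFactors]
    ext q
    simp only [mem_union, mem_singleton, mem_insert]
    tauto
  have hax : Link p a (u + (e : ZMod M)) := ⟨ha0, hx0, Or.inl (ha.trans hsx.symm)⟩
  have hfn := pow_cast (c := 1) hnr (by push_cast; exact hfr)
  push_cast at hfn
  have hfu : (p : ZMod M) ^ f * u = u := by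
    have h1 := mul_eq_of_mod (a := ((p ^ f : ℕ) : ℤ)) (b := 1) hnu (by
      push_cast; exact hfn)
    push_cast at h1
    rw [h1, one_mul]
  have hW := W_extra hp hℓ he hg hfu
  have hℓ1 : ((ℓ : ℤ) - 1) ≠ 0 := by
    have := hℓ.one_lt
    omega
  obtain ⟨j, hj | ⟨hℓ3, hj⟩⟩ := hj
  · -- the function vanishes
    have hjn := pow_cast (c := (ℓ : ℤ)) hnr (by push_cast; exact hj)
    have hju := mul_eq_of_mod (a := ((p ^ j : ℕ) : ℤ)) (b := (ℓ : ℤ)) hnu (by
      push_cast at hjn ⊢; exact hjn)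
    push_cast at hju
    have h0 : ∀ t : (ZMod M)ˣ, W p ((t : ZMod M) * (u + (e : ZMod M))) = 0 := by
      intro t
      have h1 := hW t
      have h2 : (t : ZMod M) * ((ℓ : ZMod M) * u) = (p : ZMod M) ^ j * ((t : ZMod M) * u) := by
        rw [← hju]; ring
      rw [h2, W_pow_mul] at h1
      have h3 : ((ℓ : ℤ) - 1) * W p ((t : ZMod M) * (u + (e : ZMod M))) = 0 := by linarith
      exact (mul_eq_zero.mp h3).resolve_left hℓ1
    exact (Relation.EqvGen.rel _ _ hax).trans _ _ _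
      (Relation.EqvGen.rel _ _ (pure_link hd hx0 h0))
  · -- the prime three
    subst hℓ3
    rcases T.eq_empty_or_nonempty with hT0 | hTne
    · -- the support is `{3}`
      have hu0 : u = 0 := by
        have h1 : n = 1 := by rw [hn, hT0, prod_empty]
        rw [h1] at huo
        exact AddMonoid.addOrderOf_eq_one_iff.mp huo
      have h0 : ∀ t : (ZMod M)ˣ, W p ((t : ZMod M) * (u + (e : ZMod M))) = 0 := by
        intro t
        have h1 := hW t
        simp only [hu0, mul_zero, W_zero, zero_add] at h1 ⊢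
        exact (mul_eq_zero.mp h1).resolve_left hℓ1
      exact (Relation.EqvGen.rel _ _ hax).trans _ _ _
        (Relation.EqvGen.rel _ _ (pure_link hd hx0 h0))
    · have hjn := pow_cast (c := -3) hnr (by push_cast; exact hj)
      have hju := mul_eq_of_mod (a := ((p ^ j : ℕ) : ℤ)) (b := -3) hnu (by
        push_cast at hjn ⊢; exact hjn)
      push_cast at hju
      have hu0 : u ≠ 0 := by
        intro h
        rw [h, addOrderOf_zero] at huo
        obtain ⟨q, hq⟩ := hTne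
        have h1 : q ∣ n := Finset.dvd_prod_of_mem _ hq
        rw [← huo] at h1
        exact (hT q hq).1.one_lt.ne' (Nat.dvd_one.mp h1)
      have hsu : Supp T (-u) := by
        unfold Supp
        rw [addOrderOf_neg, huo, hnp]
      have hlink : Link p (u + (e : ZMod M)) (-u) := by
        refine ⟨hx0, neg_ne_zero.mpr hu0, Or.inr (Or.inr fun t => ?_)⟩
        have h1 := hW t
        have h2 : (t : ZMod M) * (((3 : ℕ) : ZMod M) * u) =
            -((p : ZMod M) ^ j * ((t : ZMod M) * u)) := by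
          push_cast
          linear_combination (t : ZMod M) * hju
        rw [h2, W_neg, W_pow_mul] at h1
        rw [mul_neg, W_neg]
        push_cast at h1
        linarith
      exact ((Relation.EqvGen.rel _ _ hax).trans _ _ _ (Relation.EqvGen.rel _ _ hlink)).trans
        _ _ _ (link_T hp hp4 h4 hd hf hfr hk hTne hT (neg_ne_zero.mpr hu0) hsu)

end level

end Pool.Agent.TH540
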