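import Mathlib

/-!
# Certificates for the divisibility of tensor products of Fermat motives

Lists of natural numbers are read modulo `m`.
-/

namespace Pool.Agent.TH540.PC

/-- a nonempty list with sum divisible by `m` -/
def IsBlock (m : ℕ) (b : List ℕ) : Prop := b ≠ [] ∧ m ∣ b.sum

/-- four entries, not divisible by `m`, such that for each `t` prime to `m` the residues of `t x`,
`x` in `b`, in `{1, ..., m - 1}` have sum `2 m` -/
def IsAlgebraic (m : ℕ) (b : List ℕ) : Prop :=
  b.length = 4 ∧ (∀ x ∈ b, ¬ m ∣ x) ∧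
    ∀ t, t < m → Nat.Coprime t m → (b.map fun x => t * x % m).sum = 2 * m

instance (m : ℕ) (b : List ℕ) : Decidable (IsBlock m b) := by unfold IsBlock; infer_instance

instance (m : ℕ) (b : List ℕ) : Decidable (IsAlgebraic m b) := by
  unfold IsAlgebraic; infer_instance

/-- `s` together with the pairs `x, m - x`, `x` in `p`, is composed of `P` and of the algebraic
lists `Q`, and `|p| + 3 ≤ |P| + 2 |Q|` -/
def Divisible (m : ℕ) (s : List ℕ) : Prop :=
  ∃ (p : List ℕ) (P Q : List (List ℕ)),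
    (∀ x ∈ p, 0 < x ∧ x < m) ∧ (∀ b ∈ P, IsBlock m b) ∧ (∀ b ∈ Q, IsAlgebraic m b) ∧
      (P.flatten ++ Q.flatten).Perm (s ++ p ++ p.map fun x => m - x) ∧
        p.length + 3 ≤ P.length + 2 * Q.length

lemma Divisible.perm {m : ℕ} {s s' : List ℕ} (h : Divisible m s) (hs : s.Perm s') :
    Divisible m s' := by
  obtain ⟨p, P, Q, h1, h2, h3, h4, h5⟩ := h
  exact ⟨p, P, Q, h1, h2, h3, h4.trans ((hs.append_right _).append_right _), h5⟩

/-- the check of one certificate -/
def chk (m : ℕ) (s p : List ℕ) (P Q : List (List ℕ)) : Bool :=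
  decide ((∀ x ∈ p, 0 < x ∧ x < m) ∧ (∀ b ∈ P, IsBlock m b) ∧ (∀ b ∈ Q, IsAlgebraic m b) ∧
    (P.flatten ++ Q.flatten).Perm (s ++ p ++ p.map fun x => m - x) ∧
      p.length + 3 ≤ P.length + 2 * Q.length)

/-- certificates for one pair `(m, w)`: `(t, p, P, Q)` -/
abbrev Certs := List (ℕ × List ℕ × List (List ℕ) × List (List ℕ))

/-- all `t` are covered -/
def chkAll (m : ℕ) (w : List ℕ) (c : Certs) : Bool :=
  (List.range m).all fun t => decide (t ≤ 1) || decide (¬ Nat.Coprime t m) ||
    c.any fun e => e.1 == t && chk m (w ++ w.map fun x => t * x % m) e.2.1 e.2.2.1 e.2.2.2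

lemma chkAll_sound {m : ℕ} {w : List ℕ} {c : Certs} (h : chkAll m w c = true) (t : ℕ)
    (h1 : 1 < t) (h2 : t < m) (h3 : Nat.Coprime t m) :
    Divisible m (w ++ w.map fun x => t * x % m) := by
  unfold chkAll at h
  have h4 := List.all_eq_true.mp h t (List.mem_range.mpr h2)
  simp only [Bool.or_eq_true, decide_eq_true_eq] at h4
  rcases h4 with (h4 | h4) | h4
  · omega
  · exact absurd h3 h4
  · obtain ⟨e, _, he⟩ := List.any_eq_true.mp h4
    rw [Bool.and_eq_true] at he
    unfold chk at he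
    exact ⟨e.2.1, e.2.2.1, e.2.2.2, of_decide_eq_true he.2⟩

end Pool.Agent.TH540.PC
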