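import Pool.Agent.TH540.PairCert

/-!
# The certificates

Entries `(m, w, c)`; `c` has an entry `(t, p, P, Q)` for each `t` prime to `m`, `1 < t < m`.
-/

namespace Pool.Agent.TH540.PC

set_option maxRecDepth 100000

/-- the list of certificates -/
def certs : List (ℕ × List ℕ × Certs) := [
  (4, [1, 1, 1, 1],
    [(3, [], [[1, 3], [1, 3], [1, 3], [1, 3]], [])]),
  (5, [2, 1, 1, 1],
    [(2, [], [[1, 4], [1, 2, 2], [1, 2, 2]], []),
      (3, [], [[2, 3], [1, 1, 3], [1, 1, 3]], []),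
      (4, [], [[2, 3], [1, 4], [1, 4], [1, 4]], [])]),
  (6, [3, 1, 1, 1],
    [(5, [], [[3, 3], [1, 5], [1, 5], [1, 5]], [])]),
  (6, [2, 2, 1, 1],
    [(5, [], [[2, 4], [2, 4], [1, 5], [1, 5]], [])]),
  (7, [3, 2, 1, 1],
    [(2, [], [[1, 6], [1, 2, 4], [2, 2, 3]], []),
      (3, [], [[1, 6], [1, 3, 3], [2, 2, 3]], []),
      (4, [], [[3, 4], [1, 2, 4], [1, 1, 5]], []),
      (5, [], [[2, 5], [1, 1, 5], [1, 3, 3]], []),
      (6, [], [[3, 4], [2, 5], [1, 6], [1, 6]], [])]),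
  (8, [4, 2, 1, 1],
    [(3, [], [[1, 1, 6], [2, 3, 3], [4, 4]], []),
      (5, [], [[1, 2, 5], [1, 2, 5], [4, 4]], []),
      (7, [], [[4, 4], [2, 6], [1, 7], [1, 7]], [])]),
  (8, [3, 2, 2, 1],
    [(3, [], [[1, 1, 6], [2, 6], [2, 3, 3]], []),
      (5, [], [[1, 7], [2, 2, 2, 2], [3, 5]], []),
      (7, [], [[3, 5], [2, 6], [2, 6], [1, 7]], [])]),
  (9, [4, 3, 1, 1],
    [(2, [], [[1, 8], [1, 2, 6], [2, 3, 4]], []),
      (4, [3], [[1, 4, 4], [3, 3, 3]], [[1, 4, 6, 7]]),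
      (5, [], [[4, 5], [1, 3, 5], [1, 2, 6]], []),
      (7, [3], [[1, 1, 7], [3, 3, 3]], [[1, 4, 6, 7]]),
      (8, [], [[4, 5], [3, 6], [1, 8], [1, 8]], [])]),
  (9, [3, 3, 2, 1],
    [(2, [], [[1, 2, 6], [2, 3, 4], [3, 6]], []),
      (4, [], [[1, 8], [2, 3, 4], [3, 3, 3]], []),
      (5, [], [[1, 3, 5], [1, 2, 6], [3, 6]], []),
      (7, [], [[2, 7], [1, 3, 5], [3, 3, 3]], []),
      (8, [], [[3, 6], [3, 6], [2, 7], [1, 8]], [])]),
  (10, [5, 3, 1, 1],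
    [(3, [], [[1, 9], [1, 3, 3, 3], [5, 5]], []),
      (7, [], [[3, 7], [1, 1, 1, 7], [5, 5]], []),
      (9, [], [[5, 5], [3, 7], [1, 9], [1, 9]], [])]),
  (10, [5, 2, 2, 1],
    [(3, [], [[1, 3, 6], [2, 2, 6], [5, 5]], []),
      (7, [], [[1, 2, 7], [2, 4, 4], [5, 5]], []),
      (9, [], [[5, 5], [2, 8], [2, 8], [1, 9]], [])]),
  (10, [4, 3, 2, 1],
    [(3, [], [[1, 9], [2, 2, 6], [3, 3, 4]], []),
      (7, [], [[3, 7], [2, 4, 4], [1, 1, 8]], []),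
      (9, [], [[4, 6], [3, 7], [2, 8], [1, 9]], [])]),
  (11, [5, 3, 2, 1],
    [(2, [], [[1, 10], [2, 3, 6], [2, 4, 5]], []),
      (3, [], [[1, 4, 6], [2, 9], [3, 3, 5]], []),
      (4, [], [[2, 4, 5], [3, 8], [1, 1, 9]], []),
      (5, [], [[1, 10], [2, 4, 5], [3, 3, 5]], []),
      (6, [], [[5, 6], [1, 3, 7], [1, 2, 8]], []),
      (7, [], [[1, 10], [2, 2, 7], [3, 3, 5]], []),
      (8, [], [[3, 8], [1, 5, 5], [2, 2, 7]], []),
      (9, [], [[2, 9], [1, 3, 7], [1, 5, 5]], []),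
      (10, [], [[5, 6], [3, 8], [2, 9], [1, 10]], [])]),
  (12, [6, 4, 1, 1],
    [(5, [], [[1, 5, 6], [1, 5, 6], [4, 8]], []),
      (7, [], [[1, 4, 7], [1, 4, 7], [6, 6]], []),
      (11, [], [[6, 6], [4, 8], [1, 11], [1, 11]], [])]),
  (12, [6, 3, 2, 1],
    [(5, [], [[1, 5, 6], [2, 10], [3, 3, 6]], []),
      (7, [], [[1, 2, 9], [2, 3, 7], [6, 6]], []),
      (11, [], [[6, 6], [3, 9], [2, 10], [1, 11]], [])]),
  (12, [5, 4, 2, 1],
    [(5, [], [[1, 1, 10], [2, 5, 5], [4, 8]], []),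
      (7, [], [[1, 11], [2, 2, 4, 4], [5, 7]], []),
      (11, [], [[5, 7], [4, 8], [2, 10], [1, 11]], [])]),
  (12, [5, 3, 2, 2],
    [(5, [], [[1, 3, 3, 5]], [[2, 2, 10, 10]]),
      (7, [6], [[2, 2, 2, 6], [3, 9]], [[2, 5, 6, 11]]),
      (11, [], [[5, 7], [3, 9], [2, 10], [2, 10]], [])]),
  (12, [4, 4, 3, 1],
    [(5, [], [[1, 3, 8], [3, 4, 5], [4, 8]], []),
      (7, [], [[1, 4, 7], [3, 9], [4, 4, 4]], []),
      (11, [], [[4, 8], [4, 8], [3, 9], [1, 11]], [])]),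
  (12, [4, 3, 3, 2],
    [(5, [], [[2, 10], [3, 3, 3, 3], [4, 8]], []),
      (7, [], [[2, 2, 4, 4]], [[3, 3, 9, 9]]),
      (11, [], [[4, 8], [3, 9], [3, 9], [2, 10]], [])]),
  (14, [7, 4, 2, 1],
    [(3, [], [[1, 6, 7], [2, 12], [3, 4, 7]], []),
      (5, [], [[2, 5, 7], [4, 10], [1, 6, 7]], []),
      (9, [], [[1, 4, 9], [2, 4, 8], [7, 7]], []),
      (11, [], [[1, 2, 11], [2, 4, 8], [7, 7]], []),
      (13, [], [[7, 7], [4, 10], [2, 12], [1, 13]], [])]),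
  (14, [7, 3, 2, 2],
    [(3, [], [[2, 3, 9], [2, 6, 6], [7, 7]], []),
      (5, [], [[1, 3, 10], [2, 2, 10], [7, 7]], []),
      (9, [4], [[7, 7], [2, 4, 4, 4]], [[2, 3, 10, 13]]),
      (11, [2], [[7, 7], [2, 2, 2, 8]], [[3, 5, 8, 12]]),
      (13, [], [[7, 7], [3, 11], [2, 12], [2, 12]], [])]),
  (14, [5, 4, 3, 2],
    [(3, [], [[1, 4, 9], [2, 12], [3, 5, 6]], []),
      (5, [], [[3, 5, 6], [4, 10], [1, 2, 11]], []),
      (9, [6], [[2, 4, 8], [3, 3, 8]], [[4, 5, 6, 13]]),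
      (11, [10], [[2, 4, 8], [4, 5, 5]], [[2, 3, 10, 13]]),
      (13, [], [[5, 9], [4, 10], [3, 11], [2, 12]], [])]),
  (15, [7, 5, 2, 1],
    [(2, [], [[1, 14], [2, 2, 4, 7], [5, 10]], []),
      (4, [], [[1, 4, 5, 5]], [[2, 7, 8, 13]]),
      (7, [6], [[1, 7, 7], [4, 5, 6]], [[2, 5, 9, 14]]),
      (8, [], [[7, 8], [1, 1, 2, 11], [5, 10]], []),
      (11, [], [[1, 7, 7], [2, 2, 11], [5, 10]], []),
      (13, [3], [[1, 1, 13], [3, 5, 7]], [[2, 5, 11, 12]]),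
      (14, [], [[7, 8], [5, 10], [2, 13], [1, 14]], [])]),
  (15, [7, 4, 3, 1],
    [(2, [], [[1, 14], [2, 6, 7], [3, 4, 8]], []),
      (4, [], [[1, 1, 13], [3, 12], [4, 4, 7]], []),
      (7, [5], [[1, 7, 7], [4, 5, 6]], [[3, 4, 10, 13]]),
      (8, [], [[7, 8], [1, 3, 11], [2, 4, 9]], []),
      (11, [], [[1, 14], [2, 3, 3, 7], [4, 11]], []),
      (13, [5], [[1, 1, 13], [3, 5, 7]], [[4, 7, 9, 10]]),
      (14, [], [[7, 8], [4, 11], [3, 12], [1, 14]], [])]),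
  (15, [6, 5, 3, 1],
    [(2, [], [[1, 2, 12], [3, 6, 6], [5, 10]], []),
      (4, [], [[1, 5, 9], [3, 12], [4, 5, 6]], []),
      (7, [4], [[3, 5, 7], [4, 5, 6]], [[1, 6, 11, 12]]),
      (8, [], [[1, 6, 8], [3, 3, 9], [5, 10]], []),
      (11, [], [[1, 3, 11], [3, 6, 6], [5, 10]], []),
      (13, [7], [[1, 5, 9], [3, 5, 7]], [[3, 6, 8, 13]]),
      (14, [], [[6, 9], [5, 10], [3, 12], [1, 14]], [])]),
  (15, [5, 5, 3, 2],
    [(2, [], [[2, 3, 10], [4, 5, 6], [5, 10]], []),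
      (4, [], [[2, 5, 8], [3, 12], [5, 5, 5]], []),
      (7, [6], [[3, 6, 6], [5, 5, 5]], [[2, 5, 9, 14]]),
      (8, [], [[1, 5, 9], [2, 3, 10], [5, 10]], []),
      (11, [], [[2, 3, 10], [3, 5, 7], [5, 10]], []),
      (13, [3], [[3, 3, 9], [5, 5, 5]], [[2, 5, 11, 12]]),
      (14, [], [[5, 10], [5, 10], [3, 12], [2, 13]], [])]),
  (15, [5, 4, 3, 3],
    [(2, [], [[3, 4, 8], [3, 6, 6], [5, 10]], []),
      (4, [], [[1, 4, 5, 5]], [[3, 3, 12, 12]]),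
      (7, [5], [[3, 6, 6], [5, 5, 5]], [[3, 4, 10, 13]]),
      (8, [], [[2, 4, 9], [3, 3, 9], [5, 10]], []),
      (11, [6], [[3, 3, 3, 6], [5, 10]], [[3, 4, 9, 14]]),
      (13, [5], [[3, 3, 9], [5, 5, 5]], [[4, 7, 9, 10]]),
      (14, [], [[5, 10], [4, 11], [3, 12], [3, 12]], [])]),
  (16, [8, 5, 2, 1],
    [(3, [], [[1, 15], [2, 6, 8], [3, 5, 8]], []),
      (5, [], [[1, 5, 10], [2, 5, 9], [8, 8]], []),
      (7, [], [[1, 7, 8], [2, 14], [3, 5, 8]], []),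
      (9, [], [[1, 2, 13], [2, 5, 9], [8, 8]], []),
      (11, [], [[5, 11], [2, 6, 8], [1, 7, 8]], []),
      (13, [], [[1, 2, 13], [1, 5, 10], [8, 8]], []),
      (15, [], [[8, 8], [5, 11], [2, 14], [1, 15]], [])]),
  (16, [8, 4, 3, 1],
    [(3, [], [[1, 3, 12], [3, 4, 9], [8, 8]], []),
      (5, [], [[1, 15], [3, 5, 8], [4, 4, 8]], []),
      (7, [], [[1, 3, 12], [4, 5, 7], [8, 8]], []),
      (9, [], [[1, 4, 11], [3, 4, 9], [8, 8]], []),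
      (11, [], [[1, 4, 11], [1, 3, 12], [8, 8]], []),
      (13, [], [[3, 13], [1, 7, 8], [4, 4, 8]], []),
      (15, [], [[8, 8], [4, 12], [3, 13], [1, 15]], [])]),
  (16, [7, 4, 3, 2],
    [(3, [], [[2, 5, 9], [3, 6, 7], [4, 12]], []),
      (5, [6], [[2, 4, 10], [3, 3, 10]], [[4, 6, 7, 15]]),
      (7, [], [[1, 3, 12], [2, 14], [4, 5, 7]], []),
      (9, [6], [[2, 3, 11], [2, 4, 10]], [[4, 6, 7, 15]]),
      (11, [], [[3, 6, 7], [1, 2, 13], [4, 12]], []),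
      (13, [14], [[2, 4, 10], [2, 7, 7]], [[3, 4, 11, 14]]),
      (15, [], [[7, 9], [4, 12], [3, 13], [2, 14]], [])]),
  (16, [6, 5, 4, 1],
    [(3, [], [[1, 15], [2, 3, 5, 6], [4, 12]], []),
      (5, [8], [[4, 4, 8], [5, 5, 6]], [[1, 8, 9, 14]]),
      (7, [], [[1, 3, 12], [4, 5, 7], [6, 10]], []),
      (9, [8], [[1, 6, 9], [4, 4, 8]], [[5, 6, 8, 13]]),
      (11, [], [[5, 11], [1, 2, 6, 7], [4, 12]], []),
      (13, [8], [[4, 4, 8], [1, 1, 14]], [[5, 6, 8, 13]]),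
      (15, [], [[6, 10], [5, 11], [4, 12], [1, 15]], [])]),
  (18, [9, 6, 2, 1],
    [(5, [], [[1, 5, 12], [2, 6, 10], [9, 9]], []),
      (7, [3], [[9, 9], [2, 3, 6, 7]], [[1, 6, 14, 15]]),
      (11, [], [[1, 6, 11], [2, 4, 12], [9, 9]], []),
      (13, [3], [[9, 9], [1, 3, 6, 8]], [[2, 6, 13, 15]]),
      (17, [], [[9, 9], [6, 12], [2, 16], [1, 17]], [])]),
  (18, [9, 5, 3, 1],
    [(5, [], [[1, 5, 5, 7]], [[3, 9, 9, 15]]),
      (7, [], [[1, 17], [3, 3, 5, 7], [9, 9]], []),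
      (11, [], [[1, 1, 5, 11]], [[3, 9, 9, 15]]),
      (13, [], [[5, 13], [1, 3, 3, 11], [9, 9]], []),
      (17, [], [[9, 9], [5, 13], [3, 15], [1, 17]], [])]),
  (18, [9, 4, 3, 2],
    [(5, [], [[2, 2, 4, 10]], [[3, 9, 9, 15]]),
      (7, [], [[2, 3, 3, 10]], [[4, 9, 9, 14]]),
      (11, [], [[2, 4, 4, 8]], [[3, 9, 9, 15]]),
      (13, [], [[3, 3, 4, 8]], [[2, 9, 9, 16]]),
      (17, [], [[9, 9], [4, 14], [3, 15], [2, 16]], [])]),
  (18, [8, 5, 3, 2],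
    [(5, [], [[2, 4, 5, 7]], [[3, 8, 10, 15]]),
      (7, [6], [[2, 2, 14], [3, 3, 12]], [[5, 6, 8, 17]]),
      (11, [], [[1, 4, 5, 8]], [[2, 3, 15, 16]]),
      (13, [6], [[2, 8, 8], [3, 3, 12]], [[5, 6, 11, 14]]),
      (17, [], [[8, 10], [5, 13], [3, 15], [2, 16]], [])]),
  (18, [7, 6, 4, 1],
    [(5, [], [[1, 17], [2, 4, 12], [5, 6, 7]], []),
      (7, [6], [[1, 7, 10], [6, 6, 6]], [[4, 7, 12, 13]]),
      (11, [], [[7, 11], [4, 6, 8], [1, 5, 12]], []),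
      (13, [6], [[1, 4, 13], [6, 6, 6]], [[1, 7, 12, 16]]),
      (17, [], [[7, 11], [6, 12], [4, 14], [1, 17]], [])]),
  (18, [6, 5, 4, 3],
    [(5, [], [[2, 4, 12], [3, 15], [5, 6, 7]], []),
      (7, [6], [[3, 5, 10], [6, 6, 6]], [[3, 4, 12, 17]]),
      (11, [], [[4, 6, 8], [3, 15], [1, 5, 12]], []),
      (13, [6], [[3, 4, 11], [6, 6, 6]], [[3, 5, 12, 16]]),
      (17, [], [[6, 12], [5, 13], [4, 14], [3, 15]], [])]),
  (20, [10, 5, 4, 1],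
    [(3, [], [[1, 4, 15], [3, 5, 12], [10, 10]], []),
      (7, [], [[5, 7, 8], [1, 4, 15], [10, 10]], []),
      (9, [], [[1, 9, 10], [4, 16], [5, 5, 10]], []),
      (11, [], [[1, 4, 15], [4, 5, 11], [10, 10]], []),
      (13, [6], [[10, 10], [4, 5, 5, 6]], [[1, 12, 13, 14]]),
      (17, [2], [[10, 10], [2, 5, 5, 8]], [[1, 4, 17, 18]]),
      (19, [], [[10, 10], [5, 15], [4, 16], [1, 19]], [])]),
  (20, [10, 5, 3, 2],
    [(3, [], [[2, 3, 15], [5, 6, 9], [10, 10]], []),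
      (7, [], [[1, 5, 14], [2, 3, 15], [10, 10]], []),
      (9, [], [[2, 18], [3, 7, 10], [5, 5, 10]], []),
      (11, [], [[2, 3, 15], [2, 5, 13], [10, 10]], []),
      (13, [4], [[10, 10], [4, 5, 5, 6]], [[2, 3, 16, 19]]),
      (17, [8], [[10, 10], [2, 5, 5, 8]], [[3, 11, 12, 14]]),
      (19, [], [[10, 10], [5, 15], [3, 17], [2, 18]], [])]),
  (20, [9, 5, 4, 2],
    [(3, [], [[2, 6, 12], [4, 7, 9], [5, 15]], []),
      (7, [], [[2, 4, 14], [3, 8, 9], [5, 15]], []),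
      (9, [], [[1, 5, 5, 9]], [[2, 4, 16, 18]]),
      (11, [8], [[2, 2, 4, 12], [5, 15]], [[4, 8, 9, 19]]),
      (13, [], [[4, 5, 5, 6]], [[2, 9, 12, 17]]),
      (17, [], [[2, 5, 5, 8]], [[4, 9, 13, 14]]),
      (19, [], [[9, 11], [5, 15], [4, 16], [2, 18]], [])]),
  (20, [8, 6, 5, 1],
    [(3, [3], [[3, 3, 6, 8], [5, 15]], [[1, 4, 17, 18]]),
      (7, [1], [[1, 1, 2, 16], [5, 15]], [[6, 7, 8, 19]]),
      (9, [], [[1, 5, 14], [5, 6, 9], [8, 12]], []),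
      (11, [], [[1, 8, 11], [5, 15], [6, 6, 8]], []),
      (13, [], [[4, 5, 5, 6]], [[1, 8, 13, 18]]),
      (17, [], [[2, 5, 5, 8]], [[1, 6, 16, 17]]),
      (19, [], [[8, 12], [6, 14], [5, 15], [1, 19]], [])]),
  (20, [8, 5, 4, 3],
    [(3, [], [[3, 8, 9], [4, 4, 12], [5, 15]], []),
      (7, [], [[1, 3, 16], [4, 8, 8], [5, 15]], []),
      (9, [], [[3, 5, 12], [4, 16], [5, 7, 8]], []),
      (11, [], [[3, 4, 13], [4, 8, 8], [5, 15]], []),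
      (13, [6], [[4, 5, 5, 6], [8, 12]], [[3, 4, 14, 19]]),
      (17, [2], [[2, 5, 5, 8], [4, 16]], [[3, 8, 11, 18]]),
      (19, [], [[8, 12], [5, 15], [4, 16], [3, 17]], [])]),
  (20, [7, 6, 5, 2],
    [(3, [], [[1, 6, 6, 7]], [[2, 5, 15, 18]]),
      (7, [], [[2, 2, 7, 9]], [[5, 6, 14, 15]]),
      (9, [], [[2, 18], [3, 5, 5, 7], [6, 14]], []),
      (11, [10], [[2, 2, 6, 10], [5, 15]], [[6, 7, 10, 17]]),
      (13, [4], [[2, 18], [4, 5, 5, 6]], [[6, 7, 11, 16]]),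
      (17, [8], [[6, 14], [2, 5, 5, 8]], [[2, 7, 12, 19]]),
      (19, [], [[7, 13], [6, 14], [5, 15], [2, 18]], [])]),
  (21, [10, 7, 3, 1],
    [(2, [], [[1, 20], [2, 3, 6, 10], [7, 14]], []),
      (4, [], [[3, 4, 7, 7]], [[1, 10, 12, 19]]),
      (5, [], [[1, 5, 15], [3, 8, 10], [7, 14]], []),
      (8, [], [[1, 3, 17], [3, 8, 10], [7, 14]], []),
      (10, [5, 6, 8], [[5, 7, 9], [6, 7, 8]], [[1, 10, 15, 16], [3, 10, 13, 16]]),
      (11, [], [[10, 11], [1, 3, 5, 12], [7, 14]], []),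
      (13, [], [[1, 7, 13], [3, 18], [4, 7, 10]], []),
      (16, [], [[1, 6, 7, 7]], [[3, 10, 13, 16]]),
      (17, [], [[1, 3, 17], [2, 9, 10], [7, 14]], []),
      (19, [11, 9, 5], [[3, 7, 11], [5, 7, 9]], [[1, 10, 12, 19], [1, 10, 15, 16]]),
      (20, [], [[10, 11], [7, 14], [3, 18], [1, 20]], [])]),
  (21, [9, 7, 4, 1],
    [(2, [], [[1, 2, 18], [4, 8, 9], [7, 14]], []),
      (4, [2, 3], [[3, 4, 7, 7]], [[1, 4, 18, 19], [2, 9, 15, 16]]),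
      (5, [], [[1, 20], [3, 4, 14], [5, 7, 9]], []),
      (8, [], [[1, 9, 11], [4, 8, 9], [7, 14]], []),
      (10, [3, 5, 8], [[5, 7, 9], [6, 7, 8]], [[1, 4, 18, 19], [3, 10, 13, 16]]),
      (11, [], [[1, 9, 11], [2, 4, 15], [7, 14]], []),
      (13, [], [[1, 7, 13], [4, 7, 10], [9, 12]], []),
      (16, [11, 6], [[1, 6, 7, 7]], [[1, 10, 15, 16], [4, 9, 11, 18]]),
      (17, [], [[4, 17], [5, 7, 9], [1, 6, 14]], []),
      (19, [15, 11, 5], [[3, 7, 11], [5, 7, 9]], [[4, 6, 13, 19], [1, 10, 15, 16]]),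
      (20, [], [[9, 12], [7, 14], [4, 17], [1, 20]], [])]),
  (21, [9, 7, 3, 2],
    [(2, [], [[2, 4, 6, 9]], [[3, 7, 14, 18]]),
      (4, [4], [[3, 4, 7, 7], [9, 12]], [[2, 8, 15, 17]]),
      (5, [], [[2, 9, 10], [3, 3, 15], [7, 14]], []),
      (8, [], [[2, 3, 16], [3, 9, 9], [7, 14]], []),
      (10, [4, 5, 8], [[5, 7, 9], [6, 7, 8]], [[2, 3, 17, 20], [4, 9, 13, 16]]),
      (11, [], [[1, 2, 3, 15]], [[7, 9, 12, 14]]),
      (13, [], [[2, 7, 12], [3, 18], [5, 7, 9]], []),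
      (16, [1], [[1, 6, 7, 7], [3, 18]], [[2, 9, 11, 20]]),
      (17, [], [[2, 6, 13], [3, 9, 9], [7, 14]], []),
      (19, [13, 11, 5], [[3, 7, 11], [5, 7, 9]], [[2, 8, 15, 17], [3, 10, 13, 16]]),
      (20, [], [[9, 12], [7, 14], [3, 18], [2, 19]], [])]),
  (21, [8, 7, 5, 1],
    [(2, [], [[1, 2, 8, 10]], [[5, 7, 14, 16]]),
      (4, [3], [[1, 20], [3, 4, 7, 7]], [[5, 8, 11, 18]]),
      (5, [3], [[3, 5, 5, 8], [7, 14]], [[1, 4, 18, 19]]),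
      (8, [], [[1, 1, 19], [5, 8, 8], [7, 14]], []),
      (10, [2, 6, 9], [[5, 7, 9], [6, 7, 8]], [[1, 10, 12, 19], [2, 8, 15, 17]]),
      (11, [], [[1, 4, 5, 11]], [[7, 8, 13, 14]]),
      (13, [], [[1, 20], [2, 5, 7, 7], [8, 13]], []),
      (16, [6], [[5, 16], [1, 6, 7, 7]], [[2, 8, 15, 17]]),
      (17, [9], [[1, 1, 9, 10], [7, 14]], [[5, 8, 12, 17]]),
      (19, [17, 9, 3], [[3, 7, 11], [5, 7, 9]], [[1, 4, 18, 19], [5, 8, 12, 17]]),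
      (20, [], [[8, 13], [7, 14], [5, 16], [1, 20]], [])]),
  (21, [7, 6, 5, 3],
    [(2, [], [[3, 6, 12], [5, 6, 10], [7, 14]], []),
      (4, [2, 4], [[3, 4, 7, 7]], [[2, 3, 17, 20], [5, 6, 12, 19]]),
      (5, [], [[3, 4, 14], [5, 7, 9], [6, 15]], []),
      (8, [9], [[3, 3, 6, 9], [7, 14]], [[5, 6, 12, 19]]),
      (10, [], [[3, 18], [5, 7, 9], [6, 7, 8]], []),
      (11, [], [[3, 6, 12], [3, 5, 13], [7, 14]], []),
      (13, [], [[2, 5, 7, 7]], [[3, 6, 15, 18]]),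
      (16, [11, 1], [[1, 6, 7, 7]], [[5, 6, 11, 20], [3, 10, 12, 17]]),
      (17, [], [[5, 7, 9], [1, 6, 14], [3, 18]], []),
      (19, [], [[6, 15], [3, 7, 11], [5, 7, 9]], []),
      (20, [], [[7, 14], [6, 15], [5, 16], [3, 18]], [])]),
  (22, [11, 7, 3, 1],
    [(3, [], [[1, 21], [3, 3, 7, 9], [11, 11]], []),
      (5, [], [[1, 3, 5, 13]], [[7, 11, 11, 15]]),
      (7, [], [[1, 21], [3, 5, 7, 7], [11, 11]], []),
      (9, [], [[1, 5, 7, 9]], [[3, 11, 11, 19]]),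
      (13, [2, 6], [[11, 11], [2, 7, 13], [3, 3, 16]], [[1, 6, 17, 20]]),
      (15, [], [[7, 15], [1, 1, 3, 17], [11, 11]], []),
      (17, [12, 14], [[11, 11], [1, 9, 12], [7, 7, 8]], [[3, 10, 14, 17]]),
      (19, [], [[3, 19], [1, 1, 7, 13], [11, 11]], []),
      (21, [], [[11, 11], [7, 15], [3, 19], [1, 21]], [])]),
  (22, [11, 6, 4, 1],
    [(3, [], [[1, 3, 18], [4, 6, 12], [11, 11]], []),
      (5, [5], [[11, 11], [4, 5, 5, 8]], [[1, 6, 17, 20]]),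
      (7, [5], [[11, 11], [4, 5, 6, 7]], [[1, 6, 17, 20]]),
      (9, [1], [[11, 11], [1, 1, 6, 14]], [[4, 9, 10, 21]]),
      (13, [], [[1, 8, 13], [4, 6, 12], [11, 11]], []),
      (15, [], [[1, 6, 15], [2, 4, 16], [11, 11]], []),
      (17, [], [[1, 4, 17], [2, 6, 14], [11, 11]], []),
      (19, [7], [[11, 11], [1, 4, 7, 10]], [[4, 6, 15, 19]]),
      (21, [], [[11, 11], [6, 16], [4, 18], [1, 21]], [])]),
  (22, [11, 5, 4, 2],
    [(3, [], [[2, 5, 15], [4, 6, 12], [11, 11]], []),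
      (5, [], [[2, 20], [3, 4, 5, 10], [11, 11]], []),
      (7, [], [[2, 6, 14], [4, 5, 13], [11, 11]], []),
      (9, [], [[4, 18], [1, 2, 5, 14], [11, 11]], []),
      (13, [6], [[11, 11], [4, 4, 6, 8]], [[2, 5, 16, 21]]),
      (15, [], [[5, 8, 9], [2, 4, 16], [11, 11]], []),
      (17, [14], [[11, 11], [2, 2, 4, 14]], [[5, 8, 12, 19]]),
      (19, [], [[2, 4, 16], [5, 7, 10], [11, 11]], []),
      (21, [], [[11, 11], [5, 17], [4, 18], [2, 20]], [])]),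
  (24, [12, 8, 3, 1],
    [(5, [], [[1, 8, 15], [3, 5, 16], [12, 12]], []),
      (7, [], [[1, 7, 8, 8]], [[3, 12, 12, 21]]),
      (11, [], [[1, 11, 12], [3, 9, 12], [8, 16]], []),
      (13, [], [[1, 8, 15], [3, 8, 13], [12, 12]], []),
      (17, [], [[1, 3, 3, 17]], [[8, 12, 12, 16]]),
      (19, [4], [[12, 12], [3, 4, 8, 9]], [[1, 8, 19, 20]]),
      (23, [], [[12, 12], [8, 16], [3, 21], [1, 23]], [])]),
  (24, [12, 7, 3, 2],
    [(5, [], [[2, 7, 15], [3, 10, 11], [12, 12]], []),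
      (7, [], [[1, 2, 21], [3, 7, 14], [12, 12]], []),
      (11, [], [[2, 22], [3, 9, 12], [5, 7, 12]], []),
      (13, [], [[2, 3, 19], [2, 7, 15], [12, 12]], []),
      (17, [8], [[12, 12], [2, 3, 3, 16]], [[7, 8, 10, 23]]),
      (19, [], [[2, 9, 13], [3, 7, 14], [12, 12]], []),
      (23, [], [[12, 12], [7, 17], [3, 21], [2, 22]], [])]),
  (24, [12, 5, 4, 3],
    [(5, [], [[1, 3, 20], [4, 5, 15], [12, 12]], []),
      (7, [], [[3, 21], [4, 4, 5, 11], [12, 12]], []),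
      (11, [], [[3, 9, 12], [4, 20], [5, 7, 12]], []),
      (13, [], [[3, 4, 17], [4, 5, 15], [12, 12]], []),
      (17, [], [[3, 3, 5, 13]], [[4, 12, 12, 20]]),
      (19, [8], [[12, 12], [3, 4, 8, 9]], [[4, 5, 16, 23]]),
      (23, [], [[12, 12], [5, 19], [4, 20], [3, 21]], [])]),
  (24, [11, 8, 3, 2],
    [(5, [], [[2, 7, 15], [3, 10, 11], [8, 16]], []),
      (7, [], [[2, 8, 14], [3, 21], [5, 8, 11]], []),
      (11, [], [[1, 3, 9, 11]], [[2, 8, 16, 22]]),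
      (13, [2, 6], [[2, 2, 2, 18]], [[3, 8, 15, 22], [6, 8, 11, 23]]),
      (17, [], [[2, 3, 19], [3, 10, 11], [8, 16]], []),
      (19, [12], [[2, 8, 14], [3, 9, 12]], [[8, 11, 12, 17]]),
      (23, [], [[11, 13], [8, 16], [3, 21], [2, 22]], [])]),
  (24, [10, 7, 4, 3],
    [(5, [], [[2, 7, 15], [3, 10, 11], [4, 20]], []),
      (7, [12], [[1, 4, 7, 12], [3, 21]], [[4, 10, 12, 22]]),
      (11, [], [[3, 7, 14], [4, 20], [5, 9, 10]], []),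
      (13, [1], [[1, 4, 19], [4, 10, 10]], [[3, 7, 15, 23]]),
      (17, [8], [[2, 3, 3, 16], [4, 20]], [[7, 8, 10, 23]]),
      (19, [12], [[3, 9, 12], [4, 7, 13]], [[4, 10, 12, 22]]),
      (23, [], [[10, 14], [7, 17], [4, 20], [3, 21]], [])]),
  (24, [9, 8, 6, 1],
    [(5, [7], [[5, 6, 6, 7], [8, 16]], [[1, 9, 17, 21]]),
      (7, [], [[1, 8, 15], [6, 18], [7, 8, 9]], []),
      (11, [], [[1, 3, 9, 11]], [[6, 8, 16, 18]]),
      (13, [2, 5], [[2, 6, 8, 8]], [[1, 6, 19, 22], [5, 9, 13, 21]]),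
      (17, [], [[1, 6, 17], [6, 9, 9], [8, 16]], []),
      (19, [4], [[3, 4, 8, 9], [6, 18]], [[1, 8, 19, 20]]),
      (23, [], [[9, 15], [8, 16], [6, 18], [1, 23]], [])]),
  (24, [9, 8, 5, 2],
    [(5, [], [[1, 2, 21], [5, 9, 10], [8, 16]], []),
      (7, [], [[2, 8, 14], [5, 8, 11], [9, 15]], []),
      (11, [], [[2, 22], [3, 5, 16], [7, 8, 9]], []),
      (13, [8], [[2, 5, 17], [8, 8, 8]], [[2, 9, 16, 21]]),
      (17, [], [[2, 9, 13], [5, 9, 10], [8, 16]], []),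
      (19, [12], [[2, 8, 14], [3, 9, 12]], [[5, 8, 12, 23]]),
      (23, [], [[9, 15], [8, 16], [5, 19], [2, 22]], [])]),
  (24, [9, 6, 5, 4],
    [(5, [7], [[4, 20], [5, 6, 6, 7]], [[1, 9, 17, 21]]),
      (7, [], [[4, 5, 15], [4, 9, 11], [6, 18]], []),
      (11, [], [[3, 5, 7, 9]], [[4, 6, 18, 20]]),
      (13, [1, 8], [[4, 6, 6, 8]], [[1, 9, 17, 21], [4, 5, 16, 23]]),
      (17, [], [[4, 20], [5, 6, 13], [6, 9, 9]], []),
      (19, [8], [[3, 4, 8, 9], [6, 18]], [[4, 5, 16, 23]]),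
      (23, [], [[9, 15], [6, 18], [5, 19], [4, 20]], [])]),
  (24, [8, 7, 6, 3],
    [(5, [], [[3, 6, 15], [6, 7, 11], [8, 16]], []),
      (7, [], [[1, 7, 8, 8]], [[3, 6, 18, 21]]),
      (11, [], [[3, 5, 16], [6, 18], [7, 8, 9]], []),
      (13, [8], [[3, 6, 15], [8, 8, 8]], [[6, 7, 16, 19]]),
      (17, [9], [[3, 6, 6, 9], [8, 16]], [[3, 7, 15, 23]]),
      (19, [], [[3, 8, 13], [6, 18], [7, 8, 9]], []),
      (23, [], [[8, 16], [7, 17], [6, 18], [3, 21]], [])]),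
  (26, [13, 8, 3, 2],
    [(3, [], [[2, 24], [3, 6, 8, 9], [13, 13]], []),
      (5, [], [[2, 10, 14], [3, 8, 15], [13, 13]], []),
      (7, [], [[2, 3, 21], [4, 8, 14], [13, 13]], []),
      (9, [], [[8, 18], [1, 2, 3, 20], [13, 13]], []),
      (11, [9, 13], [[13, 13], [2, 7, 17], [3, 10, 13]], [[8, 9, 13, 22]]),
      (15, [], [[3, 4, 19], [2, 8, 16], [13, 13]], []),
      (17, [7], [[13, 13], [3, 7, 8, 8]], [[2, 6, 19, 25]]),
      (19, [15, 13], [[13, 13], [3, 11, 12], [5, 8, 13]], [[2, 13, 15, 22]]),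
      (21, [], [[2, 8, 16], [3, 11, 12], [13, 13]], []),
      (23, [5], [[13, 13], [2, 2, 5, 17]], [[3, 8, 20, 21]]),
      (25, [], [[13, 13], [8, 18], [3, 23], [2, 24]], [])]),
  (26, [13, 7, 5, 1],
    [(3, [], [[1, 3, 7, 15]], [[5, 13, 13, 21]]),
      (5, [], [[1, 25], [5, 5, 7, 9], [13, 13]], []),
      (7, [10, 12], [[13, 13], [1, 9, 16], [5, 7, 14]], [[7, 10, 12, 23]]),
      (9, [], [[1, 5, 9, 11]], [[7, 13, 13, 19]]),
      (11, [], [[1, 25], [3, 5, 7, 11], [13, 13]], []),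
      (15, [20, 24], [[13, 13], [5, 6, 15], [1, 2, 23]], [[1, 7, 20, 24]]),
      (17, [2, 6], [[13, 13], [2, 7, 17], [5, 6, 15]], [[1, 7, 20, 24]]),
      (19, [], [[7, 19], [1, 3, 5, 17], [13, 13]], []),
      (21, [], [[5, 21], [1, 1, 7, 17], [13, 13]], []),
      (23, [20, 8], [[13, 13], [1, 5, 20], [7, 8, 11]], [[5, 6, 18, 23]]),
      (25, [], [[13, 13], [7, 19], [5, 21], [1, 25]], [])]),
  (26, [13, 6, 5, 2],
    [(3, [], [[2, 6, 18], [5, 6, 15], [13, 13]], []),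
      (5, [7], [[13, 13], [4, 5, 7, 10]], [[2, 6, 19, 25]]),
      (7, [4], [[13, 13], [2, 4, 6, 14]], [[5, 9, 16, 22]]),
      (9, [], [[2, 6, 18], [2, 5, 19], [13, 13]], []),
      (11, [1, 7], [[13, 13], [1, 3, 22], [5, 7, 14]], [[2, 6, 19, 25]]),
      (15, [8], [[13, 13], [2, 4, 8, 12]], [[5, 6, 18, 23]]),
      (17, [], [[2, 24], [5, 8, 13], [6, 7, 13]], []),
      (19, [19, 3], [[13, 13], [2, 5, 19], [3, 6, 17]], [[7, 10, 12, 23]]),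
      (21, [17], [[13, 13], [1, 2, 6, 17]], [[5, 9, 16, 22]]),
      (23, [], [[6, 20], [2, 11, 13], [5, 8, 13]], []),
      (25, [], [[13, 13], [6, 20], [5, 21], [2, 24]], [])]),
  (28, [14, 9, 4, 1],
    [(3, [], [[1, 27], [3, 4, 9, 12], [14, 14]], []),
      (5, [5], [[14, 14], [1, 5, 5, 17]], [[4, 9, 20, 23]]),
      (9, [7], [[14, 14], [4, 7, 8, 9]], [[1, 9, 21, 25]]),
      (11, [], [[1, 11, 16], [4, 9, 15], [14, 14]], []),
      (13, [], [[1, 13, 14], [4, 24], [5, 9, 14]], []),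
      (15, [], [[1, 4, 23], [4, 9, 15], [14, 14]], []),
      (17, [1], [[14, 14], [1, 1, 9, 17]], [[4, 12, 13, 27]]),
      (19, [], [[9, 19], [1, 3, 4, 20], [14, 14]], []),
      (23, [], [[1, 4, 23], [8, 9, 11], [14, 14]], []),
      (25, [7], [[14, 14], [1, 4, 7, 16]], [[1, 9, 21, 25]]),
      (27, [], [[14, 14], [9, 19], [4, 24], [1, 27]], [])]),
  (28, [14, 8, 5, 1],
    [(3, [], [[1, 3, 24], [5, 8, 15], [14, 14]], []),
      (5, [11], [[14, 14], [1, 5, 5, 17]], [[8, 11, 12, 25]]),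
      (9, [3, 7], [[14, 14], [3, 8, 17], [5, 7, 16]], [[1, 9, 21, 25]]),
      (11, [], [[1, 27], [4, 5, 8, 11], [14, 14]], []),
      (13, [], [[1, 13, 14], [5, 9, 14], [8, 20]], []),
      (15, [], [[1, 8, 19], [5, 8, 15], [14, 14]], []),
      (17, [19], [[14, 14], [1, 1, 9, 17]], [[5, 8, 19, 24]]),
      (19, [], [[1, 8, 19], [5, 11, 12], [14, 14]], []),
      (23, [], [[5, 23], [1, 3, 8, 16], [14, 14]], []),
      (25, [19, 7], [[14, 14], [4, 5, 19], [7, 8, 13]], [[1, 9, 21, 25]]),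
      (27, [], [[14, 14], [8, 20], [5, 23], [1, 27]], [])]),
  (28, [14, 7, 4, 3],
    [(3, [], [[3, 4, 21], [7, 9, 12], [14, 14]], []),
      (5, [1, 9], [[14, 14], [1, 7, 20], [4, 9, 15]], [[3, 7, 19, 27]]),
      (9, [9], [[14, 14], [4, 7, 8, 9]], [[3, 7, 19, 27]]),
      (11, [], [[3, 4, 21], [5, 7, 16], [14, 14]], []),
      (13, [], [[3, 11, 14], [4, 24], [7, 7, 14]], []),
      (15, [], [[3, 4, 21], [4, 7, 17], [14, 14]], []),
      (17, [17, 13], [[14, 14], [4, 7, 17], [3, 12, 13]], [[7, 11, 15, 23]]),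
      (19, [], [[1, 7, 20], [3, 4, 21], [14, 14]], []),
      (23, [], [[7, 8, 13], [3, 4, 21], [14, 14]], []),
      (25, [1], [[14, 14], [1, 4, 7, 16]], [[3, 7, 19, 27]]),
      (27, [], [[14, 14], [7, 21], [4, 24], [3, 25]], [])]),
  (28, [11, 7, 6, 4],
    [(3, [], [[4, 6, 18], [5, 11, 12], [7, 21]], []),
      (5, [2, 13, 14], [[2, 11, 15], [7, 7, 14]], [[2, 13, 14, 27], [4, 6, 20, 26]]),
      (9, [5, 8], [[5, 7, 8, 8]], [[4, 6, 20, 26], [7, 11, 15, 23]]),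
      (11, [4], [[4, 4, 9, 11], [7, 21]], [[6, 10, 16, 24]]),
      (13, [], [[3, 7, 7, 11]], [[4, 6, 22, 24]]),
      (15, [14], [[4, 4, 6, 14], [7, 21]], [[6, 11, 14, 25]]),
      (17, [6, 25, 14], [[3, 6, 19], [7, 7, 14]], [[6, 11, 14, 25], [4, 12, 18, 22]]),
      (19, [], [[2, 6, 20], [4, 11, 13], [7, 21]], []),
      (23, [8], [[1, 8, 8, 11], [7, 21]], [[4, 6, 20, 26]]),
      (25, [13, 4], [[4, 4, 7, 13]], [[6, 10, 16, 24], [7, 11, 15, 23]]),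
      (27, [], [[11, 17], [7, 21], [6, 22], [4, 24]], [])]),
  (28, [10, 8, 7, 3],
    [(3, [6], [[3, 6, 9, 10], [7, 21]], [[2, 8, 22, 24]]),
      (5, [14], [[3, 10, 15], [7, 7, 14]], [[8, 12, 14, 22]]),
      (9, [4, 9], [[4, 7, 8, 9]], [[3, 7, 19, 27], [6, 10, 16, 24]]),
      (11, [11], [[4, 5, 8, 11], [7, 21]], [[3, 10, 17, 26]]),
      (13, [], [[3, 7, 18], [7, 10, 11], [8, 20]], []),
      (15, [], [[3, 8, 17], [7, 21], [8, 10, 10]], []),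
      (17, [14], [[2, 3, 23], [7, 7, 14]], [[8, 10, 14, 24]]),
      (19, [2], [[1, 2, 3, 22], [7, 21]], [[8, 10, 12, 26]]),
      (23, [1], [[1, 3, 8, 16], [7, 21]], [[6, 10, 13, 27]]),
      (25, [16, 1], [[1, 4, 7, 16]], [[3, 7, 19, 27], [8, 10, 12, 26]]),
      (27, [], [[10, 18], [8, 20], [7, 21], [3, 25]], [])]),
  (30, [15, 10, 4, 1],
    [(7, [3], [[15, 15], [3, 7, 10, 10]], [[1, 4, 27, 28]]),
      (11, [], [[1, 14, 15], [4, 11, 15], [10, 20]], []),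
      (13, [9], [[15, 15], [1, 9, 10, 10]], [[4, 13, 21, 22]]),
      (17, [], [[1, 4, 8, 17]], [[10, 15, 15, 20]]),
      (19, [], [[1, 10, 19], [4, 10, 16], [15, 15]], []),
      (23, [], [[1, 2, 4, 23]], [[10, 15, 15, 20]]),
      (29, [], [[15, 15], [10, 20], [4, 26], [1, 29]], [])]),
  (30, [15, 10, 3, 2],
    [(7, [7], [[15, 15], [3, 7, 10, 10]], [[2, 14, 21, 23]]),
      (11, [], [[2, 3, 3, 22]], [[10, 15, 15, 20]]),
      (13, [1], [[15, 15], [1, 9, 10, 10]], [[2, 3, 26, 29]]),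
      (17, [], [[2, 3, 4, 21]], [[10, 15, 15, 20]]),
      (19, [], [[2, 8, 10, 10]], [[3, 15, 15, 27]]),
      (23, [], [[2, 3, 9, 16]], [[10, 15, 15, 20]]),
      (29, [], [[15, 15], [10, 20], [3, 27], [2, 28]], [])]),
  (30, [15, 8, 6, 1],
    [(7, [5], [[15, 15], [5, 6, 7, 12]], [[1, 8, 25, 26]]),
      (11, [7], [[15, 15], [6, 6, 7, 11]], [[1, 8, 23, 28]]),
      (13, [5], [[15, 15], [1, 5, 6, 18]], [[8, 13, 14, 25]]),
      (17, [], [[1, 12, 17], [6, 8, 16], [15, 15]], []),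
      (19, [], [[1, 2, 8, 19]], [[6, 15, 15, 24]]),
      (23, [], [[1, 6, 23], [4, 8, 18], [15, 15]], []),
      (29, [], [[15, 15], [8, 22], [6, 24], [1, 29]], [])]),
  (30, [15, 7, 6, 2],
    [(7, [5], [[15, 15], [5, 6, 7, 12]], [[2, 14, 19, 25]]),
      (11, [], [[2, 6, 22], [6, 7, 17], [15, 15]], []),
      (13, [5], [[15, 15], [1, 5, 6, 18]], [[2, 7, 25, 26]]),
      (17, [8], [[15, 15], [4, 6, 8, 12]], [[2, 7, 22, 29]]),
      (19, [], [[2, 13, 15], [6, 24], [7, 8, 15]], []),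
      (23, [4], [[15, 15], [2, 4, 6, 18]], [[7, 11, 16, 26]]),
      (29, [], [[15, 15], [7, 23], [6, 24], [2, 28]], [])]),
  (30, [15, 6, 5, 4],
    [(7, [7], [[15, 15], [5, 6, 7, 12]], [[4, 5, 23, 28]]),
      (11, [], [[4, 6, 6, 14]], [[5, 15, 15, 25]]),
      (13, [1], [[15, 15], [1, 5, 6, 18]], [[4, 5, 22, 29]]),
      (17, [], [[4, 6, 8, 12]], [[5, 15, 15, 25]]),
      (19, [], [[4, 5, 5, 16]], [[6, 15, 15, 24]]),
      (23, [], [[2, 4, 6, 18]], [[5, 15, 15, 25]]),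
      (29, [], [[15, 15], [6, 24], [5, 25], [4, 26]], [])]),
  (30, [13, 10, 4, 3],
    [(7, [3, 7], [[3, 7, 10, 10]], [[1, 4, 27, 28], [3, 13, 21, 23]]),
      (11, [], [[3, 4, 23], [3, 13, 14], [10, 20]], []),
      (13, [9, 1], [[1, 9, 10, 10]], [[4, 13, 21, 22], [3, 9, 19, 29]]),
      (17, [2], [[2, 3, 4, 21], [10, 20]], [[8, 11, 13, 28]]),
      (19, [], [[3, 27], [4, 10, 16], [7, 10, 13]], []),
      (23, [16], [[2, 3, 9, 16], [10, 20]], [[4, 13, 14, 29]]),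
      (29, [], [[13, 17], [10, 20], [4, 26], [3, 27]], [])]),
  (30, [11, 8, 6, 5],
    [(7, [14], [[5, 8, 17], [5, 11, 14]], [[6, 12, 16, 26]]),
      (11, [7], [[5, 25], [6, 6, 7, 11]], [[1, 8, 23, 28]]),
      (13, [2], [[5, 11, 14], [2, 5, 23]], [[6, 8, 18, 28]]),
      (17, [], [[5, 25], [6, 8, 16], [7, 11, 12]], []),
      (19, [15], [[2, 5, 8, 15], [6, 24]], [[5, 11, 15, 29]]),
      (23, [], [[5, 25], [4, 8, 18], [6, 11, 13]], []),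
      (29, [], [[11, 19], [8, 22], [6, 24], [5, 25]], [])]),
  (30, [10, 9, 7, 4],
    [(7, [], [[3, 7, 10, 10]], [[4, 9, 19, 28]]),
      (11, [], [[4, 9, 17], [7, 9, 14], [10, 20]], []),
      (13, [], [[1, 9, 10, 10]], [[4, 7, 22, 27]]),
      (17, [11], [[4, 7, 8, 11], [10, 20]], [[3, 9, 19, 29]]),
      (19, [], [[4, 10, 16], [7, 10, 13], [9, 21]], []),
      (23, [13], [[2, 4, 11, 13], [10, 20]], [[7, 9, 17, 27]]),
      (29, [], [[10, 20], [9, 21], [7, 23], [4, 26]], [])]),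
  (36, [18, 12, 5, 1],
    [(5, [], [[1, 5, 5, 25]], [[12, 18, 18, 24]]),
      (7, [], [[1, 35], [5, 7, 12, 12], [18, 18]], []),
      (11, [], [[1, 11, 24], [5, 12, 19], [18, 18]], []),
      (13, [6, 18], [[18, 18], [1, 6, 29], [5, 13, 18]], [[12, 12, 18, 30]]),
      (17, [], [[1, 17, 18], [5, 13, 18], [12, 24]], []),
      (19, [], [[1, 12, 23], [5, 12, 19], [18, 18]], []),
      (23, [], [[1, 12, 23], [5, 7, 24], [18, 18]], []),
      (25, [6, 18], [[18, 18], [5, 6, 25], [1, 17, 18]], [[12, 12, 18, 30]]),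
      (29, [], [[1, 1, 5, 29]], [[12, 18, 18, 24]]),
      (31, [], [[5, 31], [1, 11, 12, 12], [18, 18]], []),
      (35, [], [[18, 18], [12, 24], [5, 31], [1, 35]], [])]),
  (36, [18, 11, 4, 3],
    [(5, [1, 13], [[18, 18], [1, 15, 20], [4, 13, 19]], [[3, 11, 23, 35]]),
      (7, [], [[3, 5, 28], [4, 11, 21], [18, 18]], []),
      (11, [], [[3, 33], [4, 8, 11, 13], [18, 18]], []),
      (13, [13], [[18, 18], [3, 4, 13, 16]], [[3, 11, 23, 35]]),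
      (17, [], [[3, 15, 18], [4, 32], [7, 11, 18]], []),
      (19, [], [[3, 4, 29], [4, 11, 21], [18, 18]], []),
      (23, [], [[3, 33], [1, 4, 11, 20], [18, 18]], []),
      (25, [1], [[18, 18], [1, 3, 4, 28]], [[3, 11, 23, 35]]),
      (29, [29, 17], [[18, 18], [3, 4, 29], [8, 11, 17]], [[7, 15, 19, 31]]),
      (31, [], [[4, 11, 21], [3, 16, 17], [18, 18]], []),
      (35, [], [[18, 18], [11, 25], [4, 32], [3, 33]], [])]),
  (36, [18, 8, 7, 3],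
    [(5, [11, 13], [[18, 18], [4, 7, 25], [8, 13, 15]], [[3, 11, 23, 35]]),
      (7, [], [[3, 13, 20], [7, 8, 21], [18, 18]], []),
      (11, [], [[3, 33], [5, 7, 8, 16], [18, 18]], []),
      (13, [11], [[18, 18], [3, 3, 11, 19]], [[7, 8, 25, 32]]),
      (17, [], [[3, 15, 18], [7, 11, 18], [8, 28]], []),
      (19, [], [[3, 8, 25], [7, 8, 21], [18, 18]], []),
      (23, [], [[3, 33], [4, 7, 8, 17], [18, 18]], []),
      (25, [23], [[18, 18], [3, 3, 7, 23]], [[8, 13, 20, 31]]),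
      (29, [31, 17], [[18, 18], [5, 8, 23], [3, 16, 17]], [[7, 15, 19, 31]]),
      (31, [], [[7, 8, 21], [1, 3, 32], [18, 18]], []),
      (35, [], [[18, 18], [8, 28], [7, 29], [3, 33]], [])]),
  (36, [12, 9, 8, 7],
    [(5, [16, 17], [[7, 9, 20], [8, 9, 19], [12, 24]], [[4, 16, 17, 35]]),
      (7, [4], [[4, 7, 12, 13], [9, 27]], [[8, 12, 20, 32]]),
      (11, [], [[5, 7, 24], [8, 12, 16], [9, 27]], []),
      (13, [3, 10, 15], [[3, 7, 26], [8, 9, 19]], [[9, 10, 21, 32], [12, 12, 15, 33]]),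
      (17, [], [[7, 9, 9, 11]], [[8, 12, 24, 28]]),
      (19, [4], [[4, 8, 12, 12], [9, 27]], [[7, 8, 25, 32]]),
      (23, [], [[7, 12, 17], [4, 8, 24], [9, 27]], []),
      (25, [3, 34, 15], [[2, 3, 31], [7, 9, 20]], [[8, 9, 21, 34], [12, 12, 15, 33]]),
      (29, [32, 25], [[4, 9, 23], [9, 11, 16], [12, 24]], [[7, 8, 25, 32]]),
      (31, [16], [[1, 7, 12, 16], [9, 27]], [[8, 12, 20, 32]]),
      (35, [], [[12, 24], [9, 27], [8, 28], [7, 29]], [])]),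
  (42, [21, 14, 6, 1],
    [(5, [], [[1, 5, 6, 30]], [[14, 21, 21, 28]]),
      (11, [], [[1, 6, 11, 24]], [[14, 21, 21, 28]]),
      (13, [], [[1, 13, 14, 14]], [[6, 21, 21, 36]]),
      (17, [], [[1, 6, 17, 18]], [[14, 21, 21, 28]]),
      (19, [3, 4, 11], [[21, 21], [3, 11, 14, 14]], [[1, 6, 38, 39], [4, 19, 30, 31]]),
      (23, [], [[1, 6, 12, 23]], [[14, 21, 21, 28]]),
      (25, [8], [[21, 21], [6, 8, 14, 14]], [[1, 24, 25, 34]]),
      (29, [], [[1, 6, 6, 29]], [[14, 21, 21, 28]]),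
      (31, [9, 40, 5], [[21, 21], [5, 9, 14, 14]], [[2, 18, 31, 33], [1, 6, 37, 40]]),
      (37, [2], [[21, 21], [2, 12, 14, 14]], [[1, 6, 37, 40]]),
      (41, [], [[21, 21], [14, 28], [6, 36], [1, 41]], [])]),
  (42, [21, 14, 5, 2],
    [(5, [], [[2, 5, 10, 25]], [[14, 21, 21, 28]]),
      (11, [], [[2, 5, 13, 22]], [[14, 21, 21, 28]]),
      (13, [], [[2, 14, 26], [5, 14, 23], [21, 21]], []),
      (17, [], [[1, 2, 5, 34]], [[14, 21, 21, 28]]),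
      (19, [3], [[21, 21], [3, 11, 14, 14]], [[2, 5, 38, 39]]),
      (23, [], [[2, 4, 5, 31]], [[14, 21, 21, 28]]),
      (25, [6], [[21, 21], [6, 8, 14, 14]], [[2, 5, 36, 41]]),
      (29, [], [[2, 19, 21], [5, 16, 21], [14, 28]], []),
      (31, [9], [[21, 21], [5, 9, 14, 14]], [[2, 20, 29, 33]]),
      (37, [12], [[21, 21], [2, 12, 14, 14]], [[5, 17, 30, 32]]),
      (41, [], [[21, 21], [14, 28], [5, 37], [2, 40]], [])]),
  (42, [21, 14, 4, 3],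
    [(5, [], [[3, 4, 15, 20]], [[14, 21, 21, 28]]),
      (11, [], [[2, 3, 4, 33]], [[14, 21, 21, 28]]),
      (13, [], [[3, 39], [4, 10, 14, 14], [21, 21]], []),
      (17, [], [[3, 4, 9, 26]], [[14, 21, 21, 28]]),
      (19, [11], [[21, 21], [3, 11, 14, 14]], [[4, 15, 31, 34]]),
      (23, [], [[3, 4, 8, 27]], [[14, 21, 21, 28]]),
      (25, [17, 18], [[21, 21], [3, 14, 25], [4, 14, 24]], [[16, 17, 18, 33]]),
      (29, [], [[3, 3, 4, 32]], [[14, 21, 21, 28]]),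
      (31, [5], [[21, 21], [5, 9, 14, 14]], [[3, 4, 37, 40]]),
      (37, [41, 36], [[21, 21], [1, 14, 27], [6, 14, 22]], [[3, 4, 36, 41]]),
      (41, [], [[21, 21], [14, 28], [4, 38], [3, 39]], [])])]

theorem certs_ok : ∀ e ∈ certs, chkAll e.1 e.2.1 e.2.2 = true := by decide +kernel

/-- the pairs `(m, w)` of `certs` -/
theorem divisible_of_mem {m : ℕ} {w : List ℕ} (h : (m, w) ∈ certs.map fun e => (e.1, e.2.1)) (t : ℕ)
    (h1 : 1 < t) (h2 : t < m) (h3 : Nat.Coprime t m) :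
    Divisible m (w ++ w.map fun x => t * x % m) := by
  obtain ⟨e, he, hew⟩ := List.mem_map.mp h
  have h4 := certs_ok e he
  simp only [Prod.mk.injEq] at hew
  rw [← hew.1, ← hew.2]
  rw [← hew.1] at h2 h3
  exact chkAll_sound h4 t h1 h2 h3

end Pool.Agent.TH540.PC
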