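import Pool.Agent.TH540.Arith

/-!
# Existence of the distribution
-/

set_option linter.unusedSectionVars false

namespace Pool.Agent.TH540

open Finset Pool.Agent.H916R2 Pool.Agent.H916T Pool.Agent.H916U Pool.Agent.H916Z Pool.Agent.H916Q

variable {m p : ℕ}

lemma bezout_vec {P : ∀ i : PF m, GG m i} {e O : ℕ} (hO : Odd O) (hf : P ^ (2 ^ e * O) = 1) :
    ∃ a : ∀ i, GG m i, Odd (orderOf a) ∧ ∃ w : ℤ, P = a * (P ^ O) ^ w := by
  have hc : IsCoprime ((2 ^ e : ℕ) : ℤ) (O : ℤ) := by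
    rw [Nat.isCoprime_iff_coprime]
    exact Nat.Coprime.pow_left _ (Nat.coprime_two_left.mpr hO)
  obtain ⟨u, w, huw⟩ := hc
  refine ⟨P ^ (u * ((2 ^ e : ℕ) : ℤ)), ?_, w, ?_⟩
  · have h1 : (P ^ (u * ((2 ^ e : ℕ) : ℤ))) ^ O = 1 := by
      rw [← zpow_natCast, ← zpow_mul, mul_assoc, ← Nat.cast_mul, mul_comm u, zpow_mul,
        zpow_natCast, hf, one_zpow]
    exact Odd.of_dvd_nat hO (orderOf_dvd_of_pow_eq_one h1)
  · rw [← zpow_natCast P O, ← zpow_mul, ← zpow_add]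
    have h2 : u * ((2 ^ e : ℕ) : ℤ) + (O : ℤ) * w = 1 := by rw [← huw]; ring
    rw [h2, zpow_one]

/-- the starting point -/
lemma core_start {B : Finset (PF m)} {σ π : ∀ i, GG m i} {t : PF m → ∀ i, GG m i}
    (hlσ : ∀ i ∈ B, leg (σ i) = 1) (hlπ : ∀ i ∈ B, leg (π i) = 1) {J : Finset (PF m)}
    (hJB : ∀ j ∈ J, j ∉ B) (hlt : ∀ j ∈ J, ∀ i ∈ B, leg (t j i) = 1)
    (hK : ∀ a b : ℤ, (∀ i ∈ B, σ i ^ a * π i ^ b = 1) →
      Even a ∧ ∀ j ∈ J, σ j ^ a * π j ^ b = 1) :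
    ∃ κ, Core B J ∅ σ π t (fun i => nsq) κ := by
  obtain ⟨β, s, hs, hβ⟩ := exists_sec hK
  have single : ∀ k, k ∉ B → ∀ (y : GG m k), ∀ i ∈ B,
      (Pi.mulSingle k y : ∀ i, GG m i) i = σ i ^ (0 : ℤ) * π i ^ (0 : ℤ) := by
    intro k hk y i hi
    rw [zpow_zero, zpow_zero, mul_one,
      Pi.mulSingle_eq_of_ne (show i ≠ k from fun h => hk (h ▸ hi))]
  have hS : Sec B J σ π β := by
    refine ⟨?_, ?_, ?_⟩
    · intro j hj k hk y x
      have := (hβ (Pi.mulSingle k y) 0 0 (single k hk y) x).2 j hj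
      rwa [zpow_zero, zpow_zero, one_mul, one_mul] at this
    · intro j hj x
      have := (hβ σ 1 0 (fun i _ => by rw [zpow_one, zpow_zero, mul_one]) x).2 j hj
      rwa [zpow_one, zpow_zero, mul_one] at this
    · intro j hj x
      have := (hβ π 0 1 (fun i _ => by rw [zpow_one, zpow_zero, one_mul]) x).2 j hj
      rwa [zpow_one, zpow_zero, one_mul] at this
  set ω0 : (∀ i, GG m i) → ℤ := fun x => s x * ∏ i ∈ B, nsq (x i) with hω0
  have hprod : ∀ z : ∀ i, GG m i, (∀ i ∈ B, leg (z i) = 1) → ∀ x,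
      ∏ i ∈ B, nsq ((z * x) i) = ∏ i ∈ B, nsq (x i) := by
    intro z hz x
    refine prod_congr rfl fun i hi => ?_
    rw [Pi.mul_apply, nsq_mul (hz i hi)]
  obtain ⟨κ, hκ0, hκ⟩ := exists_family hS hJB t ω0 (by
      intro k hk y x
      show s _ * _ = s x * _
      have h1 := (hβ (Pi.mulSingle k y) 0 0 (single k hk y) x).1
      rw [if_pos (by decide : Even (0 : ℤ))] at h1
      rw [h1]
      congr 1
      refine prod_congr rfl fun i hi => ?_
      rw [Pi.mul_apply, Pi.mulSingle_eq_of_ne (show i ≠ k from fun h => hk (h ▸ hi)), one_mul]) (by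
      intro x
      show s _ * _ = -(s x * _)
      have h1 := (hβ σ 1 0 (fun i _ => by rw [zpow_one, zpow_zero, mul_one]) x).1
      rw [if_neg (by decide : ¬ Even (1 : ℤ))] at h1
      rw [h1, hprod σ hlσ]
      ring) (by
      intro x
      show s _ * _ = s x * _
      have h1 := (hβ π 0 1 (fun i _ => by rw [zpow_one, zpow_zero, one_mul]) x).1
      rw [if_pos (by decide : Even (0 : ℤ))] at h1
      rw [h1, hprod π hlπ]) (by
      intro j hj x
      show 2 ∣ s x * _ - s (t j * x) * _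
      rw [hprod (t j) (hlt j hj)]
      rcases hs x with h | h
      · rcases hs (t j * x) with h' | h'
        · rw [h, h', sub_self]; exact dvd_zero 2
        · rw [h, h']; exact ⟨∏ i ∈ B, nsq (x i), by ring⟩
      · rcases hs (t j * x) with h' | h'
        · rw [h, h']; exact ⟨-∏ i ∈ B, nsq (x i), by ring⟩
        · rw [h, h', sub_self]; exact dvd_zero 2) (Fintype.card (PF m))
  refine ⟨κ, ⟨fun T hT => hκ T hT (card_le_univ T), fun T _ i hi => by simp at hi, ?_⟩⟩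
  intro x
  rw [hκ0, sdiff_empty]
  show 2 ∣ s x * _ - _
  rcases hs x with h | h
  · rw [h, one_mul, sub_self]; exact dvd_zero 2
  · rw [h]; exact ⟨-∏ i ∈ B, nsq (x i), by ring⟩

lemma core_all {B J : Finset (PF m)} {σ π : ∀ i, GG m i} {t : PF m → ∀ i, GG m i}
    (hB2 : ∀ i ∈ B, (i : ℕ) ≠ 2)
    (h0 : ∃ κ, Core B J ∅ σ π t (fun i => nsq) κ) :
    ∀ C : Finset (PF m), C ⊆ B → ∃ κ, Core B J C σ π t (fun i => nsq) κ := by
  intro C
  induction C using Finset.induction_on with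
  | empty => intro _; exact h0
  | insert a C haC ih =>
    intro h
    obtain ⟨κ, hκ⟩ := ih (fun x hx => h (mem_insert_of_mem hx))
    have haB : a ∈ B := h (mem_insert_self _ _)
    obtain ⟨g, hg⟩ := exists_leg (hB2 a haB)
    exact ⟨_, core_step hκ haB haC g (nsq_sub hg)⟩

/-- the function for a set of primes congruent to one modulo four -/
theorem exists_phi (hm : m ≠ 0) (hpm : p.Coprime m) (H : Hyp p m) {B : Finset (PF m)}
    (hB : B.Nonempty) (hB1 : ∀ i ∈ B, (i : ℕ) % 4 = 1)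
    (hdead : ∀ k : ℕ, ∃ i ∈ B, ((p : ℕ) : ZMod (i : ℕ)) ^ k ≠ -1) :
    ∃ φ : Finset (PF m) → (∀ i, GG m i) → ℤ, Dist (sg m) (tt m) φ ∧ (∀ x, ¬ 2 ∣ φ B x) ∧
      (∀ V, V ≠ B → ∀ x, 2 ∣ φ V x) ∧ (∀ V, ¬ V ⊆ B ∪ JJ p m B → φ V = fun _ => 0) ∧
      ∀ V x, φ V (vec m p * x) = φ V x := by
  have hpi : ∀ i : PF m, ¬ (i : ℕ) ∣ p := fun i h =>
    not_dvd_of_coprime (pf_prime i) hpm (pf_dvd i) h
  have hB2 : ∀ i ∈ B, (i : ℕ) ≠ 2 := by
    intro i hi h
    have := hB1 i hi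
    omega
  set P := vec m p with hP
  set O := ordCompl[2] (orderOf P) with hOdef
  set e := (orderOf P).factorization 2 with hedef
  have hf : P ^ (2 ^ e * O) = 1 := by
    rw [hedef, hOdef, Nat.ordProj_mul_ordCompl_eq_self]
    exact pow_orderOf_eq_one P
  have hO : Odd O := by
    rw [← Nat.not_even_iff_odd, even_iff_two_dvd]
    exact Nat.not_dvd_ordCompl Nat.prime_two (orderOf_pos P).ne'
  have hJB : ∀ j ∈ JJ p m B, j ∉ B := fun j hj => (mem_JJ.mp hj).1
  have hK := kernel (p := p) hpi hdead (O := O) (e := e) hO hf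
  have h0 : ∃ κ, Core B (JJ p m B) ∅ (sg m) (P ^ O) (tt m) (fun i => nsq) κ := by
    refine core_start ?_ ?_ hJB ?_ hK
    · intro i hi
      simp only [sg]
      exact leg_neg_one (hB1 i hi)
    · intro i hi
      rw [Pi.pow_apply]
      exact leg_pow_one (leg_one_of_sq (hpi i) (H.sqp i (pf_prime i) (hB2 i hi) (pf_dvd i))) _
    · intro j hj i hi
      obtain ⟨hjB, hj2, _⟩ := mem_JJ.mp hj
      have hij : i ≠ j := fun h => hjB (h ▸ hi)
      exact leg_tt_one hij (H.sq i j (pf_prime i) (pf_prime j) (hB2 i hi) hj2 (pf_dvd i)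
        (pf_dvd j) (fun h => hij (Subtype.ext h)))
  obtain ⟨κ, hκ⟩ := core_all hB2 h0 B (Subset.refl _)
  refine exists_dist_eq hB hJB hκ (bezout_vec hO hf) ?_
  intro j hjB hjJ i hi
  have hij : i ≠ j := by
    rintro rfl
    rcases mem_union.mp hi with h | h
    · exact hjB h
    · exact hjJ h
  have hi2 : (i : ℕ) ≠ 2 := by
    rcases mem_union.mp hi with h | h
    · exact hB2 i h
    · exact (mem_JJ.mp h).2.1
  rw [order_tt hij]
  by_cases hj2 : (j : ℕ) = 2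
  · rw [hj2]
    exact H.two (hj2 ▸ pf_dvd j) i (pf_prime i) hi2 (pf_dvd i)
  · have hlt : ∀ k ∈ B, vv p k < vv p j := by
      intro k hk
      by_contra hle
      exact hjJ (mem_JJ.mpr ⟨hjB, hj2, k, hk, not_lt.mp hle⟩)
    have hlt' : vv p i < vv p j := by
      rcases mem_union.mp hi with h | h
      · exact hlt i h
      · obtain ⟨_, _, k, hk, hle⟩ := mem_JJ.mp h
        exact lt_of_le_of_lt hle (hlt k hk)
    exact H.odd i j (pf_prime i) (pf_prime j) hi2 hj2 (pf_dvd i) (pf_dvd j)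
      (fun h => hij (Subtype.ext h)) hlt'

end Pool.Agent.TH540
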