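import Pool.Agent.TH540.Count
import Pool.Agent.TH540.MainG

/-!
# Evenness of a single support consisting of primes congruent to one modulo four
-/

set_option linter.unusedSectionVars false

namespace Pool.Agent.TH540

open Finset Pool.Agent.H916R2 Pool.Agent.H916T Pool.Agent.H916U Pool.Agent.H916Z Pool.Agent.H916Q

variable {m p : ℕ}

/-- the function for a set of primes congruent to one modulo four, local hypotheses -/
theorem exists_phi_loc (hm : m ≠ 0) (hpm : p.Coprime m) {B : Finset (PF m)}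
    (hB : B.Nonempty) (hB1 : ∀ i ∈ B, (i : ℕ) % 4 = 1)
    (hdead : ∀ k : ℕ, ∃ i ∈ B, ((p : ℕ) : ZMod (i : ℕ)) ^ k ≠ -1)
    (hsqp : ∀ i ∈ B, IsSquare ((p : ℕ) : ZMod (i : ℕ)))
    (hsq : ∀ i ∈ B, ∀ j : PF m, j ∉ B → (j : ℕ) ≠ 2 → IsSquare ((j : ℕ) : ZMod (i : ℕ)))
    (hvv : ∀ j : PF m, j ∉ B → (j : ℕ) ≠ 2 → ∃ i ∈ B, vv p j ≤ vv p i)
    (htwo : 2 ∣ m → ∀ i : PF m, (i : ℕ) ≠ 2 → Odd (orderOf ((2 : ℕ) : ZMod (i : ℕ)))) :
    ∃ φ : Finset (PF m) → (∀ i, GG m i) → ℤ, Dist (sg m) (tt m) φ ∧ (∀ x, ¬ 2 ∣ φ B x) ∧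
      (∀ V, V ≠ B → ∀ x, 2 ∣ φ V x) ∧ (∀ V, ¬ V ⊆ B ∪ JJ p m B → φ V = fun _ => 0) ∧
      ∀ V x, φ V (vec m p * x) = φ V x := by
  have hpi : ∀ i : PF m, ¬ (i : ℕ) ∣ p := fun i h =>
    not_dvd_of_coprime (pf_prime i) hpm (pf_dvd i) h
  have hB2 : ∀ i ∈ B, (i : ℕ) ≠ 2 := by
    intro i hi h
    have := hB1 i hi
    omega
  set P := vec m p with hP
  set O := ordCompl[2] (orderOf P) with hOdef
  set e := (orderOf P).factorization 2 with hedef
  have hf : P ^ (2 ^ e * O) = 1 := by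
    rw [hedef, hOdef, Nat.ordProj_mul_ordCompl_eq_self]
    exact pow_orderOf_eq_one P
  have hO : Odd O := by
    rw [← Nat.not_even_iff_odd, even_iff_two_dvd]
    exact Nat.not_dvd_ordCompl Nat.prime_two (orderOf_pos P).ne'
  have hJB : ∀ j ∈ JJ p m B, j ∉ B := fun j hj => (mem_JJ.mp hj).1
  have hK := kernel (p := p) hpi hdead (O := O) (e := e) hO hf
  have h0 : ∃ κ, Core B (JJ p m B) ∅ (sg m) (P ^ O) (tt m) (fun i => nsq) κ := by
    refine core_start ?_ ?_ hJB ?_ hK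
    · intro i hi
      simp only [sg]
      exact leg_neg_one (hB1 i hi)
    · intro i hi
      rw [Pi.pow_apply]
      exact leg_pow_one (leg_one_of_sq (hpi i) (hsqp i hi)) _
    · intro j hj i hi
      obtain ⟨hjB, hj2, _⟩ := mem_JJ.mp hj
      have hij : i ≠ j := fun h => hjB (h ▸ hi)
      exact leg_tt_one hij (hsq i hi j hjB hj2)
  obtain ⟨κ, hκ⟩ := core_all hB2 h0 B (Subset.refl _)
  refine exists_dist_eq hB hJB hκ (bezout_vec hO hf) ?_
  intro j hjB hjJ i hi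
  have hij : i ≠ j := by
    rintro rfl
    rcases mem_union.mp hi with h | h
    · exact hjB h
    · exact hjJ h
  have hi2 : (i : ℕ) ≠ 2 := by
    rcases mem_union.mp hi with h | h
    · exact hB2 i h
    · exact (mem_JJ.mp h).2.1
  rw [order_tt hij]
  by_cases hj2 : (j : ℕ) = 2
  · rw [hj2]
    exact htwo (hj2 ▸ pf_dvd j) i hi2
  · exact absurd (mem_JJ.mpr ⟨hjB, hj2, hvv j hjB hj2⟩) hjJ

/-- supports consisting of primes congruent to one modulo four -/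
theorem even_one_loc [NeZero m] (hpm : p.Coprime m) {s : Multiset (ZMod m)}
    (hs : Rel0 p s) {S : Finset ℕ} (hS : S ⊆ m.primeFactors) (hne : S.Nonempty)
    (hS1 : ∀ q ∈ S, q % 4 = 1) (hdead : ¬ H916Y.Dead p S)
    (hsqp : ∀ q ∈ S, IsSquare ((p : ℕ) : ZMod q))
    (hsq : ∀ q ∈ S, ∀ j : ℕ, j.Prime → j ∣ m → j ∉ S → j ≠ 2 → IsSquare ((j : ℕ) : ZMod q))
    (hvv : ∀ j : ℕ, j.Prime → j ∣ m → j ∉ S → j ≠ 2 → ∃ q ∈ S, vv p j ≤ vv p q)
    (htwo : 2 ∣ m → ∀ j : ℕ, j.Prime → j ∣ m → j ≠ 2 → Odd (orderOf ((2 : ℕ) : ZMod j))) :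
    Even (s.countP (Supp S)) := by
  classical
  set B := H916Y.FS m S with hBdef
  have hB : B.Nonempty := by
    obtain ⟨q, hq⟩ := hne
    exact ⟨⟨q, hS hq⟩, H916Y.mem_FS.mpr hq⟩
  have hB1 : ∀ i ∈ B, (i : ℕ) % 4 = 1 := fun i hi => hS1 _ (H916Y.mem_FS.mp hi)
  have hnd : ∀ k : ℕ, ∃ i ∈ B, ((p : ℕ) : ZMod (i : ℕ)) ^ k ≠ -1 := by
    intro k
    by_contra hcon
    push Not at hcon
    apply hdead
    refine ⟨k, ?_⟩
    refine Finset.prod_primes_dvd _ (fun q hq => ?_) (fun q hq => ?_)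
    · exact (Nat.prime_of_mem_primeFactors (hS hq)).prime
    · have h1 := hcon ⟨q, hS hq⟩ (H916Y.mem_FS.mpr hq)
      rw [← ZMod.natCast_eq_zero_iff]
      push_cast
      rw [h1]; ring
  have hnS : ∀ j : PF m, j ∉ B → (j : ℕ) ∉ S := fun j hj h => hj (H916Y.mem_FS.mpr h)
  obtain ⟨φ, hφ, h1, h2, h3, h4⟩ := exists_phi_loc (NeZero.ne m) hpm hB hB1 hnd
    (fun i hi => hsqp i (H916Y.mem_FS.mp hi))
    (fun i hi j hj hj2 => hsq i (H916Y.mem_FS.mp hi) j (pf_prime j) (pf_dvd j) (hnS j hj) hj2)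
    (fun j hj hj2 => by
      obtain ⟨q, hq, h⟩ := hvv j (pf_prime j) (pf_dvd j) (hnS j hj) hj2
      exact ⟨⟨q, hS hq⟩, H916Y.mem_FS.mpr hq, h⟩)
    (fun h2 i hi => htwo h2 i (pf_prime i) (pf_dvd i) hi)
  have h5 := even_of_dist hpm hs hφ h1 h2 h3 subset_union_left (by
    intro i hi h
    rcases mem_union.mp hi with h' | h'
    · have := hB1 i h'
      omega
    · exact (mem_JJ.mp h').2.1 h) h4
  have h6 : s.countP (Supp S) = s.countP fun a => H916Q.TT m (addOrderOf a) = B := by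
    apply Multiset.countP_congr rfl
    intro a _
    rw [← TT_eq_iff hS]
    rfl
  rw [h6]
  exact h5

/-- the primes dividing `n` are congruent to one modulo four and squares force an even number -/
def SqEven (p m n : ℕ) : Prop :=
  (∀ q : ℕ, q.Prime → q ∣ n → q % 4 = 1 ∧ IsSquare ((p : ℕ) : ZMod q)) ∧
    (∀ j : ℕ, j.Prime → Odd j → j ∣ m → ¬ j ∣ n →
      (∀ q : ℕ, q.Prime → q ∣ n → IsSquare ((j : ℕ) : ZMod q)) ∧
      ∃ q : ℕ, q.Prime ∧ q ∣ n ∧ vv p j ≤ vv p q) ∧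
    (4 ∣ m → ∀ j : ℕ, j.Prime → Odd j → j ∣ m → Odd (orderOf ((2 : ℕ) : ZMod j)))

theorem even_sq {m : ℕ} (hm : 0 < m) (hpm : p.Coprime m) {s : Multiset (ZMod m)} (hs : Rel0 p s)
    {S : Finset ℕ} (hne : S.Nonempty) (h2 : 2 ∉ S) (hSm : S ⊆ m.primeFactors)
    (hdead : ¬ H916Y.Dead p S) (hR : SqEven p m (∏ q ∈ S, q)) : Even (s.countP (Supp S)) := by
  have hz : NeZero m := ⟨hm.ne'⟩
  obtain ⟨ha, hb, hc⟩ := hR
  have hdvd : ∀ j : ℕ, j.Prime → (j ∣ ∏ q ∈ S, q ↔ j ∈ S) := by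
    intro j hjp
    constructor
    · intro h
      obtain ⟨q, hq, hjq⟩ := (hjp.prime.dvd_finsetProd_iff _).mp h
      rwa [(Nat.prime_dvd_prime_iff_eq hjp (Nat.prime_of_mem_primeFactors (hSm hq))).mp hjq]
    · exact fun h => Finset.dvd_prod_of_mem _ h
  have hpr : ∀ q ∈ S, q.Prime := fun q hq => Nat.prime_of_mem_primeFactors (hSm hq)
  have hodd : ∀ j : ℕ, j.Prime → j ≠ 2 → Odd j := fun j hj h => hj.odd_of_ne_two h
  have main : ∀ n : ℕ, 0 < n → n ∣ m → (2 ∣ n → 4 ∣ m) → S ⊆ n.primeFactors →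
      ∀ x' : Multiset (ZMod n), Rel0 p x' → Even (x'.countP (Supp S)) := by
    intro n hn hnm h24 hSn x' hx'
    have hzn : NeZero n := ⟨hn.ne'⟩
    refine even_one_loc (Nat.Coprime.coprime_dvd_right hnm hpm) hx' hSn hne ?_ hdead ?_ ?_ ?_ ?_
    · exact fun q hq => (ha q (hpr q hq) ((hdvd q (hpr q hq)).mpr hq)).1
    · exact fun q hq => (ha q (hpr q hq) ((hdvd q (hpr q hq)).mpr hq)).2
    · intro q hq j hj hjn hjS hj2
      exact (hb j hj (hodd j hj hj2) (hjn.trans hnm) (fun h => hjS ((hdvd j hj).mp h))).1 q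
        (hpr q hq) ((hdvd q (hpr q hq)).mpr hq)
    · intro j hj hjn hjS hj2
      obtain ⟨q, hq, hqn, h⟩ := (hb j hj (hodd j hj hj2) (hjn.trans hnm)
        (fun h => hjS ((hdvd j hj).mp h))).2
      exact ⟨q, (hdvd q hq).mp hqn, h⟩
    · intro h j hj hjn hj2
      exact hc (h24 h) j hj (hodd j hj hj2) (hjn.trans hnm)
  by_cases h4m : 4 ∣ m
  · exact main m hm (dvd_refl m) (fun _ => h4m) hSm s hs
  · refine H916Y.even_odd_level hm h4m hpm hs h2 ?_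
    intro n hn hn2 hnm hr x' hx'
    refine main n hn hnm (fun h => absurd h hn2) ?_ x' hx'
    intro q hq
    exact Nat.mem_primeFactors.mpr ⟨hpr q hq, hr q (hpr q hq) (fun h => h2 (h ▸ hq))
      (Nat.dvd_of_mem_primeFactors (hSm hq)), hn.ne'⟩

end Pool.Agent.TH540
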