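import Pool.Agent.H916Y.Fams3

/-!
# Residues of odd order linked to residues of even order
-/

set_option linter.unusedSectionVars false

namespace Pool.Agent.TH540

open Finset Pool.Agent.H916R2 Pool.Agent.H916T Pool.Agent.H916U Pool.Agent.H916Z Pool.Agent.H916Q

variable {p M : ℕ} [NeZero M]

lemma W_two (hp : p.Coprime M) {d : ℕ} (hd : 2 * d = M) (a : ZMod M) :
    W p a + W p (a + (d : ZMod M)) = W p (2 * a) := by
  have h := W_dist_unit hp hd 1 a
  rw [sum_range_succ, sum_range_one] at h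
  simp only [Nat.cast_zero, zero_mul, add_zero, Nat.cast_one, one_mul, Nat.cast_ofNat,
    Units.val_one] at h
  exact h

/-- the Stickelberger function at the sum with an element of order four -/
lemma W_quarter (hp : p.Coprime M) (hp4 : p % 4 = 3) {d : ℕ} (hd : 4 * d = M) {f k : ℕ}
    (hf : Odd f) {x : ZMod M} (hfx : (p : ZMod M) ^ f * x = x)
    (hk : (p : ZMod M) ^ k * x = -(2 * x)) :
    W p (x + (d : ZMod M)) = W p x ∧ W p (x - (d : ZMod M)) = W p x := by
  set z : ZMod M := (d : ZMod M) with hz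
  have h4z : 4 * z = 0 := by
    have h1 : ((4 * d : ℕ) : ZMod M) = 0 := by rw [hd]; simp
    rw [hz]
    push_cast at h1
    exact h1
  have hpz : (p : ZMod M) * z = -z := by
    obtain ⟨c, hc⟩ : ∃ c, p = 4 * c + 3 := ⟨p / 4, by omega⟩
    rw [hc]
    push_cast
    linear_combination ((c : ZMod M) + 1) * h4z
  have hpfz : ∀ n : ℕ, (p : ZMod M) ^ n * z = (-1) ^ n * z := by
    intro n
    induction n with
    | zero => simp
    | succ n ih => rw [pow_succ, mul_assoc, hpz, mul_neg, ih]; ring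
  have h1 : W p (x + z) = W p (x - z) := by
    have h2 := W_pow_mul p f (x + z)
    rw [mul_add, hfx, hpfz, hf.neg_one_pow] at h2
    rw [← h2]
    congr 1
    ring
  have h3 := W_two hp (d := 2 * d) (by omega) (x + z)
  have h4 : x + z + ((2 * d : ℕ) : ZMod M) = x - z := by
    push_cast
    linear_combination h4z
  rw [h4] at h3
  have h5 := W_two hp (d := 2 * d) (by omega) (2 * x)
  have h6 : 2 * x + ((2 * d : ℕ) : ZMod M) = 2 * (x + z) := by
    push_cast; ring
  rw [h6] at h5
  have h7 : W p (2 * x) = - W p x := by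
    have h8 := W_pow_mul p k x
    rw [hk, W_neg] at h8
    omega
  have h9 : W p (2 * (2 * x)) = W p x := by
    have h10 := W_pow_mul p k (-(2 * x))
    have h11 : (p : ZMod M) ^ k * -(2 * x) = 2 * (2 * x) := by
      have : (p : ZMod M) ^ k * -(2 * x) = -2 * ((p : ZMod M) ^ k * x) := by ring
      rw [this, hk]; ring
    rw [h11, W_neg, h7] at h10
    omega
  constructor <;> omega

/-- multiples of an element of order four -/
lemma unit_quarter {d : ℕ} (hd : 4 * d = M) (t : (ZMod M)ˣ) :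
    (t : ZMod M) * (d : ZMod M) = d ∨ (t : ZMod M) * (d : ZMod M) = -(d : ZMod M) := by
  have h4z : 4 * (d : ZMod M) = 0 := by
    have h1 : ((4 * d : ℕ) : ZMod M) = 0 := by rw [hd]; simp
    push_cast at h1
    exact h1
  have hodd : ¬ 2 ∣ (t : ZMod M).val := by
    intro h
    have h1 := ZMod.val_coe_unit_coprime t
    have h2 : 2 ∣ Nat.gcd (t : ZMod M).val M := Nat.dvd_gcd h ⟨2 * d, by omega⟩
    rw [h1.gcd_eq_one] at h2
    omega
  have ht : ((t : ZMod M).val : ZMod M) = (t : ZMod M) := ZMod.natCast_zmod_val _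
  rcases (by omega : (t : ZMod M).val % 4 = 1 ∨ (t : ZMod M).val % 4 = 3) with h | h
  · left
    obtain ⟨c, hc⟩ : ∃ c, (t : ZMod M).val = 4 * c + 1 := ⟨(t : ZMod M).val / 4, by omega⟩
    rw [← ht, hc]
    push_cast
    linear_combination (c : ZMod M) * h4z
  · right
    obtain ⟨c, hc⟩ : ∃ c, (t : ZMod M).val = 4 * c + 3 := ⟨(t : ZMod M).val / 4, by omega⟩
    rw [← ht, hc]
    push_cast
    linear_combination ((c : ZMod M) + 1) * h4z

/-- congruent integers have the same multiples -/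
lemma mul_eq_of_mod {n : ℕ} {x : ZMod M} (hx : (n : ZMod M) * x = 0) {a b : ℤ}
    (h : ((a : ℤ) : ZMod n) = ((b : ℤ) : ZMod n)) : (a : ZMod M) * x = (b : ZMod M) * x := by
  rw [ZMod.intCast_eq_intCast_iff_dvd_sub] at h
  obtain ⟨c, hc⟩ := h
  have h1 : ((b - a : ℤ) : ZMod M) * x = 0 := by
    rw [hc]
    push_cast
    linear_combination (c : ZMod M) * hx
  push_cast at h1
  linear_combination -h1

/-- **The link.** -/
theorem link_even (hp : p.Coprime M) (hp4 : p % 4 = 3) (h4 : 4 ∣ M) {n : ℕ} (hn2 : ¬ 2 ∣ n)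
    {f k : ℕ} (hf : Odd f) (hfn : ((p : ℕ) : ZMod n) ^ f = 1) (hk : ((p : ℕ) : ZMod n) ^ k = -2)
    {x : ZMod M} (hx0 : x ≠ 0) (hx : (n : ZMod M) * x = 0) :
    ∃ y : ZMod M, y ≠ 0 ∧ 2 ∣ addOrderOf y ∧ Link p x y := by
  obtain ⟨d, hd'⟩ := h4
  have hd : 4 * d = M := hd'.symm
  have hM : 0 < M := NeZero.pos M
  set z : ZMod M := (d : ZMod M) with hz
  have h4z : 4 * z = 0 := by
    have h1 : ((4 * d : ℕ) : ZMod M) = 0 := by rw [hd]; simp
    rw [hz]
    push_cast at h1
    exact h1
  have h2z : 2 * z ≠ 0 := by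
    intro h
    have h1 : ((2 * d : ℕ) : ZMod M) = 0 := by push_cast; exact h
    rw [ZMod.natCast_eq_zero_iff] at h1
    have := Nat.le_of_dvd (by omega) h1
    omega
  -- odd multiples of z do not vanish
  have hzodd : ∀ j : ℕ, ¬ 2 ∣ j → (j : ZMod M) * z ≠ 0 := by
    intro j hj h
    apply h2z
    obtain ⟨c, hc⟩ : ∃ c, j = 2 * c + 1 := ⟨j / 2, by omega⟩
    rw [hc] at h
    push_cast at h
    linear_combination 2 * h - (c : ZMod M) * h4z
  have hmul : ∀ u : ZMod M, (n : ZMod M) * u = 0 →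
      (p : ZMod M) ^ f * u = u ∧ (p : ZMod M) ^ k * u = -(2 * u) := by
    intro u hu
    constructor
    · have h1 := mul_eq_of_mod (a := ((p ^ f : ℕ) : ℤ)) (b := 1) hu (by
        push_cast; exact hfn)
      push_cast at h1
      rw [h1, one_mul]
    · have h1 := mul_eq_of_mod (a := ((p ^ k : ℕ) : ℤ)) (b := -2) hu (by
        push_cast; exact hk)
      push_cast at h1
      rw [h1]; ring
  have hy0 : ∀ j : ℕ, ¬ 2 ∣ j → (j : ZMod M) * (x + z) ≠ 0 := by
    intro j hj h
    apply hzodd (n * j) (fun h' => ((Nat.prime_two.dvd_mul).mp h').elim hn2 hj)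
    push_cast
    linear_combination (n : ZMod M) * h - (j : ZMod M) * hx
  refine ⟨x + z, ?_, ?_, ?_⟩
  · intro h
    apply hy0 1 (by norm_num)
    rw [h, mul_zero]
  · by_contra h
    apply hy0 _ h
    rw [← nsmul_eq_mul]
    exact addOrderOf_nsmul_eq_zero _
  · refine ⟨hx0, ?_, Or.inr (Or.inr ?_)⟩
    · intro h
      apply hy0 1 (by norm_num)
      rw [h, mul_zero]
    · intro t
      have htx : (n : ZMod M) * ((t : ZMod M) * x) = 0 := by
        linear_combination (t : ZMod M) * hx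
      obtain ⟨h1, h2⟩ := hmul _ htx
      have h3 := W_quarter hp hp4 hd hf h1 h2
      rw [mul_add]
      rcases unit_quarter hd t with h | h
      · rw [h, h3.1]
      · rw [h, ← sub_eq_add_neg, h3.2]

end Pool.Agent.TH540
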