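import Pool.Agent.TH540.DF

/-!
# Supports whose parities can be corrected: powers of two
-/

set_option linter.unusedSectionVars false

namespace Pool.Agent.TH540

open Finset Pool.Agent.H916R2 Pool.Agent.H916T Pool.Agent.H916U Pool.Agent.H916Z Pool.Agent.H916Q

variable {p : ℕ}

section expo

variable {D : ℕ}

lemma pow_one_of (h4 : ((p : ℕ) : ZMod D) ^ 4 = 1) {k : ℕ} (hk : 4 ∣ k) :
    ((p : ℕ) : ZMod D) ^ k = 1 := by
  obtain ⟨j, rfl⟩ := hk
  rw [pow_mul, h4, one_pow]

lemma pow_self_of (h4 : ((p : ℕ) : ZMod D) ^ 4 = 1) {s : ℕ} (hs : s % 4 = 1) :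
    ((p : ℕ) : ZMod D) ^ s = p := by
  have h : s = 4 * (s / 4) + 1 := by omega
  rw [h, pow_succ, pow_mul, h4, one_pow, one_mul]

lemma exists_four {n f : ℕ} (hf : Odd f) (hfn : ((p : ℕ) : ZMod n) ^ f = 1) (k : ℕ) :
    ∃ k', 4 ∣ k' ∧ ((p : ℕ) : ZMod n) ^ k' = ((p : ℕ) : ZMod n) ^ k := by
  obtain ⟨c, hc⟩ := hf
  refine ⟨k + f * (3 * f * k), ?_, ?_⟩
  · refine ⟨k * (3 * c ^ 2 + 3 * c + 1), ?_⟩
    rw [hc]; ring
  · rw [pow_add, pow_mul, hfn, one_pow, mul_one]

lemma exists_sq {n f : ℕ} (hf : Odd f) (hfn : ((p : ℕ) : ZMod n) ^ f = 1) :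
    ∃ s, s % 4 = 1 ∧ ((p : ℕ) : ZMod n) ^ s = 1 := by
  obtain ⟨c, hc⟩ := hf
  refine ⟨f * f, ?_, by rw [pow_mul, hfn, one_pow]⟩
  have h : f * f = 4 * (c ^ 2 + c) + 1 := by rw [hc]; ring
  omega

lemma four8 (hp : p % 2 = 1) : ((p : ℕ) : ZMod 8) ^ 4 = 1 := by
  rw [← ZMod.natCast_mod p 8]
  rcases (by omega : p % 8 = 1 ∨ p % 8 = 3 ∨ p % 8 = 5 ∨ p % 8 = 7) with h | h | h | h <;>
    rw [h] <;> decide

lemma four4 (hp : p % 2 = 1) : ((p : ℕ) : ZMod 4) ^ 4 = 1 := by
  rw [← ZMod.natCast_mod p 4]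
  rcases (by omega : p % 4 = 1 ∨ p % 4 = 3) with h | h <;> rw [h] <;> decide

lemma four3 (hp : p % 3 ≠ 0) : ((p : ℕ) : ZMod 3) ^ 4 = 1 := by
  rw [← ZMod.natCast_mod p 3]
  rcases (by omega : p % 3 = 1 ∨ p % 3 = 2) with h | h <;> rw [h] <;> decide

lemma four5 (hp : p % 5 ≠ 0) : ((p : ℕ) : ZMod 5) ^ 4 = 1 := by
  rw [← ZMod.natCast_mod p 5]
  rcases (by omega : p % 5 = 1 ∨ p % 5 = 2 ∨ p % 5 = 3 ∨ p % 5 = 4) with h | h | h | h <;>
    rw [h] <;> decide

lemma cast_of_mod {c : ℕ} (h : p % D = c) : ((p : ℕ) : ZMod D) = ((c : ℕ) : ZMod D) := by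
  rw [← ZMod.natCast_mod p D, h]

end expo

section level

variable {M : ℕ} [NeZero M]

lemma aux_mul {d : ℕ} {D : ℕ} (hD : D * d = M) {j : ℕ} {c : ℤ}
    (h : ((p : ℕ) : ZMod D) ^ j = ((c : ℤ) : ZMod D)) :
    (p : ZMod M) ^ j * (d : ZMod M) = (c : ZMod M) * (d : ZMod M) := by
  have h0 : (D : ZMod M) * (d : ZMod M) = 0 := by rw [← Nat.cast_mul, hD]; simp
  have h1 := mul_eq_of_mod (a := ((p ^ j : ℕ) : ℤ)) (b := c) h0 (by push_cast; exact h)
  push_cast at h1
  exact h1

lemma elem_mul {n : ℕ} {u : ZMod M} (hn : (n : ZMod M) * u = 0) {j : ℕ} {c : ℤ}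
    (h : ((p : ℕ) : ZMod n) ^ j = ((c : ℤ) : ZMod n)) :
    (p : ZMod M) ^ j * u = (c : ZMod M) * u := by
  have h1 := mul_eq_of_mod (a := ((p ^ j : ℕ) : ℤ)) (b := c) hn (by push_cast; exact h)
  push_cast at h1
  exact h1

lemma order_mul_zero {n : ℕ} {u : ZMod M} (hu : addOrderOf u = n) : (n : ZMod M) * u = 0 := by
  rw [← nsmul_eq_mul, ← hu]
  exact addOrderOf_nsmul_eq_zero u

lemma null_even {d : ℕ} (hd : 2 * d = M) {a : ZMod M} (ha : a ≠ 0) (h2 : 2 ∣ addOrderOf a) :
    Null p a := by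
  refine ⟨(d : ZMod M), half_ne_zero hd, ?_, Relation.EqvGen.rel _ _ (half_link hd ha h2)⟩
  apply H916Y.pw_half
  rw [← two_mul]
  exact two_mul_half hd

lemma null_half {d : ℕ} (hd : 2 * d = M) : Null p (d : ZMod M) := by
  refine ⟨(d : ZMod M), half_ne_zero hd, ?_, Relation.EqvGen.refl _⟩
  apply H916Y.pw_half
  rw [← two_mul]
  exact two_mul_half hd

lemma null_pw {a : ZMod M} (ha : a ≠ 0) (h : H916Y.PW p a) : Null p a :=
  ⟨a, ha, h, Relation.EqvGen.refl _⟩

/-- sums with elements of two power order -/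
lemma even_elem {h : ℕ} (hd : 2 * h = M) {n : ℕ} (hn2 : ¬ 2 ∣ n) {v x c : ZMod M}
    (hn : (n : ZMod M) * v = 0) (hc : c * x = (h : ZMod M)) :
    v + x ≠ 0 ∧ 2 ∣ addOrderOf (v + x) := by
  have hh0 : (h : ZMod M) ≠ 0 := half_ne_zero hd
  have h2h : 2 * (h : ZMod M) = 0 := two_mul_half hd
  have key : ∀ j : ℕ, ¬ 2 ∣ j → (j : ZMod M) * (v + x) ≠ 0 := by
    intro j hj h0
    apply hh0
    have h1 : ((n * j : ℕ) : ZMod M) * x = 0 := by
      push_cast
      linear_combination (n : ZMod M) * h0 - (j : ZMod M) * hn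
    have h2 : ((n * j : ℕ) : ZMod M) * (h : ZMod M) = 0 := by
      rw [← hc]
      linear_combination c * h1
    have hodd : ¬ 2 ∣ n * j := fun h' => (Nat.prime_two.dvd_mul.mp h').elim hn2 hj
    obtain ⟨e, he⟩ : ∃ e, n * j = 2 * e + 1 := ⟨n * j / 2, by omega⟩
    rw [he] at h2
    push_cast at h2
    linear_combination h2 - (e : ZMod M) * h2h
  refine ⟨?_, ?_⟩
  · intro h0
    apply key 1 (by norm_num)
    rw [h0, mul_zero]
  · by_contra h0
    apply key _ h0
    rw [← nsmul_eq_mul]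
    exact addOrderOf_nsmul_eq_zero _

lemma el_even {a b : ZMod M} (ha : a ≠ 0 ∧ 2 ∣ addOrderOf a) (hb : b ≠ 0 ∧ 2 ∣ addOrderOf b) :
    EL p a b :=
  Relation.EqvGen.rel _ _ ⟨ha.1, hb.1, Or.inr (Or.inl ⟨ha.2, hb.2⟩)⟩

lemma el_supp {a b : ZMod M} (ha : a ≠ 0) (hb : b ≠ 0)
    (h : (addOrderOf a).primeFactors = (addOrderOf b).primeFactors) : EL p a b :=
  Relation.EqvGen.rel _ _ ⟨ha, hb, Or.inl h⟩

lemma ne_zero_of_order {n : ℕ} {u : ZMod M} (hu : addOrderOf u = n) (hn1 : n ≠ 1) : u ≠ 0 := by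
  rintro rfl
  rw [addOrderOf_zero] at hu
  exact hn1 hu.symm

lemma order_unit (t : (ZMod M)ˣ) (v : ZMod M) : addOrderOf ((t : ZMod M) * v) = addOrderOf v := by
  apply addOrderOf_eq_addOrderOf_iff.mpr
  intro j
  constructor
  · intro h
    have h1 : (t : ZMod M) * (j • v) = 0 := by rw [← h]; simp only [nsmul_eq_mul]; ring
    exact (t.isUnit.mul_right_eq_zero).mp h1
  · intro h
    have h1 : j • ((t : ZMod M) * v) = (t : ZMod M) * (j • v) := by
      simp only [nsmul_eq_mul]; ring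
    rw [h1, h, mul_zero]

lemma order_pow (hp : p.Coprime M) (i : ℕ) (v : ZMod M) :
    addOrderOf ((p : ZMod M) ^ i * v) = addOrderOf v := by
  have h := order_unit ((isUnit_p hp).unit ^ i) v
  simpa using h

lemma order_two {n : ℕ} {u : ZMod M} (hu : addOrderOf u = n) (c : ℕ) (hc : Nat.Coprime n c) :
    addOrderOf ((c : ZMod M) * u) = n := by
  rw [← nsmul_eq_mul, Nat.Coprime.addOrderOf_nsmul (by rw [hu]; exact hc), hu]

end level

section rules

variable {M n : ℕ} [NeZero M] {u : ZMod M}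

/-- the rule for minus one -/
theorem fix_neg_one (hu : addOrderOf u = n) (hn1 : n ≠ 1) {k : ℕ}
    (hk : ((p : ℕ) : ZMod n) ^ k = -1) : Null p u := by
  refine null_pw (ne_zero_of_order hu hn1) (H916Y.pw_of_pow (j := k) ?_)
  have h := elem_mul (c := -1) (order_mul_zero hu) (by push_cast; exact hk)
  push_cast at h
  rw [h]; ring

/-- the rule for minus two, characteristic three modulo four -/
theorem fix_two3 (hp : p.Coprime M) (hp4 : p % 4 = 3) (h4 : 4 ∣ M) (hu : addOrderOf u = n)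
    (hn1 : n ≠ 1) (hn2 : ¬ 2 ∣ n) {f k : ℕ} (hf : Odd f) (hfn : ((p : ℕ) : ZMod n) ^ f = 1)
    (hk : ((p : ℕ) : ZMod n) ^ k = -2) : Null p u := by
  obtain ⟨y, hy0, hy2, hxy⟩ := link_even hp hp4 h4 hn2 hf hfn hk (ne_zero_of_order hu hn1)
    (order_mul_zero hu)
  obtain ⟨d, hd⟩ := h4
  have hd2 : 2 * (2 * d) = M := by omega
  exact Null.of_el (Relation.EqvGen.rel _ _ hxy) (null_even hd2 hy0 hy2)

/-- the rule for minus four -/
theorem fix_four (hp : p.Coprime M) (hp4 : p % 4 = 3) (h4 : 4 ∣ M) (hu : addOrderOf u = n)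
    (hn1 : n ≠ 1) (hn2 : ¬ 2 ∣ n) {f k : ℕ} (hf : Odd f) (hfn : ((p : ℕ) : ZMod n) ^ f = 1)
    (hk : ((p : ℕ) : ZMod n) ^ k = -4) : Fix p u := by
  obtain ⟨d, hd'⟩ := h4
  have hd : 4 * d = M := hd'.symm
  have hd2 : 2 * (2 * d) = M := by omega
  have hcast : ((2 * d : ℕ) : ZMod M) = 2 * (d : ZMod M) := by push_cast; rfl
  have hu0 := ne_zero_of_order hu hn1
  have hnu := order_mul_zero hu
  have h4 := four4 (p := p) (by omega)
  obtain ⟨s, hs, hsn⟩ := exists_sq hf hfn
  obtain ⟨k', hk', hkn⟩ := exists_four hf hfn k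
  rw [hk] at hkn
  have hsu : (p : ZMod M) ^ s * u = u := by
    have h := elem_mul (c := 1) hnu (by push_cast; exact hsn)
    push_cast at h
    rw [h, one_mul]
  have hku : (p : ZMod M) ^ k' * u = -(4 * u) := by
    have h := elem_mul (c := -4) hnu (by push_cast; exact hkn)
    push_cast at h
    rw [h]; ring
  have hsz : (p : ZMod M) ^ s * (d : ZMod M) = -(d : ZMod M) := by
    have h := aux_mul (c := -1) hd (j := s) (p := p) (by
      rw [pow_self_of h4 hs, cast_of_mod hp4]; decide)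
    push_cast at h
    rw [h]; ring
  have hkz : (p : ZMod M) ^ k' * (d : ZMod M) = (d : ZMod M) := by
    have h := aux_mul (c := 1) hd (j := k') (p := p) (by rw [pow_one_of h4 hk']; simp)
    push_cast at h
    rw [h, one_mul]
  have hcop2 : Nat.Coprime n 2 := (Nat.coprime_comm.mp (Nat.prime_two.coprime_iff_not_dvd.mpr hn2))
  have ho2 : addOrderOf (2 * u) = n := by
    have h := order_two hu 2 hcop2
    push_cast at h
    exact h
  have h2u0 : 2 * u ≠ 0 := ne_zero_of_order ho2 hn1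
  have n1 := even_elem hd2 hn2 (v := 2 * u) (x := (d : ZMod M)) (c := 2)
    (by linear_combination (2 : ZMod M) * hnu) (by rw [hcast])
  have n2 := even_elem hd2 hn2 (v := -(4 * u)) (x := (d : ZMod M)) (c := 2)
    (by linear_combination (-4 : ZMod M) * hnu) (by rw [hcast])
  have n3 : 2 * (d : ZMod M) ≠ 0 := by rw [← hcast]; exact half_ne_zero hd2
  have h4z : 4 * (d : ZMod M) = 0 := by
    have h1 : ((4 * d : ℕ) : ZMod M) = 0 := by rw [hd]; simp
    push_cast at h1
    exact h1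
  have hsurf : SurfaceTate p M {2 * u, 2 * u + d, -(4 * u) + d, 2 * (d : ZMod M)} :=
    surface_of hp h2u0 n1.1 n2.1 n3 (by linear_combination h4z)
      (fun t => (DF_W hp t).rel4 hd hsu hsz hku hkz)
  refine fix_surface hsurf (el_supp hu0 h2u0 (by rw [hu, ho2])) (el_even n1 n2) ?_
  rw [← hcast]
  exact null_half hd2

/-- the rule for minus two, characteristic five modulo eight -/
theorem fix_two5 (hp : p.Coprime M) (hp8 : p % 8 = 5) (h8 : 8 ∣ M) (hu : addOrderOf u = n)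
    (hn1 : n ≠ 1) (hn2 : ¬ 2 ∣ n) {f k : ℕ} (hf : Odd f) (hfn : ((p : ℕ) : ZMod n) ^ f = 1)
    (hk : ((p : ℕ) : ZMod n) ^ k = -2) : Fix p u := by
  obtain ⟨d, hd'⟩ := h8
  have hd : 8 * d = M := hd'.symm
  have hd2 : 2 * (4 * d) = M := by omega
  have hcast : ((4 * d : ℕ) : ZMod M) = 4 * (d : ZMod M) := by push_cast; rfl
  have hu0 := ne_zero_of_order hu hn1
  have hnu := order_mul_zero hu
  have h4 := four8 (p := p) (by omega)
  obtain ⟨s, hs, hsn⟩ := exists_sq hf hfn
  obtain ⟨k', hk', hkn⟩ := exists_four hf hfn k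
  rw [hk] at hkn
  have hsu : (p : ZMod M) ^ s * u = u := by
    have h := elem_mul (c := 1) hnu (by push_cast; exact hsn)
    push_cast at h
    rw [h, one_mul]
  have hku : (p : ZMod M) ^ k' * u = -(2 * u) := by
    have h := elem_mul (c := -2) hnu (by push_cast; exact hkn)
    push_cast at h
    rw [h]; ring
  have hse : (p : ZMod M) ^ s * (d : ZMod M) = 5 * (d : ZMod M) := by
    have h := aux_mul (c := 5) hd (j := s) (p := p) (by
      rw [pow_self_of h4 hs, cast_of_mod hp8]; decide)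
    push_cast at h
    rw [h]
  have hke : (p : ZMod M) ^ k' * (d : ZMod M) = (d : ZMod M) := by
    have h := aux_mul (c := 1) hd (j := k') (p := p) (by rw [pow_one_of h4 hk']; simp)
    push_cast at h
    rw [h, one_mul]
  have ho2 : addOrderOf (-(2 * u)) = n := by
    rw [← hku, order_pow hp, hu]
  have h2u0 : -(2 * u) ≠ 0 := ne_zero_of_order ho2 hn1
  have n1 := even_elem hd2 hn2 (v := u) (x := (d : ZMod M)) (c := 4) hnu (by rw [hcast])
  have h8e : 8 * (d : ZMod M) = 0 := by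
    have h1 : ((8 * d : ℕ) : ZMod M) = 0 := by rw [hd]; simp
    push_cast at h1
    exact h1
  have n2 := even_elem hd2 hn2 (v := u) (x := 3 * (d : ZMod M)) (c := 4) hnu (by
    rw [hcast]; linear_combination h8e)
  have n3 : 4 * (d : ZMod M) ≠ 0 := by rw [← hcast]; exact half_ne_zero hd2
  have hsurf : SurfaceTate p M {-(2 * u), u + d, u + 3 * d, 4 * (d : ZMod M)} :=
    surface_of hp h2u0 n1.1 n2.1 n3 (by linear_combination h8e)
      (fun t => (DF_W hp t).rel25 hd hsu hse hku hke)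
  refine fix_surface hsurf (el_supp hu0 h2u0 (by rw [hu, ho2])) (el_even n1 n2) ?_
  rw [← hcast]
  exact null_half hd2

/-- the rule for minus two and minus three, characteristic one modulo eight -/
theorem fix_two1 (hp : p.Coprime M) (hp8 : p % 8 = 1) (hp3 : p % 3 = 2) (h8 : 8 ∣ M) (h3 : 3 ∣ M)
    (hu : addOrderOf u = n) (hn1 : n ≠ 1) (hn2 : ¬ 2 ∣ n) {f k l : ℕ} (hf : Odd f)
    (hfn : ((p : ℕ) : ZMod n) ^ f = 1) (hk : ((p : ℕ) : ZMod n) ^ k = -2)
    (hl : ((p : ℕ) : ZMod n) ^ l = -3) : Fix p u := by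
  obtain ⟨d, hd'⟩ := h8
  obtain ⟨g, hg'⟩ := h3
  have hd : 8 * d = M := hd'.symm
  have hg : 3 * g = M := hg'.symm
  have hd2 : 2 * (4 * d) = M := by omega
  have hcast : ((4 * d : ℕ) : ZMod M) = 4 * (d : ZMod M) := by push_cast; rfl
  have hu0 := ne_zero_of_order hu hn1
  have hnu := order_mul_zero hu
  have h4 := four8 (p := p) (by omega)
  have h43 := four3 (p := p) (by omega)
  obtain ⟨s, hs, hsn⟩ := exists_sq hf hfn
  obtain ⟨k', hk', hkn⟩ := exists_four hf hfn k
  rw [hk] at hkn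
  obtain ⟨l', hl', hln⟩ := exists_four hf hfn l
  rw [hl] at hln
  have hsu : (p : ZMod M) ^ s * u = u := by
    have h := elem_mul (c := 1) hnu (by push_cast; exact hsn)
    push_cast at h
    rw [h, one_mul]
  have hku : (p : ZMod M) ^ k' * u = -(2 * u) := by
    have h := elem_mul (c := -2) hnu (by push_cast; exact hkn)
    push_cast at h
    rw [h]; ring
  have hlu : (p : ZMod M) ^ l' * u = -(3 * u) := by
    have h := elem_mul (c := -3) hnu (by push_cast; exact hln)
    push_cast at h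
    rw [h]; ring
  have hse : (p : ZMod M) ^ s * (d : ZMod M) = (d : ZMod M) := by
    have h := aux_mul (c := 1) hd (j := s) (p := p) (by
      rw [pow_self_of h4 hs, cast_of_mod hp8]; decide)
    push_cast at h
    rw [h, one_mul]
  have hsg : (p : ZMod M) ^ s * (g : ZMod M) = -(g : ZMod M) := by
    have h := aux_mul (c := -1) hg (j := s) (p := p) (by
      rw [pow_self_of h43 hs, cast_of_mod hp3]; decide)
    push_cast at h
    rw [h]; ring
  have hke : (p : ZMod M) ^ k' * (d : ZMod M) = (d : ZMod M) := by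
    have h := aux_mul (c := 1) hd (j := k') (p := p) (by rw [pow_one_of h4 hk']; simp)
    push_cast at h
    rw [h, one_mul]
  have hle : (p : ZMod M) ^ l' * (d : ZMod M) = (d : ZMod M) := by
    have h := aux_mul (c := 1) hd (j := l') (p := p) (by rw [pow_one_of h4 hl']; simp)
    push_cast at h
    rw [h, one_mul]
  have hlg : (p : ZMod M) ^ l' * (g : ZMod M) = (g : ZMod M) := by
    have h := aux_mul (c := 1) hg (j := l') (p := p) (by rw [pow_one_of h43 hl']; simp)
    push_cast at h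
    rw [h, one_mul]
  have ho2 : addOrderOf (-(2 * u)) = n := by
    rw [← hku, order_pow hp, hu]
  have h2u0 : -(2 * u) ≠ 0 := ne_zero_of_order ho2 hn1
  have h8e : 8 * (d : ZMod M) = 0 := by
    have h1 : ((8 * d : ℕ) : ZMod M) = 0 := by rw [hd]; simp
    push_cast at h1
    exact h1
  have h3w : 3 * (g : ZMod M) = 0 := by
    have h1 : ((3 * g : ℕ) : ZMod M) = 0 := by rw [hg]; simp
    push_cast at h1
    exact h1
  have hn3 : ¬ 2 ∣ n * 3 := fun h => (Nat.prime_two.dvd_mul.mp h).elim hn2 (by norm_num)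
  have n1 := even_elem hd2 hn3 (v := 3 * u + g) (x := -(d : ZMod M)) (c := -4)
    (by push_cast; linear_combination (9 : ZMod M) * hnu + (n : ZMod M) * h3w)
    (by rw [hcast]; ring)
  have n2 := even_elem hd2 hn3 (v := -u - g) (x := -3 * (d : ZMod M)) (c := 4)
    (by push_cast; linear_combination (-3 : ZMod M) * hnu - (n : ZMod M) * h3w)
    (by rw [hcast]; linear_combination (-2 : ZMod M) * h8e)
  have r1 : 3 * u + (g : ZMod M) + -(d : ZMod M) = 3 * u - d + g := by ring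
  have r2 : -u - (g : ZMod M) + -3 * (d : ZMod M) = -u - 3 * d - g := by ring
  rw [r1] at n1
  rw [r2] at n2
  have n3 : 4 * (d : ZMod M) ≠ 0 := by rw [← hcast]; exact half_ne_zero hd2
  have hsurf : SurfaceTate p M {-(2 * u), 3 * u - d + g, -u - 3 * d - g, 4 * (d : ZMod M)} :=
    surface_of hp h2u0 n1.1 n2.1 n3 (by ring)
      (fun t => (DF_W hp t).rel23 hd hg hsu hse hsg hku hke hlu hle hlg)
  refine fix_surface hsurf (el_supp hu0 h2u0 (by rw [hu, ho2])) (el_even n1 n2) ?_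
  rw [← hcast]
  exact null_half hd2

/-- the rule for minus two and three, characteristic one modulo four -/
theorem fix_two1' (hp : p.Coprime M) (hp4 : p % 4 = 1) (hp3 : p % 3 = 2) (h4 : 4 ∣ M) (h3 : 3 ∣ M)
    (hu : addOrderOf u = n) (hn1 : n ≠ 1) (hn2 : ¬ 2 ∣ n) {f k l : ℕ} (hf : Odd f)
    (hfn : ((p : ℕ) : ZMod n) ^ f = 1) (hk : ((p : ℕ) : ZMod n) ^ k = -2)
    (hl : ((p : ℕ) : ZMod n) ^ l = 3) : Fix p u := by
  obtain ⟨d, hd'⟩ := h4
  obtain ⟨g, hg'⟩ := h3
  have hd : 4 * d = M := hd'.symm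
  have hg : 3 * g = M := hg'.symm
  have hd2 : 2 * (2 * d) = M := by omega
  have hcast : ((2 * d : ℕ) : ZMod M) = 2 * (d : ZMod M) := by push_cast; rfl
  have hu0 := ne_zero_of_order hu hn1
  have hnu := order_mul_zero hu
  have h4 := four4 (p := p) (by omega)
  have h43 := four3 (p := p) (by omega)
  obtain ⟨s, hs, hsn⟩ := exists_sq hf hfn
  obtain ⟨k', hk', hkn⟩ := exists_four hf hfn k
  rw [hk] at hkn
  obtain ⟨l', hl', hln⟩ := exists_four hf hfn l
  rw [hl] at hln
  have hsu : (p : ZMod M) ^ s * u = u := by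
    have h := elem_mul (c := 1) hnu (by push_cast; exact hsn)
    push_cast at h
    rw [h, one_mul]
  have hku : (p : ZMod M) ^ k' * u = -(2 * u) := by
    have h := elem_mul (c := -2) hnu (by push_cast; exact hkn)
    push_cast at h
    rw [h]; ring
  have hlu : (p : ZMod M) ^ l' * u = 3 * u := by
    have h := elem_mul (c := 3) hnu (by push_cast; exact hln)
    push_cast at h
    rw [h]
  have hse : (p : ZMod M) ^ s * (d : ZMod M) = (d : ZMod M) := by
    have h := aux_mul (c := 1) hd (j := s) (p := p) (by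
      rw [pow_self_of h4 hs, cast_of_mod hp4]; decide)
    push_cast at h
    rw [h, one_mul]
  have hsg : (p : ZMod M) ^ s * (g : ZMod M) = -(g : ZMod M) := by
    have h := aux_mul (c := -1) hg (j := s) (p := p) (by
      rw [pow_self_of h43 hs, cast_of_mod hp3]; decide)
    push_cast at h
    rw [h]; ring
  have hke : (p : ZMod M) ^ k' * (d : ZMod M) = (d : ZMod M) := by
    have h := aux_mul (c := 1) hd (j := k') (p := p) (by rw [pow_one_of h4 hk']; simp)
    push_cast at h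
    rw [h, one_mul]
  have hle : (p : ZMod M) ^ l' * (d : ZMod M) = (d : ZMod M) := by
    have h := aux_mul (c := 1) hd (j := l') (p := p) (by rw [pow_one_of h4 hl']; simp)
    push_cast at h
    rw [h, one_mul]
  have h4z : 4 * (d : ZMod M) = 0 := by
    have h1 : ((4 * d : ℕ) : ZMod M) = 0 := by rw [hd]; simp
    push_cast at h1
    exact h1
  have h3w : 3 * (g : ZMod M) = 0 := by
    have h1 : ((3 * g : ℕ) : ZMod M) = 0 := by rw [hg]; simp
    push_cast at h1
    exact h1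
  have hn3 : ¬ 2 ∣ n * 3 := fun h => (Nat.prime_two.dvd_mul.mp h).elim hn2 (by norm_num)
  have n1 := even_elem hd2 hn3 (v := u + g) (x := (d : ZMod M)) (c := 2)
    (by push_cast; linear_combination (3 : ZMod M) * hnu + (n : ZMod M) * h3w)
    (by rw [hcast])
  have n2 := even_elem hd2 hn2 (v := -u) (x := (d : ZMod M)) (c := 2)
    (by linear_combination (-1 : ZMod M) * hnu) (by rw [hcast])
  have n3 := even_elem hd2 hn3 (v := -u - g) (x := 2 * (d : ZMod M)) (c := 1)
    (by push_cast; linear_combination (-3 : ZMod M) * hnu - (n : ZMod M) * h3w)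
    (by rw [hcast]; ring)
  have r1 : u + (g : ZMod M) + (d : ZMod M) = u + d + g := by ring
  rw [r1] at n1
  have hsurf : SurfaceTate p M {u, u + d + g, -u + d, -u - g + 2 * (d : ZMod M)} :=
    surface_of hp hu0 n1.1 n2.1 n3.1 (by linear_combination h4z)
      (fun t => (DF_W hp t).rel23' hd hg hsu hse hsg hku hke hlu hle)
  exact fix_surface hsurf (Relation.EqvGen.refl _) (el_even n1 n2) (null_even hd2 n3.1 n3.2)

end rules

end Pool.Agent.TH540
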