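import Pool.Agent.TH540.Rules

/-!
# Supports whose parities can be corrected: pure supports and the prime three
-/

set_option linter.unusedSectionVars false

namespace Pool.Agent.TH540

open Finset Pool.Agent.H916R2 Pool.Agent.H916T Pool.Agent.H916U Pool.Agent.H916Z Pool.Agent.H916Q

variable {p M n : ℕ} [NeZero M] {u : ZMod M}

/-- supports at which all Stickelberger functions vanish -/
theorem null_pure (hp : p.Coprime M) {ℓ : ℕ} (hℓ : ℓ.Prime) (hcop : n.Coprime ℓ)
    (hu : addOrderOf u = ℓ * n) {f j : ℕ} (hfn : ((p : ℕ) : ZMod n) ^ f = 1)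
    (hg : orderOf (((p : ℕ) : ZMod ℓ) ^ f) = ℓ - 1)
    (hj : ((p : ℕ) : ZMod n) ^ j = ((ℓ : ℕ) : ZMod n)) : Null p u := by
  have hnM : ℓ * n ∣ M := hu ▸ addOrderOf_dvd_level u
  have hℓM : ℓ ∣ M := (Dvd.intro _ rfl).trans hnM
  have hn'M : n ∣ M := (Dvd.intro_left _ rfl).trans hnM
  obtain ⟨e, he'⟩ := hℓM
  have he : ℓ * e = M := he'.symm
  have heo : addOrderOf (e : ZMod M) = ℓ := by
    have h1 := order_elem (M := M) (Dvd.intro e he)
    have h2 : M / ℓ = e := by rw [← he]; exact Nat.mul_div_cancel_left e hℓ.pos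
    rwa [h2] at h1
  set v : ZMod M := ((M / n : ℕ) : ZMod M) with hv
  have hvo : addOrderOf v = n := order_elem hn'M
  have hnv := order_mul_zero hvo
  have hxo : addOrderOf (v + (e : ZMod M)) = n * ℓ := by
    have h1 := (AddCommute.all v (e : ZMod M)).addOrderOf_add_eq_mul_addOrderOf_of_coprime (by
      rw [hvo, heo]; exact hcop)
    rw [h1, hvo, heo]
  have hℓ1 : ℓ * n ≠ 1 := by
    intro h
    exact hℓ.one_lt.ne' (Nat.eq_one_of_mul_eq_one_right h)
  have hu0 := ne_zero_of_order hu hℓ1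
  have hx0 : v + (e : ZMod M) ≠ 0 := ne_zero_of_order hxo (by rw [mul_comm]; exact hℓ1)
  have hfv : (p : ZMod M) ^ f * v = v := by
    have h := elem_mul (c := 1) hnv (by push_cast; exact hfn)
    push_cast at h
    rw [h, one_mul]
  have hjv : (p : ZMod M) ^ j * v = (ℓ : ZMod M) * v := by
    have h := elem_mul (c := (ℓ : ℤ)) hnv (by push_cast; exact hj)
    push_cast at h
    exact h
  have hW := W_extra hp hℓ he hg hfv
  have hℓ2 : ((ℓ : ℤ) - 1) ≠ 0 := by
    have := hℓ.one_lt
    omega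
  refine Null.of_el (el_supp hu0 hx0 (by rw [hu, hxo, mul_comm])) (null_pw hx0 fun t => ?_)
  have h1 := hW t
  have h2 : (t : ZMod M) * ((ℓ : ZMod M) * v) = (p : ZMod M) ^ j * ((t : ZMod M) * v) := by
    rw [← hjv]; ring
  rw [h2, W_pow_mul] at h1
  have h3 : ((ℓ : ℤ) - 1) * W p ((t : ZMod M) * (v + (e : ZMod M))) = 0 := by linarith
  exact (mul_eq_zero.mp h3).resolve_left hℓ2

/-- adding the prime three to a support -/
theorem fix_three (hp : p.Coprime M) (hp3 : p % 3 = 2) (h3n : ¬ 3 ∣ n) (hn1 : n ≠ 1)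
    (hu : addOrderOf u = 3 * n) {f l : ℕ} (hf : Odd f) (hfn : ((p : ℕ) : ZMod n) ^ f = 1)
    (hl : ((p : ℕ) : ZMod n) ^ l = -3) (H : ∀ v : ZMod M, addOrderOf v = n → Fix p v) :
    Fix p u := by
  have hnM : 3 * n ∣ M := hu ▸ addOrderOf_dvd_level u
  have hℓM : 3 ∣ M := (Dvd.intro _ rfl).trans hnM
  have hn'M : n ∣ M := (Dvd.intro_left _ rfl).trans hnM
  obtain ⟨e, he'⟩ := hℓM
  have he : 3 * e = M := he'.symm
  have hcop : n.Coprime 3 :=
    (Nat.coprime_comm.mp (Nat.prime_three.coprime_iff_not_dvd.mpr h3n))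
  have heo : addOrderOf (e : ZMod M) = 3 := by
    have h1 := order_elem (M := M) (Dvd.intro e he)
    have h2 : M / 3 = e := by rw [← he]; exact Nat.mul_div_cancel_left e (by norm_num)
    rwa [h2] at h1
  set v : ZMod M := ((M / n : ℕ) : ZMod M) with hv
  have hvo : addOrderOf v = n := order_elem hn'M
  have hnv := order_mul_zero hvo
  have hv0 := ne_zero_of_order hvo hn1
  have hxo : addOrderOf (v + (e : ZMod M)) = n * 3 := by
    have h1 := (AddCommute.all v (e : ZMod M)).addOrderOf_add_eq_mul_addOrderOf_of_coprime (by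
      rw [hvo, heo]; exact hcop)
    rw [h1, hvo, heo]
  have hu0 := ne_zero_of_order hu (by omega)
  have hx0 : v + (e : ZMod M) ≠ 0 := ne_zero_of_order hxo (by omega)
  have h43 := four3 (p := p) (by omega)
  obtain ⟨s, hs, hsn⟩ := exists_sq hf hfn
  have hsv : (p : ZMod M) ^ s * v = v := by
    have h := elem_mul (c := 1) hnv (by push_cast; exact hsn)
    push_cast at h
    rw [h, one_mul]
  have hlv : (p : ZMod M) ^ l * v = -(3 * v) := by
    have h := elem_mul (c := -3) hnv (by push_cast; exact hl)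
    push_cast at h
    rw [h]; ring
  have hse : (p : ZMod M) ^ s * (e : ZMod M) = -(e : ZMod M) := by
    have h := aux_mul (c := -1) he (j := s) (p := p) (by
      rw [pow_self_of h43 hs, cast_of_mod hp3]; decide)
    push_cast at h
    rw [h]; ring
  have hlink : Link p (v + (e : ZMod M)) (-v) := by
    refine ⟨hx0, neg_ne_zero.mpr hv0, Or.inr (Or.inr fun t => ?_)⟩
    have hV := DF_W hp t
    have h1 := hV.three he v
    have h2 : W p ((t : ZMod M) * (v - (e : ZMod M))) = W p ((t : ZMod M) * (v + (e : ZMod M))) :=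
      hV.eq_of s (by rw [mul_add, hsv, hse]; ring)
    have h3 : W p ((t : ZMod M) * (3 * v)) = -W p ((t : ZMod M) * v) :=
      hV.eq_neg_of l hlv
    have h4 : W p ((t : ZMod M) * -v) = -W p ((t : ZMod M) * v) := hV.ng v
    omega
  refine fix_link (b := -v) ?_ (H (-v) (by rw [addOrderOf_neg, hvo]))
  exact (el_supp hu0 hx0 (by rw [hu, hxo, mul_comm])).trans _ _ _ (Relation.EqvGen.rel _ _ hlink)

/-- the rule for minus four and the prime three -/
theorem null_four3 (hp : p.Coprime M) (hp3 : p % 3 = 2) (h2 : 2 ∣ M) (h3 : 3 ∣ M)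
    (hu : addOrderOf u = n) (hn1 : n ≠ 1) (hn2 : ¬ 2 ∣ n) {f k l : ℕ} (hf : Odd f)
    (hfn : ((p : ℕ) : ZMod n) ^ f = 1) (hk : ((p : ℕ) : ZMod n) ^ k = -4)
    (hl : 2 * ((p : ℕ) : ZMod n) ^ l = 3 ∨ 2 * ((p : ℕ) : ZMod n) ^ l = -3) : Null p u := by
  obtain ⟨d, hd'⟩ := h2
  obtain ⟨g, hg'⟩ := h3
  have hd : 2 * d = M := hd'.symm
  have hg : 3 * g = M := hg'.symm
  have hu0 := ne_zero_of_order hu hn1
  have hnu := order_mul_zero hu
  have h43 := four3 (p := p) (by omega)
  obtain ⟨s, hs, hsn⟩ := exists_sq hf hfn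
  have hsu : (p : ZMod M) ^ s * u = u := by
    have h := elem_mul (c := 1) hnu (by push_cast; exact hsn)
    push_cast at h
    rw [h, one_mul]
  have hku : (p : ZMod M) ^ k * u = -(4 * u) := by
    have h := elem_mul (c := -4) hnu (by push_cast; exact hk)
    push_cast at h
    rw [h]; ring
  have hsg : (p : ZMod M) ^ s * (g : ZMod M) = -(g : ZMod M) := by
    have h := aux_mul (c := -1) hg (j := s) (p := p) (by
      rw [pow_self_of h43 hs, cast_of_mod hp3]; decide)
    push_cast at h
    rw [h]; ring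
  have h2d : 2 * (d : ZMod M) = 0 := two_mul_half hd
  have h3w : 3 * (g : ZMod M) = 0 := by
    have h1 : ((3 * g : ℕ) : ZMod M) = 0 := by rw [hg]; simp
    push_cast at h1
    exact h1
  have hn3 : ¬ 2 ∣ n * 3 := fun h => (Nat.prime_two.dvd_mul.mp h).elim hn2 (by norm_num)
  have n1 := even_elem hd hn3 (v := u + g) (x := (d : ZMod M)) (c := 1)
    (by push_cast; linear_combination (3 : ZMod M) * hnu + (n : ZMod M) * h3w) (by rw [one_mul])
  have hcop2 : Nat.Coprime n 2 := (Nat.coprime_comm.mp (Nat.prime_two.coprime_iff_not_dvd.mpr hn2))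
  have ho2 : addOrderOf (2 * u) = n := by
    have h := order_two hu 2 hcop2
    push_cast at h
    exact h
  have h2u0 : 2 * u ≠ 0 := ne_zero_of_order ho2 hn1
  -- the value at the sum with an element of order six
  have key : ∀ V : ZMod M → ℤ, DF p V →
      2 * V (u + g + d) = V (2 * (3 * u)) - V (2 * u) - V (3 * u) + V u := by
    intro V hV
    have e1 : V (u - g) = V (u + g) := hV.eq_of s (by linear_combination hsu + hsg)
    have e2 := hV.three hg u
    have e3 := hV.two hd (u + g)
    have e4 : V (2 * u - g) = V (2 * u + g) := hV.eq_of s (by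
      linear_combination (2 : ZMod M) * hsu + hsg)
    have e5 := hV.three hg (2 * u)
    have e6 : 2 * (u + (g : ZMod M)) = 2 * u - g := by linear_combination h3w
    have e7 : 3 * (2 * u) = 2 * (3 * u) := by ring
    rw [e6] at e3
    rw [e7] at e5
    omega
  have hq : ∀ V : ZMod M → ℤ, DF p V → V (2 * (2 * u)) = - V u := by
    intro V hV
    exact hV.eq_neg_of k (by linear_combination hku)
  rcases hl with hl | hl
  · have hlu : 2 * ((p : ZMod M) ^ l * u) = 3 * u := by
      have h := mul_eq_of_mod (a := ((2 * p ^ l : ℕ) : ℤ)) (b := 3) hnu (by push_cast; exact hl)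
      push_cast at h
      linear_combination h
    -- the value is that of `-2 u`
    have hlink : Link p (u + (g : ZMod M) + (d : ZMod M)) (-(2 * u)) := by
      refine ⟨n1.1, neg_ne_zero.mpr h2u0, Or.inr (Or.inr fun t => ?_)⟩
      have hV := DF_W hp t
      have e1 := key _ hV
      have e2 := hq _ hV
      have e3 : W p ((t : ZMod M) * (3 * u)) = W p ((t : ZMod M) * (2 * u)) :=
        hV.eq_of l (by linear_combination hlu)
      have e4 : W p ((t : ZMod M) * (2 * (3 * u))) = W p ((t : ZMod M) * (2 * (2 * u))) :=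
        hV.eq_of l (by linear_combination (2 : ZMod M) * hlu)
      have e5 : W p ((t : ZMod M) * -(2 * u)) = -W p ((t : ZMod M) * (2 * u)) := hV.ng _
      omega
    refine Null.of_el ?_ (null_even hd n1.1 n1.2)
    refine Relation.EqvGen.trans _ (-(2 * u)) _ ?_ ((Relation.EqvGen.rel _ _ hlink).symm _ _)
    exact el_supp hu0 (neg_ne_zero.mpr h2u0) (by rw [addOrderOf_neg, hu, ho2])
  · have hlu : 2 * ((p : ZMod M) ^ l * u) = -(3 * u) := by
      have h := mul_eq_of_mod (a := ((2 * p ^ l : ℕ) : ℤ)) (b := -3) hnu (by push_cast; exact hl)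
      push_cast at h
      linear_combination h
    have hlink : Link p (u + (g : ZMod M) + (d : ZMod M)) u := by
      refine ⟨n1.1, hu0, Or.inr (Or.inr fun t => ?_)⟩
      have hV := DF_W hp t
      have e1 := key _ hV
      have e2 := hq _ hV
      have e3 : W p ((t : ZMod M) * (3 * u)) = -W p ((t : ZMod M) * (2 * u)) :=
        hV.eq_neg_of l (by linear_combination hlu)
      have e4 : W p ((t : ZMod M) * (2 * (3 * u))) = -W p ((t : ZMod M) * (2 * (2 * u))) :=
        hV.eq_neg_of l (by linear_combination (2 : ZMod M) * hlu)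
      omega
    exact Null.of_el ((Relation.EqvGen.rel _ _ hlink).symm _ _) (null_even hd n1.1 n1.2)

/-- two elements of a surface in the null class -/
lemma fix_surface2 {a x y z w : ZMod M} (hs : SurfaceTate p M {x, y, z, w})
    (hx : EL p a x) (hy : Fix p y) (hz : Null p z) (hw : Null p w) : Fix p a := by
  classical
  obtain ⟨l, hl, H⟩ := hy
  refine ⟨{x, y, z, w} ::ₘ l, ?_, fun c hc => ?_⟩
  · intro t ht
    rcases Multiset.mem_cons.mp ht with h | h
    · rw [h]; exact hs
    · exact hl t h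
  · rw [Multiset.sum_cons, Multiset.countP_add]
    have h1 : (if EL p c a then 1 else 0 : ℕ) = if EL p c x then 1 else 0 :=
      if_congr (el_congr hx) rfl rfl
    have h2 : (if EL p c z then 1 else 0 : ℕ) = 0 := if_neg fun h' => hc (hz.of_el h')
    have h3 : (if EL p c w then 1 else 0 : ℕ) = 0 := if_neg fun h' => hc (hw.of_el h')
    have h4 : ({x, y, z, w} : Multiset (ZMod M)).countP (fun b => EL p c b) =
        (if EL p c x then 1 else 0) + (if EL p c y then 1 else 0) := by
      have h5 : ({x, y, z, w} : Multiset (ZMod M)) = x ::ₘ y ::ₘ z ::ₘ w ::ₘ 0 := rfl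
      rw [h5, Multiset.countP_cons, Multiset.countP_cons, Multiset.countP_cons,
        Multiset.countP_cons, Multiset.countP_zero, h2, h3]
      omega
    have h5 := H c hc
    rw [h4, h1]
    obtain ⟨r, hr⟩ := h5
    exact ⟨(if EL p c x then 1 else 0) + r, by omega⟩

/-- the relation for the prime three and minus three halves -/
lemma DF.rel32 {V : ZMod M → ℤ} (hV : DF p V) {d g : ℕ} (hd : 4 * d = M) (hg : 3 * g = M)
    {v : ZMod M} {s l : ℕ} (hsu : (p : ZMod M) ^ s * v = v)
    (hsz : (p : ZMod M) ^ s * (d : ZMod M) = -d) (hsg : (p : ZMod M) ^ s * (g : ZMod M) = -g)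
    (hlu : 2 * ((p : ZMod M) ^ l * v) = -(3 * v)) (hlg : (p : ZMod M) ^ l * (g : ZMod M) = g) :
    V (-(3 * v) + g) + V (2 * v) + V (v + d) + V (-(g : ZMod M) - d) = 0 := by
  set z : ZMod M := (d : ZMod M) with hz
  set w : ZMod M := (g : ZMod M) with hw
  have h4z : 4 * z = 0 := by
    have h1 : ((4 * d : ℕ) : ZMod M) = 0 := by rw [hd]; simp
    rw [hz]
    push_cast at h1
    exact h1
  have hd2 : 2 * (2 * d) = M := by omega
  have hcast : ((2 * d : ℕ) : ZMod M) = 2 * z := by push_cast; rw [hz]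
  have H2 : ∀ a, V a + V (a + 2 * z) = V (2 * a) := by
    intro a
    have h := hV.two hd2 a
    rwa [hcast] at h
  have e1 : V (-(3 * v) + w) = V (2 * v + w) := hV.eq_of l (by linear_combination hlu + hlg)
  have e2 : V (2 * v - w) = V (2 * v + w) := hV.eq_of s (by
    linear_combination (2 : ZMod M) * hsu + hsg)
  have e3 : V (2 * v) + V (2 * v + w) + V (2 * v - w) = V (3 * (2 * v)) := hV.three hg (2 * v)
  have e4 : V (3 * (2 * v)) = -V (2 * (2 * v)) := hV.eq_neg_of l (by
    linear_combination (2 : ZMod M) * hlu)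
  have e5 : V (v - z) = V (v + z) := hV.eq_of s (by rw [mul_add, hsu, hsz]; ring)
  have e6 := H2 (v - z)
  have e7 : v - z + 2 * z = v + z := by ring
  have e8 : 2 * (v - z) = 2 * v + 2 * z := by linear_combination -h4z
  rw [e7, e8] at e6
  have e9 := H2 (2 * v)
  have e10 : V (-w - z) = -V (-w - z) := hV.eq_neg_of s (by
    linear_combination -hsz - hsg)
  omega

/-- adding the prime three to a support, second rule -/
theorem fix_three' (hp : p.Coprime M) (hp12 : p % 12 = 11) (h12 : 12 ∣ M) (h3n : ¬ 3 ∣ n)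
    (hn1 : n ≠ 1) (hn2 : ¬ 2 ∣ n) (hu : addOrderOf u = 3 * n) {f l : ℕ} (hf : Odd f)
    (hfn : ((p : ℕ) : ZMod n) ^ f = 1) (hl : 2 * ((p : ℕ) : ZMod n) ^ l = -3)
    (H : ∀ v : ZMod M, addOrderOf v = n → Fix p v) : Fix p u := by
  have hnM : 3 * n ∣ M := hu ▸ addOrderOf_dvd_level u
  have hn'M : n ∣ M := (Dvd.intro_left _ rfl).trans hnM
  obtain ⟨d, hd'⟩ : 4 ∣ M := Dvd.dvd.trans (by norm_num) h12
  obtain ⟨g, hg'⟩ : 3 ∣ M := Dvd.dvd.trans (by norm_num) h12
  have hd : 4 * d = M := hd'.symm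
  have hg : 3 * g = M := hg'.symm
  have hd2 : 2 * (2 * d) = M := by omega
  have hcast : ((2 * d : ℕ) : ZMod M) = 2 * (d : ZMod M) := by push_cast; rfl
  have hcop : n.Coprime 3 :=
    (Nat.coprime_comm.mp (Nat.prime_three.coprime_iff_not_dvd.mpr h3n))
  have hgo : addOrderOf (g : ZMod M) = 3 := by
    have h1 := order_elem (M := M) (Dvd.intro g hg)
    have h2 : M / 3 = g := by rw [← hg]; exact Nat.mul_div_cancel_left g (by norm_num)
    rwa [h2] at h1
  set v : ZMod M := ((M / n : ℕ) : ZMod M) with hv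
  have hvo : addOrderOf v = n := order_elem hn'M
  have hnv := order_mul_zero hvo
  have hv0 := ne_zero_of_order hvo hn1
  have h43 := four3 (p := p) (by omega)
  have h44 := four4 (p := p) (by omega)
  obtain ⟨s, hs, hsn⟩ := exists_sq hf hfn
  obtain ⟨l', hl', hln⟩ := exists_four hf hfn l
  rw [← hln] at hl
  have hsv : (p : ZMod M) ^ s * v = v := by
    have h := elem_mul (c := 1) hnv (by push_cast; exact hsn)
    push_cast at h
    rw [h, one_mul]
  have hlv : 2 * ((p : ZMod M) ^ l' * v) = -(3 * v) := by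
    have h := mul_eq_of_mod (a := ((2 * p ^ l' : ℕ) : ℤ)) (b := -3) hnv (by push_cast; exact hl)
    push_cast at h
    linear_combination h
  have hsg : (p : ZMod M) ^ s * (g : ZMod M) = -(g : ZMod M) := by
    have h := aux_mul (c := -1) hg (j := s) (p := p) (by
      rw [pow_self_of h43 hs, cast_of_mod (c := 2) (by omega)]; decide)
    push_cast at h
    rw [h]; ring
  have hsz : (p : ZMod M) ^ s * (d : ZMod M) = -(d : ZMod M) := by
    have h := aux_mul (c := -1) hd (j := s) (p := p) (by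
      rw [pow_self_of h44 hs, cast_of_mod (c := 3) (by omega)]; decide)
    push_cast at h
    rw [h]; ring
  have hlg : (p : ZMod M) ^ l' * (g : ZMod M) = (g : ZMod M) := by
    have h := aux_mul (c := 1) hg (j := l') (p := p) (by rw [pow_one_of h43 hl']; simp)
    push_cast at h
    rw [h, one_mul]
  have hcop2 : Nat.Coprime n 2 := (Nat.coprime_comm.mp (Nat.prime_two.coprime_iff_not_dvd.mpr hn2))
  have ho2 : addOrderOf (2 * v) = n := by
    have h := order_two hvo 2 hcop2
    push_cast at h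
    exact h
  have h2v0 : 2 * v ≠ 0 := ne_zero_of_order ho2 hn1
  have ho3 : addOrderOf (-(3 * v)) = n := by
    have h := order_two hvo 3 hcop
    push_cast at h
    rw [addOrderOf_neg, h]
  have hxo : addOrderOf (-(3 * v) + (g : ZMod M)) = n * 3 := by
    have h1 := (AddCommute.all (-(3 * v)) (g : ZMod M)).addOrderOf_add_eq_mul_addOrderOf_of_coprime
      (by rw [ho3, hgo]; exact hcop)
    rw [h1, ho3, hgo]
  have hx0 := ne_zero_of_order hxo (by omega)
  have hu0 := ne_zero_of_order hu (by omega)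
  have h4z : 4 * (d : ZMod M) = 0 := by
    have h1 : ((4 * d : ℕ) : ZMod M) = 0 := by rw [hd]; simp
    push_cast at h1
    exact h1
  have h3w : 3 * (g : ZMod M) = 0 := by
    have h1 : ((3 * g : ℕ) : ZMod M) = 0 := by rw [hg]; simp
    push_cast at h1
    exact h1
  have n1 := even_elem hd2 hn2 (v := v) (x := (d : ZMod M)) (c := 2) hnv (by rw [hcast])
  have n2 := even_elem (n := 3) hd2 (by norm_num) (v := -(g : ZMod M)) (x := -(d : ZMod M))
    (c := -2) (by push_cast; linear_combination -h3w) (by rw [hcast]; ring)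
  have r2 : -(g : ZMod M) + -(d : ZMod M) = -(g : ZMod M) - d := by ring
  rw [r2] at n2
  have hsurf : SurfaceTate p M {-(3 * v) + (g : ZMod M), 2 * v, v + d, -(g : ZMod M) - d} :=
    surface_of hp hx0 h2v0 n1.1 n2.1 (by ring)
      (fun t => (DF_W hp t).rel32 hd hg hsv hsz hsg hlv hlg)
  exact fix_surface2 hsurf (el_supp hu0 hx0 (by rw [hu, hxo, mul_comm])) (H _ ho2)
    (null_even hd2 n1.1 n1.2) (null_even hd2 n2.1 n2.2)

end Pool.Agent.TH540
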