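import Pool.Agent.TH540.DFOdd

/-!
# Supports whose parities can be corrected: the primes three and five
-/

set_option linter.unusedSectionVars false

namespace Pool.Agent.TH540

open Finset Pool.Agent.H916R2 Pool.Agent.H916T Pool.Agent.H916U Pool.Agent.H916Z Pool.Agent.H916Q

variable {p M n : ℕ} [NeZero M] {u : ZMod M}

/-- the prime `q` does not divide `n` if a multiple of `q` is a power of `p` modulo `n` -/
lemma not_dvd_of_pow (hp : p.Coprime M) (hnM : n ∣ M) {q : ℕ} (hq : q.Prime) {l c : ℕ} (hc : q ∣ c)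
    (h : ((p : ℕ) : ZMod n) ^ l = -(c : ZMod n)) : ¬ q ∣ n := by
  intro hqn
  have hF : Fact q.Prime := ⟨hq⟩
  have h1 := congrArg (ZMod.castHom hqn (ZMod q)) h
  rw [map_pow, map_natCast, map_neg, map_natCast, (ZMod.natCast_eq_zero_iff c q).mpr hc,
    neg_zero] at h1
  have h2 := eq_zero_of_pow_eq_zero h1
  rw [ZMod.natCast_eq_zero_iff] at h2
  have h3 : q ∣ Nat.gcd p M := Nat.dvd_gcd h2 (hqn.trans hnM)
  rw [hp.gcd_eq_one] at h3
  exact hq.one_lt.ne' (Nat.dvd_one.mp h3)

lemma order_add {v x : ZMod M} {a b : ℕ} (hv : addOrderOf v = a) (hx : addOrderOf x = b)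
    (h : a.Coprime b) : addOrderOf (v + x) = a * b := by
  have h1 := (AddCommute.all v x).addOrderOf_add_eq_mul_addOrderOf_of_coprime
    (by rw [hv, hx]; exact h)
  rw [h1, hv, hx]

lemma order_aux {q d : ℕ} (hq : 0 < q) (hd : q * d = M) : addOrderOf (d : ZMod M) = q := by
  have h1 := order_elem (M := M) (Dvd.intro d hd)
  have h2 : M / q = d := by rw [← hd]; exact Nat.mul_div_cancel_left d hq
  rwa [h2] at h1

lemma coprime_of_not_dvd {q : ℕ} (hq : q.Prime) (h : ¬ q ∣ n) : n.Coprime q :=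
  Nat.coprime_comm.mp (hq.coprime_iff_not_dvd.mpr h)

/-- the rule for minus nine -/
theorem fix_nine (hp : p.Coprime M) (hp3 : p % 3 = 2) (h3 : 3 ∣ M) (hu : addOrderOf u = n)
    (hn1 : n ≠ 1) {f l i j k : ℕ} (hf : Odd f) (hfn : ((p : ℕ) : ZMod n) ^ f = 1)
    (hl : ((p : ℕ) : ZMod n) ^ l = -9)
    (hs : ((p : ℕ) : ZMod n) ^ i + ((p : ℕ) : ZMod n) ^ j + 3 * ((p : ℕ) : ZMod n) ^ k = 0) :
    Fix p u := by
  obtain ⟨g, hg'⟩ := h3
  have hg : 3 * g = M := hg'.symm
  have hnM : n ∣ M := hu ▸ addOrderOf_dvd_level u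
  have h3n : ¬ 3 ∣ n := not_dvd_of_pow hp hnM Nat.prime_three (c := 9) (by norm_num)
    (by push_cast; exact hl)
  have hcop := coprime_of_not_dvd Nat.prime_three h3n
  have hu0 := ne_zero_of_order hu hn1
  have hnu := order_mul_zero hu
  have h43 := four3 (p := p) (by omega)
  obtain ⟨s, hs4, hsn⟩ := exists_sq hf hfn
  obtain ⟨i', hi', hin⟩ := exists_four hf hfn i
  obtain ⟨j', hj', hjn⟩ := exists_four hf hfn j
  obtain ⟨k', hk', hkn⟩ := exists_four hf hfn k
  rw [← hin, ← hjn, ← hkn] at hs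
  have hsu : (p : ZMod M) ^ s * u = u := by
    have h := elem_mul (c := 1) hnu (by push_cast; exact hsn)
    push_cast at h
    rw [h, one_mul]
  have hlu : (p : ZMod M) ^ l * u = -(9 * u) := by
    have h := elem_mul (c := -9) hnu (by push_cast; exact hl)
    push_cast at h
    rw [h]; ring
  have hsum : ((p : ZMod M) ^ i' + (p : ZMod M) ^ j' + 3 * (p : ZMod M) ^ k') * u = 0 := by
    have h := mul_eq_of_mod (a := ((p ^ i' + p ^ j' + 3 * p ^ k' : ℕ) : ℤ)) (b := 0) hnu (by
      push_cast; exact hs)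
    push_cast at h
    rw [h, zero_mul]
  have hsg : (p : ZMod M) ^ s * (g : ZMod M) = -(g : ZMod M) := by
    have h := aux_mul (c := -1) hg (j := s) (p := p) (by
      rw [pow_self_of h43 hs4, cast_of_mod hp3]; decide)
    push_cast at h
    rw [h]; ring
  have hone : ∀ e, 4 ∣ e → (p : ZMod M) ^ e * (g : ZMod M) = (g : ZMod M) := by
    intro e he
    have h := aux_mul (c := 1) hg (j := e) (p := p) (by rw [pow_one_of h43 he]; simp)
    push_cast at h
    rw [h, one_mul]
  have h3g : 3 * (g : ZMod M) = 0 := by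
    have h1 : ((3 * g : ℕ) : ZMod M) = 0 := by rw [hg]; simp
    push_cast at h1
    exact h1
  have hgo : addOrderOf (g : ZMod M) = 3 := order_aux (by norm_num) hg
  have hg0 : (g : ZMod M) ≠ 0 := ne_zero_of_order hgo (by norm_num)
  have o1 : addOrderOf ((p : ZMod M) ^ i' * u) = n := by rw [order_pow hp, hu]
  have o2 : addOrderOf ((p : ZMod M) ^ j' * u + g) = n * 3 :=
    order_add (by rw [order_pow hp, hu]) hgo hcop
  have o3' : addOrderOf ((3 : ZMod M) * ((p : ZMod M) ^ k' * u)) = n := by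
    have h := order_two (u := (p : ZMod M) ^ k' * u) (n := n) (by rw [order_pow hp, hu]) 3 hcop
    push_cast at h
    exact h
  have o3 : addOrderOf (3 * ((p : ZMod M) ^ k' * u) + g) = n * 3 := order_add o3' hgo hcop
  have n1 := ne_zero_of_order o1 hn1
  have n2 := ne_zero_of_order o2 (by omega)
  have n3 := ne_zero_of_order o3 (by omega)
  have hnull : Null p (g : ZMod M) := null_pw hg0 (H916Y.pw_of_pow hsg)
  have hsurf : SurfaceTate p M {(p : ZMod M) ^ i' * u, (p : ZMod M) ^ j' * u + g,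
      3 * ((p : ZMod M) ^ k' * u) + g, (g : ZMod M)} := by
    refine surface_of hp n1 n2 n3 hg0 (by linear_combination hsum + h3g) (fun t => ?_)
    have hV := DF_W hp t
    have e1 : W p ((t : ZMod M) * ((p : ZMod M) ^ i' * u)) = W p ((t : ZMod M) * u) :=
      hV.eq_of i' rfl
    have e2 : W p ((t : ZMod M) * ((p : ZMod M) ^ j' * u + (g : ZMod M))) =
        W p ((t : ZMod M) * (u + (g : ZMod M))) := hV.eq_of j' (by rw [mul_add, hone j' hj'])
    have e3 : W p ((t : ZMod M) * (3 * ((p : ZMod M) ^ k' * u) + (g : ZMod M))) =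
        W p ((t : ZMod M) * (3 * u + (g : ZMod M))) := hV.eq_of k' (by
      rw [mul_add, hone k' hk']; ring)
    have e4 : W p ((t : ZMod M) * (g : ZMod M)) = -W p ((t : ZMod M) * (g : ZMod M)) :=
      hV.eq_neg_of s (by rw [hsg])
    have e5 := hV.rel9 hg hsu hsg hlu
    omega
  exact fix_surface hsurf (el_supp hu0 n1 (by rw [hu, o1])) (el_supp n2 n3 (by rw [o2, o3])) hnull

/-- the rule for minus five -/
theorem fix_five (hp : p.Coprime M) (h5 : 5 ∣ M) (hu : addOrderOf u = n) (hn1 : n ≠ 1)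
    {s l i j k : ℕ} (hsn : ((p : ℕ) : ZMod n) ^ s = 1) (hs5 : ((p : ℕ) : ZMod 5) ^ s = -1)
    (hl : ((p : ℕ) : ZMod n) ^ l = -5)
    (hs : ((p : ℕ) : ZMod n) ^ i + ((p : ℕ) : ZMod n) ^ j + ((p : ℕ) : ZMod n) ^ k = 0) :
    Fix p u := by
  obtain ⟨g, hg'⟩ := h5
  have hg : 5 * g = M := hg'.symm
  have hnM : n ∣ M := hu ▸ addOrderOf_dvd_level u
  have h5n : ¬ 5 ∣ n := not_dvd_of_pow hp hnM Nat.prime_five (c := 5) (dvd_refl 5)
    (by push_cast; exact hl)
  have hcop := coprime_of_not_dvd Nat.prime_five h5n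
  have hu0 := ne_zero_of_order hu hn1
  have hnu := order_mul_zero hu
  have hsu : (p : ZMod M) ^ s * u = u := by
    have h := elem_mul (c := 1) hnu (by push_cast; exact hsn)
    push_cast at h
    rw [h, one_mul]
  have hlu : (p : ZMod M) ^ l * u = -(5 * u) := by
    have h := elem_mul (c := -5) hnu (by push_cast; exact hl)
    push_cast at h
    rw [h]; ring
  have hsum : ((p : ZMod M) ^ i + (p : ZMod M) ^ j + (p : ZMod M) ^ k) * u = 0 := by
    have h := mul_eq_of_mod (a := ((p ^ i + p ^ j + p ^ k : ℕ) : ℤ)) (b := 0) hnu (by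
      push_cast; exact hs)
    push_cast at h
    rw [h, zero_mul]
  have hsg : (p : ZMod M) ^ s * (g : ZMod M) = -(g : ZMod M) := by
    have h := aux_mul (c := -1) hg (j := s) (p := p) (by push_cast; exact hs5)
    push_cast at h
    rw [h]; ring
  have h5g : 5 * (g : ZMod M) = 0 := by
    have h1 : ((5 * g : ℕ) : ZMod M) = 0 := by rw [hg]; simp
    push_cast at h1
    exact h1
  have hgo : addOrderOf (g : ZMod M) = 5 := order_aux (by norm_num) hg
  have h2go : addOrderOf (2 * (g : ZMod M)) = 5 := by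
    have h := order_two hgo 2 (by norm_num)
    push_cast at h
    exact h
  have hg0 : (g : ZMod M) ≠ 0 := ne_zero_of_order hgo (by norm_num)
  -- the choice of the sign
  obtain ⟨ε, hε, hw0⟩ : ∃ ε : ZMod M, (ε = 1 ∨ ε = -1) ∧
      -(((p : ZMod M) ^ j + 2 * ε * (p : ZMod M) ^ k) * (g : ZMod M)) ≠ 0 := by
    by_cases h : -(((p : ZMod M) ^ j + 2 * 1 * (p : ZMod M) ^ k) * (g : ZMod M)) = 0
    · refine ⟨-1, Or.inr rfl, fun h' => ?_⟩
      have h1 : (p : ZMod M) ^ k * (g : ZMod M) = 0 := by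
        linear_combination -(1 : ZMod M) * h' + h + (p : ZMod M) ^ k * h5g
      exact hg0 (((isUnit_p hp).pow k).mul_right_eq_zero.mp h1)
    · exact ⟨1, Or.inl rfl, h⟩
  set w : ZMod M := -(((p : ZMod M) ^ j + 2 * ε * (p : ZMod M) ^ k) * (g : ZMod M)) with hw
  have hsw : (p : ZMod M) ^ s * w = -w := by
    rw [hw]
    linear_combination -((p : ZMod M) ^ j + 2 * ε * (p : ZMod M) ^ k) * hsg
  have hzo : addOrderOf (u + ε * (2 * (g : ZMod M))) = n * 5 := by
    rcases hε with rfl | rfl
    · rw [one_mul]; exact order_add hu h2go hcop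
    · rw [neg_one_mul]
      exact order_add hu (by rw [addOrderOf_neg]; exact h2go) hcop
  have o1 : addOrderOf ((p : ZMod M) ^ i * u) = n := by rw [order_pow hp, hu]
  have o2 : addOrderOf ((p : ZMod M) ^ j * (u + g)) = n * 5 := by
    rw [order_pow hp]; exact order_add hu hgo hcop
  have o3 : addOrderOf ((p : ZMod M) ^ k * (u + ε * (2 * (g : ZMod M)))) = n * 5 := by
    rw [order_pow hp, hzo]
  have n1 := ne_zero_of_order o1 hn1
  have n2 := ne_zero_of_order o2 (by omega)
  have n3 := ne_zero_of_order o3 (by omega)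
  have hnull : Null p w := null_pw hw0 (H916Y.pw_of_pow hsw)
  have hsurf : SurfaceTate p M {(p : ZMod M) ^ i * u, (p : ZMod M) ^ j * (u + g),
      (p : ZMod M) ^ k * (u + ε * (2 * (g : ZMod M))), w} := by
    refine surface_of hp n1 n2 n3 hw0 (by rw [hw]; linear_combination hsum) (fun t => ?_)
    have hV := DF_W hp t
    have e1 : W p ((t : ZMod M) * ((p : ZMod M) ^ i * u)) = W p ((t : ZMod M) * u) :=
      hV.eq_of i rfl
    have e2 : W p ((t : ZMod M) * ((p : ZMod M) ^ j * (u + (g : ZMod M)))) =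
        W p ((t : ZMod M) * (u + (g : ZMod M))) := hV.eq_of j rfl
    have e3 : W p ((t : ZMod M) * ((p : ZMod M) ^ k * (u + ε * (2 * (g : ZMod M))))) =
        W p ((t : ZMod M) * (u + ε * (2 * (g : ZMod M)))) := hV.eq_of k rfl
    have e3' : W p ((t : ZMod M) * (u + ε * (2 * (g : ZMod M)))) =
        W p ((t : ZMod M) * (u + 2 * (g : ZMod M))) := by
      rcases hε with h | h
      · rw [h, one_mul]
      · rw [h, neg_one_mul]
        exact hV.eq_of s (by linear_combination hsu + (2 : ZMod M) * hsg)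
    have e4 : W p ((t : ZMod M) * w) = -W p ((t : ZMod M) * w) :=
      hV.eq_neg_of s (by rw [hsw])
    have e5 := hV.rel5 hg hsu hsg hlu
    omega
  exact fix_surface hsurf (el_supp hu0 n1 (by rw [hu, o1])) (el_supp n2 n3 (by rw [o2, o3])) hnull

/-- the rule for minus three and minus five -/
theorem fix_threefive (hp : p.Coprime M) (h3 : 3 ∣ M) (h5 : 5 ∣ M)
    (hc : p % 5 ≠ 1 ∨ p % 3 = 2) (hu : addOrderOf u = n) (hn1 : n ≠ 1)
    {f l r i j k : ℕ} (hf : Odd f) (hfn : ((p : ℕ) : ZMod n) ^ f = 1)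
    (hl : ((p : ℕ) : ZMod n) ^ l = -3) (hr : ((p : ℕ) : ZMod n) ^ r = -5)
    (hs : ((p : ℕ) : ZMod n) ^ i + ((p : ℕ) : ZMod n) ^ j = ((p : ℕ) : ZMod n) ^ k) :
    Fix p u := by
  obtain ⟨g, hg'⟩ := h3
  obtain ⟨d, hd'⟩ := h5
  have hg : 3 * g = M := hg'.symm
  have hd : 5 * d = M := hd'.symm
  have hnM : n ∣ M := hu ▸ addOrderOf_dvd_level u
  have h3n : ¬ 3 ∣ n := not_dvd_of_pow hp hnM Nat.prime_three (c := 3) (dvd_refl 3)
    (by push_cast; exact hl)
  have h5n : ¬ 5 ∣ n := not_dvd_of_pow hp hnM Nat.prime_five (c := 5) (dvd_refl 5)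
    (by push_cast; exact hr)
  have hcop3 := coprime_of_not_dvd Nat.prime_three h3n
  have hcop5 := coprime_of_not_dvd Nat.prime_five h5n
  have hcop15 : n.Coprime 15 := by
    have h := Nat.Coprime.mul_right hcop3 hcop5
    exact h
  have hp3 : p % 3 ≠ 0 := by
    intro h
    have h1 : 3 ∣ Nat.gcd p M := Nat.dvd_gcd (Nat.dvd_of_mod_eq_zero h) (Dvd.intro _ hg)
    rw [hp.gcd_eq_one] at h1
    omega
  have hp5 : p % 5 ≠ 0 := by
    intro h
    have h1 : 5 ∣ Nat.gcd p M := Nat.dvd_gcd (Nat.dvd_of_mod_eq_zero h) (Dvd.intro _ hd)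
    rw [hp.gcd_eq_one] at h1
    omega
  have hu0 := ne_zero_of_order hu hn1
  have hnu := order_mul_zero hu
  have h43 := four3 (p := p) hp3
  have h45 := four5 (p := p) hp5
  obtain ⟨s, hs4, hsn⟩ := exists_sq hf hfn
  obtain ⟨i', hi', hin⟩ := exists_four hf hfn i
  obtain ⟨j', hj', hjn⟩ := exists_four hf hfn j
  obtain ⟨k', hk', hkn⟩ := exists_four hf hfn k
  obtain ⟨l', hl', hln⟩ := exists_four hf hfn l
  rw [← hin, ← hjn, ← hkn] at hs
  rw [← hln] at hl
  have hsu : (p : ZMod M) ^ s * u = u := by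
    have h := elem_mul (c := 1) hnu (by push_cast; exact hsn)
    push_cast at h
    rw [h, one_mul]
  have hlu : (p : ZMod M) ^ l' * u = -(3 * u) := by
    have h := elem_mul (c := -3) hnu (by push_cast; exact hl)
    push_cast at h
    rw [h]; ring
  have hru : (p : ZMod M) ^ r * u = -(5 * u) := by
    have h := elem_mul (c := -5) hnu (by push_cast; exact hr)
    push_cast at h
    rw [h]; ring
  have hsum : ((p : ZMod M) ^ i' + (p : ZMod M) ^ j') * u = (p : ZMod M) ^ k' * u := by
    have h := mul_eq_of_mod (a := ((p ^ i' + p ^ j' : ℕ) : ℤ)) (b := ((p ^ k' : ℕ) : ℤ)) hnu (by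
      push_cast; exact hs)
    push_cast at h
    exact h
  have hone3 : ∀ e, 4 ∣ e → (p : ZMod M) ^ e * (g : ZMod M) = (g : ZMod M) := by
    intro e he
    have h := aux_mul (c := 1) hg (j := e) (p := p) (by rw [pow_one_of h43 he]; simp)
    push_cast at h
    rw [h, one_mul]
  have hone5 : ∀ e, 4 ∣ e → (p : ZMod M) ^ e * (d : ZMod M) = (d : ZMod M) := by
    intro e he
    have h := aux_mul (c := 1) hd (j := e) (p := p) (by rw [pow_one_of h45 he]; simp)
    push_cast at h
    rw [h, one_mul]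
  have h3g : 3 * (g : ZMod M) = 0 := by
    have h1 : ((3 * g : ℕ) : ZMod M) = 0 := by rw [hg]; simp
    push_cast at h1
    exact h1
  have h5d : 5 * (d : ZMod M) = 0 := by
    have h1 : ((5 * d : ℕ) : ZMod M) = 0 := by rw [hd]; simp
    push_cast at h1
    exact h1
  have hgo : addOrderOf (g : ZMod M) = 3 := order_aux (by norm_num) hg
  have hdo : addOrderOf (d : ZMod M) = 5 := order_aux (by norm_num) hd
  have h2do : addOrderOf (2 * (d : ZMod M)) = 5 := by
    have h := order_two hdo 2 (by norm_num)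
    push_cast at h
    exact h
  have h2go : addOrderOf (2 * (g : ZMod M)) = 3 := by
    have h := order_two hgo 2 (by norm_num)
    push_cast at h
    exact h
  have hngo : addOrderOf (-(g : ZMod M)) = 3 := by rw [addOrderOf_neg, hgo]
  have hndo : addOrderOf (-(d : ZMod M)) = 5 := by rw [addOrderOf_neg, hdo]
  have o1 : addOrderOf ((p : ZMod M) ^ k' * u) = n := by rw [order_pow hp, hu]
  have n1 := ne_zero_of_order o1 hn1
  have oy : addOrderOf (-((p : ZMod M) ^ i' * (u + (d : ZMod M) + (g : ZMod M)))) = n * 5 * 3 := by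
    rw [addOrderOf_neg, order_pow hp]
    exact order_add (order_add hu hdo hcop5) hgo
      (Nat.Coprime.mul_left hcop3 (by norm_num))
  have ny := ne_zero_of_order oy (by omega)
  by_cases h1 : p % 5 = 1
  · -- second case
    have hp32 : p % 3 = 2 := hc.resolve_left (fun h => h h1)
    have hsg : (p : ZMod M) ^ s * (g : ZMod M) = -(g : ZMod M) := by
      have h := aux_mul (c := -1) hg (j := s) (p := p) (by
        rw [pow_self_of h43 hs4, cast_of_mod hp32]; decide)
      push_cast at h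
      rw [h]; ring
    have hsd : (p : ZMod M) ^ s * (d : ZMod M) = (d : ZMod M) := by
      have h := aux_mul (c := 1) hd (j := s) (p := p) (by
        rw [pow_self_of h45 hs4, cast_of_mod h1]; decide)
      push_cast at h
      rw [h, one_mul]
    have oz : addOrderOf (-((p : ZMod M) ^ j' * (u + -(d : ZMod M) + (g : ZMod M)))) = n * 5 * 3 := by
      rw [addOrderOf_neg, order_pow hp]
      exact order_add (order_add hu hndo hcop5) hgo
        (Nat.Coprime.mul_left hcop3 (by norm_num))
    have nz := ne_zero_of_order oz (by omega)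
    have nw := ne_zero_of_order h2go (by norm_num)
    have hsw : (p : ZMod M) ^ s * (2 * (g : ZMod M)) = -(2 * (g : ZMod M)) := by
      linear_combination (2 : ZMod M) * hsg
    have hsurf : SurfaceTate p M {(p : ZMod M) ^ k' * u, -((p : ZMod M) ^ i' * (u + (d : ZMod M) + (g : ZMod M))),
        -((p : ZMod M) ^ j' * (u + -(d : ZMod M) + (g : ZMod M))), 2 * (g : ZMod M)} := by
      refine surface_of hp n1 ny nz nw ?_ (fun t => ?_)
      · linear_combination -hsum - hone5 i' hi' + hone5 j' hj' - hone3 i' hi' - hone3 j' hj'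
      · have hV := DF_W hp t
        have e1 : W p ((t : ZMod M) * ((p : ZMod M) ^ k' * u)) = W p ((t : ZMod M) * u) :=
          hV.eq_of k' rfl
        have e2 : W p ((t : ZMod M) * -((p : ZMod M) ^ i' * (u + (d : ZMod M) + (g : ZMod M)))) =
            -W p ((t : ZMod M) * (u + (d : ZMod M) + (g : ZMod M))) := by
          rw [mul_neg, W_neg]
          congr 1
          exact hV.eq_of i' rfl
        have e3 : W p ((t : ZMod M) * -((p : ZMod M) ^ j' * (u + -(d : ZMod M) + (g : ZMod M)))) =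
            -W p ((t : ZMod M) * (u - (d : ZMod M) + (g : ZMod M))) := by
          rw [mul_neg, W_neg]
          congr 1
          exact hV.eq_of j' (by ring)
        have e4 : W p ((t : ZMod M) * (2 * (g : ZMod M))) =
            -W p ((t : ZMod M) * (2 * (g : ZMod M))) := hV.eq_neg_of s (by rw [hsw])
        have e5 : W p ((t : ZMod M) * (u + (d : ZMod M) + (g : ZMod M))) + W p ((t : ZMod M) * (u - (d : ZMod M) + (g : ZMod M))) =
            W p ((t : ZMod M) * u) := hV.rel35b hg hd hsu hsd hsg hlu (hone5 l' hl') hru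
        omega
    exact fix_surface hsurf (el_supp hu0 n1 (by rw [hu, o1])) (el_supp ny nz (by rw [oy, oz]))
      (null_pw nw (H916Y.pw_of_pow hsw))
  · -- first case
    obtain ⟨s', hsn', hs5'⟩ : ∃ s', ((p : ℕ) : ZMod n) ^ s' = 1 ∧ ((p : ℕ) : ZMod 5) ^ s' = -1 := by
      rcases (by omega : p % 5 = 4 ∨ p % 5 = 2 ∨ p % 5 = 3) with h | h | h
      · refine ⟨s, hsn, ?_⟩
        rw [pow_self_of h45 hs4, cast_of_mod h]; decide
      · refine ⟨s * 2, by rw [pow_mul, hsn, one_pow], ?_⟩
        rw [pow_mul, pow_self_of h45 hs4, cast_of_mod h]; decide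
      · refine ⟨s * 2, by rw [pow_mul, hsn, one_pow], ?_⟩
        rw [pow_mul, pow_self_of h45 hs4, cast_of_mod h]; decide
    have hsu' : (p : ZMod M) ^ s' * u = u := by
      have h := elem_mul (c := 1) hnu (by push_cast; exact hsn')
      push_cast at h
      rw [h, one_mul]
    have hsd : (p : ZMod M) ^ s' * (d : ZMod M) = -(d : ZMod M) := by
      have h := aux_mul (c := -1) hd (j := s') (p := p) (by push_cast; exact hs5')
      push_cast at h
      rw [h]; ring
    have oz : addOrderOf (-((p : ZMod M) ^ j' * (u + (d : ZMod M) + -(g : ZMod M)))) = n * 5 * 3 := by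
      rw [addOrderOf_neg, order_pow hp]
      exact order_add (order_add hu hdo hcop5) hngo
        (Nat.Coprime.mul_left hcop3 (by norm_num))
    have nz := ne_zero_of_order oz (by omega)
    have nw := ne_zero_of_order h2do (by norm_num)
    have hsw : (p : ZMod M) ^ s' * (2 * (d : ZMod M)) = -(2 * (d : ZMod M)) := by
      linear_combination (2 : ZMod M) * hsd
    have hsurf : SurfaceTate p M {(p : ZMod M) ^ k' * u, -((p : ZMod M) ^ i' * (u + (d : ZMod M) + (g : ZMod M))),
        -((p : ZMod M) ^ j' * (u + (d : ZMod M) + -(g : ZMod M))), 2 * (d : ZMod M)} := by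
      refine surface_of hp n1 ny nz nw ?_ (fun t => ?_)
      · linear_combination -hsum - hone5 i' hi' - hone5 j' hj' - hone3 i' hi' + hone3 j' hj'
      · have hV := DF_W hp t
        have e1 : W p ((t : ZMod M) * ((p : ZMod M) ^ k' * u)) = W p ((t : ZMod M) * u) :=
          hV.eq_of k' rfl
        have e2 : W p ((t : ZMod M) * -((p : ZMod M) ^ i' * (u + (d : ZMod M) + (g : ZMod M)))) =
            -W p ((t : ZMod M) * (u + (d : ZMod M) + (g : ZMod M))) := by
          rw [mul_neg, W_neg]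
          congr 1
          exact hV.eq_of i' rfl
        have e3 : W p ((t : ZMod M) * -((p : ZMod M) ^ j' * (u + (d : ZMod M) + -(g : ZMod M)))) =
            -W p ((t : ZMod M) * (u + (d : ZMod M) - (g : ZMod M))) := by
          rw [mul_neg, W_neg]
          congr 1
          exact hV.eq_of j' (by ring)
        have e4 : W p ((t : ZMod M) * (2 * (d : ZMod M))) =
            -W p ((t : ZMod M) * (2 * (d : ZMod M))) := hV.eq_neg_of s' (by rw [hsw])
        have e5 : W p ((t : ZMod M) * (u + (d : ZMod M) + (g : ZMod M))) + W p ((t : ZMod M) * (u + (d : ZMod M) - (g : ZMod M))) =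
            W p ((t : ZMod M) * u) := hV.rel35a hg hd hsu' hsd hlu (hone5 l' hl') hru
        omega
    exact fix_surface hsurf (el_supp hu0 n1 (by rw [hu, o1])) (el_supp ny nz (by rw [oy, oz]))
      (null_pw nw (H916Y.pw_of_pow hsw))

end Pool.Agent.TH540
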