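import Pool.Agent.TH540.Davenport

/-!
# Long zero-sum free lists in cyclic groups (Savchev-Chen), with a short proof
-/

set_option linter.unusedSectionVars false

namespace Pool.Agent.TH540.SC

open Multiset

section Group

variable {G : Type*} [AddCommGroup G] [DecidableEq G]

/-- no nonempty sublist has sum zero -/
def Free (s : Multiset G) : Prop := ∀ τ ≤ s, τ ≠ 0 → τ.sum ≠ 0

/-- the set of all sums of sublists (including the empty one) -/
def Sums (s : Multiset G) : Finset G := (s.powerset.map Multiset.sum).toFinset

lemma mem_sums {s : Multiset G} {x : G} : x ∈ Sums s ↔ ∃ τ ≤ s, τ.sum = x := by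
  unfold Sums
  rw [Multiset.mem_toFinset, Multiset.mem_map]
  simp only [Multiset.mem_powerset]

lemma zero_mem_sums (s : Multiset G) : (0 : G) ∈ Sums s :=
  mem_sums.mpr ⟨0, Multiset.zero_le _, by simp⟩

lemma Free.mono {s τ : Multiset G} (h : Free s) (hle : τ ≤ s) : Free τ :=
  fun ρ hρ hρ0 => h ρ (hρ.trans hle) hρ0

lemma sums_mono {s τ : Multiset G} (hle : τ ≤ s) : Sums τ ⊆ Sums s := by
  intro x hx
  obtain ⟨ρ, h1, h2⟩ := mem_sums.mp hx
  exact mem_sums.mpr ⟨ρ, h1.trans hle, h2⟩

lemma mem_sums_cons {y : G} {s : Multiset G} {x : G} :
    x ∈ Sums (y ::ₘ s) ↔ x ∈ Sums s ∨ x - y ∈ Sums s := by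
  constructor
  · intro hx
    obtain ⟨ρ, h1, h2⟩ := mem_sums.mp hx
    by_cases hy : y ∈ ρ
    · right
      obtain ⟨ρ', rfl⟩ := Multiset.exists_cons_of_mem hy
      refine mem_sums.mpr ⟨ρ', (Multiset.cons_le_cons_iff y).mp h1, ?_⟩
      rw [Multiset.sum_cons] at h2
      rw [← h2]; abel
    · left
      exact mem_sums.mpr ⟨ρ, (Multiset.le_cons_of_notMem hy).mp h1, h2⟩
  · rintro (hx | hx)
    · exact sums_mono (Multiset.le_cons_self s y) hx
    · obtain ⟨ρ, h1, h2⟩ := mem_sums.mp hx
      refine mem_sums.mpr ⟨y ::ₘ ρ, (Multiset.cons_le_cons_iff y).mpr h1, ?_⟩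
      rw [Multiset.sum_cons, h2]; abel

lemma sum_notMem {y : G} {s : Multiset G} (h : Free (y ::ₘ s)) : (y ::ₘ s).sum ∉ Sums s := by
  intro hx
  obtain ⟨ρ, h1, h2⟩ := mem_sums.mp hx
  obtain ⟨κ, rfl⟩ := Multiset.le_iff_exists_add.mp h1
  refine h (y ::ₘ κ) ?_ (Multiset.cons_ne_zero) ?_
  · rw [Multiset.cons_le_cons_iff]
    exact Multiset.le_add_left _ _
  · rw [Multiset.sum_cons, Multiset.sum_add] at h2
    rw [Multiset.sum_cons]
    have h3 : ρ.sum = (y + κ.sum) + ρ.sum := by
      conv_lhs => rw [h2]
      abel
    exact (add_eq_right.mp h3.symm)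

lemma card_sums {s : Multiset G} (h : Free s) : card s + 1 ≤ (Sums s).card := by
  induction s using Multiset.induction_on with
  | empty =>
    have : 0 < (Sums (0 : Multiset G)).card := Finset.card_pos.mpr ⟨0, zero_mem_sums 0⟩
    simpa using this
  | cons y s ih =>
    have h1 := ih (h.mono (Multiset.le_cons_self s y))
    have h2 : insert (y ::ₘ s).sum (Sums s) ⊆ Sums (y ::ₘ s) := by
      intro x hx
      rcases Finset.mem_insert.mp hx with rfl | hx
      · exact mem_sums.mpr ⟨_, le_refl _, rfl⟩
      · exact sums_mono (Multiset.le_cons_self s y) hx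
    have h3 := Finset.card_le_card h2
    rw [Finset.card_insert_of_notMem (sum_notMem h)] at h3
    rw [Multiset.card_cons]
    omega

lemma symm_sums {s : Multiset G} {x : G} (hx : x ∈ Sums s) : s.sum - x ∈ Sums s := by
  obtain ⟨ρ, h1, h2⟩ := mem_sums.mp hx
  obtain ⟨κ, rfl⟩ := Multiset.le_iff_exists_add.mp h1
  refine mem_sums.mpr ⟨κ, Multiset.le_add_left _ _, ?_⟩
  rw [Multiset.sum_add, ← h2]; abel

/-- The main result: few sums force the list to consist of small multiples of one element. -/
theorem behave [Finite G] : ∀ (l : ℕ) (s : Multiset G), card s = l → Free s →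
    (Sums s).card + 1 ≤ 2 * card s →
    ∃ (g : G) (x : Multiset ℕ), (∀ i ∈ x, 1 ≤ i) ∧ s = x.map (fun i => i • g) ∧
      (∀ z, z ∈ Sums s ↔ ∃ i ≤ x.sum, i • g = z) ∧ ∀ i, 0 < i → i ≤ x.sum → i • g ≠ 0 := by
  intro l
  induction l with
  | zero =>
    intro s hs _ h
    rw [hs] at h
    omega
  | succ l ih =>
    intro s hs hfree hcard
    by_cases hA : ∃ y ∈ s, (Sums (s.erase y)).card + 2 ≤ (Sums s).card
    · obtain ⟨y, hy, hdrop⟩ := hA
      obtain ⟨T, rfl⟩ := Multiset.exists_cons_of_mem hy
      rw [Multiset.erase_cons_head] at hdrop
      rw [Multiset.card_cons] at hs hcard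
      have hT : Free T := hfree.mono (Multiset.le_cons_self T y)
      obtain ⟨g, x, h1, h2, h3, h4⟩ := ih T (by omega) hT (by omega)
      by_cases hj : ∃ j, 1 ≤ j ∧ j ≤ x.sum + 1 ∧ y = j • g
      · obtain ⟨j, j1, j2, j3⟩ := hj
        refine ⟨g, j ::ₘ x, ?_, ?_, ?_, ?_⟩
        · intro i hi
          rcases Multiset.mem_cons.mp hi with rfl | hi
          · exact j1
          · exact h1 i hi
        · rw [Multiset.map_cons, ← h2, ← j3]
        · intro z
          rw [mem_sums_cons, h3, h3, Multiset.sum_cons]
          constructor
          · rintro (⟨i, i1, i2⟩ | ⟨i, i1, i2⟩)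
            · exact ⟨i, by omega, i2⟩
            · refine ⟨j + i, by omega, ?_⟩
              rw [add_nsmul, i2, ← j3]; abel
          · rintro ⟨i, i1, i2⟩
            by_cases h5 : i ≤ x.sum
            · exact Or.inl ⟨i, h5, i2⟩
            · right
              refine ⟨i - j, by omega, ?_⟩
              have h6 : i = (i - j) + j := by omega
              rw [h6, add_nsmul, ← j3] at i2
              rw [← i2]; abel
        · intro i i1 i2 i3
          rw [Multiset.sum_cons] at i2
          by_cases h5 : i ≤ x.sum
          · exact h4 i i1 h5 i3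
          · have h6 : i = (i - j) + j := by omega
            rw [h6, add_nsmul, ← j3] at i3
            have h7 : (i - j) • g ∈ Sums T := (h3 _).mpr ⟨i - j, by omega, rfl⟩
            obtain ⟨V, v1, v2⟩ := mem_sums.mp h7
            refine hfree (y ::ₘ V) ((Multiset.cons_le_cons_iff y).mpr v1) Multiset.cons_ne_zero ?_
            rw [Multiset.sum_cons, v2, add_comm, i3]
      · exfalso
        -- the sets `Sums T` and `y + Sums T` are disjoint
        have hdis : Disjoint (Sums T) ((Sums T).image (fun z => z + y)) := by
          rw [Finset.disjoint_left]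
          intro z hz hz'
          obtain ⟨w, hw, rfl⟩ := Finset.mem_image.mp hz'
          obtain ⟨j, j1, j2⟩ := (h3 _).mp hz
          obtain ⟨i, i1, i2⟩ := (h3 _).mp hw
          rcases Nat.lt_or_ge i j with hij | hij
          · apply hj
            refine ⟨j - i, by omega, by omega, ?_⟩
            have h6 : j = (j - i) + i := by omega
            rw [h6, add_nsmul, i2] at j2
            have : y = (j - i) • g := by
              have := j2
              rw [add_comm w y] at this
              exact (add_right_cancel this).symm
            exact this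
          · have h7 : (i - j) • g ∈ Sums T := (h3 _).mpr ⟨i - j, by omega, rfl⟩
            obtain ⟨V, v1, v2⟩ := mem_sums.mp h7
            refine hfree (y ::ₘ V) ((Multiset.cons_le_cons_iff y).mpr v1) Multiset.cons_ne_zero ?_
            rw [Multiset.sum_cons, v2]
            have h6 : i = (i - j) + j := by omega
            have h8 : (i - j) • g + j • g = w := by rw [← add_nsmul, ← h6, i2]
            rw [j2, ← add_assoc] at h8
            have h9 : ((i - j) • g + w) + y = 0 + w := by
              rw [zero_add, add_assoc]
              rw [add_assoc] at h8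
              exact h8
            have h10 : (y + (i - j) • g) + w = 0 + w := by
              rw [← h9]; abel
            exact add_right_cancel h10
        have hsub : (Sums T) ∪ ((Sums T).image (fun z => z + y)) ⊆ Sums (y ::ₘ T) := by
          intro z hz
          rw [mem_sums_cons]
          rcases Finset.mem_union.mp hz with hz | hz
          · exact Or.inl hz
          · obtain ⟨w, hw, rfl⟩ := Finset.mem_image.mp hz
            right
            rwa [add_sub_cancel_right]
        have h5 := Finset.card_le_card hsub
        rw [Finset.card_union_of_disjoint hdis,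
          Finset.card_image_of_injective _ (fun a b hab => add_right_cancel hab)] at h5
        have h6 := card_sums hT
        omega
    · push Not at hA
      -- every term lowers the number of sums by exactly one
      set σ := s.sum with hσ
      have key : ∀ y ∈ s, ∀ z, z ∈ Sums (s.erase y) ↔ z ∈ Sums s ∧ z ≠ σ := by
        intro y hy z
        obtain ⟨T, hT⟩ := Multiset.exists_cons_of_mem hy
        have e1 : s.erase y = T := by rw [hT, Multiset.erase_cons_head]
        have hn : σ ∉ Sums (s.erase y) := by
          rw [e1, hσ]
          subst hT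
          exact sum_notMem hfree
        have h1 : insert σ (Sums (s.erase y)) ⊆ Sums s := by
          intro x hx
          rcases Finset.mem_insert.mp hx with rfl | hx
          · exact mem_sums.mpr ⟨_, le_refl _, rfl⟩
          · exact sums_mono (Multiset.erase_le y s) hx
        have h2 : insert σ (Sums (s.erase y)) = Sums s := by
          apply Finset.eq_of_subset_of_card_le h1
          rw [Finset.card_insert_of_notMem hn]
          have := hA y hy
          omega
        rw [← h2, Finset.mem_insert]
        constructor
        · intro h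
          exact ⟨Or.inr h, fun h' => hn (h' ▸ h)⟩
        · rintro ⟨h | h, h'⟩
          · exact absurd h h'
          · exact h
      have shift : ∀ y ∈ s, ∀ y' ∈ s, ∀ z, (z ∈ Sums s ∧ z ≠ σ) →
          (z + (y - y') ∈ Sums s ∧ z + (y - y') ≠ σ) := by
        intro y hy y' hy' z hz
        have h1 := symm_sums ((key y hy z).mpr hz)
        have h2 : (s.erase y).sum = σ - y := by
          obtain ⟨T, hT⟩ := Multiset.exists_cons_of_mem hy
          rw [hσ, hT, Multiset.erase_cons_head, Multiset.sum_cons]; abel
        rw [h2] at h1
        have h3 := symm_sums ((key y' hy' _).mpr ((key y hy _).mp h1))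
        have h4 : (s.erase y').sum = σ - y' := by
          obtain ⟨T, hT⟩ := Multiset.exists_cons_of_mem hy'
          rw [hσ, hT, Multiset.erase_cons_head, Multiset.sum_cons]; abel
        rw [h4] at h3
        have h5 : σ - y' - (σ - y - z) = z + (y - y') := by abel
        rw [h5] at h3
        exact (key y' hy' _).mp h3
      have heq : ∀ y ∈ s, ∀ y' ∈ s, y = y' := by
        intro y hy y' hy'
        by_contra hne
        -- the set is stable under adding `y`
        have hst : ∀ z, (z ∈ Sums s ∧ z ≠ σ) → (z + y ∈ Sums s ∧ z + y ≠ σ) := by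
          intro z hz
          have h1 : z + y ∈ Sums s := by
            obtain ⟨T, hT⟩ := Multiset.exists_cons_of_mem hy
            have h2 := (key y hy z).mpr hz
            rw [hT, Multiset.erase_cons_head] at h2
            rw [hT, mem_sums_cons]
            right
            rwa [add_sub_cancel_right]
          refine ⟨h1, fun h2 => ?_⟩
          have h3 := shift y' hy' y hy z hz
          have h4 : z + (y' - y) + y ∈ Sums s := by
            obtain ⟨T, hT⟩ := Multiset.exists_cons_of_mem hy
            have h5 := (key y hy _).mpr h3
            rw [hT, Multiset.erase_cons_head] at h5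
            rw [hT, mem_sums_cons]
            right
            rwa [add_sub_cancel_right]
          have h5 : z + (y' - y) + y = σ + (y' - y) := by rw [← h2]; abel
          have h6 : σ + (y' - y) ≠ σ := by
            intro h7
            have h8 : y' - y = 0 := add_eq_left.mp h7
            exact hne (sub_eq_zero.mp h8).symm
          rw [h5] at h4
          have h7 := shift y hy y' hy' _ ⟨h4, h6⟩
          apply h7.2
          abel
        have hmul : ∀ n : ℕ, (n • y ∈ Sums s ∧ n • y ≠ σ) := by
          intro n
          induction n with
          | zero =>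
            rw [zero_nsmul]
            refine ⟨zero_mem_sums s, fun h => ?_⟩
            exact hfree s (le_refl _) (fun h0 => by rw [h0] at hy; simp at hy) h.symm
          | succ n ihn =>
            rw [succ_nsmul]
            exact hst _ ihn
        have hord : 0 < addOrderOf y := (isOfFinAddOrder_of_finite y).addOrderOf_pos
        have h1 := (key y hy _).mpr (hmul (addOrderOf y - 1))
        obtain ⟨V, v1, v2⟩ := mem_sums.mp h1
        obtain ⟨T, hT⟩ := Multiset.exists_cons_of_mem hy
        rw [hT, Multiset.erase_cons_head] at v1
        refine hfree (y ::ₘ V) (by rw [hT]; exact (Multiset.cons_le_cons_iff y).mpr v1)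
          Multiset.cons_ne_zero ?_
        rw [Multiset.sum_cons, v2, ← succ_nsmul', Nat.sub_add_cancel hord, addOrderOf_nsmul_eq_zero]
      obtain ⟨a, ha⟩ : ∃ a, a ∈ s := Multiset.exists_mem_of_ne_zero (by
        intro h0
        rw [h0] at hs
        simp at hs)
      have hrep : s = Multiset.replicate (card s) a :=
        Multiset.eq_replicate.mpr ⟨rfl, fun b hb => heq b hb a ha⟩
      refine ⟨a, Multiset.replicate (card s) 1, ?_, ?_, ?_, ?_⟩
      · intro i hi
        rw [Multiset.eq_of_mem_replicate hi]
      · rw [Multiset.map_replicate, one_nsmul]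
        exact hrep
      · intro z
        rw [Multiset.sum_replicate, smul_eq_mul, mul_one, mem_sums]
        constructor
        · rintro ⟨τ, h1, h2⟩
          rw [hrep] at h1
          have h3 := Multiset.le_replicate_iff.mp h1
          obtain ⟨n, n1, n2⟩ := h3
          refine ⟨n, n1, ?_⟩
          rw [← h2, n2, Multiset.sum_replicate]
        · rintro ⟨i, i1, i2⟩
          refine ⟨Multiset.replicate i a, ?_, ?_⟩
          · rw [hrep]
            exact Multiset.replicate_le_replicate a |>.mpr i1
          · rw [Multiset.sum_replicate, i2]
      · intro i i1 i2 i3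
        rw [Multiset.sum_replicate, smul_eq_mul, mul_one] at i2
        refine hfree (Multiset.replicate i a) ?_ ?_ ?_
        · rw [hrep]
          exact Multiset.replicate_le_replicate a |>.mpr i2
        · intro h0
          have := congrArg card h0
          rw [Multiset.card_replicate] at this
          simp at this
          omega
        · rw [Multiset.sum_replicate, i3]

end Group

end Pool.Agent.TH540.SC
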