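import Pool.Agent.TH540.SavChen

/-!
# Long zero-sum lists over `ZMod m`: few parts means small height
-/

set_option linter.unusedSectionVars false

namespace Pool.Agent.TH540.SC

open Multiset

variable {m : ℕ} [NeZero m]

/-- the sum of the representatives in `{0, ..., m - 1}` -/
def ht (s : Multiset (ZMod m)) : ℕ := (s.map ZMod.val).sum

/-- multiplication by a unit -/
def tw (t : (ZMod m)ˣ) (s : Multiset (ZMod m)) : Multiset (ZMod m) := s.map fun a => (t : ZMod m) * a

/-- `s` is a union of `k` nonempty lists with sum zero -/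
def Splits (s : Multiset (ZMod m)) (k : ℕ) : Prop :=
  ∃ P : Multiset (Multiset (ZMod m)), card P = k ∧ P.join = s ∧ ∀ σ ∈ P, σ ≠ 0 ∧ σ.sum = 0

/-- nonempty, sum zero, and no proper nonempty sublist has sum zero -/
def IsMin (s : Multiset (ZMod m)) : Prop :=
  s ≠ 0 ∧ s.sum = 0 ∧ ∀ τ ≤ s, τ ≠ 0 → τ.sum = 0 → τ = s

lemma cast_ht (s : Multiset (ZMod m)) : ((ht s : ℕ) : ZMod m) = s.sum := by
  unfold ht
  induction s using Multiset.induction_on with
  | empty => simp
  | cons a s ih =>
    rw [Multiset.map_cons, Multiset.sum_cons, Nat.cast_add, ih, ZMod.natCast_zmod_val,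
      Multiset.sum_cons]

lemma dvd_ht {s : Multiset (ZMod m)} (h : s.sum = 0) : m ∣ ht s := by
  rw [← ZMod.natCast_eq_zero_iff, cast_ht, h]

lemma ht_add (s s' : Multiset (ZMod m)) : ht (s + s') = ht s + ht s' := by
  unfold ht
  rw [Multiset.map_add, Multiset.sum_add]

lemma card_le_ht {s : Multiset (ZMod m)} (h0 : (0 : ZMod m) ∉ s) : card s ≤ ht s := by
  unfold ht
  induction s using Multiset.induction_on with
  | empty => simp
  | cons a s ih =>
    rw [Multiset.mem_cons, not_or] at h0
    have h1 := ih h0.2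
    have h2 : 0 < a.val := by
      rw [Nat.pos_iff_ne_zero, Ne, ZMod.val_eq_zero]
      exact fun h => h0.1 h.symm
    rw [Multiset.map_cons, Multiset.sum_cons, Multiset.card_cons]
    omega

/-- a nonempty list of nonzero residues with sum zero has height at least `m` -/
lemma le_ht {s : Multiset (ZMod m)} (h0 : (0 : ZMod m) ∉ s) (hs : s ≠ 0) (h : s.sum = 0) :
    m ≤ ht s := by
  apply Nat.le_of_dvd _ (dvd_ht h)
  exact lt_of_lt_of_le (Multiset.card_pos.mpr hs) (card_le_ht h0)

lemma exists_min {s : Multiset (ZMod m)} (hs : s ≠ 0) (h : s.sum = 0) :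
    ∃ τ ≤ s, IsMin τ := by
  induction hk : card s using Nat.strong_induction_on generalizing s with
  | _ k ih =>
    by_cases hmin : ∀ τ ≤ s, τ ≠ 0 → τ.sum = 0 → τ = s
    · exact ⟨s, le_refl _, hs, h, hmin⟩
    · push Not at hmin
      obtain ⟨τ, h1, h2, h3, h4⟩ := hmin
      have h5 : card τ < card s := Multiset.card_lt_card (lt_of_le_of_ne h1 h4)
      obtain ⟨ρ, r1, r2⟩ := ih (card τ) (by omega) h2 h3 rfl
      exact ⟨ρ, r1.trans h1, r2⟩

lemma exists_parts {s : Multiset (ZMod m)} (h : s.sum = 0) :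
    ∃ P : Multiset (Multiset (ZMod m)), P.join = s ∧ ∀ σ ∈ P, IsMin σ := by
  induction hk : card s using Nat.strong_induction_on generalizing s with
  | _ k ih =>
    by_cases hs : s = 0
    · exact ⟨0, by rw [hs]; rfl, by simp⟩
    · obtain ⟨τ, h1, h2⟩ := exists_min hs h
      obtain ⟨κ, rfl⟩ := Multiset.le_iff_exists_add.mp h1
      rw [Multiset.sum_add, h2.2.1, zero_add] at h
      have h5 : 0 < card τ := Multiset.card_pos.mpr h2.1
      rw [Multiset.card_add] at hk
      obtain ⟨P, p1, p2⟩ := ih (card κ) (by omega) h rfl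
      refine ⟨τ ::ₘ P, by rw [Multiset.join_cons, p1], ?_⟩
      intro σ hσ
      rcases Multiset.mem_cons.mp hσ with rfl | hσ
      · exact h2
      · exact p2 σ hσ

lemma card_le_of_min {s : Multiset (ZMod m)} (h : IsMin s) : card s ≤ m := by
  by_contra hlt
  obtain ⟨σ, h1, h2, h3, h4⟩ := davenport s (by omega)
  have h5 := h.2.2 σ h1 h2 h4
  rw [h5] at h3
  exact hlt h3

lemma merge : ∀ (d : ℕ) (P : Multiset (Multiset (ZMod m))) (k : ℕ), card P = k + 1 + d →
    (∀ σ ∈ P, σ ≠ 0 ∧ σ.sum = 0) → Splits P.join (k + 1) := by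
  intro d
  induction d with
  | zero =>
    intro P k h1 h2
    exact ⟨P, h1, rfl, h2⟩
  | succ d ih =>
    intro P k h1 h2
    obtain ⟨σ, hσ⟩ : ∃ σ, σ ∈ P := Multiset.exists_mem_of_ne_zero (by
      rintro rfl
      simp at h1)
    obtain ⟨P, rfl⟩ := Multiset.exists_cons_of_mem hσ
    obtain ⟨τ, hτ⟩ : ∃ σ, σ ∈ P := Multiset.exists_mem_of_ne_zero (by
      rintro rfl
      simp at h1
      omega)
    obtain ⟨P, rfl⟩ := Multiset.exists_cons_of_mem hτ
    have h3 : (σ ::ₘ τ ::ₘ P).join = ((σ + τ) ::ₘ P).join := by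
      rw [Multiset.join_cons, Multiset.join_cons, Multiset.join_cons, add_assoc]
    rw [h3]
    apply ih
    · rw [Multiset.card_cons, Multiset.card_cons] at h1
      rw [Multiset.card_cons]
      omega
    · intro ρ hρ
      have hσ' := h2 σ (Multiset.mem_cons_self _ _)
      have hτ' := h2 τ (Multiset.mem_cons_of_mem (Multiset.mem_cons_self _ _))
      rcases Multiset.mem_cons.mp hρ with rfl | hρ
      · refine ⟨?_, by rw [Multiset.sum_add, hσ'.2, hτ'.2, add_zero]⟩
        intro h0
        have h1' := congrArg card h0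
        rw [Multiset.card_add, Multiset.card_zero] at h1'
        exact hσ'.1 (Multiset.card_eq_zero.mp (by omega))
      · exact h2 ρ (Multiset.mem_cons_of_mem (Multiset.mem_cons_of_mem hρ))

/-- **Savchev-Chen**: a long minimal zero-sum list has index one. -/
theorem index_one {s : Multiset (ZMod m)} (h : IsMin s) (hl : m + 3 ≤ 2 * card s) :
    ∃ t : (ZMod m)ˣ, ht (tw t s) = m := by
  classical
  obtain ⟨y, hy⟩ : ∃ y, y ∈ s := Multiset.exists_mem_of_ne_zero h.1
  obtain ⟨T, rfl⟩ := Multiset.exists_cons_of_mem hy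
  rw [Multiset.card_cons] at hl
  have hfree : Free T := by
    intro τ h1 h2 h3
    have h4 := h.2.2 τ (h1.trans (Multiset.le_cons_self T y)) h2 h3
    have h5 := Multiset.card_le_card h1
    rw [h4, Multiset.card_cons] at h5
    omega
  have hc : (Sums T).card ≤ m := by
    have := Finset.card_le_univ (Sums T)
    rwa [ZMod.card] at this
  obtain ⟨g, x, h1, h2, h3, h4⟩ := behave (card T) T rfl hfree (by omega)
  have hord : x.sum < addOrderOf g := by
    by_contra hge
    exact h4 (addOrderOf g) ((isOfFinAddOrder_of_finite g).addOrderOf_pos) (by omega)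
      (addOrderOf_nsmul_eq_zero g)
  set k := addOrderOf g - x.sum with hk
  have hyk : y = k • g := by
    have e1 : y + T.sum = 0 := by rw [← Multiset.sum_cons]; exact h.2.1
    have e2 : T.sum = x.sum • g := by
      rw [h2]
      clear h2 h3 h4 hord h1 hk
      induction x using Multiset.induction_on with
      | empty => simp
      | cons i x ih => rw [Multiset.map_cons, Multiset.sum_cons, Multiset.sum_cons, ih, add_nsmul]
    have e3 : k • g + x.sum • g = 0 := by
      rw [← add_nsmul, hk, Nat.sub_add_cancel hord.le, addOrderOf_nsmul_eq_zero]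
    rw [e2] at e1
    exact add_right_cancel (e1.trans e3.symm)
  have hcx : card T = card x := by
    rw [h2, Multiset.card_map]
  have hxs : ∀ x : Multiset ℕ, (∀ i ∈ x, 1 ≤ i) → card x ≤ x.sum := by
    intro x
    induction x using Multiset.induction_on with
    | empty => simp
    | cons i x ih =>
      intro hh
      have a1 := ih (fun j hj => hh j (Multiset.mem_cons_of_mem hj))
      have a2 := hh i (Multiset.mem_cons_self i x)
      rw [Multiset.card_cons, Multiset.sum_cons]
      omega
  have hcs := hxs x h1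
  have hdvd : addOrderOf g ∣ m := by
    have := addOrderOf_dvd_natCard g
    rwa [Nat.card_eq_fintype_card, ZMod.card] at this
  have hm : addOrderOf g = m := by
    obtain ⟨q, hq⟩ := hdvd
    have hq0 : q ≠ 0 := by
      rintro rfl
      rw [mul_zero] at hq
      exact NeZero.ne m hq
    by_contra hne
    have hq2 : 2 ≤ q := by
      rcases Nat.lt_or_ge q 2 with h' | h'
      · have : q = 1 := by omega
        rw [this, mul_one] at hq
        exact absurd hq.symm hne
      · exact h'
    have : addOrderOf g * 2 ≤ addOrderOf g * q := Nat.mul_le_mul_left _ hq2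
    omega
  obtain ⟨n, hn⟩ : ∃ n : ℤ, n • g = 1 := by
    have htop : AddSubgroup.zmultiples g = ⊤ := by
      apply AddSubgroup.eq_top_of_card_eq
      rw [Nat.card_zmultiples, hm, Nat.card_eq_fintype_card, ZMod.card]
    have : (1 : ZMod m) ∈ AddSubgroup.zmultiples g := by rw [htop]; trivial
    exact AddSubgroup.mem_zmultiples_iff.mp this
  rw [zsmul_eq_mul] at hn
  refine ⟨⟨(n : ZMod m), g, hn, by rw [mul_comm]; exact hn⟩, ?_⟩
  set t : (ZMod m)ˣ := ⟨(n : ZMod m), g, hn, by rw [mul_comm]; exact hn⟩ with ht'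
  have hval : ∀ x : Multiset ℕ, ht (tw t (x.map fun i => i • g)) ≤ x.sum := by
    intro x
    unfold ht tw
    rw [Multiset.map_map, Multiset.map_map]
    induction x using Multiset.induction_on with
    | empty => simp
    | cons i x ih =>
      rw [Multiset.map_cons, Multiset.sum_cons, Multiset.sum_cons]
      apply Nat.add_le_add _ ih
      change (((n : ZMod m)) * (i • g)).val ≤ i
      rw [nsmul_eq_mul, mul_left_comm, hn, mul_one, ZMod.val_natCast]
      exact Nat.mod_le _ _
  have hs : (y ::ₘ T) = (k ::ₘ x).map fun i => i • g := by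
    rw [Multiset.map_cons, ← h2, ← hyk]
  have hle : ht (tw t (y ::ₘ T)) ≤ m := by
    rw [hs]
    refine (hval _).trans ?_
    rw [Multiset.sum_cons]
    omega
  apply le_antisymm hle
  have h0 : (0 : ZMod m) ∉ tw t (y ::ₘ T) := by
    unfold tw
    intro h0
    obtain ⟨b, hb, hb0⟩ := Multiset.mem_map.mp h0
    have hb1 : b = 0 := by
      have : (t : ZMod m) * b = (t : ZMod m) * 0 := by rw [hb0, mul_zero]
      exact (Units.mul_right_inj t).mp this
    have h5 := h.2.2 {b} (by rw [Multiset.singleton_le]; exact hb) (by simp) (by simp [hb1])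
    have h6 := congrArg card h5
    rw [Multiset.card_singleton, Multiset.card_cons] at h6
    omega
  apply le_ht h0
  · unfold tw
    rw [Ne, Multiset.map_eq_zero]
    exact Multiset.cons_ne_zero
  · unfold tw
    rw [Multiset.sum_map_mul_left, Multiset.map_id', h.2.1, mul_zero]

/-! ### the version for several parts -/

/-- every nonempty zero-sum sublist is long -/
def Short (s : Multiset (ZMod m)) : Prop := ∀ τ ≤ s, τ ≠ 0 → τ.sum = 0 → m + 3 ≤ 2 * card τ

/-- the largest elements with sum at most `M` -/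
lemma top {α : Type*} [DecidableEq α] (f : α → ℕ) : ∀ (l : ℕ) (r : Multiset α) (M : ℕ),
    card r = l → M < (r.map f).sum →
    ∃ (J K : Multiset α) (y : α), r = J + y ::ₘ K ∧ (J.map f).sum ≤ M ∧
      M < (J.map f).sum + f y ∧ (∀ z ∈ J, f y ≤ f z) ∧ ∀ z ∈ K, f z ≤ f y := by
  intro l
  induction l with
  | zero =>
    intro r M h1 h2
    rw [Multiset.card_eq_zero] at h1
    subst h1
    simp at h2
  | succ l ih =>
    intro r M h1 h2
    have hne : r ≠ 0 := by
      rintro rfl
      simp at h1
    obtain ⟨a, ha, hmax⟩ := Finset.exists_max_image r.toFinset f (by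
      obtain ⟨b, hb⟩ := Multiset.exists_mem_of_ne_zero hne
      exact ⟨b, Multiset.mem_toFinset.mpr hb⟩)
    rw [Multiset.mem_toFinset] at ha
    obtain ⟨r, rfl⟩ := Multiset.exists_cons_of_mem ha
    have hmax' : ∀ z ∈ r, f z ≤ f a := fun z hz =>
      hmax z (Multiset.mem_toFinset.mpr (Multiset.mem_cons_of_mem hz))
    rw [Multiset.card_cons] at h1
    rw [Multiset.map_cons, Multiset.sum_cons] at h2
    by_cases hM : M < f a
    · exact ⟨0, r, a, by simp, by simp, by simpa using hM, by simp, hmax'⟩
    · obtain ⟨J, K, y, j1, j2, j3, j4, j5⟩ := ih r (M - f a) (by omega) (by omega)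
      have hy : f y ≤ f a := hmax' y (by rw [j1]; simp)
      refine ⟨a ::ₘ J, K, y, by rw [j1, Multiset.cons_add], ?_, ?_, ?_, j5⟩
      · rw [Multiset.map_cons, Multiset.sum_cons]
        omega
      · rw [Multiset.map_cons, Multiset.sum_cons]
        omega
      · intro z hz
        rcases Multiset.mem_cons.mp hz with rfl | hz
        · exact hy
        · exact j4 z hz

lemma sum_ge {α : Type*} (f : α → ℕ) (b : ℕ) (J : Multiset α) (h : ∀ z ∈ J, b ≤ f z) :
    b * card J ≤ (J.map f).sum := by
  induction J using Multiset.induction_on with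
  | empty => simp
  | cons a J ih =>
    have h1 := ih fun z hz => h z (Multiset.mem_cons_of_mem hz)
    have h2 := h a (Multiset.mem_cons_self a J)
    rw [Multiset.card_cons, Multiset.map_cons, Multiset.sum_cons, mul_add]
    omega

lemma sum_le {α : Type*} (f : α → ℕ) (b : ℕ) (J : Multiset α) (h : ∀ z ∈ J, f z ≤ b) :
    (J.map f).sum ≤ b * card J := by
  induction J using Multiset.induction_on with
  | empty => simp
  | cons a J ih =>
    have h1 := ih fun z hz => h z (Multiset.mem_cons_of_mem hz)
    have h2 := h a (Multiset.mem_cons_self a J)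
    rw [Multiset.card_cons, Multiset.map_cons, Multiset.sum_cons, mul_add]
    omega

lemma count_ones {s : Multiset (ZMod m)} (h0 : (0 : ZMod m) ∉ s) :
    2 * card s ≤ ht s + Multiset.count 1 s := by
  unfold ht
  induction s using Multiset.induction_on with
  | empty => simp
  | cons a s ih =>
    rw [Multiset.mem_cons, not_or] at h0
    have h1 := ih h0.2
    have h2 : 0 < a.val := by
      rw [Nat.pos_iff_ne_zero, Ne, ZMod.val_eq_zero]
      exact fun h => h0.1 h.symm
    rw [Multiset.map_cons, Multiset.sum_cons, Multiset.card_cons, Multiset.count_cons]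
    by_cases ha : 1 = a
    · rw [if_pos ha]
      omega
    · rw [if_neg ha]
      have h3 : a.val ≠ 1 := by
        intro h3
        apply ha
        have h4 := ZMod.natCast_zmod_val a
        rw [h3, Nat.cast_one] at h4
        exact h4
      omega

/-- the arithmetic of the swap -/
lemma arith {m j S e y : ℕ} (hy1 : 1 ≤ j) (hS : S + e = m) (hey : e + 1 ≤ y) (h2 : 2 ≤ y)
    (hj : y * j ≤ S) : 2 * (j + e) ≤ m + 2 := by
  have h3 : y ≤ S := by nlinarith
  rcases Nat.lt_or_ge e 3 with he | he
  · have : 2 * j ≤ S := by nlinarith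
    omega
  · obtain ⟨w, rfl⟩ : ∃ w, y = e + 1 + w := ⟨y - (e + 1), by omega⟩
    have h4 : (e + 1) * j ≤ S := by nlinarith
    by_contra hlt
    have h5 : m + 3 ≤ 2 * (j + e) := by omega
    -- `S ≥ e + 1`, `2 j ≥ S + 3 - e`
    have h6 : S + 3 ≤ 2 * j + e := by omega
    have h7 : e + 1 ≤ S := by omega
    obtain ⟨u, rfl⟩ : ∃ u, S = e + 1 + u := ⟨S - (e + 1), by omega⟩
    have h8 : 2 * ((e + 1) * j) ≤ 2 * (e + 1 + u) := by omega
    have h9 : (e + 1) * (4 + u) ≤ 2 * ((e + 1) * j) := by nlinarith
    nlinarith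

/-- If `τ` has height `m` and is long, every other minimal part has height `m`. -/
lemma other {s τ ρ : Multiset (ZMod m)} (hs : Short s) (hle : ρ + τ ≤ s) (h0 : (0 : ZMod m) ∉ s)
    (hτ : ht τ = m) (hl : 3 * m + 3 ≤ 4 * card τ) (hρ : card ρ ≤ m) (hρ0 : ρ.sum = 0) :
    ht ρ ≤ m := by
  classical
  by_contra hlt
  have hm0 : 0 < m := Nat.pos_of_ne_zero (NeZero.ne m)
  have h2m : 2 * m ≤ ht ρ := by
    obtain ⟨q, hq⟩ := dvd_ht hρ0
    rw [hq] at hlt ⊢
    have : 2 ≤ q := by
      by_contra h
      have h' : q ≤ 1 := by omega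
      have := Nat.mul_le_mul_left m h'
      omega
    calc 2 * m = m * 2 := mul_comm _ _
      _ ≤ m * q := Nat.mul_le_mul_left _ this
  have h0τ : (0 : ZMod m) ∉ τ := fun h => h0 (Multiset.mem_of_le hle (Multiset.mem_add.mpr (Or.inr h)))
  have h0ρ : (0 : ZMod m) ∉ ρ := fun h => h0 (Multiset.mem_of_le hle (Multiset.mem_add.mpr (Or.inl h)))
  have hv := count_ones h0τ
  rw [hτ] at hv
  obtain ⟨J, K, y, j1, j2, j3, j4, j5⟩ := top ZMod.val (card ρ) ρ m rfl (by
    change m < ht ρ
    omega)
  have hym : y.val < m := ZMod.val_lt y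
  have hy0 : 0 < y.val := by
    rw [Nat.pos_iff_ne_zero, Ne, ZMod.val_eq_zero]
    intro h
    apply h0ρ
    rw [j1, ← h]
    simp
  set S := (J.map ZMod.val).sum with hS
  have hJc := sum_ge ZMod.val y.val J j4
  rw [← hS] at hJc
  have hKc := sum_le ZMod.val y.val K j5
  have hρs : ht ρ = S + (y.val + (K.map ZMod.val).sum) := by
    unfold ht
    rw [j1, Multiset.map_add, Multiset.sum_add, Multiset.map_cons, Multiset.sum_cons]
  have hρc : card ρ = card J + (1 + card K) := by
    rw [j1, Multiset.card_add, Multiset.card_cons]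
    omega
  have hJ1 : 1 ≤ card J := by
    by_contra h
    have : card J = 0 := by omega
    rw [Multiset.card_eq_zero] at this
    have hS0 : S = 0 := by rw [hS, this]; simp
    omega
  have hy2 : 2 ≤ y.val := by
    by_contra h
    have hy1 : y.val = 1 := by omega
    rw [hy1, one_mul] at hKc hJc
    omega
  obtain ⟨e, he⟩ : ∃ e, S + e = m := ⟨m - S, by omega⟩
  have hfin := arith (m := m) (j := card J) (S := S) (e := e) (y := y.val) hJ1 he (by omega) hy2 hJc
  have hrep : Multiset.replicate e (1 : ZMod m) ≤ τ := by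
    rw [← Multiset.le_count_iff_replicate_le]
    have h3 : y.val ≤ S := by nlinarith
    omega
  have h5 := hs (J + Multiset.replicate e 1) ?_ ?_ ?_
  · rw [Multiset.card_add, Multiset.card_replicate] at h5
    omega
  · refine le_trans (add_le_add ?_ hrep) hle
    rw [j1]
    exact Multiset.le_add_right _ _
  · intro h
    have := congrArg card h
    rw [Multiset.card_add, Multiset.card_zero] at this
    omega
  · rw [Multiset.sum_add, Multiset.sum_replicate, ← cast_ht J, nsmul_eq_mul, mul_one, ← Nat.cast_add]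
    change ((S + e : ℕ) : ZMod m) = 0
    rw [he, ZMod.natCast_self]

lemma tw_sum (t : (ZMod m)ˣ) (s : Multiset (ZMod m)) : (tw t s).sum = (t : ZMod m) * s.sum := by
  unfold tw
  rw [Multiset.sum_map_mul_left, Multiset.map_id']

lemma tw_card (t : (ZMod m)ˣ) (s : Multiset (ZMod m)) : card (tw t s) = card s := by
  unfold tw
  rw [Multiset.card_map]

lemma tw_mul (t u : (ZMod m)ˣ) (s : Multiset (ZMod m)) : tw t (tw u s) = tw (t * u) s := by
  unfold tw
  rw [Multiset.map_map]
  apply Multiset.map_congr rfl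
  intro a _
  simp [mul_assoc]

lemma tw_one (s : Multiset (ZMod m)) : tw 1 s = s := by
  unfold tw
  simp

lemma tw_zero_notMem {t : (ZMod m)ˣ} {s : Multiset (ZMod m)} (h0 : (0 : ZMod m) ∉ s) :
    (0 : ZMod m) ∉ tw t s := by
  unfold tw
  intro h
  obtain ⟨b, hb, hb0⟩ := Multiset.mem_map.mp h
  have hb1 : b = 0 := by
    have : (t : ZMod m) * b = (t : ZMod m) * 0 := by rw [hb0, mul_zero]
    exact (Units.mul_right_inj t).mp this
  rw [hb1] at hb
  exact h0 hb

lemma tw_le {t : (ZMod m)ˣ} {s s' : Multiset (ZMod m)} (h : s ≤ s') : tw t s ≤ tw t s' :=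
  Multiset.map_le_map h

lemma short_tw {t : (ZMod m)ˣ} {s : Multiset (ZMod m)} (h : Short s) : Short (tw t s) := by
  intro τ h1 h2 h3
  have h4 := tw_le (t := t⁻¹) h1
  rw [tw_mul, inv_mul_cancel, tw_one] at h4
  have h5 := h _ h4 (by
    intro h6
    have := congrArg card h6
    rw [tw_card, Multiset.card_zero, Multiset.card_eq_zero] at this
    exact h2 this) (by rw [tw_sum, h3, mul_zero])
  rwa [tw_card] at h5

lemma ht_join (P : Multiset (Multiset (ZMod m))) (t : (ZMod m)ˣ) :
    ht (tw t P.join) = (P.map fun σ => ht (tw t σ)).sum := by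
  induction P using Multiset.induction_on with
  | empty => simp [ht, tw]
  | cons σ P ih =>
    rw [Multiset.join_cons, Multiset.map_cons, Multiset.sum_cons, ← ih, ← ht_add]
    unfold tw
    rw [Multiset.map_add]

/-- **The theorem**: a long list with sum zero is a union of `c + 1` nonempty lists with sum zero, or
has height `m * c` after multiplication by a unit. -/
theorem index_le (c : ℕ) (hc : 1 ≤ c) {s : Multiset (ZMod m)} (h0 : (0 : ZMod m) ∉ s)
    (hs : s.sum = 0) (hl : (2 * c - 1) * m + 3 ≤ 2 * card s) :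
    Splits s (c + 1) ∨ ∃ t : (ZMod m)ˣ, ht (tw t s) = m * c := by
  classical
  by_cases hsp : Splits s (c + 1)
  · exact Or.inl hsp
  right
  obtain ⟨d, rfl⟩ : ∃ d, c = d + 1 := ⟨c - 1, by omega⟩
  have hl' : (2 * d + 1) * m + 3 ≤ 2 * card s := by
    have : 2 * (d + 1) - 1 = 2 * d + 1 := by omega
    rwa [this] at hl
  -- every nonempty zero-sum sublist is long
  have hshort : Short s := by
    intro τ h1 h2 h3
    obtain ⟨κ, rfl⟩ := Multiset.le_iff_exists_add.mp h1
    by_contra hlt
    have h4 : m * d < card κ := by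
      rw [Multiset.card_add] at hl'
      nlinarith
    rw [Multiset.sum_add, h3, zero_add] at hs
    obtain ⟨P, p1, p2, p3⟩ := exists_split d κ hs h4
    apply hsp
    refine ⟨τ ::ₘ P, by rw [Multiset.card_cons, p1], by rw [Multiset.join_cons, p2], ?_⟩
    intro σ hσ
    rcases Multiset.mem_cons.mp hσ with rfl | hσ
    · exact ⟨h2, h3⟩
    · exact p3 σ hσ
  obtain ⟨P, p1, p2⟩ := exists_parts hs
  have hPd : card P ≤ d + 1 := by
    by_contra hlt
    apply hsp
    rw [← p1]
    exact merge (card P - (d + 2)) P (d + 1) (by omega) fun σ hσ => ⟨(p2 σ hσ).1, (p2 σ hσ).2.1⟩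
  have hcard : card s = (P.map card).sum := by rw [← p1, Multiset.card_join]
  have hsm : card s ≤ m * card P := by
    rw [hcard]
    exact sum_le card m P fun σ hσ => card_le_of_min (p2 σ hσ)
  have hPe : card P = d + 1 := by
    by_contra hne
    have : card P ≤ d := by omega
    have := Nat.mul_le_mul_left m this
    nlinarith
  obtain ⟨τ, hτ, hmax⟩ := Finset.exists_max_image P.toFinset card (by
    obtain ⟨b, hb⟩ := Multiset.exists_mem_of_ne_zero (s := P) (by
      rintro rfl
      simp at hPe)
    exact ⟨b, Multiset.mem_toFinset.mpr hb⟩)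
  rw [Multiset.mem_toFinset] at hτ
  have hmin := p2 τ hτ
  have hτs : τ ≤ s := by
    rw [← p1]
    obtain ⟨P', hP'⟩ := Multiset.exists_cons_of_mem hτ
    rw [hP', Multiset.join_cons]
    exact Multiset.le_add_right _ _
  obtain ⟨t, ht1⟩ := index_one hmin (hshort τ hτs hmin.1 hmin.2.1)
  refine ⟨t, ?_⟩
  obtain ⟨P', rfl⟩ := Multiset.exists_cons_of_mem hτ
  have hlong : card s ≤ card τ * (d + 1) := by
    rw [hcard, ← hPe]
    exact sum_le card (card τ) _ fun σ hσ => hmax σ (Multiset.mem_toFinset.mpr hσ)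
  have hτm := card_le_of_min hmin
  have hall : ∀ ρ ∈ P', ht (tw t ρ) = m := by
    intro ρ hρ
    have hρmin := p2 ρ (Multiset.mem_cons_of_mem hρ)
    obtain ⟨P'', rfl⟩ := Multiset.exists_cons_of_mem hρ
    have hle : ρ + τ ≤ s := by
      rw [← p1, Multiset.join_cons, Multiset.join_cons, ← add_assoc, add_comm ρ τ]
      exact Multiset.le_add_right _ _
    have hd : 1 ≤ d := by
      rw [Multiset.card_cons, Multiset.card_cons] at hPe
      omega
    have h0' : (0 : ZMod m) ∉ tw t ρ :=
      tw_zero_notMem fun h => h0 (Multiset.mem_of_le hle (Multiset.mem_add.mpr (Or.inl h)))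
    apply le_antisymm
    · refine other (short_tw (t := t) hshort) (ρ := tw t ρ) (τ := tw t τ) ?_
        (tw_zero_notMem h0) ht1 ?_ ?_ ?_
      · have := tw_le (t := t) hle
        unfold tw at this ⊢
        rwa [Multiset.map_add] at this
      · rw [tw_card]
        obtain ⟨f, rfl⟩ : ∃ f, d = f + 1 := ⟨d - 1, by omega⟩
        have h1 : (2 * f + 3) * m + 3 ≤ 2 * (card τ * (f + 2)) := by
          have e1 : 2 * (f + 1) + 1 = 2 * f + 3 := by ring
          have e2 : f + 1 + 1 = f + 2 := by ring
          rw [e1] at hl'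
          rw [e2] at hlong
          omega
        obtain ⟨δ, hδ⟩ : ∃ δ, card τ + δ = m := ⟨m - card τ, by omega⟩
        have h2 : (2 * f + 4) * δ + 3 ≤ m := by
          have h3 : 2 * (card τ * (f + 2)) + (2 * f + 4) * δ = (2 * f + 4) * m := by
            calc 2 * (card τ * (f + 2)) + (2 * f + 4) * δ = (2 * f + 4) * (card τ + δ) := by ring
              _ = (2 * f + 4) * m := by rw [hδ]
          have h4 : (2 * f + 4) * m = (2 * f + 3) * m + m := by ring
          omega
        have h5 : 4 * δ ≤ (2 * f + 4) * δ := Nat.mul_le_mul_right _ (by omega)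
        omega
      · rw [tw_card]; exact card_le_of_min hρmin
      · rw [tw_sum, hρmin.2.1, mul_zero]
    · apply le_ht h0'
      · intro h
        have := congrArg card h
        rw [tw_card, Multiset.card_zero, Multiset.card_eq_zero] at this
        exact hρmin.1 this
      · rw [tw_sum, hρmin.2.1, mul_zero]
  rw [← p1, ht_join, Multiset.map_cons, Multiset.sum_cons, ht1,
    Multiset.map_congr rfl hall, Multiset.map_const', Multiset.sum_replicate, smul_eq_mul]
  rw [Multiset.card_cons] at hPe
  have : card P' = d := by omega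
  rw [this]
  ring

end Pool.Agent.TH540.SC
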