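import Pool.Agent.TH540.SavChen2

/-!
# The theorem for characters `a : Fin n → ZMod m`
-/

set_option linter.unusedSectionVars false

namespace Pool.Agent.TH540.SC

open Finset

variable {m : ℕ} [NeZero m]

lemma exists_subset_map {ι : Type*} [DecidableEq ι] (a : ι → ZMod m) (τ : Multiset (ZMod m)) :
    ∀ (σ : Multiset (ZMod m)) (I : Finset ι), I.val.map a = σ + τ →
      ∃ I₁ ⊆ I, I₁.val.map a = σ ∧ (I \ I₁).val.map a = τ := by
  intro σ
  induction σ using Multiset.induction_on with
  | empty =>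
    intro I h
    exact ⟨∅, by simp, by simp, by rw [Finset.sdiff_empty, h, zero_add]⟩
  | cons b σ ih =>
    intro I h
    rw [Multiset.cons_add] at h
    obtain ⟨i, hi, hb, hr⟩ := (Multiset.map_eq_cons _ _ _ _).mpr h
    have h1 : (I.erase i).val.map a = σ + τ := by rw [Finset.erase_val]; exact hr
    obtain ⟨I₁, h2, h3, h4⟩ := ih (I.erase i) h1
    have hn : i ∉ I₁ := fun h5 => Finset.notMem_erase i I (h2 h5)
    refine ⟨insert i I₁, ?_, ?_, ?_⟩
    · intro j hj
      rcases Finset.mem_insert.mp hj with rfl | hj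
      · exact hi
      · exact Finset.mem_of_mem_erase (h2 hj)
    · rw [Finset.insert_val_of_notMem hn, Multiset.map_cons, h3, hb]
    · have : I \ insert i I₁ = (I.erase i) \ I₁ := by
        ext j
        simp only [Finset.mem_sdiff, Finset.mem_insert, Finset.mem_erase, not_or]
        tauto
      rw [this, h4]

lemma blocks_of_splits {ι : Type*} [DecidableEq ι] (a : ι → ZMod m) :
    ∀ (k : ℕ) (I : Finset ι), Splits (I.val.map a) k →
      ∃ f : ι → ℕ, (∀ i ∈ I, f i < k) ∧
        ∀ j < k, (∃ i ∈ I, f i = j) ∧ ∑ i ∈ I with f i = j, a i = 0 := by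
  intro k
  induction k with
  | zero =>
    rintro I ⟨P, p1, p2, p3⟩
    rw [Multiset.card_eq_zero] at p1
    subst p1
    rw [Multiset.join_zero] at p2
    have : I = ∅ := by
      rw [← Finset.val_eq_zero]
      exact (Multiset.map_eq_zero.mp p2.symm)
    subst this
    exact ⟨fun _ => 0, by simp, fun j hj => absurd hj (Nat.not_lt_zero j)⟩
  | succ k ih =>
    rintro I ⟨P, p1, p2, p3⟩
    obtain ⟨σ, hσ⟩ : ∃ σ, σ ∈ P := Multiset.exists_mem_of_ne_zero (by
      rintro rfl
      simp at p1)
    obtain ⟨P, rfl⟩ := Multiset.exists_cons_of_mem hσ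
    rw [Multiset.join_cons] at p2
    rw [Multiset.card_cons] at p1
    obtain ⟨I₁, h1, h2, h3⟩ := exists_subset_map a P.join σ I p2.symm
    obtain ⟨f, f1, f2⟩ := ih (I \ I₁) ⟨P, by omega, h3.symm, fun τ hτ =>
      p3 τ (Multiset.mem_cons_of_mem hτ)⟩
    have hσ' := p3 σ (Multiset.mem_cons_self _ _)
    refine ⟨fun i => if i ∈ I₁ then 0 else f i + 1, ?_, ?_⟩
    · intro i hi
      by_cases h : i ∈ I₁
      · simp [h]
      · simp only [h, if_false]
        have := f1 i (Finset.mem_sdiff.mpr ⟨hi, h⟩)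
        omega
    · intro j hj
      rcases Nat.eq_zero_or_pos j with rfl | hj0
      · have hne : I₁.Nonempty := by
          rw [Finset.nonempty_iff_ne_empty]
          rintro rfl
          apply hσ'.1
          rw [← h2]; simp
        obtain ⟨i, hi⟩ := hne
        refine ⟨⟨i, h1 hi, by simp [hi]⟩, ?_⟩
        have hfil : (I.filter fun i => (if i ∈ I₁ then 0 else f i + 1) = 0) = I₁ := by
          ext i
          rw [Finset.mem_filter]
          constructor
          · rintro ⟨_, h⟩
            by_contra hn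
            simp [hn] at h
          · intro h
            exact ⟨h1 h, by simp [h]⟩
        rw [hfil]
        have : ∑ i ∈ I₁, a i = (I₁.val.map a).sum := rfl
        rw [this, h2]
        exact hσ'.2
      · obtain ⟨j, rfl⟩ : ∃ j', j = j' + 1 := ⟨j - 1, by omega⟩
        obtain ⟨⟨i, hi, hij⟩, g2⟩ := f2 j (by omega)
        rw [Finset.mem_sdiff] at hi
        refine ⟨⟨i, hi.1, by simp [hi.2, hij]⟩, ?_⟩
        have hfil : (I.filter fun i => (if i ∈ I₁ then 0 else f i + 1) = j + 1) =
            (I \ I₁).filter fun i => f i = j := by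
          ext i
          rw [Finset.mem_filter, Finset.mem_filter, Finset.mem_sdiff]
          constructor
          · rintro ⟨h, h'⟩
            by_cases hn : i ∈ I₁
            · simp [hn] at h'
            · simp [hn] at h'
              exact ⟨⟨h, hn⟩, h'⟩
          · rintro ⟨⟨h, hn⟩, h'⟩
            exact ⟨h, by simp [hn, h']⟩
        rw [hfil]
        exact g2

/-- A long character either is a sum of `c + 1` blocks, or has a conjugate of height `m * c`. -/
theorem blocks {n c : ℕ} (hc : 1 ≤ c) (hn : (2 * c - 1) * m + 3 ≤ 2 * n)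
    {a : Fin n → ZMod m} (h0 : ∀ i, a i ≠ 0) (hs : ∑ i, a i = 0) :
    (∃ f : Fin n → ℕ, (∀ i, f i ≤ c) ∧
      ∀ j ≤ c, (∃ i, f i = j) ∧ ∑ i with f i = j, a i = 0) ∨
    ∃ t : (ZMod m)ˣ, ∑ i, ((t : ZMod m) * a i).val = m * c := by
  have h1 : (0 : ZMod m) ∉ (Finset.univ : Finset (Fin n)).val.map a := by
    intro h
    obtain ⟨i, _, hi⟩ := Multiset.mem_map.mp h
    exact h0 i hi
  have h2 : ((Finset.univ : Finset (Fin n)).val.map a).sum = 0 := hs
  have h3 : Multiset.card ((Finset.univ : Finset (Fin n)).val.map a) = n := by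
    rw [Multiset.card_map]
    simp
  rcases index_le c hc h1 h2 (by rw [h3]; exact hn) with h | ⟨t, ht'⟩
  · left
    obtain ⟨f, f1, f2⟩ := blocks_of_splits a (c + 1) Finset.univ h
    refine ⟨f, fun i => by have := f1 i (Finset.mem_univ i); omega, fun j hj => ?_⟩
    obtain ⟨⟨i, _, hi⟩, g⟩ := f2 j (by omega)
    exact ⟨⟨i, hi⟩, g⟩
  · right
    refine ⟨t, ?_⟩
    rw [← ht']
    unfold ht tw
    rw [Multiset.map_map, Multiset.map_map]
    rfl

/-- the sum of the representatives of a zero-sum block of nonzero residues is at least `m` -/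
lemma blocks_height {n c : ℕ} {a : Fin n → ZMod m} (h0 : ∀ i, a i ≠ 0) (f : Fin n → ℕ)
    (hf : ∀ i, f i ≤ c) (hb : ∀ j ≤ c, (∃ i, f i = j) ∧ ∑ i with f i = j, a i = 0) :
    m * (c + 1) ≤ ∑ i, (a i).val := by
  have h1 : ∑ i, (a i).val = ∑ j ∈ Finset.range (c + 1), ∑ i with f i = j, (a i).val := by
    rw [Finset.sum_fiberwise_of_maps_to]
    intro i _
    rw [Finset.mem_range]
    have := hf i
    omega
  rw [h1]
  have h2 : ∀ j ∈ Finset.range (c + 1), m ≤ ∑ i with f i = j, (a i).val := by
    intro j hj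
    rw [Finset.mem_range] at hj
    obtain ⟨⟨i, hi⟩, g⟩ := hb j (by omega)
    apply Nat.le_of_dvd
    · apply Finset.sum_pos
      · intro i _
        rw [Nat.pos_iff_ne_zero, Ne, ZMod.val_eq_zero]
        exact h0 i
      · exact ⟨i, by rw [Finset.mem_filter]; exact ⟨Finset.mem_univ i, hi⟩⟩
    · rw [← ZMod.natCast_eq_zero_iff, Nat.cast_sum]
      rw [← g]
      apply Finset.sum_congr rfl
      intro i _
      rw [ZMod.natCast_zmod_val]
  have h3 := Finset.card_nsmul_le_sum (Finset.range (c + 1)) _ m h2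
  rw [Finset.card_range, smul_eq_mul] at h3
  calc m * (c + 1) = (c + 1) * m := mul_comm _ _
    _ ≤ _ := h3

end Pool.Agent.TH540.SC
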