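import Pool.Agent.TH540.Voisin2

/-!
# A verified search for zero-sum parts
-/

set_option linter.unusedSectionVars false

namespace Pool.Agent.TH540.SC

open Multiset

/-- the first shortest zero-sum sublist of length `2` to `7` -/
def blk (m : ℕ) (L : List ℕ) : Option (List ℕ) :=
  [2, 3, 4, 5, 6, 7].findSome? fun r => (List.sublistsLen r L).find? fun b => b.sum % m == 0

/-- `L` splits into `k` parts (found by a greedy search) -/
def dec (m : ℕ) : ℕ → List ℕ → ℕ → Bool
  | 0, _, _ => false
  | f + 1, L, k =>
    if k ≤ 1 then k == 1 && !L.isEmpty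
    else match blk m L with
      | none => false
      | some b => dec m f (L.diff b) (k - 1)

variable {m : ℕ} [NeZero m]

/-- residues of a list of numbers -/
def cst (L : List ℕ) : Multiset (ZMod m) := (L : Multiset ℕ).map fun x : ℕ => (x : ZMod m)

lemma sum_cst (L : List ℕ) : (cst L : Multiset (ZMod m)).sum = ((L.sum : ℕ) : ZMod m) := by
  unfold cst
  induction L with
  | nil => simp
  | cons x L ih =>
    rw [← Multiset.cons_coe, Multiset.map_cons, Multiset.sum_cons, ih, List.sum_cons, Nat.cast_add]

lemma blk_sound {L b : List ℕ} (h : blk m L = some b) :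
    b ≠ [] ∧ b.Sublist L ∧ b.sum % m = 0 := by
  unfold blk at h
  obtain ⟨r, hr, h1⟩ := List.exists_of_findSome?_eq_some h
  have h2 := List.find?_some h1
  have h3 := List.mem_of_find?_eq_some h1
  rw [List.mem_sublistsLen] at h3
  refine ⟨?_, h3.1, by simpa using h2⟩
  rintro rfl
  have h4 := h3.2
  simp only [List.length_nil] at h4
  subst h4
  simp at hr

lemma dec_sound : ∀ (f : ℕ) (L : List ℕ) (k : ℕ), dec m f L k = true →
    (cst L : Multiset (ZMod m)).sum = 0 → Splits (cst L : Multiset (ZMod m)) k := by
  intro f
  induction f with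
  | zero =>
    intro L k h
    simp [dec] at h
  | succ f ih =>
    intro L k h hs
    unfold dec at h
    split_ifs at h with hk
    · simp only [Bool.and_eq_true, beq_iff_eq, Bool.not_eq_true', List.isEmpty_eq_false_iff] at h
      rw [h.1]
      apply splits_one _ hs
      intro h0
      unfold cst at h0
      rw [Multiset.map_eq_zero] at h0
      exact h.2 (by simpa using h0)
    · cases hb : blk m L with
      | none =>
        rw [hb] at h
        simp at h
      | some b =>
        rw [hb] at h
        simp only at h
        obtain ⟨h1, h2, h3⟩ := blk_sound hb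
        have h4 : (L : Multiset ℕ) = (b : Multiset ℕ) + ((L.diff b : List ℕ) : Multiset ℕ) := by
          rw [Multiset.coe_add, Multiset.coe_eq_coe]
          exact (List.subperm_append_diff_self_of_count_le
            (fun x _ => h2.count_le x)).symm
        have h5 : (cst L : Multiset (ZMod m)) = cst b + cst (L.diff b) := by
          unfold cst
          rw [h4, Multiset.map_add]
        have h6 : (cst b : Multiset (ZMod m)).sum = 0 := by
          rw [sum_cst, ZMod.natCast_eq_zero_iff]
          exact Nat.dvd_of_mod_eq_zero h3
        rw [h5, Multiset.sum_add, h6, zero_add] at hs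
        have h7 := ih _ _ h hs
        have h8 : Splits (cst b : Multiset (ZMod m)) 1 := by
          apply splits_one _ h6
          intro h0
          unfold cst at h0
          rw [Multiset.map_eq_zero] at h0
          exact h1 (by simpa using h0)
        rw [h5]
        have h9 := splits_add h8 h7
        rwa [show 1 + (k - 1) = k by omega] at h9

/-- the residues prime to `m` -/
def unitList (m : ℕ) : List ℕ := (List.range m).filter fun t => Nat.gcd t m == 1

/-- all sets of `k` units give `2 k - 1` parts -/
def decAll (m : ℕ) (w : List ℕ) : Bool :=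
  (unitList m).sublists.all fun S =>
    S.isEmpty || dec m (2 * S.length) (S.flatMap fun t => w.map fun x => t * x % m) (2 * S.length - 1)

lemma flatMap_cst (w : List ℕ) (S : List ℕ) :
    (cst (S.flatMap fun t => w.map fun x => t * x % m) : Multiset (ZMod m)) =
      ((S : Multiset ℕ).map fun t : ℕ => (w : Multiset ℕ).map fun x : ℕ => (t : ZMod m) * (x : ZMod m)).sum := by
  induction S with
  | nil => simp [cst]
  | cons t S ih =>
    rw [← Multiset.cons_coe, Multiset.map_cons, Multiset.sum_cons, ← ih, List.flatMap_cons]
    unfold cst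
    rw [← Multiset.coe_add, Multiset.map_add]
    congr 1
    rw [Multiset.map_coe, Multiset.map_coe, List.map_map]
    congr 1
    apply List.map_congr_left
    intro x _
    simp

theorem decAll_sound (hm : 2 ≤ m) {n : ℕ} {w : List ℕ} {a : Fin n → ZMod m}
    (hw : vals a = cst w) (hs : ∑ i, a i = 0) (h : decAll m w = true) :
    ∀ U : Finset (ZMod m)ˣ, U.Nonempty → Splits (∑ u ∈ U, tw u (vals a)) (2 * U.card - 1) := by
  classical
  have hm1 : Fact (1 < m) := ⟨by omega⟩
  intro U hU
  set g : ℕ → Bool := fun t => decide (∃ u ∈ U, ((u : ZMod m)).val = t) with hg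
  set S := (unitList m).filter g with hS
  have hSU : (S : Multiset ℕ) = U.val.map fun u : (ZMod m)ˣ => (u : ZMod m).val := by
    have hnd : S.Nodup := by
      apply List.Nodup.filter
      unfold unitList
      exact (List.nodup_range).filter _
    have hnd' : (U.val.map fun u : (ZMod m)ˣ => (u : ZMod m).val).Nodup := by
      apply Multiset.Nodup.map _ U.nodup
      intro u v huv
      exact Units.ext (ZMod.val_injective m huv)
    apply (Multiset.Nodup.ext (Multiset.coe_nodup.mpr hnd) hnd').mpr
    intro t
    rw [Multiset.mem_coe, hS, List.mem_filter, Multiset.mem_map]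
    constructor
    · rintro ⟨_, h2⟩
      rw [hg] at h2
      simp only [decide_eq_true_eq] at h2
      obtain ⟨u, hu, rfl⟩ := h2
      exact ⟨u, hu, rfl⟩
    · rintro ⟨u, hu, rfl⟩
      refine ⟨?_, ?_⟩
      · unfold unitList
        rw [List.mem_filter]
        refine ⟨List.mem_range.mpr (ZMod.val_lt _), ?_⟩
        rw [beq_iff_eq]
        exact ZMod.val_coe_unit_coprime u
      · rw [hg]
        simp only [decide_eq_true_eq]
        exact ⟨u, hu, rfl⟩
  have hlen : S.length = U.card := by
    have := congrArg card hSU
    rwa [Multiset.coe_card, Multiset.card_map] at this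
  have hsub : S ∈ (unitList m).sublists := List.mem_sublists.mpr List.filter_sublist
  have h1 := List.all_eq_true.mp h S hsub
  have hpos := hU.card_pos
  have hemp : S.isEmpty = false := by
    rw [List.isEmpty_eq_false_iff]
    intro h0
    rw [h0] at hlen
    simp at hlen
    omega
  rw [hemp, Bool.false_or, hlen] at h1
  have hL : (cst (S.flatMap fun t => w.map fun x => t * x % m) : Multiset (ZMod m)) =
      ∑ u ∈ U, tw u (vals a) := by
    rw [flatMap_cst, hSU, Multiset.map_map]
    unfold Finset.sum
    congr 1
    apply Multiset.map_congr rfl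
    intro u _
    rw [hw]
    unfold tw cst
    rw [Multiset.map_map]
    simp
  have hsum : (∑ u ∈ U, tw u (vals a)).sum = 0 := by
    have : ∀ V : Finset (ZMod m)ˣ, (∑ u ∈ V, tw u (vals a)).sum = 0 := by
      intro V
      induction V using Finset.induction_on with
      | empty => simp
      | insert v V hv ih =>
        rw [Finset.sum_insert hv, Multiset.sum_add, ih, sum_tw, sum_vals, hs, mul_zero, add_zero]
    exact this U
  have := dec_sound _ _ _ h1 (by rw [hL]; exact hsum)
  rwa [hL] at this

/-- twists of one list by different units -/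
theorem twists {k n : ℕ} {w : Fin n → ZMod m}
    (hU : ∀ U : Finset (ZMod m)ˣ, U.Nonempty →
      Splits (∑ u ∈ U, tw u (vals w)) (2 * U.card - 1))
    (hk : 1 ≤ k) (u : Fin k → (ZMod m)ˣ) (hinj : Function.Injective u) :
    Splits (vals fun x : Fin k × Fin n => (u x.1 : ZMod m) * w x.2) (2 * k - 1) := by
  classical
  rw [vals_prod (fun i l => (u i : ZMod m) * w l)]
  have h1 : ∑ i, vals (fun l => (u i : ZMod m) * w l) =
      ∑ t ∈ Finset.univ.image u, tw t (vals w) := by
    rw [Finset.sum_image (fun x _ y _ h => hinj h)]
    exact Finset.sum_congr rfl fun i _ => (tw_vals _ _).symm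
  rw [h1]
  have h2 := hU (Finset.univ.image u) (by
    rw [Finset.image_nonempty]
    exact ⟨⟨0, hk⟩, Finset.mem_univ _⟩)
  rwa [Finset.card_image_of_injective _ hinj, Finset.card_univ, Fintype.card_fin] at h2

lemma vals_ofFn {n : ℕ} (w : Fin n → ℕ) :
    vals (fun i => (w i : ZMod m)) = cst (List.ofFn w) := by
  unfold vals cst
  rw [Fin.univ_val_map, Multiset.map_coe, List.map_ofFn]
  rfl

end Pool.Agent.TH540.SC
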