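import Pool.Agent.H916Q.Transfer

/-!
# Extension of odd distributions which are invariant under one more translation

The functions depend on finitely many coordinates; `σ` changes their sign and `π` leaves them fixed.
-/

set_option linter.unusedSectionVars false

namespace Pool.Agent.TH540

open Finset Pool.Agent.H916Q

section

variable {ι : Type} [DecidableEq ι] {G : ι → Type} [∀ i, CommGroup (G i)]

/-- the elements which agree with a product of powers of `σ` and `π` on the coordinates in `B` -/
def LB (B : Finset ι) (σ π : ∀ i, G i) : Subgroup (∀ i, G i) where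
  carrier := {z | ∃ c d : ℤ, ∀ i ∈ B, z i = σ i ^ c * π i ^ d}
  one_mem' := ⟨0, 0, fun i _ => by simp⟩
  mul_mem' := by
    rintro x y ⟨c, d, h⟩ ⟨c', d', h'⟩
    refine ⟨c + c', d + d', fun i hi => ?_⟩
    rw [Pi.mul_apply, h i hi, h' i hi, zpow_add, zpow_add]
    exact mul_mul_mul_comm _ _ _ _
  inv_mem' := by
    rintro x ⟨c, d, h⟩
    refine ⟨-c, -d, fun i hi => ?_⟩
    rw [Pi.inv_apply, h i hi, mul_inv, zpow_neg, zpow_neg]

lemma mem_LB {B : Finset ι} {σ π : ∀ i, G i} {z : ∀ i, G i} :
    z ∈ LB B σ π ↔ ∃ c d : ℤ, ∀ i ∈ B, z i = σ i ^ c * π i ^ d := Iff.rfl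

/-- equivariant sections and an equivariant sign, all depending only on the coordinates in `B` -/
theorem exists_sec {B J : Finset ι} {σ π : ∀ i, G i}
    (hK : ∀ a b : ℤ, (∀ i ∈ B, σ i ^ a * π i ^ b = 1) →
      Even a ∧ ∀ j ∈ J, σ j ^ a * π j ^ b = 1) :
    ∃ (β : ∀ j, (∀ i, G i) → G j) (s : (∀ i, G i) → ℤ),
      (∀ x, s x = 1 ∨ s x = -1) ∧
      (∀ z : ∀ i, G i, ∀ c d : ℤ, (∀ i ∈ B, z i = σ i ^ c * π i ^ d) → ∀ x,
        (s (z * x) = if Even c then s x else - s x) ∧
        ∀ j ∈ J, β j (z * x) = σ j ^ c * π j ^ d * β j x) := by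
  classical
  set L := LB B σ π with hL
  set r : (∀ i, G i) → (∀ i, G i) := fun x => (QuotientGroup.mk x : (∀ i, G i) ⧸ L).out with hr
  have hmem : ∀ x, (r x)⁻¹ * x ∈ L := by
    intro x
    have h1 : (QuotientGroup.mk (r x) : (∀ i, G i) ⧸ L) = QuotientGroup.mk x :=
      QuotientGroup.out_eq' _
    exact QuotientGroup.eq.mp h1
  have hex : ∀ x, ∃ c d : ℤ, ∀ i ∈ B, ((r x)⁻¹ * x) i = σ i ^ c * π i ^ d := fun x => hmem x
  choose a b hab using hex
  refine ⟨fun j x => σ j ^ a x * π j ^ b x, fun x => if Even (a x) then 1 else -1, ?_, ?_⟩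
  · intro x
    by_cases h : Even (a x)
    · left; simp [h]
    · right; simp [h]
  · intro z c d hz x
    have hzL : z ∈ L := ⟨c, d, hz⟩
    have hrz : r (z * x) = r x := by
      have h1 : (QuotientGroup.mk (z * x) : (∀ i, G i) ⧸ L) = QuotientGroup.mk x := by
        rw [QuotientGroup.eq]
        have h2 : (z * x)⁻¹ * x = z⁻¹ := by
          rw [mul_inv_rev, mul_comm x⁻¹, mul_assoc, inv_mul_cancel, mul_one]
        rw [h2]
        exact L.inv_mem hzL
      simp only [hr, h1]
    have key := hK (a (z * x) - (c + a x)) (b (z * x) - (d + b x)) (by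
      intro i hi
      have h1 := hab (z * x) i hi
      have h2 := hab x i hi
      rw [hrz] at h1
      have h3 : ((r x)⁻¹ * (z * x)) i = z i * ((r x)⁻¹ * x) i := by
        simp only [Pi.mul_apply]
        exact mul_left_comm _ _ _
      rw [h3, h2, hz i hi] at h1
      have h4 : σ i ^ a (z * x) * π i ^ b (z * x) = σ i ^ (c + a x) * π i ^ (d + b x) := by
        rw [← h1, zpow_add, zpow_add]
        exact mul_mul_mul_comm _ _ _ _
      rw [zpow_sub, zpow_sub]
      calc σ i ^ a (z * x) * (σ i ^ (c + a x))⁻¹ * (π i ^ b (z * x) * (π i ^ (d + b x))⁻¹)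
          = (σ i ^ a (z * x) * π i ^ b (z * x)) * (σ i ^ (c + a x) * π i ^ (d + b x))⁻¹ := by
            rw [mul_inv, mul_mul_mul_comm]
        _ = 1 := by rw [h4, mul_inv_cancel])
    obtain ⟨k1, k2⟩ := key
    constructor
    · have h5 : Even (a (z * x)) ↔ Even (c + a x) := by
        have := Int.even_sub.mp k1
        exact this
      by_cases hc : Even c
      · have h6 : Even (a (z * x)) ↔ Even (a x) := by
          rw [h5, Int.even_add]
          exact ⟨fun h => h.mp hc, fun h => ⟨fun _ => h, fun _ => hc⟩⟩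
        rw [if_pos hc]
        show (if Even (a (z * x)) then (1 : ℤ) else -1) = if Even (a x) then 1 else -1
        by_cases h7 : Even (a x)
        · rw [if_pos (h6.mpr h7), if_pos h7]
        · rw [if_neg (fun h => h7 (h6.mp h)), if_neg h7]
      · have h6 : Even (a (z * x)) ↔ ¬ Even (a x) := by
          rw [h5, Int.even_add]
          constructor
          · intro h h7
            exact hc (h.mpr h7)
          · intro h
            exact ⟨fun h' => absurd h' hc, fun h' => absurd h' h⟩
        rw [if_neg hc]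
        show (if Even (a (z * x)) then (1 : ℤ) else -1) = -(if Even (a x) then 1 else -1)
        by_cases h7 : Even (a x)
        · rw [if_neg (fun h => (h6.mp h) h7), if_pos h7]
        · rw [if_pos (h6.mpr h7), if_neg h7, neg_neg]
    · intro j hj
      have h1 := k2 j hj
      rw [zpow_sub, zpow_sub] at h1
      have h2 : (σ j ^ a (z * x) * π j ^ b (z * x)) * (σ j ^ (c + a x) * π j ^ (d + b x))⁻¹ = 1 := by
        rw [mul_inv, mul_mul_mul_comm]
        exact h1
      have h3 := mul_inv_eq_one.mp h2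
      show σ j ^ a (z * x) * π j ^ b (z * x) = _
      rw [h3, zpow_add, zpow_add]
      exact mul_mul_mul_comm _ _ _ _

end

end Pool.Agent.TH540
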