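import Pool.Agent.TH540.GTCAll

/-!
# Abelian varieties over finite fields with cyclotomic Frobenius fields
-/

set_option linter.unusedSectionVars false

namespace Pool.Agent.TH540

open Finset Pool.Agent.H916R2 Pool.Agent.H916T Pool.Agent.H916U Pool.Agent.H916Z

variable {p m : ℕ}

/-- the total slopes -/
noncomputable def Sl (p m : ℕ) (s : Multiset (ZMod m)) (t : (ZMod m)ˣ) : ℕ :=
  ∑ j ∈ Finset.range (orderOf (p : ZMod m)),
    (s.map fun a => ((p : ZMod m) ^ j * ((t : ZMod m) * a)).val).sum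

/-- every slope function comes from a curve -/
theorem slopes_of_curves [NeZero m] (hp : p.Coprime m) (hC : Curves p m)
    (φ : (ZMod m)ˣ → ℕ) (h : ∀ t, φ (-t) + φ t = orderOf (p : ZMod m))
    (hinv : ∀ t t' : (ZMod m)ˣ, (t' : ZMod m) = (p : ZMod m) * t → φ t' = φ t) :
    ∃ c : Multiset (ZMod m), Multiset.card c = 3 ∧ (0 : ZMod m) ∉ c ∧ c.sum = 0 ∧
      ∀ t, Sl p m c t = m * (φ t + orderOf (p : ZMod m)) := by
  set f := orderOf (p : ZMod m) with hf
  obtain ⟨x, y, z, hx, hy, hz, hs, H⟩ := hC (fun t => 2 * (φ t : ℤ) - f) (by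
      intro t
      have a1 := h t
      rw [abs_le]
      omega) (by
      intro t
      exact ⟨φ t, by ring⟩) (by
      intro t
      have a1 := h t
      omega) (by
      intro t t' h1
      rw [hinv t t' h1])
  have h0 : (0 : ZMod m) ∉ x ::ₘ y ::ₘ z ::ₘ (0 : Multiset (ZMod m)) := by
    simp only [Multiset.mem_cons, not_or, Multiset.notMem_zero, not_false_eq_true, and_true]
    exact ⟨hx.symm, hy.symm, hz.symm⟩
  refine ⟨x ::ₘ y ::ₘ z ::ₘ 0, by simp, h0, ?_, fun t => ?_⟩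
  · simp only [Multiset.sum_cons, Multiset.sum_zero]
    linear_combination hs
  have h1 : Wt p (x ::ₘ y ::ₘ z ::ₘ 0) t = m * (2 * (φ t : ℤ) - f) := by
    rw [Wt_three]
    exact H t
  have h2 : Wt p (x ::ₘ y ::ₘ z ::ₘ 0) t = ((2 * Sl p m (x ::ₘ y ::ₘ z ::ₘ 0) t : ℕ) : ℤ) -
      ((f * (m * Multiset.card (x ::ₘ y ::ₘ z ::ₘ (0 : Multiset (ZMod m)))) : ℕ) : ℤ) :=
    val_sum_eq hp _ h0 t
  have h3 : Multiset.card (x ::ₘ y ::ₘ z ::ₘ (0 : Multiset (ZMod m))) = 3 := by simp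
  rw [h3] at h2
  rw [h1] at h2
  generalize Sl p m (x ::ₘ y ::ₘ z ::ₘ 0) t = X at *
  push_cast at h2
  have h4 : (2 : ℤ) * (X : ℤ) = 2 * ((m * (φ t + f) : ℕ) : ℤ) := by
    push_cast
    linear_combination -h2
  omega

lemma Sl_add (s s' : Multiset (ZMod m)) (t : (ZMod m)ˣ) :
    Sl p m (s + s') t = Sl p m s t + Sl p m s' t := by
  unfold Sl
  rw [← Finset.sum_add_distrib]
  refine Finset.sum_congr rfl fun j _ => ?_
  rw [Multiset.map_add, Multiset.sum_add]

/-- **Tate classes on products.** -/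
theorem isTate_slopes [NeZero m] {F : Multiset ((ZMod m)ˣ → ℕ)}
    {c : ((ZMod m)ˣ → ℕ) → Multiset (ZMod m)} {i : ℕ}
    (hc : ∀ φ ∈ F, Multiset.card (c φ) = 3 ∧ (0 : ZMod m) ∉ c φ ∧ (c φ).sum = 0 ∧
      ∀ t, Sl p m (c φ) t = m * (φ t + orderOf (p : ZMod m)))
    (hi : Multiset.card F = 2 * i)
    (hF : ∀ t, (F.map fun φ => φ t).sum = orderOf (p : ZMod m) * i) :
    IsTate p m (F.map c).join := by
  have hE3 : ∀ e ∈ F.map c, Multiset.card e = 3 := by
    intro e he
    obtain ⟨Φ, hΦ, rfl⟩ := Multiset.mem_map.mp he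
    exact (hc Φ hΦ).1
  have hE0 : ∀ e ∈ F.map c, (0 : ZMod m) ∉ e := by
    intro e he
    obtain ⟨Φ, hΦ, rfl⟩ := Multiset.mem_map.mp he
    exact (hc Φ hΦ).2.1
  have hEs : ∀ e ∈ F.map c, e.sum = 0 := by
    intro e he
    obtain ⟨Φ, hΦ, rfl⟩ := Multiset.mem_map.mp he
    exact (hc Φ hΦ).2.2.1
  refine ⟨join_zero hE0, ?_, join_sum hEs, fun t => ?_⟩
  · rw [join_card hE3, Multiset.card_map, hi]
    exact ⟨3 * i, by ring⟩
  · change 2 * Sl p m (F.map c).join t = _
    have key : ∀ F' : Multiset ((ZMod m)ˣ → ℕ), (∀ Φ ∈ F', Φ ∈ F) →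
        Sl p m (F'.map c).join t =
          m * (F'.map fun Φ => Φ t).sum + m * (orderOf (p : ZMod m) * Multiset.card F') := by
      intro F'
      induction F' using Multiset.induction_on with
      | empty => intro _; simp [Sl]
      | cons Φ F' ih =>
        intro h
        rw [Multiset.map_cons, Multiset.join_cons, Sl_add,
          ih fun Ψ hΨ => h Ψ (Multiset.mem_cons_of_mem hΨ),
          (hc Φ (h Φ (Multiset.mem_cons_self _ _))).2.2.2 t, Multiset.card_cons,
          Multiset.map_cons, Multiset.sum_cons]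
        ring
    rw [key F fun _ h => h, join_card hE3, Multiset.card_map, hF t, hi]
    ring

end Pool.Agent.TH540
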