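import Pool.Agent.H916T.Main

/-!
# Three classes of powers of `p` always contain a vanishing sum
-/

set_option linter.unusedSectionVars false

namespace Pool.Agent.TH540

open Finset

/-- for all nonzero `x`, `y`, `z` there is a vanishing sum of multiples by powers of `p` -/
def Trip (p l : ℕ) : Prop := ∀ x y z : ZMod l, x ≠ 0 → y ≠ 0 → z ≠ 0 →
  ∃ i j k : ℕ, (p : ZMod l) ^ i * x + (p : ZMod l) ^ j * y + (p : ZMod l) ^ k * z = 0

section fourier

variable {l : ℕ} [Fact l.Prime] (p : ℕ)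

/-- the Gauss period -/
noncomputable def per (a : ZMod l) : ℂ :=
  ∑ j ∈ range (orderOf (p : ZMod l)), ZMod.stdAddChar (a * (p : ZMod l) ^ j)

lemma char_sum (b : ZMod l) : ∑ a : ZMod l, (ZMod.stdAddChar (a * b) : ℂ) =
    if b = 0 then (l : ℂ) else 0 := by
  have h := AddChar.sum_mulShift b (ZMod.isPrimitive_stdAddChar l)
  rw [h, ZMod.card]
  push_cast
  rfl

lemma per_zero : per (l := l) p 0 = orderOf (p : ZMod l) := by
  unfold per
  simp

lemma per_mul_p (a : ZMod l) : per p (a * (p : ZMod l)) = per p a := by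
  unfold per
  have h1 : ∀ j, a * (p : ZMod l) * (p : ZMod l) ^ j = a * (p : ZMod l) ^ (j + 1) := fun j => by
    rw [pow_succ]; ring
  rw [sum_congr rfl fun j _ => by rw [h1 j]]
  have h2 := sum_range_succ (fun j => (ZMod.stdAddChar (a * (p : ZMod l) ^ j) : ℂ))
    (orderOf (p : ZMod l))
  have h3 := sum_range_succ' (fun j => (ZMod.stdAddChar (a * (p : ZMod l) ^ j) : ℂ))
    (orderOf (p : ZMod l))
  rw [h2, pow_orderOf_eq_one, pow_zero] at h3
  exact (add_right_cancel h3).symm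

lemma per_mul_pow (a : ZMod l) (i : ℕ) : per p (a * (p : ZMod l) ^ i) = per p a := by
  induction i with
  | zero => simp
  | succ i ih => rw [pow_succ, ← mul_assoc, per_mul_p, ih]

lemma pow_inj {i j : ℕ} (hi : i < orderOf (p : ZMod l)) (hj : j < orderOf (p : ZMod l))
    (h : (p : ZMod l) ^ i = (p : ZMod l) ^ j) : i = j := by
  exact pow_injOn_Iio_orderOf hi hj h

lemma parseval : ∑ a : ZMod l, ‖per p a‖ ^ 2 = (l : ℝ) * orderOf (p : ZMod l) := by
  have h1 : ∀ a : ZMod l, ((‖per p a‖ ^ 2 : ℝ) : ℂ) =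
      ∑ i ∈ range (orderOf (p : ZMod l)), ∑ j ∈ range (orderOf (p : ZMod l)),
        (ZMod.stdAddChar (a * ((p : ZMod l) ^ j - (p : ZMod l) ^ i)) : ℂ) := by
    intro a
    push_cast
    rw [← Complex.conj_mul']
    unfold per
    rw [map_sum, sum_mul_sum]
    refine sum_congr rfl fun i _ => sum_congr rfl fun j _ => ?_
    rw [← AddChar.map_neg_eq_conj, ← AddChar.map_add_eq_mul]
    congr 1
    ring
  have h2 : ((∑ a : ZMod l, ‖per p a‖ ^ 2 : ℝ) : ℂ) = ((l : ℝ) * orderOf (p : ZMod l) : ℝ) := by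
    push_cast
    have h3 : ∑ a : ZMod l, ((‖per p a‖ : ℂ)) ^ 2 = ∑ a : ZMod l, ((‖per p a‖ ^ 2 : ℝ) : ℂ) := by
      push_cast; rfl
    rw [h3, sum_congr rfl fun a _ => h1 a, sum_comm]
    have h4 : ∀ i ∈ range (orderOf (p : ZMod l)), (∑ a : ZMod l,
        ∑ j ∈ range (orderOf (p : ZMod l)),
        (ZMod.stdAddChar (a * ((p : ZMod l) ^ j - (p : ZMod l) ^ i)) : ℂ)) = l := by
      intro i hi
      rw [sum_comm, sum_congr rfl fun j _ => char_sum _]
      rw [sum_eq_single i]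
      · rw [sub_self, if_pos rfl]
      · intro j hj hji
        rw [if_neg]
        intro h
        exact hji (pow_inj p (mem_range.mp hj) (mem_range.mp hi) (sub_eq_zero.mp h))
      · intro h; exact absurd hi h
    rw [sum_congr rfl h4, sum_const, card_range, nsmul_eq_mul, mul_comm]
  exact_mod_cast h2

lemma parseval' : ∑ a ∈ univ.erase (0 : ZMod l), ‖per p a‖ ^ 2 =
    (l : ℝ) * orderOf (p : ZMod l) - (orderOf (p : ZMod l) : ℝ) ^ 2 := by
  have h := add_sum_erase univ (fun a : ZMod l => ‖per p a‖ ^ 2) (mem_univ 0)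
  rw [parseval] at h
  rw [per_zero, Complex.norm_natCast] at h
  linarith

lemma parseval_mul {x : ZMod l} (hx : x ≠ 0) : ∑ a ∈ univ.erase (0 : ZMod l), ‖per p (a * x)‖ ^ 2 =
    (l : ℝ) * orderOf (p : ZMod l) - (orderOf (p : ZMod l) : ℝ) ^ 2 := by
  rw [← parseval']
  refine sum_bij (fun a _ => a * x) ?_ ?_ ?_ ?_
  · intro a ha
    rw [mem_erase] at ha ⊢
    exact ⟨mul_ne_zero ha.1 hx, mem_univ _⟩
  · intro a _ b _ h
    exact mul_right_cancel₀ hx h
  · intro b hb
    rw [mem_erase] at hb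
    exact ⟨b * x⁻¹, by rw [mem_erase]; exact ⟨mul_ne_zero hb.1 (inv_ne_zero hx), mem_univ _⟩, by
      field_simp⟩
  · intro a _; rfl

lemma per_bound (hp : (p : ZMod l) ≠ 0) {a : ZMod l} (ha : a ≠ 0) :
    ‖per p a‖ ^ 2 ≤ (l : ℝ) - orderOf (p : ZMod l) := by
  have hf : 0 < orderOf (p : ZMod l) := by
    rw [orderOf_pos_iff]
    exact isOfFinOrder_iff_pow_eq_one.mpr ⟨l - 1, by
      have := (Fact.out : l.Prime).one_lt; omega, ZMod.pow_card_sub_one_eq_one hp⟩
  have h1 : (orderOf (p : ZMod l) : ℝ) * ‖per p a‖ ^ 2 ≤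
      ∑ b ∈ univ.erase (0 : ZMod l), ‖per p b‖ ^ 2 := by
    have h2 : (orderOf (p : ZMod l) : ℝ) * ‖per p a‖ ^ 2 =
        ∑ b ∈ (range (orderOf (p : ZMod l))).image (fun j => a * (p : ZMod l) ^ j),
          ‖per p b‖ ^ 2 := by
      rw [sum_image]
      · rw [sum_congr rfl fun j _ => by rw [per_mul_pow], sum_const, card_range, nsmul_eq_mul]
      · intro i hi j hj h
        exact pow_inj p (mem_range.mp hi) (mem_range.mp hj) (mul_left_cancel₀ ha h)
    rw [h2]
    refine sum_le_sum_of_subset_of_nonneg ?_ fun _ _ _ => by positivity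
    intro b hb
    obtain ⟨j, _, rfl⟩ := mem_image.mp hb
    rw [mem_erase]
    exact ⟨mul_ne_zero ha (pow_ne_zero _ hp), mem_univ _⟩
  rw [parseval'] at h1
  have hf' : (0 : ℝ) < orderOf (p : ZMod l) := by exact_mod_cast hf
  have h3 : (orderOf (p : ZMod l) : ℝ) * ‖per p a‖ ^ 2 ≤
      (orderOf (p : ZMod l) : ℝ) * ((l : ℝ) - orderOf (p : ZMod l)) := by nlinarith
  exact le_of_mul_le_mul_left h3 hf'

/-- **Three classes of powers of `p` contain a vanishing sum.** -/
theorem trip_of_lt (hp : (p : ZMod l) ≠ 0)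
    (h : (l - orderOf (p : ZMod l)) ^ 3 < orderOf (p : ZMod l) ^ 4) : Trip p l := by
  intro x y z hx hy hz
  by_contra hno
  push Not at hno
  set f := orderOf (p : ZMod l) with hfdef
  have hfl : f ≤ l := by
    have h1 : f ∣ l - 1 := orderOf_dvd_of_pow_eq_one (ZMod.pow_card_sub_one_eq_one hp)
    have h2 := (Fact.out : l.Prime).one_lt
    have := Nat.le_of_dvd (by omega) h1
    omega
  have hf0 : 0 < f := by
    rcases Nat.eq_zero_or_pos f with h0 | h0
    · rw [h0] at h; simp at h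
    · exact h0
  -- the count
  have hcount : ∑ a : ZMod l, per p (a * x) * per p (a * y) * per p (a * z) = 0 := by
    have h1 : ∀ a : ZMod l, per p (a * x) * per p (a * y) * per p (a * z) =
        ∑ i ∈ range f, ∑ j ∈ range f, ∑ k ∈ range f, (ZMod.stdAddChar
          (a * ((p : ZMod l) ^ i * x + (p : ZMod l) ^ j * y + (p : ZMod l) ^ k * z)) : ℂ) := by
      intro a
      unfold per
      rw [← hfdef, sum_mul_sum, sum_mul]
      refine sum_congr rfl fun i _ => ?_
      rw [sum_mul_sum]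
      refine sum_congr rfl fun j _ => sum_congr rfl fun k _ => ?_
      rw [← AddChar.map_add_eq_mul, ← AddChar.map_add_eq_mul]
      congr 1
      ring
    rw [sum_congr rfl fun a _ => h1 a, sum_comm]
    refine sum_eq_zero fun i _ => ?_
    rw [sum_comm]
    refine sum_eq_zero fun j _ => ?_
    rw [sum_comm]
    refine sum_eq_zero fun k _ => ?_
    rw [char_sum, if_neg (hno i j k)]
  have h0 := add_sum_erase univ
    (fun a : ZMod l => per p (a * x) * per p (a * y) * per p (a * z)) (mem_univ 0)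
  rw [hcount] at h0
  simp only [zero_mul] at h0
  rw [per_zero, ← hfdef] at h0
  have h1 : ((f : ℝ)) ^ 3 ≤ ∑ a ∈ univ.erase (0 : ZMod l),
      ‖per p (a * x)‖ * ‖per p (a * y)‖ * ‖per p (a * z)‖ := by
    have h2 : ‖∑ a ∈ univ.erase (0 : ZMod l), per p (a * x) * per p (a * y) * per p (a * z)‖ =
        (f : ℝ) ^ 3 := by
      have h3 : ∑ a ∈ univ.erase (0 : ZMod l), per p (a * x) * per p (a * y) * per p (a * z) =
          -((f : ℂ) ^ 3) := by linear_combination h0
      rw [h3, norm_neg, norm_pow, Complex.norm_natCast]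
    rw [← h2]
    refine (norm_sum_le _ _).trans (le_of_eq ?_)
    refine sum_congr rfl fun a _ => ?_
    rw [norm_mul, norm_mul]
  set B := (l : ℝ) - f with hB
  have hB0 : 0 ≤ B := by
    have : (f : ℝ) ≤ l := by exact_mod_cast hfl
    rw [hB]; linarith
  have h2 : ∀ a ∈ univ.erase (0 : ZMod l),
      ‖per p (a * x)‖ * ‖per p (a * y)‖ * ‖per p (a * z)‖ ≤
        Real.sqrt B * ((‖per p (a * x)‖ ^ 2 + ‖per p (a * y)‖ ^ 2) / 2) := by
    intro a ha
    rw [mem_erase] at ha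
    have h3 : ‖per p (a * z)‖ ≤ Real.sqrt B :=
      Real.le_sqrt_of_sq_le (per_bound p hp (mul_ne_zero ha.1 hz))
    have h4 : ‖per p (a * x)‖ * ‖per p (a * y)‖ ≤
        (‖per p (a * x)‖ ^ 2 + ‖per p (a * y)‖ ^ 2) / 2 := by
      nlinarith [sq_nonneg (‖per p (a * x)‖ - ‖per p (a * y)‖)]
    rw [mul_comm (Real.sqrt B)]
    exact mul_le_mul h4 h3 (norm_nonneg _) (by positivity)
  have h3 := h1.trans (sum_le_sum h2)
  rw [← mul_sum, ← sum_div, sum_add_distrib, parseval_mul p hx, parseval_mul p hy,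
    ← hfdef] at h3
  have h4 : (f : ℝ) ^ 3 ≤ Real.sqrt B * (f * B) := by
    have h5 : ((l : ℝ) * f - (f : ℝ) ^ 2 + ((l : ℝ) * f - (f : ℝ) ^ 2)) / 2 = f * B := by
      rw [hB]; ring
    rwa [h5] at h3
  have hf' : (0 : ℝ) < f := by exact_mod_cast hf0
  have h5 : (f : ℝ) ^ 2 ≤ Real.sqrt B * B := by
    have h6 : (f : ℝ) * (f : ℝ) ^ 2 ≤ f * (Real.sqrt B * B) := by nlinarith
    exact le_of_mul_le_mul_left h6 hf'
  have h6 : ((f : ℝ) ^ 2) ^ 2 ≤ (Real.sqrt B * B) ^ 2 := pow_le_pow_left₀ (by positivity) h5 2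
  have h7 : (Real.sqrt B * B) ^ 2 = B ^ 3 := by
    rw [mul_pow, Real.sq_sqrt hB0]; ring
  rw [h7] at h6
  have h8 : ((l - f : ℕ) : ℝ) ^ 3 < (f : ℝ) ^ 4 := by exact_mod_cast h
  rw [Nat.cast_sub hfl, ← hB] at h8
  nlinarith

end fourier

end Pool.Agent.TH540
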