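import Pool.Agent.TH540.SavChen3

/-!
# Two long zero-sum lists of height `m` for different units split into three parts
-/

set_option linter.unusedSectionVars false

namespace Pool.Agent.TH540.SC

open Multiset

variable {m : ℕ} [NeZero m]

lemma exists_sub_one {α : Type*} (f : α → ℕ) (s : Multiset α) (h1 : ∀ z ∈ s, f z = 1) :
    ∀ a ≤ (s.map f).sum, ∃ τ ≤ s, (τ.map f).sum = a := by
  induction s using Multiset.induction_on with
  | empty =>
    intro a ha
    refine ⟨0, le_refl _, ?_⟩
    simp at ha ⊢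
    exact ha.symm
  | cons z s ih =>
    intro a ha
    have hz := h1 z (Multiset.mem_cons_self z s)
    rw [Multiset.map_cons, Multiset.sum_cons, hz] at ha
    rcases Nat.lt_or_ge (s.map f).sum a with h | h
    · refine ⟨z ::ₘ s, le_refl _, ?_⟩
      rw [Multiset.map_cons, Multiset.sum_cons, hz]
      omega
    · obtain ⟨τ, h2, h3⟩ := ih (fun y hy => h1 y (Multiset.mem_cons_of_mem hy)) a h
      exact ⟨τ, h2.trans (Multiset.le_cons_self s z), h3⟩

/-- A list of `k` positive integers with sum less than `2 k` has all sums. -/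
lemma exists_sub {α : Type*} (f : α → ℕ) : ∀ (k : ℕ) (s : Multiset α), card s = k →
    (∀ z ∈ s, 1 ≤ f z) → (s.map f).sum < 2 * k → ∀ a ≤ (s.map f).sum,
      ∃ τ ≤ s, (τ.map f).sum = a := by
  intro k
  induction k with
  | zero =>
    intro s _ _ h3
    omega
  | succ k ih =>
    intro s h1 h2 h3 a ha
    by_cases hex : ∃ z ∈ s, 2 ≤ f z
    · obtain ⟨z, hz, hz2⟩ := hex
      obtain ⟨s, rfl⟩ := Multiset.exists_cons_of_mem hz
      rw [Multiset.card_cons] at h1
      rw [Multiset.map_cons, Multiset.sum_cons] at h3 ha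
      have hk : card s = k := by omega
      have hpos : ∀ y ∈ s, 1 ≤ f y := fun y hy => h2 y (Multiset.mem_cons_of_mem hy)
      have h4 := sum_ge f 1 s hpos
      rcases Nat.lt_or_ge (s.map f).sum a with h | h
      · obtain ⟨τ, h5, h6⟩ := ih s hk hpos (by omega) (a - f z) (by omega)
        refine ⟨z ::ₘ τ, (Multiset.cons_le_cons_iff z).mpr h5, ?_⟩
        rw [Multiset.map_cons, Multiset.sum_cons, h6]
        omega
      · obtain ⟨τ, h5, h6⟩ := ih s hk hpos (by omega) a h
        exact ⟨τ, h5.trans (Multiset.le_cons_self s z), h6⟩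
    · apply exists_sub_one f s _ a ha
      intro z hz
      have h4 := h2 z hz
      by_contra hne
      exact hex ⟨z, hz, by omega⟩

lemma tw_tw (t t' : (ZMod m)ˣ) (s : Multiset (ZMod m)) : tw t (tw t' s) = tw (t * t') s := by
  unfold tw
  rw [Multiset.map_map]
  congr 1
  funext a
  simp [mul_assoc]

lemma tw_add (t : (ZMod m)ˣ) (s s' : Multiset (ZMod m)) : tw t (s + s') = tw t s + tw t s' := by
  unfold tw
  rw [Multiset.map_add]

lemma sum_tw (t : (ZMod m)ˣ) (s : Multiset (ZMod m)) : (tw t s).sum = t * s.sum := by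
  unfold tw
  rw [Multiset.sum_map_mul_left, Multiset.map_id']

lemma zero_notMem_tw (t : (ZMod m)ˣ) {s : Multiset (ZMod m)} (h : (0 : ZMod m) ∉ s) :
    (0 : ZMod m) ∉ tw t s := by
  unfold tw
  intro h0
  obtain ⟨b, hb, hb0⟩ := Multiset.mem_map.mp h0
  have hb1 : b = 0 := by
    have : (t : ZMod m) * b = (t : ZMod m) * 0 := by rw [hb0, mul_zero]
    exact (Units.mul_right_inj t).mp this
  exact h (hb1 ▸ hb)

lemma splits_tw (t : (ZMod m)ˣ) {s : Multiset (ZMod m)} {k : ℕ} (h : Splits s k) :
    Splits (tw t s) k := by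
  obtain ⟨P, h1, h2, h3⟩ := h
  refine ⟨P.map (tw t), by rw [Multiset.card_map, h1], ?_, ?_⟩
  · rw [← h2]
    clear h1 h2 h3
    induction P using Multiset.induction_on with
    | empty => simp [tw]
    | cons σ P ih =>
      rw [Multiset.map_cons, Multiset.join_cons, Multiset.join_cons, tw_add, ih]
  · intro σ hσ
    obtain ⟨τ, h4, rfl⟩ := Multiset.mem_map.mp hσ
    obtain ⟨h5, h6⟩ := h3 τ h4
    refine ⟨?_, by rw [sum_tw, h6, mul_zero]⟩
    unfold tw
    rw [Ne, Multiset.map_eq_zero]
    exact h5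

lemma splits_of_tw (t : (ZMod m)ˣ) {s : Multiset (ZMod m)} {k : ℕ} (h : Splits (tw t s) k) :
    Splits s k := by
  have := splits_tw t⁻¹ h
  rwa [tw_tw, inv_mul_cancel, tw_one] at this

lemma splits_add {s s' : Multiset (ZMod m)} {k k' : ℕ} (h : Splits s k) (h' : Splits s' k') :
    Splits (s + s') (k + k') := by
  obtain ⟨P, h1, h2, h3⟩ := h
  obtain ⟨P', h1', h2', h3'⟩ := h'
  refine ⟨P + P', by rw [Multiset.card_add, h1, h1'], by rw [Multiset.join_add, h2, h2'], ?_⟩
  intro σ hσ
  rcases Multiset.mem_add.mp hσ with h | h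
  · exact h3 σ h
  · exact h3' σ h

lemma splits_one {s : Multiset (ZMod m)} (h : s ≠ 0) (h' : s.sum = 0) : Splits s 1 :=
  ⟨{s}, by simp, by simp, by simp [h, h']⟩

/-- fewer parts -/
lemma splits_mono {s : Multiset (ZMod m)} {k l : ℕ} (h : Splits s k) (hl : 1 ≤ l) (hlk : l ≤ k) :
    Splits s l := by
  obtain ⟨P, h1, h2, h3⟩ := h
  obtain ⟨l, rfl⟩ : ∃ j, l = j + 1 := ⟨l - 1, by omega⟩
  have := merge (k - (l + 1)) P l (by omega) h3
  rwa [h2] at this

lemma one_mem {c : Multiset (ZMod m)} (h0 : (0 : ZMod m) ∉ c) (h : ht c = m)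
    (hc : m + 2 ≤ 2 * card c) : ∃ d, c = 1 ::ₘ d ∧ (0 : ZMod m) ∉ d ∧ ht d + 1 = m ∧
      ht d < 2 * card d := by
  classical
  have h1 := count_ones h0
  rw [h] at h1
  obtain ⟨d, rfl⟩ := Multiset.exists_cons_of_mem (Multiset.count_pos.mp (by omega : 0 < count 1 c))
  have h01 : (0 : ZMod m) ≠ 1 := fun hh => h0 (hh ▸ Multiset.mem_cons_self _ _)
  have hm1 : Fact (1 < m) := ⟨by
    rcases Nat.lt_or_ge 1 m with h' | h'
    · exact h'
    · exfalso
      have hm : m = 1 := by
        have := NeZero.ne m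
        omega
      subst hm
      exact h01 (Subsingleton.elim _ _)⟩
  have h2 : ht (1 ::ₘ d) = 1 + ht d := by
    unfold ht
    rw [Multiset.map_cons, Multiset.sum_cons, ZMod.val_one]
  rw [Multiset.card_cons] at hc
  refine ⟨d, rfl, fun hh => h0 (Multiset.mem_cons_of_mem hh), by omega, by omega⟩

/-- **The key step**: two lists of height `m`, one of them twisted by a unit `t ≠ 1`. -/
theorem splits_pair {c c' : Multiset (ZMod m)} (h0 : (0 : ZMod m) ∉ c) (h0' : (0 : ZMod m) ∉ c')
    (h : ht c = m) (h' : ht c' = m) (hc : m + 2 ≤ 2 * card c) (hc' : m + 2 ≤ 2 * card c')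
    {t : (ZMod m)ˣ} (ht1 : t ≠ 1) : Splits (c + tw t c') 3 := by
  obtain ⟨d, rfl, d0, d1, d2⟩ := one_mem h0 h hc
  obtain ⟨d', rfl, d0', d1', d2'⟩ := one_mem h0' h' hc'
  have hpos : ∀ s : Multiset (ZMod m), (0 : ZMod m) ∉ s → ∀ z ∈ s, 1 ≤ z.val := by
    intro s hs z hz
    rw [Nat.one_le_iff_ne_zero, Ne, ZMod.val_eq_zero]
    rintro rfl
    exact hs hz
  have htm : (t : ZMod m).val < m := ZMod.val_lt _
  have htm' : (-((t⁻¹ : (ZMod m)ˣ) : ZMod m)).val < m := ZMod.val_lt _
  have ht0 : (t : ZMod m).val ≠ 0 := by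
    rw [Ne, ZMod.val_eq_zero]
    intro hh
    have hu := t.isUnit
    rw [hh, isUnit_zero_iff] at hu
    exact h0 (hu ▸ Multiset.mem_cons_self _ _)
  have ht1' : (t : ZMod m).val ≠ 1 := by
    intro hh
    apply ht1
    apply Units.ext
    have h4 := ZMod.natCast_zmod_val (t : ZMod m)
    rw [hh, Nat.cast_one] at h4
    exact h4.symm
  obtain ⟨E, e1, e2⟩ := exists_sub ZMod.val (card d) d rfl (hpos d d0) d2 (m - (t : ZMod m).val)
    (by change m - (t : ZMod m).val ≤ ht d; omega)
  obtain ⟨F, f1, f2⟩ := exists_sub ZMod.val (card d') d' rfl (hpos d' d0') d2'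
    (-((t⁻¹ : (ZMod m)ˣ) : ZMod m)).val
    (by change (-((t⁻¹ : (ZMod m)ˣ) : ZMod m)).val ≤ ht d'; omega)
  obtain ⟨E', rfl⟩ := Multiset.le_iff_exists_add.mp e1
  obtain ⟨F', rfl⟩ := Multiset.le_iff_exists_add.mp f1
  change ht E = _ at e2
  change ht F = _ at f2
  have sE : E.sum = -(t : ZMod m) := by
    rw [← cast_ht, e2, Nat.cast_sub htm.le, ZMod.natCast_self, ZMod.natCast_zmod_val, zero_sub]
  have sF : F.sum = -((t⁻¹ : (ZMod m)ˣ) : ZMod m) := by
    rw [← cast_ht, f2, ZMod.natCast_zmod_val]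
  have sE' : E.sum + E'.sum = -1 := by
    have h3 := cast_ht (1 ::ₘ (E + E'))
    rw [h, ZMod.natCast_self, Multiset.sum_cons, Multiset.sum_add] at h3
    linear_combination -h3
  have sF' : F.sum + F'.sum = -1 := by
    have h3 := cast_ht (1 ::ₘ (F + F'))
    rw [h', ZMod.natCast_self, Multiset.sum_cons, Multiset.sum_add] at h3
    linear_combination -h3
  have htt : (t : ZMod m) * ((t⁻¹ : (ZMod m)ˣ) : ZMod m) = 1 := by
    rw [← Units.val_mul, mul_inv_cancel, Units.val_one]
  refine ⟨{(t : ZMod m) ::ₘ E, 1 ::ₘ tw t F, E' + tw t F'}, by simp, ?_, ?_⟩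
  · have : tw t (1 ::ₘ (F + F')) = (t : ZMod m) ::ₘ (tw t F + tw t F') := by
      unfold tw
      rw [Multiset.map_cons, mul_one, Multiset.map_add]
    rw [this]
    have hj : Multiset.join {E' + tw t F'} = E' + tw t F' := Multiset.singleton_join _
    simp only [Multiset.insert_eq_cons, Multiset.join_cons]
    rw [hj]
    simp only [← Multiset.singleton_add]
    abel
  · intro σ hσ
    simp only [Multiset.insert_eq_cons, Multiset.mem_cons, Multiset.mem_singleton] at hσ
    rcases hσ with rfl | rfl | rfl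
    · exact ⟨Multiset.cons_ne_zero, by rw [Multiset.sum_cons, sE]; ring⟩
    · refine ⟨Multiset.cons_ne_zero, ?_⟩
      rw [Multiset.sum_cons, sum_tw, sF]
      linear_combination -htt
    · constructor
      · intro hh
        have h5 : E' = 0 := by
          have h6 := congrArg card hh
          rw [Multiset.card_add, Multiset.card_zero] at h6
          exact Multiset.card_eq_zero.mp (by omega)
        rw [h5, add_zero] at d1
        omega
      · rw [Multiset.sum_add, sum_tw]
        linear_combination sE' + (t : ZMod m) * sF' - sE - (t : ZMod m) * sF + htt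

/-- the list of values of a function -/
def vals {ι : Type*} [Fintype ι] (a : ι → ZMod m) : Multiset (ZMod m) :=
  (Finset.univ : Finset ι).val.map a

lemma vals_prod {k n : ℕ} (b : Fin k → Fin n → ZMod m) :
    vals (fun x : Fin k × Fin n => b x.1 x.2) = ∑ i, vals (b i) := by
  unfold vals
  rw [← Finset.univ_product_univ, Finset.product_val]
  have key : ∀ s : Multiset (Fin k), (s ×ˢ (Finset.univ : Finset (Fin n)).val).map
      (fun x : Fin k × Fin n => b x.1 x.2) =
        (s.map fun i => (Finset.univ : Finset (Fin n)).val.map (b i)).sum := by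
    intro s
    induction s using Multiset.induction_on with
    | empty => simp
    | cons i s ih =>
      rw [Multiset.cons_product, Multiset.map_add, ih, Multiset.map_cons, Multiset.sum_cons,
        Multiset.map_map]
      rfl
  exact key _

lemma sum_vals {ι : Type*} [Fintype ι] (a : ι → ZMod m) : (vals a).sum = ∑ i, a i := rfl

lemma card_vals {n : ℕ} (a : Fin n → ZMod m) : card (vals a) = n := by
  unfold vals
  rw [Multiset.card_map, Finset.card_val, Finset.card_univ, Fintype.card_fin]

lemma ht_vals {ι : Type*} [Fintype ι] (a : ι → ZMod m) : ht (vals a) = ∑ i, (a i).val := by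
  unfold ht vals
  rw [Multiset.map_map]
  rfl

lemma tw_vals {ι : Type*} [Fintype ι] (t : (ZMod m)ˣ) (a : ι → ZMod m) :
    tw t (vals a) = vals fun i => (t : ZMod m) * a i := by
  unfold tw vals
  rw [Multiset.map_map]
  rfl

lemma zero_notMem_vals {ι : Type*} [Fintype ι] {a : ι → ZMod m} (h : ∀ i, a i ≠ 0) :
    (0 : ZMod m) ∉ vals a := by
  unfold vals
  intro h0
  obtain ⟨i, _, hi⟩ := Multiset.mem_map.mp h0
  exact h i hi

lemma isMin_of_not_splits {s : Multiset (ZMod m)} (hs : s ≠ 0) (h : s.sum = 0)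
    (hn : ¬ Splits s 2) : IsMin s := by
  refine ⟨hs, h, ?_⟩
  intro τ h1 h2 h3
  by_contra hne
  obtain ⟨κ, rfl⟩ := Multiset.le_iff_exists_add.mp h1
  rw [Multiset.sum_add, h3, zero_add] at h
  have hκ : κ ≠ 0 := by
    rintro rfl
    exact hne (by simp)
  exact hn (splits_add (splits_one h2 h3) (splits_one hκ h))

lemma splits_sum {k n : ℕ} (hn : 0 < n) {b : Fin k → Fin n → ZMod m} (hs : ∀ i, ∑ l, b i l = 0)
    (I : Finset (Fin k)) : Splits (∑ i ∈ I, vals (b i)) I.card := by
  classical
  induction I using Finset.induction_on with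
  | empty => exact ⟨0, by simp, by simp, by simp⟩
  | insert i I hi ih =>
    rw [Finset.sum_insert hi, Finset.card_insert_of_notMem hi, add_comm I.card 1]
    refine splits_add (splits_one ?_ (hs i)) ih
    intro h0
    have := congrArg card h0
    rw [card_vals, Multiset.card_zero] at this
    omega

/-- to functions -/
lemma surj_of_splits {ι : Type*} [Fintype ι] [DecidableEq ι] {a : ι → ZMod m} {k : ℕ}
    (h : Splits (vals a) (k + 1)) :
    ∃ f : ι → Fin (k + 1), Function.Surjective f ∧ ∀ j, ∑ i with f i = j, a i = 0 := by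
  obtain ⟨f, h1, h2⟩ := blocks_of_splits a (k + 1) Finset.univ h
  refine ⟨fun i => ⟨f i, h1 i (Finset.mem_univ i)⟩, ?_, ?_⟩
  · intro j
    obtain ⟨⟨i, _, hi⟩, _⟩ := h2 j j.isLt
    exact ⟨i, Fin.ext hi⟩
  · intro j
    have := (h2 j j.isLt).2
    simpa only [Fin.ext_iff] using this

theorem family {k n : ℕ} (hn : m + 3 ≤ 2 * n) {A : Set (Fin n → ZMod m)}
    (hA : ∀ a ∈ A, (∀ i, a i ≠ 0) ∧ ∑ i, a i = 0)
    (hu : ∀ a ∈ A, ∀ t : (ZMod m)ˣ, (fun i => (t : ZMod m) * a i) ∈ A)
    {b : Fin k → Fin n → ZMod m} (hb : ∀ i, b i ∈ A) (hinj : Function.Injective b)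
    (hk : {a ∈ A | ∑ i, (a i).val = m}.ncard < k) :
    Splits (vals fun x : Fin k × Fin n => b x.1 x.2) (k + 1) := by
  classical
  have hs : ∀ i, ∑ l, b i l = 0 := fun i => (hA _ (hb i)).2
  have h0 : ∀ i, (0 : ZMod m) ∉ vals (b i) := fun i => zero_notMem_vals (hA _ (hb i)).1
  have hne : ∀ i, vals (b i) ≠ 0 := by
    intro i h
    have := congrArg card h
    rw [card_vals, Multiset.card_zero] at this
    omega
  rw [vals_prod]
  by_cases h2 : ∃ i, Splits (vals (b i)) 2
  · obtain ⟨i, hi⟩ := h2
    rw [← Finset.add_sum_erase _ _ (Finset.mem_univ i)]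
    have h3 := splits_sum (by omega) hs (Finset.univ.erase i)
    rw [Finset.card_erase_of_mem (Finset.mem_univ i), Finset.card_univ, Fintype.card_fin] at h3
    have h4 := splits_add hi h3
    have hk0 : 0 < k := by omega
    rwa [show 2 + (k - 1) = k + 1 by omega] at h4
  · push Not at h2
    have h3 : ∀ i, ∃ t : (ZMod m)ˣ, ht (tw t (vals (b i))) = m := fun i =>
      index_one (isMin_of_not_splits (hne i) (hs i) (h2 i)) (by rw [card_vals]; exact hn)
    choose t ht' using h3
    by_cases hall : ∀ i j, t i = t j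
    · exfalso
      have hk0 : 0 < k := by omega
      set u := t ⟨0, hk0⟩ with hu'
      have h4 : ∀ i, (fun l => (u : ZMod m) * b i l) ∈ {a ∈ A | ∑ i, (a i).val = m} := by
        intro i
        refine ⟨hu _ (hb i) u, ?_⟩
        have h5 := ht' i
        rw [hall i ⟨0, hk0⟩, tw_vals, ht_vals] at h5
        exact h5
      have h5 : Function.Injective fun i : Fin k => (fun l => (u : ZMod m) * b i l) := by
        intro i j hij
        apply hinj
        funext l
        have := congrFun hij l
        exact (Units.mul_right_inj u).mp this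
      have h6 : (Set.range fun i : Fin k => (fun l => (u : ZMod m) * b i l)).ncard = k := by
        rw [← Set.image_univ, Set.ncard_image_of_injective _ h5, Set.ncard_univ]
        simp
      have h7 : (Set.range fun i : Fin k => (fun l => (u : ZMod m) * b i l)) ⊆
          {a ∈ A | ∑ i, (a i).val = m} := by
        rintro _ ⟨i, rfl⟩
        exact h4 i
      have h8 := Set.ncard_le_ncard h7 (Set.toFinite _)
      omega
    · push Not at hall
      obtain ⟨i, j, hij⟩ := hall
      have hij' : j ≠ i := by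
        rintro rfl
        exact hij rfl
      have hki : 2 ≤ k := by
        have h1 := i.isLt
        have h2 := j.isLt
        by_contra hlt
        apply hij'
        apply Fin.ext
        omega
      have h4 : Splits (tw (t i) (vals (b i)) + tw (t i * (t j)⁻¹) (tw (t j) (vals (b j)))) 3 := by
        apply splits_pair (zero_notMem_tw _ (h0 i)) (zero_notMem_tw _ (h0 j)) (ht' i) (ht' j)
        · rw [tw_card, card_vals]
          omega
        · rw [tw_card, card_vals]
          omega
        · intro h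
          exact hij (mul_inv_eq_one.mp h)
      rw [tw_tw, inv_mul_cancel_right, ← tw_add] at h4
      have h5 := splits_of_tw _ h4
      rw [← Finset.add_sum_erase _ _ (Finset.mem_univ i),
        ← Finset.add_sum_erase _ _ (Finset.mem_erase.mpr ⟨hij', Finset.mem_univ j⟩), ← add_assoc]
      have h6 := splits_sum (by omega) hs ((Finset.univ.erase i).erase j)
      rw [Finset.card_erase_of_mem (Finset.mem_erase.mpr ⟨hij', Finset.mem_univ j⟩),
        Finset.card_erase_of_mem (Finset.mem_univ i), Finset.card_univ, Fintype.card_fin] at h6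
      have h7 := splits_add h5 h6
      rwa [show 3 + (k - 1 - 1) = k + 1 by omega] at h7

end Pool.Agent.TH540.SC
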