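import Pool.Agent.TH540.Voisin

/-!
# Unions of several twists of one list
-/

set_option linter.unusedSectionVars false

namespace Pool.Agent.TH540.SC

open Multiset

variable {m : ℕ} [NeZero m]

lemma sum_replicate_one (j : ℕ) : (Multiset.replicate j (1 : ZMod m)).sum = (j : ZMod m) := by
  rw [Multiset.sum_replicate, nsmul_eq_mul, mul_one]

/-- `m` times the residue `1` cuts every zero-sum list of height at least `2 m` once more. -/
lemma filler {σ : Multiset (ZMod m)} (h : σ.sum = 0) (h2 : 2 * m ≤ ht σ) :
    Splits (Multiset.replicate m 1 + σ) 3 := by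
  have hm0 : 0 < m := Nat.pos_of_ne_zero (NeZero.ne m)
  obtain ⟨J, K, y, j1, j2, j3, -, -⟩ := top ZMod.val (card σ) σ m rfl (by
    change m < ht σ
    omega)
  have hym : y.val < m := ZMod.val_lt y
  change ht J ≤ m at j2
  change m < ht J + y.val at j3
  have hJ : J.sum = ((ht J : ℕ) : ZMod m) := (cast_ht J).symm
  have hy : y = ((y.val : ℕ) : ZMod m) := (ZMod.natCast_zmod_val y).symm
  have hsum : J.sum + (y + K.sum) = 0 := by
    rw [← Multiset.sum_cons, ← Multiset.sum_add, ← j1, h]
  rcases Nat.lt_or_ge (ht J) m with hlt | hge
  · refine ⟨{J + Multiset.replicate (m - ht J) 1, y ::ₘ Multiset.replicate (m - y.val) 1,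
      K + Multiset.replicate (ht J + y.val - m) 1}, by simp, ?_, ?_⟩
    · have hj : Multiset.join {K + Multiset.replicate (ht J + y.val - m) (1 : ZMod m)} =
        K + Multiset.replicate (ht J + y.val - m) 1 := Multiset.singleton_join _
      simp only [Multiset.insert_eq_cons, Multiset.join_cons]
      rw [hj, j1]
      have hr : Multiset.replicate m (1 : ZMod m) = Multiset.replicate (m - ht J) 1 +
          (Multiset.replicate (m - y.val) 1 + Multiset.replicate (ht J + y.val - m) 1) := by
        rw [← Multiset.replicate_add, ← Multiset.replicate_add]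
        congr 1
        omega
      rw [hr]
      simp only [← Multiset.singleton_add]
      abel
    · intro τ hτ
      simp only [Multiset.insert_eq_cons, Multiset.mem_cons, Multiset.mem_singleton] at hτ
      rcases hτ with rfl | rfl | rfl
      · constructor
        · intro h0
          have := congrArg card h0
          rw [Multiset.card_add, Multiset.card_replicate, Multiset.card_zero] at this
          omega
        · rw [Multiset.sum_add, sum_replicate_one, hJ, Nat.cast_sub hlt.le, ZMod.natCast_self]
          ring
      · refine ⟨Multiset.cons_ne_zero, ?_⟩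
        rw [Multiset.sum_cons, sum_replicate_one, Nat.cast_sub hym.le, ZMod.natCast_self, ← hy]
        ring
      · constructor
        · intro h0
          have := congrArg card h0
          rw [Multiset.card_add, Multiset.card_replicate, Multiset.card_zero] at this
          omega
        · rw [Multiset.sum_add, sum_replicate_one, Nat.cast_sub j3.le, Nat.cast_add,
            ZMod.natCast_self, ← hJ, ← hy]
          linear_combination hsum
  · have hJm : ht J = m := le_antisymm j2 hge
    have hJ0 : J.sum = 0 := by rw [hJ, hJm, ZMod.natCast_self]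
    have hJne : J ≠ 0 := by
      rintro rfl
      simp [ht] at hJm
      omega
    rw [j1]
    have e1 : Splits (Multiset.replicate m (1 : ZMod m)) 1 := by
      apply splits_one
      · intro h0
        have := congrArg card h0
        rw [Multiset.card_replicate, Multiset.card_zero] at this
        omega
      · rw [sum_replicate_one, ZMod.natCast_self]
    have e2 : Splits J 1 := splits_one hJne hJ0
    have e3 : Splits (y ::ₘ K) 1 := by
      apply splits_one Multiset.cons_ne_zero
      rw [Multiset.sum_cons]
      rw [hJ0, zero_add] at hsum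
      exact hsum
    have := splits_add e1 (splits_add e2 e3)
    exact this

lemma tw_sum_finset {ι : Type*} (I : Finset ι) (t : (ZMod m)ˣ) (g : ι → Multiset (ZMod m)) :
    tw t (∑ i ∈ I, g i) = ∑ i ∈ I, tw t (g i) := by
  classical
  induction I using Finset.induction_on with
  | empty => simp [tw]
  | insert i I hi ih => rw [Finset.sum_insert hi, Finset.sum_insert hi, tw_add, ih]

/-- translates of a set of units -/
lemma sum_image_units (U : Finset (ZMod m)ˣ) (t : (ZMod m)ˣ) (s : Multiset (ZMod m)) :
    tw t (∑ u ∈ U, tw u s) = ∑ u ∈ U.image (fun u => t * u), tw u s := by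
  classical
  rw [tw_sum_finset, Finset.sum_image (fun x _ y _ h => mul_left_cancel h)]
  exact Finset.sum_congr rfl fun u _ => tw_tw _ _ _

lemma ht_sum {ι : Type*} (I : Finset ι) (g : ι → Multiset (ZMod m)) :
    ht (∑ i ∈ I, g i) = ∑ i ∈ I, ht (g i) := by
  classical
  induction I using Finset.induction_on with
  | empty => simp [ht]
  | insert i I hi ih => rw [Finset.sum_insert hi, Finset.sum_insert hi, ht_add, ih]

lemma ht_join' (P : Multiset (Multiset (ZMod m))) (M : ℕ) (h : ∀ σ ∈ P, ht σ ≤ M) :
    ht P.join ≤ M * card P := by
  induction P using Multiset.induction_on with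
  | empty => simp [ht]
  | cons σ P ih =>
    have h1 := ih fun τ hτ => h τ (Multiset.mem_cons_of_mem hτ)
    have h2 := h σ (Multiset.mem_cons_self σ P)
    rw [Multiset.join_cons, ht_add, Multiset.card_cons, mul_add]
    omega

/-- `m` copies of each of `k` different units split into `2 k - 1` parts. -/
theorem units_ones (hm : 2 ≤ m) : ∀ (k : ℕ) (U : Finset (ZMod m)ˣ), U.card = k + 1 →
    Splits (∑ u ∈ U, tw u (Multiset.replicate m (1 : ZMod m))) (2 * k + 1) := by
  classical
  have hm1 : Fact (1 < m) := ⟨by omega⟩
  intro k
  induction k with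
  | zero =>
    intro U hU
    obtain ⟨t, rfl⟩ := Finset.card_eq_one.mp hU
    rw [Finset.sum_singleton]
    apply splits_tw
    apply splits_one
    · intro h0
      have := congrArg card h0
      rw [Multiset.card_replicate, Multiset.card_zero] at this
      omega
    · rw [sum_replicate_one, ZMod.natCast_self]
  | succ k ih =>
    intro U hU
    obtain ⟨t, ht'⟩ : U.Nonempty := Finset.card_pos.mp (by omega)
    apply splits_of_tw t⁻¹
    rw [sum_image_units]
    set V := U.image (fun u => t⁻¹ * u) with hV
    have hVc : V.card = k + 1 + 1 := by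
      rw [hV, Finset.card_image_of_injective _ (mul_right_injective _), hU]
    have h1V : (1 : (ZMod m)ˣ) ∈ V := Finset.mem_image.mpr ⟨t, ht', inv_mul_cancel t⟩
    have hWc : (V.erase 1).card = k + 1 := by
      rw [Finset.card_erase_of_mem h1V, hVc]
      omega
    obtain ⟨P, p1, p2, p3⟩ := ih (V.erase 1) hWc
    rw [← Finset.add_sum_erase _ _ h1V, tw_one, ← p2]
    have hht : m * (2 * (k + 1)) ≤ ht P.join := by
      rw [p2, ht_sum]
      have : ∀ u ∈ V.erase 1, m * 2 ≤ ht (tw u (Multiset.replicate m (1 : ZMod m))) := by
        intro u hu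
        have hu1 : u ≠ 1 := (Finset.mem_erase.mp hu).1
        unfold ht tw
        rw [Multiset.map_replicate, Multiset.map_replicate, Multiset.sum_replicate, smul_eq_mul,
          mul_one]
        apply Nat.mul_le_mul_left
        have h0 : (u : ZMod m).val ≠ 0 := by
          rw [Ne, ZMod.val_eq_zero]
          exact u.ne_zero
        have h1 : (u : ZMod m).val ≠ 1 := by
          intro hh
          apply hu1
          apply Units.ext
          have h4 := ZMod.natCast_zmod_val (u : ZMod m)
          rw [hh, Nat.cast_one] at h4
          exact h4.symm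
        omega
      have h2 := Finset.card_nsmul_le_sum _ _ _ this
      rw [hWc, smul_eq_mul] at h2
      calc m * (2 * (k + 1)) = (k + 1) * (m * 2) := by ring
        _ ≤ _ := h2
    obtain ⟨σ, hσ, hσ2⟩ : ∃ σ ∈ P, 2 * m ≤ ht σ := by
      by_contra hno
      push Not at hno
      have h3 : ∀ σ ∈ P, ht σ ≤ m := by
        intro σ hσ
        have h4 := hno σ hσ
        obtain ⟨q, hq⟩ := dvd_ht (p3 σ hσ).2
        rw [hq] at h4 ⊢
        have hq2 : q < 2 := by
          by_contra hge
          have := Nat.mul_le_mul_left m (by omega : 2 ≤ q)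
          omega
        calc m * q ≤ m * 1 := Nat.mul_le_mul_left _ (by omega)
          _ = m := mul_one m
      have h4 := ht_join' P m h3
      rw [p1] at h4
      have h5 : m * (2 * (k + 1)) = m * (2 * k + 1) + m := by ring
      omega
    obtain ⟨P, rfl⟩ := Multiset.exists_cons_of_mem hσ
    rw [Multiset.join_cons, ← add_assoc]
    have h6 := filler (p3 σ hσ).2 hσ2
    have h7 : Splits P.join (2 * k) := by
      refine ⟨P, ?_, rfl, fun τ hτ => p3 τ (Multiset.mem_cons_of_mem hτ)⟩
      rw [Multiset.card_cons] at p1
      omega
    have h8 := splits_add h6 h7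
    rwa [show 3 + 2 * k = 2 * (k + 1) + 1 by ring] at h8

lemma splits_sum_two {k n : ℕ} {b : Fin k → Fin n → ZMod m}
    (I : Finset (Fin k)) (h : ∀ i ∈ I, Splits (vals (b i)) 2) :
    Splits (∑ i ∈ I, vals (b i)) (2 * I.card) := by
  classical
  induction I using Finset.induction_on with
  | empty => exact ⟨0, by simp, by simp, by simp⟩
  | insert i I hi ih =>
    rw [Finset.sum_insert hi, Finset.card_insert_of_notMem hi]
    have h1 := splits_add (h i (Finset.mem_insert_self i I))
      (ih fun j hj => h j (Finset.mem_insert_of_mem hj))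
    rwa [show 2 + 2 * I.card = 2 * (I.card + 1) by ring] at h1

/-- families whose members split in two or are twists of one list -/
theorem family_units {k n : ℕ} {w : Fin n → ZMod m}
    (hU : ∀ U : Finset (ZMod m)ˣ, U.Nonempty →
      Splits (∑ u ∈ U, tw u (vals w)) (2 * U.card - 1))
    {b : Fin k → Fin n → ZMod m} (hk : 1 ≤ k) (hinj : Function.Injective b)
    (hb : ∀ i, Splits (vals (b i)) 2 ∨ ∃ t : (ZMod m)ˣ, b i = fun l => (t : ZMod m) * w l) :
    Splits (vals fun x : Fin k × Fin n => b x.1 x.2) (2 * k - 1) := by
  classical
  rw [vals_prod]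
  set I := Finset.univ.filter fun i => ∃ t : (ZMod m)ˣ, b i = fun l => (t : ZMod m) * w l with hI
  have hD : ∀ i ∈ Finset.univ \ I, Splits (vals (b i)) 2 := by
    intro i hi
    rcases hb i with h | h
    · exact h
    · exfalso
      rw [Finset.mem_sdiff] at hi
      exact hi.2 (Finset.mem_filter.mpr ⟨Finset.mem_univ i, h⟩)
  have h1 := splits_sum_two _ hD
  have hcard : (Finset.univ \ I).card + I.card = k := by
    rw [Finset.card_sdiff_add_card_eq_card (Finset.subset_univ I), Finset.card_univ,
      Fintype.card_fin]
  rw [← Finset.sum_sdiff (Finset.subset_univ I)]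
  rcases I.eq_empty_or_nonempty with he | hne
  · rw [he] at h1 hcard ⊢
    rw [Finset.card_empty, add_zero] at hcard
    rw [hcard] at h1
    rw [Finset.sum_empty, add_zero]
    exact splits_mono h1 (by omega) (by omega)
  · have hex : ∀ i : Fin k, ∃ t : (ZMod m)ˣ, i ∈ I → b i = fun l => (t : ZMod m) * w l := by
      intro i
      by_cases hi : i ∈ I
      · obtain ⟨t, ht⟩ := (Finset.mem_filter.mp hi).2
        exact ⟨t, fun _ => ht⟩
      · exact ⟨1, fun h => absurd h hi⟩
    choose t ht' using hex
    have htinj : Set.InjOn t (I : Set (Fin k)) := by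
      intro i hi j hj hij
      apply hinj
      rw [ht' i hi, ht' j hj, hij]
    have h2 : ∑ i ∈ I, vals (b i) = ∑ u ∈ I.image t, tw u (vals w) := by
      rw [Finset.sum_image htinj]
      apply Finset.sum_congr rfl
      intro i hi
      rw [tw_vals, ht' i hi]
    have h3 := hU (I.image t) (hne.image t)
    rw [← h2, Finset.card_image_of_injOn htinj] at h3
    have h4 := splits_add h1 h3
    have h5 : 0 < I.card := hne.card_pos
    rwa [show 2 * (Finset.univ \ I).card + (2 * I.card - 1) = 2 * k - 1 by omega] at h4

end Pool.Agent.TH540.SC
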